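import Pool.Agent.CITLines.Push

set_option autoImplicit false

/-! Package S3: limits of subspaces, and relations in adapted coordinates.

* `le_finrank_limit`. `N j` are functions on `ℝ^ι`, uniformly Lipschitz for most `j`, `Kr` is
the subspace of the `α` with `N j α → 0`. For most `j` there are `r` linearly independent
vectors on whose span `N j` vanishes. CLAIM: `r ≤ finrank Kr`. PROOF. Work in `EuclideanSpace ℝ
ι` (transport by `WithLp.equiv`/`EuclideanSpace.equiv`; or avoid it: choose for most `j` an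
orthonormal family for the dot product). For most `j` let `u j : Fin r → EuclideanSpace ℝ ι` be
an orthonormal family in the span of the `v` (`gramSchmidtOrthonormalBasis`, or
`stdOrthonormalBasis ℝ` of the span, whose dimension is `r`, `finrank_span_eq_card`). The `u j
p` are in the closed unit ball, which is compact, so they converge along `𝒰` to `w p`
(`IsCompact.ultrafilter_le_nhds` for `𝒰.map (fun j => u j p)`). `⟪w p, w q⟫ = lim ⟪u j p, u j
q⟫` (continuity), so `w` is orthonormal, so linearly independent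
(`Orthonormal.linearIndependent`). `0 ≤ N j (w p) ≤ N j (u j p) + C ∑ |w p i - u j p i| → 0`, so
`w p ∈ Kr`; `r ≤ finrank Kr` (`LinearIndependent.fintype_card_le_finrank` in the subspace `Kr`).

* `rel_coord`. `e` are `card ι` independent exponents. A nonzero multiple of every `b p` is an
integer combination of the `e i` (the `cst (e i)` are a basis of `ℚ^ι`; clear denominators,
`exists_clear`): `N p • b p = ∑ i, b' p i • e i`, `N p ≠ 0`. Then `mon (fun i => mon x (e i))
(b' p) = mon x (∑ b' p i • e i) = mon x (b p) ^ N p = 1` (`mon_pm`/`mon_sum` of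
CITLines/Push.lean, `mon_smul`). Independence of `b'` over `ℤ`: the linear map `v ↦ ∑ v i • e i`
maps `b' p` to `N p • b p`, and these are independent (`ℤ` is a domain: `∑ c p • N p • b p = 0`
implies `c p * N p = 0`); `LinearIndependent.of_comp`. -/

namespace Pool.Agent.Zil

open Module Filter Topology Pool.Agent.CITLines

private theorem slim_zero {J : Type} {ι : Type} [Fintype ι] {N : J → (ι → ℝ) → ℝ} {j : J}
    {r : ℕ} {v : Fin r → ι → ℝ} (hv : LinearIndependent ℝ v)
    (h : ∀ α ∈ Submodule.span ℝ (Set.range v), N j α = 0) :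
    ∃ u : Fin r → EuclideanSpace ℝ ι, Orthonormal ℝ u ∧ ∀ p, N j (u p).ofLp = 0 := by
  let e : EuclideanSpace ℝ ι ≃ₗ[ℝ] (ι → ℝ) := WithLp.linearEquiv 2 ℝ (ι → ℝ)
  let v' : Fin r → EuclideanSpace ℝ ι := fun p => e.symm (v p)
  have hv' : LinearIndependent ℝ v' :=
    hv.map' e.symm.toLinearMap (LinearMap.ker_eq_bot.mpr e.symm.injective)
  refine ⟨InnerProductSpace.gramSchmidtNormed ℝ v',
    InnerProductSpace.gramSchmidtNormed_orthonormal hv', fun p => ?_⟩
  apply h
  have h1 : InnerProductSpace.gramSchmidtNormed ℝ v' p ∈ Submodule.span ℝ (Set.range v') := by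
    rw [← InnerProductSpace.span_gramSchmidt ℝ v']
    unfold InnerProductSpace.gramSchmidtNormed
    exact Submodule.smul_mem _ _ (Submodule.subset_span ⟨p, rfl⟩)
  have h2 : e (InnerProductSpace.gramSchmidtNormed ℝ v' p) ∈
      (Submodule.span ℝ (Set.range v')).map e.toLinearMap := Submodule.mem_map_of_mem h1
  rw [Submodule.map_span, ← Set.range_comp] at h2
  have h3 : (e.toLinearMap : EuclideanSpace ℝ ι → (ι → ℝ)) ∘ v' = v := by
    funext p
    exact e.apply_symm_apply (v p)
  rw [h3] at h2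
  exact h2

theorem le_finrank_limit {J : Type} (𝒰 : Ultrafilter J) {ι : Type} [Fintype ι]
    (N : J → (ι → ℝ) → ℝ) (h0 : ∀ j α, 0 ≤ N j α) (C : ℝ)
    (hC : ∀ᶠ j in (𝒰 : Filter J), ∀ α β, N j α ≤ N j β + C * ∑ i, |α i - β i|)
    (Kr : Submodule ℝ (ι → ℝ)) (hK : ∀ α, Tendsto (fun j => N j α) (𝒰 : Filter J) (𝓝 0) → α ∈ Kr)
    (r : ℕ) (hV : ∀ᶠ j in (𝒰 : Filter J), ∃ v : Fin r → ι → ℝ, LinearIndependent ℝ v ∧
      ∀ α ∈ Submodule.span ℝ (Set.range v), N j α = 0) :
    r ≤ finrank ℝ Kr := by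
  have hV' : ∀ᶠ j in (𝒰 : Filter J), ∃ u : Fin r → EuclideanSpace ℝ ι, Orthonormal ℝ u ∧
      ∀ p, N j (u p).ofLp = 0 := by
    filter_upwards [hV] with j hj
    obtain ⟨v, hv, h⟩ := hj
    exact slim_zero hv h
  obtain ⟨u, hu⟩ := hV'.choice
  have hlim : ∀ p, ∃ w : EuclideanSpace ℝ ι, Tendsto (fun j => u j p) (𝒰 : Filter J) (𝓝 w) := by
    intro p
    have hmem : Metric.closedBall (0 : EuclideanSpace ℝ ι) 1 ∈ 𝒰.map (fun j => u j p) := by
      rw [Ultrafilter.mem_map]
      have : ∀ᶠ j in (𝒰 : Filter J), u j p ∈ Metric.closedBall (0 : EuclideanSpace ℝ ι) 1 := by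
        filter_upwards [hu] with j hj
        rw [mem_closedBall_zero_iff, hj.1.1 p]
      exact this
    obtain ⟨w, _, hw⟩ := (isCompact_closedBall (0 : EuclideanSpace ℝ ι) 1).ultrafilter_le_nhds'
      (𝒰.map (fun j => u j p)) hmem
    exact ⟨w, hw⟩
  choose w hw using hlim
  have horth : Orthonormal ℝ w := by
    classical
    rw [orthonormal_iff_ite]
    intro p q
    have h1 : Tendsto (fun j => inner ℝ (u j p) (u j q)) (𝒰 : Filter J)
        (𝓝 (inner ℝ (w p) (w q))) := (hw p).inner (hw q)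
    have h2 : Tendsto (fun j => inner ℝ (u j p) (u j q)) (𝒰 : Filter J)
        (𝓝 (if p = q then (1 : ℝ) else 0)) := by
      refine tendsto_const_nhds.congr' ?_
      filter_upwards [hu] with j hj
      exact ((orthonormal_iff_ite.mp hj.1) p q).symm
    exact tendsto_nhds_unique h1 h2
  have hmemK : ∀ p, (w p).ofLp ∈ Kr := by
    intro p
    apply hK
    have hle : ∀ᶠ j in (𝒰 : Filter J), N j (w p).ofLp ≤
        C * ∑ i, |(w p).ofLp i - (u j p).ofLp i| := by
      filter_upwards [hC, hu] with j hj1 hj2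
      have := hj1 (w p).ofLp (u j p).ofLp
      rw [hj2.2 p, zero_add] at this
      exact this
    have hto : Tendsto (fun j => C * ∑ i, |(w p).ofLp i - (u j p).ofLp i|) (𝒰 : Filter J)
        (𝓝 0) := by
      have h1 : ∀ i, Tendsto (fun j => (u j p).ofLp i) (𝒰 : Filter J) (𝓝 ((w p).ofLp i)) := by
        intro i
        have hc : Continuous (fun y : EuclideanSpace ℝ ι => y.ofLp i) := by fun_prop
        exact (hc.tendsto (w p)).comp (hw p)
      have h2 : Tendsto (fun j => C * ∑ i, |(w p).ofLp i - (u j p).ofLp i|) (𝒰 : Filter J)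
          (𝓝 (C * ∑ i, |(w p).ofLp i - (w p).ofLp i|)) :=
        (tendsto_finsetSum _ fun i _ => (tendsto_const_nhds.sub (h1 i)).abs).const_mul C
      simpa using h2
    exact squeeze_zero' (Eventually.of_forall fun j => h0 j _) hle hto
  let e : EuclideanSpace ℝ ι ≃ₗ[ℝ] (ι → ℝ) := WithLp.linearEquiv 2 ℝ (ι → ℝ)
  have hli : LinearIndependent ℝ (fun p => (⟨e (w p), hmemK p⟩ : Kr)) := by
    apply LinearIndependent.of_comp Kr.subtype
    exact horth.linearIndependent.map' e.toLinearMap (LinearMap.ker_eq_bot.mpr e.injective)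
  have := hli.fintype_card_le_finrank
  rwa [Fintype.card_fin] at this

/-- `cst` as a linear map. -/
private def slimCst (ι : Type) : (ι → ℤ) →ₗ[ℤ] (ι → ℚ) where
  toFun := cst
  map_add' a b := by
    funext i
    simp [cst]
  map_smul' k a := by
    funext i
    simp [cst]

private theorem slim_mult {ι : Type} [Fintype ι] (e : ι → ι → ℤ) (he : LinearIndependent ℤ e)
    (b : ι → ℤ) : ∃ k : ℤ, k ≠ 0 ∧ ∃ a : ι → ℤ, k • b = psiZ e a := by
  classical
  have h1 : LinearIndependent ℤ (slimCst ι ∘ e) :=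
    he.map' (slimCst ι) (LinearMap.ker_eq_bot.mpr cst_injective)
  have h2 : LinearIndependent ℚ (fun i => cst (e i)) :=
    (LinearIndependent.iff_fractionRing ℤ ℚ).mp h1
  have hcard : Fintype.card ι = finrank ℚ (ι → ℚ) := (Module.finrank_fintype_fun_eq_card ℚ).symm
  have hspan : (⊤ : Submodule ℚ (ι → ℚ)) ≤ Submodule.span ℚ (Set.range fun i => cst (e i)) := by
    rw [h2.span_eq_top_of_card_eq_finrank' hcard]
  have h3 : cst b ∈ Submodule.span ℚ (Set.range fun i => cst (e i)) := hspan trivial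
  rw [Submodule.mem_span_range_iff_exists_fun] at h3
  obtain ⟨c, hc⟩ := h3
  obtain ⟨k, hk, a, ha⟩ := exists_clear c
  refine ⟨k, hk, a, ?_⟩
  apply cst_injective
  rw [← psiQ_cst, psiQ_apply]
  have h4 : cst (k • b) = (k : ℚ) • cst b := by
    funext i
    simp [cst]
  rw [h4, ← hc, Finset.smul_sum]
  refine Finset.sum_congr rfl fun i _ => ?_
  rw [smul_smul, cst_apply a i, ha i]

theorem rel_coord {K : Type} [Field K] {ι : Type} [Fintype ι] (x : ι → K) (hx : ∀ i, x i ≠ 0)
    (e : ι → ι → ℤ) (he : LinearIndependent ℤ e) (r : ℕ) (b : Fin r → ι → ℤ)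
    (hb : LinearIndependent ℤ b) (h1 : ∀ p, mon x (b p) = 1) :
    ∃ b' : Fin r → ι → ℤ, LinearIndependent ℤ b' ∧
      ∀ p, mon (fun i => mon x (e i)) (b' p) = 1 := by
  have hex : ∀ p, ∃ k : ℤ, k ≠ 0 ∧ ∃ a : ι → ℤ, k • b p = psiZ e a := fun p =>
    slim_mult e he (b p)
  choose k hk a ha using hex
  refine ⟨a, ?_, ?_⟩
  · apply LinearIndependent.of_comp (psiZ e)
    have h2 : (psiZ e ∘ a : Fin r → ι → ℤ) = fun p => k p • b p := by
      funext p
      exact (ha p).symm
    rw [h2]
    rw [Fintype.linearIndependent_iff] at hb ⊢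
    intro g hg p
    have h3 : ∑ p, (g p * k p) • b p = 0 := by
      rw [← hg]
      refine Finset.sum_congr rfl fun p _ => ?_
      rw [mul_smul]
    exact (mul_eq_zero.mp (hb (fun p => g p * k p) h3 p)).resolve_right (hk p)
  · intro p
    have h2 := mon_pm e hx (a p)
    rw [← ha p, mon_smul, h1 p, one_zpow] at h2
    exact h2

end Pool.Agent.Zil
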