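import Pool.Agent.Zilber.ND
import Pool.Agent.Zil.SLim

set_option autoImplicit false

/-! Package S4: relations give vectors of the kernel.

* `mon_rep`: `mon x a = Ult.mk (fun j => mon (fun i => (x i).rep j) a)` in the ultraproduct of fields: `Ult.mk` is a ring
  homomorphism, `Ult.mk_rep`, `Ult.mk_inv` (`mon` is a product of integer powers; show
  `Ult.mk (fun j => z j ^ n) = (Ult.mk z) ^ n` for `n : ℤ` by cases `n = m`, `n = -m`).
* `mon_rep_ev`: so `(mon x a).rep j = mon (fun i => (x i).rep j) a` for most `j` (`Ult.rep_mk`).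
* `ht_mon_add`, `ht_zpow'`: `ht (z ^ n) = |n| ht z` for `n : ℤ` (`ht z = logHeight₁ z / [K : ℚ]`; Mathlib has
  `Height.logHeight₁_pow`/`logHeight₁_zpow` or the like; otherwise `sum_max_lam` or `sum_abs_lam` of LAll/Places.lean with
  `lam_zpow` and `exists_S`).
* `le_finrank_Ker`. For every `j` choose a finite set `S j` of finite places outside which all the nonzero `(x i).rep j`
  have absolute value `1` (`exists_S`). `N j α = ∑ v : Plc (K j) (S j), |∑ i, α i * lam v ((x i).rep j) / s (cl i) j|`. Apply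
  `le_finrank_limit` (SLim.lean) with `Kr = Ker 𝒰 K s cl x`.
  - `hC`: `|∑ i, α i c i| ≤ |∑ i, β i c i| + ∑ i, |α i - β i| |c i|` and
    `∑ v, |lam v (x_i) / s| = 2 ht (x_i) / s ≤ C` (`sum_abs_lam`; `hh`: `x i ∈ Lf 𝒰 K (s (cl i))` gives `z` with `Ult.mk z = x i`,
    `ht (z j) ≤ C max 1 (s (cl i) j) = C s (cl i) j`, `z j = (x i).rep j` for most `j`).
  - `hK`: let `N j α → 0` and `S` be any finite set of finite places. The sum over `Plc (K j) S` is at most the sum over
    `Plc (K j) (S ∪ S j)` (nonnegative terms) which is equal to `N j α` (the terms at the places outside `S j` are zero as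
    `lam v = 0` there: `ab v = 1`, `log 1 = 0`).
  - `hV`: `Rels` gives for most `j` independent `e p` (`p : Fin r`) with `mon (rep) (e p) = 1`. The vectors
    `v p i = s (cl i) j * e p i` are linearly independent over `ℝ` (integer vectors independent over `ℤ` are independent over
    `ℚ` and `ℝ`: `LinearIndependent` of the matrix mapped to a field; multiplication of the coordinates by nonzero
    numbers is injective), and for `α = ∑ p, c p • v p`:
    `∑ i, α i * lam v (x_i) / s = ∑ p, c p * ∑ i, e p i * lam v (x_i) = ∑ p, c p * lam v (mon (rep) (e p)) = 0` (`lam_prod`, `lam_zpow`,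
    `lam_one`); span: `Submodule.mem_span_range_iff_exists_fun`. -/

namespace Pool.Agent.Zilber

open Filter Topology NumberField Module Pool.Agent.LAll Pool.Agent.LSharp Pool.Agent.CITLines

private theorem mk_zpow {J : Type} (𝒰 : Ultrafilter J) (K : J → Type) [∀ j, Field (K j)]
    (z : ∀ j, K j) (n : ℤ) : Ult.mk 𝒰 K (fun j => z j ^ n) = (Ult.mk 𝒰 K z) ^ n := by
  obtain ⟨m, rfl | rfl⟩ := n.eq_nat_or_neg
  · have h1 : (fun j => z j ^ (m : ℤ)) = z ^ m := by
      funext j
      rw [zpow_natCast, Pi.pow_apply]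
    rw [h1, map_pow, zpow_natCast]
  · have h1 : (fun j => z j ^ (-(m : ℤ))) = fun j => ((z ^ m) j)⁻¹ := by
      funext j
      rw [zpow_neg, zpow_natCast, Pi.pow_apply]
    rw [h1, Ult.mk_inv, map_pow, zpow_neg, zpow_natCast]

theorem mon_rep {J : Type} (𝒰 : Ultrafilter J) (K : J → Type) [∀ j, Field (K j)] {ι : Type}
    [Fintype ι] (x : ι → Ult 𝒰 K) (a : ι → ℤ) :
    mon x a = Ult.mk 𝒰 K (fun j => mon (fun i => (x i).rep j) a) := by
  have h1 : (fun j => mon (fun i => (x i).rep j) a) = ∏ i, fun j => (x i).rep j ^ a i := by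
    funext j
    rw [Finset.prod_apply]
    rfl
  rw [h1, map_prod]
  unfold mon
  refine Finset.prod_congr rfl fun i _ => ?_
  rw [mk_zpow, Ult.mk_rep]

theorem mon_rep_ev {J : Type} (𝒰 : Ultrafilter J) (K : J → Type) [∀ j, Field (K j)] {ι : Type}
    [Fintype ι] (x : ι → Ult 𝒰 K) (a : ι → ℤ) :
    ∀ᶠ j in (𝒰 : Filter J), (mon x a).rep j = mon (fun i => (x i).rep j) a := by
  rw [mon_rep]
  exact Ult.rep_mk _

theorem ht_zpow' {K : Type} [Field K] [NumberField K] (z : K) (n : ℤ) :
    ht (z ^ n) = |(n : ℝ)| * ht z := by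
  unfold ht
  rw [Height.logHeight₁_zpow, mul_div_assoc, Nat.cast_natAbs, Int.cast_abs]

private theorem li_rat {ι : Type} [Fintype ι] {r : ℕ} (e : Fin r → ι → ℤ)
    (h : LinearIndependent ℤ e) : LinearIndependent ℚ (fun p i => (e p i : ℚ)) := by
  refine (LinearIndependent.iff_fractionRing ℤ ℚ).1 ?_
  have h1 := h.map' ((Algebra.linearMap ℤ ℚ).compLeft ι) (by
    rw [LinearMap.ker_eq_bot]
    intro a b hab
    funext i
    have h2 : ((a i : ℤ) : ℚ) = ((b i : ℤ) : ℚ) := congrFun hab i
    exact_mod_cast h2)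
  exact h1

private theorem li_real {ι : Type} [Fintype ι] {r : ℕ} (e : Fin r → ι → ℤ)
    (h : LinearIndependent ℤ e) : LinearIndependent ℝ (fun p i => (e p i : ℝ)) := by
  classical
  have h1 := li_rat e h
  obtain ⟨g, hg⟩ := LinearMap.exists_leftInverse_of_injective
    (Fintype.linearCombination ℚ (fun p i => (e p i : ℚ)))
    (LinearMap.ker_eq_bot.2 (linearIndependent_iff_injective_fintypeLinearCombination.1 h1))
  have h2 : ∀ p q, ∑ i, (e p i : ℚ) * g (Pi.single i 1) q = if p = q then 1 else 0 := by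
    intro p q
    have h3 := LinearMap.congr_fun hg (Pi.single p 1)
    rw [LinearMap.comp_apply, Fintype.linearCombination_apply_single, one_smul,
      LinearMap.id_apply] at h3
    have h4 : (fun i => (e p i : ℚ)) = ∑ i, (e p i : ℚ) • (Pi.single i 1 : ι → ℚ) := by
      funext i
      rw [Finset.sum_apply, Finset.sum_eq_single i]
      · simp
      · intro b _ hb
        rw [Pi.smul_apply, Pi.single_eq_of_ne hb.symm, smul_zero]
      · intro hi
        exact absurd (Finset.mem_univ i) hi
    rw [h4, map_sum] at h3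
    have h5 := congrFun h3 q
    rw [Finset.sum_apply, Pi.single_apply] at h5
    rw [← (show (if q = p then (1 : ℚ) else 0) = if p = q then 1 else 0 by
      by_cases hpq : p = q
      · rw [if_pos hpq, if_pos hpq.symm]
      · rw [if_neg hpq, if_neg (Ne.symm hpq)]), ← h5]
    refine Finset.sum_congr rfl fun i _ => ?_
    rw [map_smul, Pi.smul_apply, smul_eq_mul]
  rw [Fintype.linearIndependent_iff]
  intro c hc q
  have h6 : ∑ i, (∑ p, c p * (e p i : ℝ)) * ((g (Pi.single i 1) q : ℚ) : ℝ) = c q := by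
    simp only [Finset.sum_mul]
    rw [Finset.sum_comm]
    have h8 : ∀ p, ∑ i, c p * (e p i : ℝ) * ((g (Pi.single i 1) q : ℚ) : ℝ) =
        c p * ∑ i, (e p i : ℝ) * ((g (Pi.single i 1) q : ℚ) : ℝ) := by
      intro p
      rw [Finset.mul_sum]
      exact Finset.sum_congr rfl fun i _ => by ring
    rw [Finset.sum_eq_single q]
    · have h7 := congrArg (fun t : ℚ => (t : ℝ)) (h2 q q)
      simp only [if_true] at h7
      push_cast at h7
      rw [h8, h7, mul_one]
    · intro p _ hp
      have h7 := congrArg (fun t : ℚ => (t : ℝ)) (h2 p q)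
      simp only [if_neg hp] at h7
      push_cast at h7
      rw [h8, h7, mul_zero]
    · intro hq
      exact absurd (Finset.mem_univ q) hq
  rw [← h6]
  refine Finset.sum_eq_zero fun i _ => ?_
  have h9 := congrFun hc i
  rw [Finset.sum_apply] at h9
  have h10 : ∑ p, c p * (e p i : ℝ) = 0 := by
    rw [← show ∑ p, (c p • fun i => (e p i : ℝ)) i = ∑ p, c p * (e p i : ℝ) from
      Finset.sum_congr rfl fun p _ => rfl]
    exact h9
  rw [h10, zero_mul]

private theorem lam_zero' {K : Type} [Field K] [NumberField K] {S : Finset (FinitePlace K)}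
    (v : Plc K S) : lam v (0 : K) = 0 := by
  have h := lam_inv v (0 : K)
  rw [inv_zero] at h
  linarith

private theorem lam_mon {K : Type} [Field K] [NumberField K] {S : Finset (FinitePlace K)}
    {ι : Type} [Fintype ι] (v : Plc K S) (x : ι → K) (hx : ∀ i, x i ≠ 0) (a : ι → ℤ) :
    lam v (mon x a) = ∑ i, (a i : ℝ) * lam v (x i) := by
  unfold mon
  rw [lam_prod v _ _ fun i _ => zpow_ne_zero _ (hx i)]
  exact Finset.sum_congr rfl fun i _ => lam_zpow v (x i) (a i)

/-- the sum of nonnegative local terms over `S` is at most the sum over `S'` if the terms outside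
`S'` vanish -/
private theorem sum_plc_le {K : Type} [Field K] [NumberField K] {ι : Type} [Fintype ι]
    (S S' : Finset (FinitePlace K)) (y : ι → K) (hy : ∀ i, y i ≠ 0 → Off S' (y i))
    (b : ι → ℝ) : ∑ v : Plc K S, |∑ i, b i * lam v (y i)| ≤
      ∑ v : Plc K S', |∑ i, b i * lam v (y i)| := by
  classical
  let G : FinitePlace K → ℝ := fun v =>
    |∑ i, b i * (1 * Real.log (v (y i)) / (finrank ℚ K : ℝ))|
  have hG : ∀ T : Finset (FinitePlace K), ∑ v : Plc K T, |∑ i, b i * lam v (y i)| =
      ∑ v : InfinitePlace K, |∑ i, b i * ((v.mult : ℝ) * Real.log (v (y i)) /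
        (finrank ℚ K : ℝ))| + ∑ v ∈ T, G v := by
    intro T
    rw [Fintype.sum_sum_type]
    congr 1
    rw [← Finset.sum_coe_sort T]
    rfl
  rw [hG S, hG S']
  refine add_le_add le_rfl ?_
  have h1 : ∑ v ∈ S, G v = ∑ v ∈ S ∩ S', G v := by
    symm
    refine Finset.sum_subset Finset.inter_subset_left fun v hv hv' => ?_
    have hv2 : v ∉ S' := fun h => hv' (Finset.mem_inter.2 ⟨hv, h⟩)
    have h2 : ∑ i, b i * (1 * Real.log (v (y i)) / (finrank ℚ K : ℝ)) = 0 := by
      refine Finset.sum_eq_zero fun i _ => ?_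
      by_cases hi : y i = 0
      · rw [hi, map_zero, Real.log_zero, mul_zero, zero_div, mul_zero]
      · rw [hy i hi v hv2, Real.log_one, mul_zero, zero_div, mul_zero]
    change |_| = (0 : ℝ)
    rw [h2, abs_zero]
  rw [h1]
  exact Finset.sum_le_sum_of_subset_of_nonneg Finset.inter_subset_right
    fun v _ _ => abs_nonneg _

theorem le_finrank_Ker {J : Type} (𝒰 : Ultrafilter J) (K : J → Type) [∀ j, Field (K j)]
    [∀ j, NumberField (K j)] {k : ℕ} (s : Fin (k + 1) → J → ℝ) (hs : Scl 𝒰 s) {ι : Type} [Fintype ι]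
    (cl : ι → Fin (k + 1)) (x : ι → Ult 𝒰 K) (hx : ∀ i, x i ≠ 0)
    (hh : ∀ i, x i ∈ Lf 𝒰 K (s (cl i))) (r : ℕ) (hr : Rels 𝒰 K x r) :
    r ≤ finrank ℝ (Ker 𝒰 K s cl x) := by
  classical
  have hexS : ∀ j, ∃ S : Finset (FinitePlace (K j)), ∀ i, (x i).rep j ≠ 0 →
      Off S ((x i).rep j) := by
    intro j
    obtain ⟨S, hS⟩ := exists_S (K j) (fun i : {i // (x i).rep j ≠ 0} => (x i.1).rep j)
      (fun i => i.2)
    exact ⟨S, fun i hi => hS ⟨i, hi⟩⟩
  choose S hS using hexS
  have hne : ∀ᶠ j in (𝒰 : Filter J), ∀ i, (x i).rep j ≠ 0 :=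
    Filter.eventually_all.2 fun i => Ult.rep_ne_zero (hx i)
  have hht : ∀ i, ∃ C : ℝ, ∀ᶠ j in (𝒰 : Filter J), ht ((x i).rep j) ≤ C * s (cl i) j := by
    intro i
    obtain ⟨z, hz, C, hC⟩ := hh i
    refine ⟨C, ?_⟩
    have h1 : ∀ᶠ j in (𝒰 : Filter J), (x i).rep j = z j := by
      rw [← hz]
      exact Ult.rep_mk z
    filter_upwards [h1, hC] with j h2 h3
    rwa [h2, ← max_eq_right (hs.one (cl i) j)]
  choose Cc hCc using hht
  have hs0 : ∀ l j, (0 : ℝ) < s l j := fun l j => lt_of_lt_of_le one_pos (hs.one l j)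
  let N : J → (ι → ℝ) → ℝ := fun j α =>
    ∑ v : Plc (K j) (S j), |∑ i, α i * lam v ((x i).rep j) / s (cl i) j|
  have hCsum : ∀ i, 2 * |Cc i| ≤ 2 * ∑ i, |Cc i| := fun i =>
    mul_le_mul_of_nonneg_left (Finset.single_le_sum (f := fun i => |Cc i|)
      (fun _ _ => abs_nonneg _) (Finset.mem_univ i)) (by norm_num)
  refine Pool.Agent.Zil.le_finrank_limit 𝒰 N (fun j α => Finset.sum_nonneg fun v _ =>
    abs_nonneg _) (2 * ∑ i, |Cc i|) ?_ (Ker 𝒰 K s cl x) ?_ r ?_
  · filter_upwards [hne, Filter.eventually_all.2 hCc] with j h1 h2 α β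
    have h3 : ∀ i, ∑ v : Plc (K j) (S j), |lam v ((x i).rep j) / s (cl i) j| ≤
        2 * ∑ i, |Cc i| := by
      intro i
      refine le_trans ?_ (hCsum i)
      have h4 : ∀ v : Plc (K j) (S j), |lam v ((x i).rep j) / s (cl i) j| =
          |lam v ((x i).rep j)| / s (cl i) j := fun v => by
        rw [abs_div, abs_of_pos (hs0 (cl i) j)]
      rw [Finset.sum_congr rfl fun v _ => h4 v, ← Finset.sum_div,
        sum_abs_lam (h1 i) (hS j i (h1 i)), div_le_iff₀ (hs0 (cl i) j)]
      have h5 : Cc i * s (cl i) j ≤ |Cc i| * s (cl i) j :=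
        mul_le_mul_of_nonneg_right (le_abs_self _) (hs0 (cl i) j).le
      have h6 := h2 i
      linarith
    have h4 : ∀ v : Plc (K j) (S j), |∑ i, α i * lam v ((x i).rep j) / s (cl i) j| ≤
        |∑ i, β i * lam v ((x i).rep j) / s (cl i) j| +
          ∑ i, |α i - β i| * |lam v ((x i).rep j) / s (cl i) j| := by
      intro v
      have h5 : ∑ i, α i * lam v ((x i).rep j) / s (cl i) j =
          ∑ i, β i * lam v ((x i).rep j) / s (cl i) j +
            ∑ i, (α i - β i) * (lam v ((x i).rep j) / s (cl i) j) := by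
        rw [← Finset.sum_add_distrib]
        exact Finset.sum_congr rfl fun i _ => by ring
      rw [h5]
      refine (abs_add_le _ _).trans (add_le_add le_rfl ?_)
      refine (Finset.abs_sum_le_sum_abs _ _).trans (le_of_eq ?_)
      exact Finset.sum_congr rfl fun i _ => abs_mul _ _
    calc N j α ≤ ∑ v : Plc (K j) (S j), (|∑ i, β i * lam v ((x i).rep j) / s (cl i) j| +
          ∑ i, |α i - β i| * |lam v ((x i).rep j) / s (cl i) j|) :=
        Finset.sum_le_sum fun v _ => h4 v
      _ = N j β + ∑ i, |α i - β i| *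
          ∑ v : Plc (K j) (S j), |lam v ((x i).rep j) / s (cl i) j| := by
        rw [Finset.sum_add_distrib, Finset.sum_comm (s := Finset.univ (α := Plc (K j) (S j)))]
        congr 1
        exact Finset.sum_congr rfl fun i _ => (Finset.mul_sum _ _ _).symm
      _ ≤ N j β + ∑ i, |α i - β i| * (2 * ∑ i, |Cc i|) :=
        add_le_add le_rfl (Finset.sum_le_sum fun i _ =>
          mul_le_mul_of_nonneg_left (h3 i) (abs_nonneg _))
      _ = N j β + (2 * ∑ i, |Cc i|) * ∑ i, |α i - β i| := by
        rw [← Finset.sum_mul, mul_comm]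
  · intro α hα ε hε
    have h1 : ∀ᶠ j in (𝒰 : Filter J), N j α < ε := hα.eventually_lt_const hε
    filter_upwards [h1] with j hj T
    refine le_trans ?_ hj.le
    have h2 : ∀ T' : Finset (FinitePlace (K j)),
        ∑ v : Plc (K j) T', |∑ i, α i * lam v ((x i).rep j) / s (cl i) j| =
          ∑ v : Plc (K j) T', |∑ i, (α i / s (cl i) j) * lam v ((x i).rep j)| := by
      intro T'
      refine Finset.sum_congr rfl fun v _ => ?_
      congr 1
      exact Finset.sum_congr rfl fun i _ => by ring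
    change _ ≤ ∑ v : Plc (K j) (S j), |∑ i, α i * lam v ((x i).rep j) / s (cl i) j|
    rw [h2 T, h2 (S j)]
    exact sum_plc_le T (S j) (fun i => (x i).rep j) (hS j) _
  · filter_upwards [hne, hr] with j h1 h2
    obtain ⟨e, he, he1⟩ := h2
    refine ⟨fun p i => s (cl i) j * (e p i : ℝ), ?_, ?_⟩
    · have h3 := (li_real e he).map' (LinearMap.pi fun i : ι =>
        s (cl i) j • (LinearMap.proj i : (ι → ℝ) →ₗ[ℝ] ℝ)) (by
          rw [LinearMap.ker_eq_bot]
          intro a b hab
          funext i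
          have h4 := congrFun hab i
          have h5 : s (cl i) j * a i = s (cl i) j * b i := h4
          exact mul_left_cancel₀ (hs0 (cl i) j).ne' h5)
      exact h3
    · intro α hα
      obtain ⟨c, hc⟩ := (Submodule.mem_span_range_iff_exists_fun ℝ).1 hα
      refine Finset.sum_eq_zero fun v _ => ?_
      have h3 : ∑ i, α i * lam v ((x i).rep j) / s (cl i) j =
          ∑ p, c p * ∑ i, (e p i : ℝ) * lam v ((x i).rep j) := by
        rw [← hc]
        simp only [Finset.mul_sum]
        rw [Finset.sum_comm]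
        refine Finset.sum_congr rfl fun i _ => ?_
        rw [Finset.sum_apply, Finset.sum_mul, Finset.sum_div]
        refine Finset.sum_congr rfl fun p _ => ?_
        rw [Pi.smul_apply, smul_eq_mul]
        have h4 := (hs0 (cl i) j).ne'
        field_simp
      rw [h3, abs_eq_zero]
      refine Finset.sum_eq_zero fun p _ => ?_
      rw [← lam_mon v (fun i => (x i).rep j) h1 (e p), he1 p, lam_one, mul_zero]

end Pool.Agent.Zilber
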