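import Pool.Agent.CITLines.Rank

set_option autoImplicit false

/-! Package S2: transcendence degree of the blocks.

`x i` (`i : ι`) are elements of a field `L` of characteristic zero with classes `cl i ∈ Fin (k + 1)`; the subfield `F l` contains
the `x i` of the classes `< l`. CLAIM: the sum over `l` of the transcendence degrees of the block `l` over `F l` is at most
the transcendence degree of all the `x i` over `ℚ`. PROOF. For `n ≤ k + 1` let `A n = {x i | cl i < n}` (finite sets, `A 0 = ∅`,
`A (k+1)` = everything). `rk ℚ (A (l + 1)) ≥ rk ℚ (A l) + rk (F l) (block l)`: `A (l + 1) = A l ∪ block l`, `A l ⊆ F l`. Choose a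
finite subset `B` of `A l` and a finite subset `B'` of the block `l` which are algebraically independent over `ℚ`, resp. over
`F l`, of maximal cardinality (`Matroid.exists_isBasis`, as in `rk_restrict`); then `B ∪ B'` is algebraically
independent over `ℚ` (`B ⊆ F l`; `AlgebraicIndependent.sumElim` with the subalgebra `Algebra.adjoin ℚ B ⊆ F l`, or
`rk_union_ge` of CITLines/Rank.lean with `K = F l`: look at its statement first, it may give this at once), of cardinality
`|B| + |B'|`. Sum over `l` (induction on `n`, all the ranks are finite or in `ℕ∞`, no subtraction needed). -/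

namespace Pool.Agent.Zil

open Module Pool.Agent.CITLines

/-- one block -/
private theorem str_step {L : Type} [Field L] [CharZero L] (K : Subfield L) (s t : Set L)
    (hs : s.Finite) (ht : t.Finite) (hK : ∀ a ∈ s, a ∈ K) :
    rk ℚ s + rk K t ≤ rk ℚ (s ∪ t) := by
  obtain ⟨B, hB⟩ := (AlgebraicIndependent.matroid K L).exists_isBasis t
  have hBfin : B.Finite := ht.subset hB.subset
  have hft : Fintype B := hBfin.fintype
  have h1 : AlgebraicIndependent K ((↑) : B → L) := hB.indep
  have h2 : rk K t = Fintype.card B := by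
    unfold rk
    rw [← hB.encard_eq_eRk, Set.encard_eq_coe_toFinset_card, Set.toFinset_card]
  have h3 : algebraMap K L '' ((algebraMap K L) ⁻¹' s) = s := by
    rw [Set.image_preimage_eq_iff]
    intro a ha
    exact ⟨⟨a, hK a ha⟩, rfl⟩
  have h4 : ((algebraMap K L) ⁻¹' s).Finite :=
    hs.preimage (fun a _ b _ h => (algebraMap K L).injective h)
  have h5 := rk_union_ge (k := ℚ) ((algebraMap K L) ⁻¹' s) h4 ((↑) : B → L) h1
  have h6 : rk ℚ s ≤ rk ℚ ((algebraMap K L) ⁻¹' s) := by
    have h7 := rk_image_le (k := ℚ) (IsScalarTower.toAlgHom ℚ K L) ((algebraMap K L) ⁻¹' s)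
    have h8 : (IsScalarTower.toAlgHom ℚ K L) '' ((algebraMap K L) ⁻¹' s) = s := h3
    rwa [h8] at h7
  rw [h3] at h5
  rw [h2]
  refine (add_le_add h6 le_rfl).trans (h5.trans (rk_mono ?_))
  refine Set.union_subset_union_right s ?_
  rintro _ ⟨b, rfl⟩
  exact hB.subset b.2

theorem sum_rk_le {L : Type} [Field L] [CharZero L] {ι : Type} [Fintype ι] (k : ℕ)
    (cl : ι → Fin (k + 1)) (F : Fin (k + 1) → Subfield L) (x : ι → L)
    (hF : ∀ l i, cl i < l → x i ∈ F l) :
    ∑ l, rk (F l) (x '' {i | cl i = l}) ≤ rk ℚ (Set.range x) := by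
  classical
  have key : ∀ n : ℕ, n ≤ k + 1 →
      ∑ l ∈ Finset.univ.filter (fun l : Fin (k + 1) => (l : ℕ) < n),
        rk (F l) (x '' {i | cl i = l}) ≤ rk ℚ (x '' {i | (cl i : ℕ) < n}) := by
    intro n
    induction n with
    | zero =>
      intro _
      have h : Finset.univ.filter (fun l : Fin (k + 1) => (l : ℕ) < 0) = ∅ := by
        ext l
        simp
      rw [h, Finset.sum_empty]
      exact bot_le
    | succ n ih =>
      intro hn
      have h1 : Finset.univ.filter (fun l : Fin (k + 1) => (l : ℕ) < n + 1) =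
          insert (⟨n, by omega⟩ : Fin (k + 1))
            (Finset.univ.filter (fun l : Fin (k + 1) => (l : ℕ) < n)) := by
        ext l
        simp only [Finset.mem_filter, Finset.mem_univ, true_and, Finset.mem_insert, Fin.ext_iff]
        omega
      have h2 : (⟨n, by omega⟩ : Fin (k + 1)) ∉
          Finset.univ.filter (fun l : Fin (k + 1) => (l : ℕ) < n) := by
        simp
      rw [h1, Finset.sum_insert h2, add_comm]
      refine (add_le_add (ih (by omega)) le_rfl).trans ?_
      refine (str_step (F ⟨n, by omega⟩) _ _ (Set.toFinite _) (Set.toFinite _) ?_).trans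
        (rk_mono ?_)
      · rintro _ ⟨i, hi, rfl⟩
        exact hF _ i hi
      · rintro _ (⟨i, hi, rfl⟩ | ⟨i, hi, rfl⟩)
        · exact ⟨i, Nat.lt_succ_of_lt hi, rfl⟩
        · refine ⟨i, ?_, rfl⟩
          have h3 : cl i = ⟨n, by omega⟩ := hi
          change (cl i : ℕ) < n + 1
          rw [h3]
          exact Nat.lt_succ_self n
  have h := key (k + 1) le_rfl
  have h1 : Finset.univ.filter (fun l : Fin (k + 1) => (l : ℕ) < k + 1) = Finset.univ := by
    ext l
    simp only [Finset.mem_filter, Finset.mem_univ, true_and, iff_true]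
    exact l.isLt
  rw [h1] at h
  refine h.trans (rk_mono ?_)
  rintro _ ⟨i, -, rfl⟩
  exact ⟨i, rfl⟩

end Pool.Agent.Zil
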