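import Pool.Agent.Zil.GALin

set_option autoImplicit false

/-! GA2. Regularity. -/

namespace Pool.Agent.Zil.Gam

variable {t : ℕ} {U : Set (Fin t → ℂ)} {L : (Fin t → ℂ) → Fin (t + 1) → ℂ}

/-- `fderiv ℂ L` is differentiable on `U` (`ContDiffOn.fderiv_of_isOpen`,
`ContDiffOn.contDiffAt`), so the entries `om L y b i` too. -/
theorem differentiableOn_om (hU : IsOpen U) (hL : ContDiffOn ℂ 2 L U) (b : Fin t)
    (i : Fin (t + 1)) : DifferentiableOn ℂ (fun y => om L y b i) U := by
  have h1 : ContDiffOn ℂ 1 (fderiv ℂ L) U := hL.fderiv_of_isOpen hU (by norm_num)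
  have h2 : DifferentiableOn ℂ (fderiv ℂ L) U := h1.differentiableOn (by norm_num)
  have h3 : DifferentiableOn ℂ (fun y => fderiv ℂ L y (Pi.single b 1)) U :=
    h2.clm_apply (differentiableOn_const _)
  exact (differentiableOn_pi.1 h3) i

/-- The determinant is a polynomial in the entries (`Matrix.det_apply`). -/
theorem differentiableOn_phi (hU : IsOpen U) (hL : ContDiffOn ℂ 2 L U) (i : Fin (t + 1)) :
    DifferentiableOn ℂ (fun y => phi (om L y) i) U := by
  have h1 : ∀ j k : Fin (t + 1), DifferentiableOn ℂ (fun y =>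
      (Fin.cons (Pi.single i 1) (om L y) : Fin (t + 1) → Fin (t + 1) → ℂ) j k) U := by
    intro j k
    refine Fin.cases ?_ (fun b => ?_) j
    · simp only [Fin.cons_zero]
      exact differentiableOn_const _
    · simp only [Fin.cons_succ]
      exact differentiableOn_om hU hL b k
  have h2 : (fun y => phi (om L y) i) = fun y => ∑ σ : Equiv.Perm (Fin (t + 1)),
      Equiv.Perm.sign σ • ∏ k, (Fin.cons (Pi.single i 1) (om L y) :
        Fin (t + 1) → Fin (t + 1) → ℂ) (σ k) k := by
    funext y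
    rw [phi, Dt, Matrix.det_apply]
    rfl
  rw [h2]
  refine DifferentiableOn.fun_sum fun σ _ => ?_
  refine DifferentiableOn.const_smul ?_ _
  exact fun y hy => (HasFDerivWithinAt.finsetProd
    (fun k _ => ((h1 (σ k) k) y hy).hasFDerivWithinAt)).differentiableWithinAt

private theorem continuous_Dt : Continuous (fun p : (Fin t → Fin (t + 1) → ℂ) ×
    (Fin (t + 1) → ℂ) => Dt p.1 p.2) := by
  unfold Dt
  refine Continuous.matrix_det (continuous_matrix fun i j => ?_)
  simp only [Matrix.of_apply]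
  refine Fin.cases ?_ (fun b => ?_) i
  · simp only [Fin.cons_zero]
    fun_prop
  · simp only [Fin.cons_succ]
    fun_prop

private theorem continuousOn_om (hU : IsOpen U) (hL : ContDiffOn ℂ 2 L U) :
    ContinuousOn (om L) U :=
  continuousOn_pi.2 fun b => continuousOn_pi.2 fun i => (differentiableOn_om hU hL b i).continuousOn

/-- `ContinuousOn` of `y ↦ Dt (om L y) (u y)`. -/
theorem continuousOn_Dt (hU : IsOpen U) (hL : ContDiffOn ℂ 2 L U)
    {u : (Fin t → ℂ) → Fin (t + 1) → ℂ} (hu : ContinuousOn u U) :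
    ContinuousOn (fun y => Dt (om L y) (u y)) U :=
  continuous_Dt.comp_continuousOn ((continuousOn_om hU hL).prodMk hu)

/-- The conditions `NonReal` and linear independence are open: there is a ball. -/
theorem exists_ball (hU : IsOpen U) (hL : ContDiffOn ℂ 2 L U) {y : Fin t → ℂ} (hy : y ∈ U)
    (hn : NonReal (om L y)) : ∃ ε : ℝ, 0 < ε ∧ Metric.ball y ε ⊆ U ∧
      ∀ y' ∈ Metric.ball y ε, NonReal (om L y') := by
  obtain ⟨i, k, hik⟩ := hn
  have h1 : ∀ i, ContinuousOn (fun y => phi (om L y) i) U := fun i =>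
    continuousOn_Dt hU hL continuousOn_const
  have h2 : ContinuousOn (fun y => (phi (om L y) i * (starRingEnd ℂ) (phi (om L y) k)).im) U :=
    Complex.continuous_im.comp_continuousOn
      ((h1 i).mul (Complex.continuous_conj.comp_continuousOn (h1 k)))
  have h3 : IsOpen (U ∩ (fun y => (phi (om L y) i * (starRingEnd ℂ) (phi (om L y) k)).im) ⁻¹'
      {0}ᶜ) := h2.isOpen_inter_preimage hU isOpen_compl_singleton
  obtain ⟨ε, hε, hb⟩ := Metric.isOpen_iff.1 h3 y ⟨hy, hik⟩
  exact ⟨ε, hε, fun z hz => (hb hz).1, fun z hz => ⟨i, k, (hb hz).2⟩⟩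

/-- `fderiv ℂ L y v = ∑ b, v b • om L y b`. -/
theorem fderiv_eq_sum (L : (Fin t → ℂ) → Fin (t + 1) → ℂ) (y v : Fin t → ℂ) :
    fderiv ℂ L y v = ∑ b, v b • om L y b := by
  have h1 : fderiv ℂ L y v = (fderiv ℂ L y : (Fin t → ℂ) →ₗ[ℂ] (Fin (t + 1) → ℂ)) v := rfl
  rw [h1, LinearMap.pi_apply_eq_sum_univ]
  refine Finset.sum_congr rfl fun b _ => ?_
  have h2 : (fun j => if b = j then (1 : ℂ) else 0) = Pi.single b 1 := by
    funext j
    rw [Pi.single_apply]
    by_cases h : b = j
    · rw [if_pos h, if_pos h.symm]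
    · rw [if_neg h, if_neg fun h' => h h'.symm]
  rw [h2]
  rfl

end Pool.Agent.Zil.Gam
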