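import Pool.Agent.Zil.GACalc

set_option autoImplicit false

/-! GA3. The derivative with respect to the conjugate variables. -/

namespace Pool.Agent.Zil.Gam

variable {t : ℕ} {U : Set (Fin t → ℂ)} {L : (Fin t → ℂ) → Fin (t + 1) → ℂ}

/-- Let `ψ(y) = Dt (om L y) (w(y) + g) = ∑ i, φ_i(y) (Re L_i(y) + g_i)` (`Dt_eq`,
`φ_i(y) = phi (om L y) i`, holomorphic by `differentiableOn_phi`), and suppose `ψ = 0` on `U`.
Fix `y ∈ U`, `b`, `v = Pi.single b 1`. The functions `s ↦ ψ(y + s v)` and `s ↦ ψ(y + s (I v))` of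
the real variable `s` vanish near `0`; their derivatives at `0` are
`∑ (φ_i' v) (Re L_i + g_i) + ∑ φ_i Re(L_i' v) = 0` and
`∑ (I φ_i' v) (Re L_i + g_i) + ∑ φ_i Re(I L_i' v) = 0`, `Re(I z) = - Im z`. The first one plus
`I` times the second one: `∑ φ_i (Re(L_i' v) - I Im(L_i' v)) = 0`, which is
`Dt (om L y) (conj (om L y b)) = 0`. -/
theorem Dt_conj_eq_zero (hU : IsOpen U) (hL : ContDiffOn ℂ 2 L U) (g : Fin (t + 1) → ℝ)
    (h : ∀ y ∈ U, Dt (om L y) (fun i => (((L y i).re + g i : ℝ) : ℂ)) = 0) {y : Fin t → ℂ}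
    (hy : y ∈ U) (b : Fin t) : Dt (om L y) (fun i => (starRingEnd ℂ) (om L y b i)) = 0 := by
  have hyU : U ∈ nhds y := hU.mem_nhds hy
  -- the derivatives
  have hφ : ∀ i, HasFDerivAt (𝕜 := ℝ) (fun y => phi (om L y) i)
      ((fderiv ℂ (fun y => phi (om L y) i) y).restrictScalars ℝ) y := fun i =>
    (((differentiableOn_phi hU hL i).differentiableAt hyU).hasFDerivAt).restrictScalars ℝ
  have hL1 : DifferentiableAt ℂ L y :=
    (hL.differentiableOn (by norm_num)).differentiableAt hyU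
  have hLi : ∀ i, HasFDerivAt (𝕜 := ℂ) (fun y => L y i)
      ((ContinuousLinearMap.proj (R := ℂ) (φ := fun _ : Fin (t + 1) => ℂ) i).comp
        (fderiv ℂ L y)) y := fun i =>
    (ContinuousLinearMap.proj (R := ℂ) (φ := fun _ : Fin (t + 1) => ℂ) i).hasFDerivAt.comp y
      hL1.hasFDerivAt
  have hR : ∀ i, HasFDerivAt (𝕜 := ℝ) (fun y => (((L y i).re + g i : ℝ) : ℂ))
      (Complex.ofRealCLM.comp (Complex.reCLM.comp
        (((ContinuousLinearMap.proj (R := ℂ) (φ := fun _ : Fin (t + 1) => ℂ) i).comp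
          (fderiv ℂ L y)).restrictScalars ℝ))) y := fun i => by
    have h1 := (hLi i).restrictScalars ℝ
    have h2 := Complex.reCLM.hasFDerivAt.comp y h1
    have h3 := Complex.ofRealCLM.hasFDerivAt.comp y (h2.add_const (g i))
    exact h3
  have hF : HasFDerivAt (𝕜 := ℝ)
      (fun y => ∑ i, phi (om L y) i * (((L y i).re + g i : ℝ) : ℂ))
      (∑ i, (phi (om L y) i • (Complex.ofRealCLM.comp (Complex.reCLM.comp
        (((ContinuousLinearMap.proj (R := ℂ) (φ := fun _ : Fin (t + 1) => ℂ) i).comp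
          (fderiv ℂ L y)).restrictScalars ℝ))) +
        (((L y i).re + g i : ℝ) : ℂ) •
          ((fderiv ℂ (fun y => phi (om L y) i) y).restrictScalars ℝ))) y :=
    HasFDerivAt.fun_sum fun i _ => (hφ i).mul (hR i)
  have hF0 : (fun y => ∑ i, phi (om L y) i * (((L y i).re + g i : ℝ) : ℂ)) =ᶠ[nhds y]
      fun _ => (0 : ℂ) := by
    filter_upwards [hyU] with y' hy'
    rw [← Dt_eq]
    exact h y' hy'
  have hF' := (hF.congr_of_eventuallyEq hF0.symm).unique (hasFDerivAt_const (0 : ℂ) y)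
  -- the values at `v` and `I v`
  have key : ∀ z : ℂ, ∑ i, (phi (om L y) i * ((z * om L y b i).re : ℂ) +
      (((L y i).re + g i : ℝ) : ℂ) *
        (z * fderiv ℂ (fun y => phi (om L y) i) y (Pi.single b 1))) = 0 := by
    intro z
    have h1 := congrArg (fun T : (Fin t → ℂ) →L[ℝ] ℂ => T (z • Pi.single b 1)) hF'
    simp only [ContinuousLinearMap.sum_apply, ContinuousLinearMap.add_apply,
      ContinuousLinearMap.smul_apply, ContinuousLinearMap.comp_apply,
      ContinuousLinearMap.coe_restrictScalars', map_smul, ContinuousLinearMap.proj_apply,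
      ContinuousLinearMap.zero_apply, Complex.reCLM_apply, Complex.ofRealCLM_apply,
      smul_eq_mul, Pi.smul_apply] at h1
    exact h1
  have e1 := key 1
  have e2 := key Complex.I
  have e3 : ∑ i, phi (om L y) i * (starRingEnd ℂ) (om L y b i) =
      ∑ i, (phi (om L y) i * ((1 * om L y b i).re : ℂ) +
        (((L y i).re + g i : ℝ) : ℂ) *
          (1 * fderiv ℂ (fun y => phi (om L y) i) y (Pi.single b 1))) +
      Complex.I * ∑ i, (phi (om L y) i * ((Complex.I * om L y b i).re : ℂ) +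
        (((L y i).re + g i : ℝ) : ℂ) *
          (Complex.I * fderiv ℂ (fun y => phi (om L y) i) y (Pi.single b 1))) := by
    rw [Finset.mul_sum, ← Finset.sum_add_distrib]
    refine Finset.sum_congr rfl fun i _ => ?_
    have h4 : (starRingEnd ℂ) (om L y b i) =
        ((om L y b i).re : ℂ) - Complex.I * ((om L y b i).im : ℂ) := by
      apply Complex.ext <;> simp
    have h5 : ((Complex.I * om L y b i).re : ℂ) = -((om L y b i).im : ℂ) := by
      rw [Complex.I_mul_re, Complex.ofReal_neg]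
    rw [h4, h5, one_mul, one_mul]
    linear_combination (-(((L y i).re + g i : ℝ) : ℂ) *
      fderiv ℂ (fun y => phi (om L y) i) y (Pi.single b 1)) * Complex.I_mul_I
  rw [Dt_eq, e3, e1, e2, mul_zero, add_zero]

end Pool.Agent.Zil.Gam
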