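import Mathlib

set_option autoImplicit false

/-! ZIL, case D, sections 5.4-5.5 of `ZILBER_Full_Proof.md`: definitions.
`L : (Fin t → ℂ) → (Fin (t + 1) → ℂ)` is a map of class `C²` over `ℂ` (linear combinations with real
coefficients of logarithms of the coordinates on a chart of `V₀`). -/

namespace Pool.Agent.Zil.Gam

/-- The partial derivatives of `L` at `y`: the vectors `ω(e_b)`. -/
noncomputable def om {t : ℕ} (L : (Fin t → ℂ) → Fin (t + 1) → ℂ) (y : Fin t → ℂ) (b : Fin t) :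
    Fin (t + 1) → ℂ := fderiv ℂ L y (Pi.single b 1)

/-- `det (u, A_1, …, A_t)`, the rows of the matrix. -/
noncomputable def Dt {t : ℕ} (A : Fin t → Fin (t + 1) → ℂ) (u : Fin (t + 1) → ℂ) : ℂ :=
  Matrix.det (Matrix.of (Fin.cons u A : Fin (t + 1) → Fin (t + 1) → ℂ))

/-- The relation between the columns of `A`: `φ_i = det (e_i, A_1, …, A_t)`. -/
noncomputable def phi {t : ℕ} (A : Fin t → Fin (t + 1) → ℂ) (i : Fin (t + 1)) : ℂ :=
  Dt A (Pi.single i 1)

/-- `φ` is not proportional to a real vector. -/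
def NonReal {t : ℕ} (A : Fin t → Fin (t + 1) → ℂ) : Prop :=
  ∃ i k, (phi A i * (starRingEnd ℂ) (phi A k)).im ≠ 0

/-- No nontrivial real linear combination of the components of `L` is constant on a nonempty open
subset of `U`. -/
def NoConst {t m : ℕ} (U : Set (Fin t → ℂ)) (L : (Fin t → ℂ) → Fin m → ℂ) : Prop :=
  ∀ c : Fin m → ℝ, c ≠ 0 → ∀ U' : Set (Fin t → ℂ), U' ⊆ U → IsOpen U' → U'.Nonempty →
    ∀ b : ℂ, ∃ y ∈ U', ∑ i, (c i : ℂ) * L y i ≠ b

/-- The sum of the absolute values of the coefficients. -/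
noncomputable def l1 {σ : Type} (F : MvPolynomial σ ℤ) : ℝ := ∑ e ∈ F.support, |((MvPolynomial.coeff e F : ℤ) : ℝ)|

/-- The polynomial `F(X, ζ)` in one variable, `X` at the place `i₀`. -/
noncomputable def spec {t : ℕ} (i₀ : Fin (t + 1)) (ζ : Fin (t + 1) → ℂ)
    (F : MvPolynomial (Fin (t + 1)) ℤ) : Polynomial ℂ :=
  MvPolynomial.aeval (fun i => if i = i₀ then Polynomial.X else Polynomial.C (ζ i)) F

/-- The point `(X ^ (n i) * ζ i)`. -/
noncomputable def tw {t : ℕ} (n : Fin (t + 1) → ℤ) (ζ : Fin (t + 1) → ℂ) (X : ℂ) :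
    Fin (t + 1) → ℂ := fun i => X ^ (n i) * ζ i

/-- The monomials `z_i = ρ_i exp (∑ a_(i,s) ℓ_s(y))`. -/
noncomputable def zz {t q : ℕ} (ℓ : (Fin t → ℂ) → Fin q → ℂ) (a : Fin (t + 1) → Fin q → ℤ)
    (ρ : Fin (t + 1) → ℂ) (y : Fin t → ℂ) : Fin (t + 1) → ℂ :=
  fun i => ρ i * Complex.exp (∑ s, (a i s : ℂ) * ℓ y s)

end Pool.Agent.Zil.Gam
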