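import Mathlib

set_option autoImplicit false

/-! GA13. The number of the points in a fibre is at most the degree of the field extension. -/

namespace Pool.Agent.Zil.Gam

open MvPolynomial

/-- The monomials of a family. -/
noncomputable def mm {Ω ι : Type} [Field Ω] [Fintype ι] {m : ℕ} (A : Fin m → ι → ℤ) (v : ι → Ω) :
    Fin m → Ω := fun k => ∏ i, v i ^ (A k i)

private theorem zpow_sum' {K κ : Type} [Field K] {x : K} (hx : x ≠ 0) (s : Finset κ) (g : κ → ℤ) :
    x ^ (∑ k ∈ s, g k) = ∏ k ∈ s, x ^ (g k) := by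
  classical
  induction s using Finset.induction_on with
  | empty => simp
  | insert k s hk ih => rw [Finset.sum_insert hk, Finset.prod_insert hk, zpow_add₀ hx, ih]

private theorem clear_exp {ι κ : Type} [Fintype ι] [Fintype κ] (A : κ → ι → ℤ)
    (p : MvPolynomial κ ℤ) : ∃ (N : ℕ) (q : MvPolynomial ι ℤ), ∀ (K : Type) [Field K] (x : ι → K),
      (∀ i, x i ≠ 0) → aeval x q = (∏ i, x i) ^ N * aeval (fun k => ∏ i, x i ^ (A k i)) p := by
  classical
  set N : ℕ := ∑ e ∈ p.support, ∑ k, ∑ i, (A k i).natAbs * e k with hN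
  refine ⟨N, ∑ e ∈ p.support, C (coeff e p) *
    ∏ i, X i ^ ((N : ℤ) + ∑ k, A k i * (e k : ℤ)).toNat, ?_⟩
  intro K _ x hx
  have hnn : ∀ e ∈ p.support, ∀ i, 0 ≤ (N : ℤ) + ∑ k, A k i * (e k : ℤ) := by
    intro e he i
    have h1 : ∑ k, (A k i).natAbs * e k ≤ N := by
      calc ∑ k, (A k i).natAbs * e k ≤ ∑ k, ∑ i, (A k i).natAbs * e k := by
            refine Finset.sum_le_sum fun k _ => ?_
            exact Finset.single_le_sum (f := fun i => (A k i).natAbs * e k)
              (fun _ _ => Nat.zero_le _) (Finset.mem_univ i)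
        _ ≤ N := Finset.single_le_sum (f := fun e : κ →₀ ℕ => ∑ k, ∑ i, (A k i).natAbs * e k)
              (fun _ _ => Nat.zero_le _) he
    have h2 : -((∑ k, (A k i).natAbs * e k : ℕ) : ℤ) ≤ ∑ k, A k i * (e k : ℤ) := by
      push_cast
      rw [← Finset.sum_neg_distrib]
      refine Finset.sum_le_sum fun k _ => ?_
      have h3 : -|A k i| ≤ A k i := neg_abs_le _
      have h4 : (0 : ℤ) ≤ e k := Int.natCast_nonneg _
      nlinarith
    have h3 : ((∑ k, (A k i).natAbs * e k : ℕ) : ℤ) ≤ N := by exact_mod_cast h1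
    linarith
  rw [map_sum, MvPolynomial.aeval_def, eval₂_eq', Finset.mul_sum]
  refine Finset.sum_congr rfl fun e he => ?_
  rw [map_mul, map_prod, aeval_C, mul_left_comm]
  congr 1
  rw [← Finset.prod_pow]
  have h5 : ∏ k, (∏ i, x i ^ (A k i)) ^ (e k) = ∏ i, ∏ k, x i ^ (A k i * (e k : ℤ)) := by
    rw [Finset.prod_comm]
    refine Finset.prod_congr rfl fun k _ => ?_
    rw [← Finset.prod_pow]
    refine Finset.prod_congr rfl fun i _ => ?_
    rw [zpow_mul, zpow_natCast]
  rw [h5, ← Finset.prod_mul_distrib]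
  refine Finset.prod_congr rfl fun i _ => ?_
  rw [map_pow, aeval_X, ← zpow_natCast (x i) (Int.toNat _), Int.toNat_of_nonneg (hnn e he i),
    zpow_add₀ (hx i), zpow_natCast]
  congr 1
  exact zpow_sum' (hx i) _ _

private theorem spec_gen {Ω ι κ : Type} [Field Ω] [Fintype ι] [Fintype κ] (A : κ → ι → ℤ)
    (v : ι → Ω) (hv : ∀ i, v i ≠ 0) (w : ι → ℂ) (hw : ∀ i, w i ≠ 0)
    (hvw : ∀ p : MvPolynomial ι ℤ, aeval v p = 0 → aeval w p = 0)
    (p : MvPolynomial κ ℤ) (hp : aeval (fun k => ∏ i, v i ^ (A k i)) p = 0) :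
    aeval (fun k => ∏ i, w i ^ (A k i)) p = 0 := by
  obtain ⟨N, q, hq⟩ := clear_exp A p
  have h1 : aeval v q = 0 := by rw [hq Ω v hv, hp, mul_zero]
  have h2 := hvw q h1
  rw [hq ℂ w hw] at h2
  rcases mul_eq_zero.1 h2 with h3 | h3
  · exact absurd h3 (pow_ne_zero _ (Finset.prod_ne_zero_iff.2 fun i _ => hw i))
  · exact h3

/-- **Specialisation of relations**: `w` satisfies all relations over `ℤ` of `v`. Then the monomials
`mm A w` satisfy all relations of `mm A v`: multiply by a monomial in `v` which makes all exponents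
nonnegative (`v i ≠ 0`, `w i ≠ 0`). -/
theorem spec_mm {Ω ι : Type} [Field Ω] [CharZero Ω] [Fintype ι] {m : ℕ} (A : Fin m → ι → ℤ)
    (v : ι → Ω) (hv : ∀ i, v i ≠ 0) (w : ι → ℂ) (hw : ∀ i, w i ≠ 0)
    (hvw : ∀ p : MvPolynomial ι ℤ, aeval v p = 0 → aeval w p = 0)
    (p : MvPolynomial (Fin m) ℤ) (hp : aeval (mm A v) p = 0) : aeval (mm A w) p = 0 :=
  spec_gen A v hv w hw hvw p hp

/-- mixed relations between `v` and the monomials -/
private theorem spec_mix {Ω ι : Type} [Field Ω] [Fintype ι] {m : ℕ} (A : Fin m → ι → ℤ)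
    (v : ι → Ω) (hv : ∀ i, v i ≠ 0) (w : ι → ℂ) (hw : ∀ i, w i ≠ 0)
    (hvw : ∀ p : MvPolynomial ι ℤ, aeval v p = 0 → aeval w p = 0)
    (p : MvPolynomial (ι ⊕ Fin m) ℤ) (hp : aeval (Sum.elim v (mm A v)) p = 0) :
    aeval (Sum.elim w (mm A w)) p = 0 := by
  classical
  have key : ∀ (K : Type) [Field K] (x : ι → K), Sum.elim x (mm A x) =
      fun k : ι ⊕ Fin m => ∏ i, x i ^ ((Sum.elim (fun j : ι => Pi.single j (1 : ℤ)) A :
        ι ⊕ Fin m → ι → ℤ) k i) := by
    intro K _ x
    funext k
    rcases k with j | k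
    · simp only [Sum.elim_inl]
      rw [Finset.prod_eq_single j]
      · simp
      · intro i _ hij
        simp [Pi.single_eq_of_ne hij]
      · intro h
        exact absurd (Finset.mem_univ j) h
    · rfl
  rw [key] at hp ⊢
  exact spec_gen _ v hv w hw hvw p hp

/-- elements of `ℚ(z)` are quotients of polynomials over `ℤ` -/
private theorem quot_z {Ω : Type} [Field Ω] [CharZero Ω] {m : ℕ} (z : Fin m → Ω) {x : Ω}
    (hx : x ∈ IntermediateField.adjoin ℚ (Set.range z)) :
    ∃ r s : MvPolynomial (Fin m) ℤ, aeval z s ≠ 0 ∧ x * aeval z s = aeval z r := by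
  induction hx using IntermediateField.adjoin_induction with
  | mem y hy =>
    obtain ⟨k, rfl⟩ := hy
    exact ⟨X k, 1, by simp, by simp⟩
  | algebraMap q =>
    refine ⟨C q.num, C (q.den : ℤ), ?_, ?_⟩
    · simp
    · rw [aeval_C, aeval_C, eq_ratCast]
      have h : (q : Ω) * (q.den : Ω) = (q.num : Ω) := by
        have := Rat.mul_den_eq_num q
        exact_mod_cast this
      simpa using h
  | add y y' _ _ ih ih' =>
    obtain ⟨r, s, hs, hr⟩ := ih
    obtain ⟨r', s', hs', hr'⟩ := ih'
    refine ⟨r * s' + r' * s, s * s', ?_, ?_⟩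
    · rw [map_mul]
      exact mul_ne_zero hs hs'
    · rw [map_mul, map_add, map_mul, map_mul, ← hr, ← hr']
      ring
  | inv y _ ih =>
    obtain ⟨r, s, hs, hr⟩ := ih
    by_cases hy : y = 0
    · refine ⟨0, 1, by simp, by simp [hy]⟩
    · refine ⟨s, r, ?_, ?_⟩
      · rw [← hr]
        exact mul_ne_zero hy hs
      · rw [← hr, ← mul_assoc, inv_mul_cancel₀ hy, one_mul]
  | mul y y' _ _ ih ih' =>
    obtain ⟨r, s, hs, hr⟩ := ih
    obtain ⟨r', s', hs', hr'⟩ := ih'
    refine ⟨r * r', s * s', ?_, ?_⟩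
    · rw [map_mul]
      exact mul_ne_zero hs hs'
    · rw [map_mul, map_mul, ← hr, ← hr']
      ring

/-- common denominators -/
private theorem common_den {Ω T : Type} [Field Ω] [CharZero Ω] {m : ℕ} (z : Fin m → Ω)
    (x : T → Ω) (hx : ∀ t, x t ∈ IntermediateField.adjoin ℚ (Set.range z)) (s : Finset T) :
    ∃ D : MvPolynomial (Fin m) ℤ, aeval z D ≠ 0 ∧
      ∀ t ∈ s, ∃ P : MvPolynomial (Fin m) ℤ, x t * aeval z D = aeval z P := by
  classical
  induction s using Finset.induction_on with
  | empty => exact ⟨1, by simp, by simp⟩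
  | insert t s _ ih =>
    obtain ⟨D, hD, hP⟩ := ih
    obtain ⟨r, q, hq, hr⟩ := quot_z z (hx t)
    refine ⟨D * q, ?_, ?_⟩
    · rw [map_mul]
      exact mul_ne_zero hD hq
    · intro t' ht'
      rcases Finset.mem_insert.1 ht' with rfl | h
      · refine ⟨r * D, ?_⟩
        rw [map_mul, map_mul, ← hr]
        ring
      · obtain ⟨P, hP'⟩ := hP t' h
        refine ⟨P * q, ?_⟩
        rw [map_mul, map_mul, ← hP']
        ring

/-- **The fibres.** `Ω = ℚ(v)`, `F = ℚ(mm A v)`, `e₀ = [Ω : F]` finite. As an algebra over `F` the field `Ω` is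
generated by the `v i` (they are algebraic over `F`), so it has a basis `w_1 .. w_(e₀)` consisting of
monomials (nonnegative exponents) in the `v i`, and `v i * w_j = ∑ λ_(i,j,k) w_k`, `1 = ∑ λ_k w_k` with
`λ ∈ F`. Every element of `F` is `p(z) / p'(z)`, `z = mm A v`, `p, p' ∈ ℤ[z]`. `D` = a common denominator of all
the `λ`: `D(z) ≠ 0`, `D(z) v_i w_j = ∑ P_(i,j,k)(z) w_k`, `D(z) = ∑ P_k(z) w_k`. These relations (multiplied
by a monomial, see `spec_mm`; or state them for the family `(v, z)`) hold at every point `u ∈ S`, where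
`z` becomes `z₀`, `D(z₀) ≠ 0`. So for every monomial `M` in the `v i`:
`M(u) = ∑ k, c_(M,k) w_k(u)` with numbers `c_(M,k)` which depend only on `M` and `z₀` (induction on `M`). The
characters `M ↦ M(u)` of the monoid `ι →₀ ℕ` (multiplicative), `u ∈ S`, are different for different `u`, so
linearly independent (`linearIndependent_monoidHom`), and they lie in the span of the `e₀` functions
`M ↦ c_(M,k)`. So `S.card ≤ e₀`. -/
theorem exists_fibre_data {Ω ι : Type} [Field Ω] [CharZero Ω] [Fintype ι] {m : ℕ}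
    (A : Fin m → ι → ℤ) (v : ι → Ω) (hv : ∀ i, v i ≠ 0)
    (hgen : IntermediateField.adjoin ℚ (Set.range v) = ⊤)
    (hfin : FiniteDimensional (IntermediateField.adjoin ℚ (Set.range (mm A v))) Ω) :
    ∃ D : MvPolynomial (Fin m) ℤ, aeval (mm A v) D ≠ 0 ∧
      ∀ z₀ : Fin m → ℂ, aeval z₀ D ≠ 0 → ∀ S : Finset (ι → ℂ),
        (∀ u ∈ S, (∀ i, u i ≠ 0) ∧ (∀ p : MvPolynomial ι ℤ, aeval v p = 0 → aeval u p = 0) ∧
          mm A u = z₀) →
        S.card ≤ Module.finrank (IntermediateField.adjoin ℚ (Set.range (mm A v))) Ω := by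
  classical
  obtain ⟨F, hF⟩ : ∃ F, F = IntermediateField.adjoin ℚ (Set.range (mm A v)) := ⟨_, rfl⟩
  rw [← hF] at hfin ⊢
  -- the polynomials in `v` span `Ω` over `F`
  have h1 : IntermediateField.adjoin F (Set.range v) = ⊤ := by
    rw [eq_top_iff]
    have h : IntermediateField.adjoin ℚ (Set.range v) ≤
        (IntermediateField.adjoin F (Set.range v)).restrictScalars ℚ := by
      rw [IntermediateField.adjoin_le_iff]
      exact IntermediateField.subset_adjoin F (Set.range v)
    rw [hgen] at h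
    intro x _
    exact h (IntermediateField.mem_top (x := x))
  have h2 : Algebra.adjoin F (Set.range v) = ⊤ := by
    rw [← IntermediateField.adjoin_toSubalgebra, h1]
    rfl
  have h3 : Submodule.span F (Set.range (aeval v : MvPolynomial ι ℤ → Ω)) = ⊤ := by
    rw [eq_top_iff, ← Algebra.top_toSubmodule, ← h2, Algebra.adjoin_eq_span]
    refine Submodule.span_mono ?_
    have h : Submonoid.closure (Set.range v) ≤
        MonoidHom.mrange ((aeval v : MvPolynomial ι ℤ →ₐ[ℤ] Ω) : MvPolynomial ι ℤ →* Ω) := by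
      rw [Submonoid.closure_le]
      rintro _ ⟨i, rfl⟩
      exact ⟨X i, by simp⟩
    intro x hx
    obtain ⟨q, hq⟩ := h hx
    exact ⟨q, hq⟩
  obtain ⟨b, hb1, hb2, hb3⟩ :=
    exists_linearIndependent F (Set.range (aeval v : MvPolynomial ι ℤ → Ω))
  rw [h3] at hb2
  have hbf : b.Finite := hb3.setFinite
  letI : Fintype b := hbf.fintype
  let B : Module.Basis b F Ω := Module.Basis.mk hb3 (by rw [Subtype.range_coe, hb2])
  have hBk : ∀ k : b, B k = (k : Ω) := fun k => by
    rw [Module.Basis.mk_apply]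
  have hcard : Module.finrank F Ω = Fintype.card b := Module.finrank_eq_card_basis B
  choose f hf using fun k : b => hb1 k.2
  -- the coefficients and their common denominator
  let lam : (ι × b × b) ⊕ b → Ω := Sum.elim
    (fun t => (B.repr (v t.1 * (t.2.1 : Ω)) t.2.2 : Ω)) (fun k => (B.repr 1 k : Ω))
  have hlam : ∀ t, lam t ∈ IntermediateField.adjoin ℚ (Set.range (mm A v)) := by
    intro t
    rw [← hF]
    rcases t with t | t
    · exact (B.repr (v t.1 * (t.2.1 : Ω)) t.2.2).2
    · exact (B.repr 1 t).2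
  obtain ⟨D, hD, hP⟩ := common_den (mm A v) lam hlam Finset.univ
  choose P hP using fun t => hP t (Finset.mem_univ t)
  refine ⟨D, hD, fun z₀ hz₀ S hS => ?_⟩
  -- the relations at the points of `S`
  have hrel : ∀ (i : ι) (j : b), ∀ u ∈ S, aeval z₀ D * (u i * aeval u (f j)) =
      ∑ k, aeval z₀ (P (.inl (i, j, k))) * aeval u (f k) := by
    intro i j u hu
    obtain ⟨hu1, hu2, hu3⟩ := hS u hu
    have h4 := spec_mix A v hv u hu1 hu2
      (rename Sum.inr D * (X (Sum.inl i) * rename Sum.inl (f j)) -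
        ∑ k, rename Sum.inr (P (.inl (i, j, k))) * rename Sum.inl (f k)) (by
      simp only [map_sub, map_mul, map_sum, aeval_rename, aeval_X, Sum.elim_inl,
        Sum.elim_comp_inl, Sum.elim_comp_inr, hf, ← hP]
      rw [sub_eq_zero]
      have h5 := B.sum_repr (v i * (j : Ω))
      simp only [hBk] at h5
      have h6 : v i * (j : Ω) = ∑ k, (B.repr (v i * (j : Ω)) k : Ω) * (k : Ω) := h5.symm
      refine (congrArg (fun y => aeval (mm A v) D * y) h6).trans ?_
      show aeval (mm A v) D * ∑ k, (B.repr (v i * (j : Ω)) k : Ω) * (k : Ω) = _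
      rw [Finset.mul_sum]
      refine Finset.sum_congr rfl fun k _ => ?_
      show _ = (B.repr (v i * (j : Ω)) k : Ω) * _ * _
      ring)
    simp only [map_sub, map_mul, map_sum, aeval_rename, aeval_X, Sum.elim_inl,
        Sum.elim_comp_inl, Sum.elim_comp_inr, hu3] at h4
    exact sub_eq_zero.1 h4
  have hone : ∀ u ∈ S, aeval z₀ D = ∑ k, aeval z₀ (P (.inr k)) * aeval u (f k) := by
    intro u hu
    obtain ⟨hu1, hu2, hu3⟩ := hS u hu
    have h4 := spec_mix A v hv u hu1 hu2
      (rename Sum.inr D - ∑ k, rename Sum.inr (P (.inr k)) * rename Sum.inl (f k)) (by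
      simp only [map_sub, map_mul, map_sum, aeval_rename,
        Sum.elim_comp_inl, Sum.elim_comp_inr, hf, ← hP]
      rw [sub_eq_zero]
      have h5 := B.sum_repr (1 : Ω)
      simp only [hBk] at h5
      have h6 : (1 : Ω) = ∑ k, (B.repr (1 : Ω) k : Ω) * (k : Ω) := h5.symm
      calc aeval (mm A v) D = aeval (mm A v) D * 1 := (mul_one _).symm
        _ = ∑ k, aeval (mm A v) D * ((B.repr (1 : Ω) k : Ω) * (k : Ω)) := by
            rw [← Finset.mul_sum, ← h6]
        _ = _ := by
            refine Finset.sum_congr rfl fun k _ => ?_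
            show _ = (B.repr (1 : Ω) k : Ω) * _ * _
            ring)
    simp only [map_sub, map_mul, map_sum, aeval_rename,
        Sum.elim_comp_inl, Sum.elim_comp_inr, hu3] at h4
    exact sub_eq_zero.1 h4
  -- the coefficients of all polynomials
  have hall : ∀ q : MvPolynomial ι ℤ, ∃ c : b → ℂ, ∀ u ∈ S,
      aeval u q = ∑ k, aeval u (f k) * c k := by
    intro q
    induction q using MvPolynomial.induction_on with
    | C a =>
      refine ⟨fun k => (a : ℂ) * (aeval z₀ (P (.inr k)) / aeval z₀ D), fun u hu => ?_⟩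
      have h4 := hone u hu
      have h5 : (1 : ℂ) = (∑ k, aeval z₀ (P (.inr k)) * aeval u (f k)) / aeval z₀ D := by
        rw [← h4, div_self hz₀]
      rw [aeval_C, algebraMap_int_eq, eq_intCast]
      refine (mul_one (a : ℂ)).symm.trans ?_
      rw [h5, Finset.sum_div, Finset.mul_sum]
      refine Finset.sum_congr rfl fun k _ => ?_
      ring
    | add q q' ih ih' =>
      obtain ⟨c, hc⟩ := ih
      obtain ⟨c', hc'⟩ := ih'
      refine ⟨fun k => c k + c' k, fun u hu => ?_⟩
      rw [map_add, hc u hu, hc' u hu, ← Finset.sum_add_distrib]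
      exact Finset.sum_congr rfl fun k _ => (mul_add _ _ _).symm
    | mul_X q i ih =>
      obtain ⟨c, hc⟩ := ih
      refine ⟨fun k => ∑ j, c j * (aeval z₀ (P (.inl (i, j, k))) / aeval z₀ D),
        fun u hu => ?_⟩
      rw [map_mul, hc u hu, aeval_X, Finset.sum_mul]
      have h5 : ∀ j, aeval u (f j) * c j * u i =
          ∑ k, aeval u (f k) * (c j * (aeval z₀ (P (.inl (i, j, k))) / aeval z₀ D)) := by
        intro j
        have h6 : u i * aeval u (f j) =
            (∑ k, aeval z₀ (P (.inl (i, j, k))) * aeval u (f k)) / aeval z₀ D := by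
          rw [eq_div_iff hz₀, ← hrel i j u hu]
          ring
        calc aeval u (f j) * c j * u i = c j * (u i * aeval u (f j)) := by ring
          _ = _ := by
              rw [h6, Finset.sum_div, Finset.mul_sum]
              exact Finset.sum_congr rfl fun k _ => by ring
      rw [Finset.sum_congr rfl fun j _ => h5 j, Finset.sum_comm]
      exact Finset.sum_congr rfl fun k _ => (Finset.mul_sum _ _ _).symm
  choose c hc using hall
  -- linear independence of characters
  let chi : S → (MvPolynomial ι ℤ →* ℂ) := fun u =>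
    ((aeval (u : ι → ℂ) : MvPolynomial ι ℤ →ₐ[ℤ] ℂ) : MvPolynomial ι ℤ →* ℂ)
  have hchi : Function.Injective chi := by
    intro u u' h
    ext i
    have := DFunLike.congr_fun h (X i)
    simpa [chi] using this
  have hli := (linearIndependent_monoidHom (MvPolynomial ι ℤ) ℂ).comp chi hchi
  let W : Submodule ℂ (MvPolynomial ι ℤ → ℂ) :=
    Submodule.span ℂ (Set.range fun (k : b) (q : MvPolynomial ι ℤ) => c q k)
  have hmem : ∀ u : S, (fun q : MvPolynomial ι ℤ => (chi u) q) ∈ W := by
    intro u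
    have h4 : (fun q : MvPolynomial ι ℤ => (chi u) q) =
        ∑ k, aeval (u : ι → ℂ) (f k) • (fun q : MvPolynomial ι ℤ => c q k) := by
      funext q
      rw [Finset.sum_apply]
      exact hc q u u.2
    rw [h4]
    exact Submodule.sum_mem _ fun k _ => Submodule.smul_mem _ _ (Submodule.subset_span ⟨k, rfl⟩)
  have : FiniteDimensional ℂ W := FiniteDimensional.span_of_finite ℂ (Set.finite_range _)
  have hliW : LinearIndependent ℂ (fun u : S => (⟨_, hmem u⟩ : W)) := by
    apply LinearIndependent.of_comp W.subtype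
    exact hli
  calc S.card = Fintype.card S := (Fintype.card_coe S).symm
    _ ≤ Module.finrank ℂ W := hliW.fintype_card_le_finrank
    _ ≤ Fintype.card b := finrank_range_le_card _
    _ = Module.finrank F Ω := hcard.symm

end Pool.Agent.Zil.Gam
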