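import Pool.Agent.Zil.GATw

set_option autoImplicit false

/-! GA11. The parameters `ζ` for which `g = D = 0` on a coset of the one parameter group. -/

namespace Pool.Agent.Zil.Gam

open MvPolynomial

variable {t : ℕ}

/-- the last variable is `i₁` -/
private noncomputable def fbE (i₁ : Fin (t + 1)) :
    MvPolynomial (Fin (t + 1)) ℚ ≃ₐ[ℚ] Polynomial (MvPolynomial (Fin t) ℚ) :=
  (MvPolynomial.renameEquiv ℚ (finSuccEquiv' i₁)).trans (MvPolynomial.optionEquivLeft ℚ (Fin t))

private theorem fbE_X_self (i₁ : Fin (t + 1)) : fbE i₁ (X i₁) = Polynomial.X := by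
  unfold fbE
  rw [AlgEquiv.trans_apply, renameEquiv_apply, rename_X, finSuccEquiv'_at, optionEquivLeft_X_none]

private theorem fbE_X_succ (i₁ : Fin (t + 1)) (k : Fin t) :
    fbE i₁ (X (i₁.succAbove k)) = Polynomial.C (X k) := by
  unfold fbE
  rw [AlgEquiv.trans_apply, renameEquiv_apply, rename_X, finSuccEquiv'_succAbove,
    optionEquivLeft_X_some]

/-- the evaluation -/
private theorem fbE_eval {K : Type} [Field K] [Algebra ℚ K] (i₁ : Fin (t + 1))
    (z : Fin (t + 1) → K) (f : MvPolynomial (Fin (t + 1)) ℚ) :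
    Polynomial.eval₂
      (aeval (fun k => z (i₁.succAbove k)) : MvPolynomial (Fin t) ℚ →ₐ[ℚ] K).toRingHom
      (z i₁) (fbE i₁ f) = aeval z f := by
  induction f using MvPolynomial.induction_on with
  | C a =>
    have h1 : fbE i₁ (C a) = Polynomial.C (C a) := (fbE i₁).commutes a
    rw [h1, Polynomial.eval₂_C]
    change aeval (fun k => z (i₁.succAbove k)) (C a) = _
    rw [aeval_C, aeval_C]
  | add p q hp hq => rw [map_add, Polynomial.eval₂_add, hp, hq, map_add]
  | mul_X p i hp =>
    rw [map_mul, Polynomial.eval₂_mul, hp, map_mul, aeval_X]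
    congr 1
    rcases Fin.eq_self_or_eq_succAbove i₁ i with rfl | ⟨k, rfl⟩
    · rw [fbE_X_self, Polynomial.eval₂_X]
    · rw [fbE_X_succ, Polynomial.eval₂_C]
      change aeval (fun k => z (i₁.succAbove k)) (X k) = _
      rw [aeval_X]

/-- a common zero whose coordinates `i ≠ i₁` are independent -/
private theorem fb_indep {K : Type} [Field K] [CharZero K] (g D : MvPolynomial (Fin (t + 1)) ℚ)
    (hg : Irreducible g) (hgD : ¬ g ∣ D) (z : Fin (t + 1) → K) (h1 : aeval z g = 0)
    (h2 : aeval z D = 0) (i₁ : Fin (t + 1))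
    (hz : AlgebraicIndependent ℚ fun k => z (i₁.succAbove k)) : False := by
  have hinj : Function.Injective
      (aeval (fun k => z (i₁.succAbove k)) : MvPolynomial (Fin t) ℚ →ₐ[ℚ] K).toRingHom := hz
  obtain ⟨φ, hφ⟩ : ∃ φ, φ =
    (aeval (fun k => z (i₁.succAbove k)) : MvPolynomial (Fin t) ℚ →ₐ[ℚ] K).toRingHom := ⟨_, rfl⟩
  rw [← hφ] at hinj
  have e1 : Polynomial.eval₂ φ (z i₁) (fbE i₁ g) = 0 := by rw [hφ, fbE_eval, h1]
  have e2 : Polynomial.eval₂ φ (z i₁) (fbE i₁ D) = 0 := by rw [hφ, fbE_eval, h2]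
  have hG : Irreducible (fbE i₁ g) := (MulEquiv.irreducible_iff (fbE i₁)).2 hg
  have hGD : ¬ fbE i₁ g ∣ fbE i₁ D := fun h => hgD ((map_dvd_iff (fbE i₁)).1 h)
  have hdeg : (fbE i₁ g).natDegree ≠ 0 := by
    intro h0
    have h3 := Polynomial.eq_C_of_natDegree_eq_zero h0
    rw [h3, Polynomial.eval₂_C] at e1
    have h4 : (fbE i₁ g).coeff 0 = 0 := hinj (by rw [e1, map_zero])
    rw [h4, Polynomial.C_0] at h3
    exact hG.ne_zero h3
  have hprim : (fbE i₁ g).IsPrimitive := hG.isPrimitive hdeg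
  let F := FractionRing (MvPolynomial (Fin t) ℚ)
  have hGF : Irreducible ((fbE i₁ g).map (algebraMap (MvPolynomial (Fin t) ℚ) F)) :=
    (Polynomial.IsPrimitive.irreducible_iff_irreducible_map_fraction_map (K := F) hprim).1 hG
  have hGDF : ¬ (fbE i₁ g).map (algebraMap (MvPolynomial (Fin t) ℚ) F) ∣
      (fbE i₁ D).map (algebraMap (MvPolynomial (Fin t) ℚ) F) := fun h =>
    hGD (Polynomial.IsPrimitive.dvd_of_fraction_map_dvd_fraction_map (K := F) hprim h)
  have hcop : IsCoprime ((fbE i₁ g).map (algebraMap (MvPolynomial (Fin t) ℚ) F))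
      ((fbE i₁ D).map (algebraMap (MvPolynomial (Fin t) ℚ) F)) :=
    (Irreducible.coprime_iff_not_dvd hGF).2 hGDF
  obtain ⟨a, b, hab⟩ := hcop
  let ψ : F →+* K := IsFractionRing.lift hinj
  have hψ : ψ.comp (algebraMap (MvPolynomial (Fin t) ℚ) F) = φ := by
    ext x
    · simp [ψ]
    · simp [ψ]
  have h5 := congrArg (Polynomial.eval₂ ψ (z i₁)) hab
  rw [Polynomial.eval₂_add, Polynomial.eval₂_mul, Polynomial.eval₂_mul, Polynomial.eval₂_map,
    Polynomial.eval₂_map, hψ, e1, e2, mul_zero, mul_zero, add_zero, Polynomial.eval₂_one] at h5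
  exact zero_ne_one h5

/-- all but one of the members are independent -/
private theorem fb_choose {K : Type} [Field K] [CharZero K] (z : Fin (t + 1) → K) (x : Fin t → K)
    (hx : AlgebraicIndependent ℤ x)
    (halg : ∀ k, IsAlgebraic (Algebra.adjoin ℤ (Set.range z)) (x k)) :
    ∃ i₁ : Fin (t + 1), AlgebraicIndependent ℤ fun k => z (i₁.succAbove k) := by
  classical
  have hf : FaithfulSMul ℤ K := inferInstance
  have h1 : (AlgebraicIndependent.matroid ℤ K).Indep (Set.range x) :=
    AlgebraicIndependent.matroid_indep_iff.2 hx.to_subtype_range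
  have h2 : Set.range x ⊆ (AlgebraicIndependent.matroid ℤ K).closure (Set.range z) := by
    rw [AlgebraicIndependent.matroid_closure_eq]
    rintro _ ⟨i, rfl⟩
    exact halg i
  obtain ⟨I, hI⟩ := (AlgebraicIndependent.matroid ℤ K).exists_isBasis (Set.range z)
  have h3 : (Set.range x).encard ≤ I.encard := by
    rw [← h1.eRk_eq_encard]
    refine (Matroid.eRk_mono _ h2).trans ?_
    rw [Matroid.eRk_closure_eq]
    exact hI.eRk_eq_encard.le
  have h4 : (Set.range x).encard = t := by
    rw [← Set.image_univ, hx.injective.encard_image, Set.encard_univ,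
      ENat.card_eq_coe_fintype_card, Fintype.card_fin]
  rw [h4] at h3
  obtain ⟨hind, hsub, -⟩ := AlgebraicIndependent.matroid_isBasis_iff.1 hI
  -- indices
  choose f hf using fun a : I => hsub a.2
  have hfinj : Function.Injective f := by
    intro a b h
    apply Subtype.ext
    rw [← hf a, ← hf b, h]
  have h5 : (t : ℕ∞) ≤ (Set.range f).encard := by
    rw [← Set.image_univ, hfinj.encard_image, Set.encard_univ]
    exact h3
  have h6 : ∃ i₁ : Fin (t + 1), ∀ i, i ≠ i₁ → i ∈ Set.range f := by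
    by_contra hcon
    push Not at hcon
    obtain ⟨i, -, hi⟩ := hcon 0
    obtain ⟨j, hji, hj⟩ := hcon i
    have h7 : (Set.range f).encard ≤
        (Finset.univ.erase i |>.erase j : Finset (Fin (t + 1))).card := by
      rw [← Set.encard_coe_eq_coe_finsetCard]
      refine Set.encard_le_encard fun a ha => ?_
      rw [Finset.mem_coe, Finset.mem_erase, Finset.mem_erase]
      exact ⟨fun h => hj (h ▸ ha), fun h => hi (h ▸ ha), Finset.mem_univ _⟩
    have h8 := h5.trans h7
    rw [Finset.card_erase_of_mem (Finset.mem_erase.2 ⟨hji, Finset.mem_univ _⟩),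
      Finset.card_erase_of_mem (Finset.mem_univ _), Finset.card_univ, Fintype.card_fin] at h8
    have h9 : t ≤ t + 1 - 1 - 1 := by exact_mod_cast h8
    have h10 : (i : ℕ) < t + 1 := i.2
    have h11 : (j : ℕ) < t + 1 := j.2
    have h12 : (i : ℕ) ≠ j := fun h => hji (Fin.ext h.symm)
    omega
  obtain ⟨i₁, hi₁⟩ := h6
  refine ⟨i₁, ?_⟩
  choose e he using fun k : Fin t => hi₁ (i₁.succAbove k) (Fin.succAbove_ne i₁ k)
  have heinj : Function.Injective e := by
    intro a b h
    have h7 := congrArg f h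
    rw [he, he] at h7
    exact Fin.succAbove_right_injective h7
  have h13 : AlgebraicIndependent ℤ ((fun a : I => (a : K)) ∘ e) := hind.comp e heinj
  have h14 : ((fun a : I => (a : K)) ∘ e) = fun k => z (i₁.succAbove k) := by
    funext k
    rw [Function.comp_apply, ← hf (e k), he]
  rwa [h14] at h13

/-- **Elimination.** Suppose `x_1 .. x_t` are algebraically independent and algebraic over `ℚ(z)`. Then
the transcendence degree of `ℚ(z)` is at least `t`, so the family `z` (with `t + 1` members) contains `t`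
algebraically independent members: there is `i₁` with `(z_i)_(i ≠ i₁)` algebraically independent
(`exists_isTranscendenceBasis_subset`, `IsTranscendenceBasis` cardinalities; see also
`Pool.Agent.LSharp.card_le_of_algebraic` in LSharp/TYTrd, with `k = ℚ`). `g(z) = 0`, `g ≠ 0`, so `X_(i₁)` occurs
in `g`. In `ℚ(others)[X_(i₁)]` the polynomial `g` is irreducible (Gauss lemma:
`Polynomial.IsPrimitive.irreducible_iff_irreducible_map_fraction_map`; an irreducible polynomial of positive
degree over a UFD is primitive) and does not divide `D` (Gauss lemma again), so they are coprime; with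
cleared denominators: `A g + B D = R` with `R ≠ 0` in `ℚ[others]`. Evaluate at `z`: `R(z) = 0`,
against the independence of the `z_i`, `i ≠ i₁`. -/
theorem trdeg_common_zero {K : Type} [Field K] [CharZero K] (g D : MvPolynomial (Fin (t + 1)) ℤ)
    (hg : Irreducible (map (Int.castRingHom ℚ) g))
    (hgD : ¬ map (Int.castRingHom ℚ) g ∣ map (Int.castRingHom ℚ) D)
    (z : Fin (t + 1) → K) (h1 : aeval z g = 0) (h2 : aeval z D = 0) (x : Fin t → K)
    (hx : AlgebraicIndependent ℤ x)
    (halg : ∀ k, IsAlgebraic (Algebra.adjoin ℤ (Set.range z)) (x k)) : False := by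
  obtain ⟨i₁, hi₁⟩ := fb_choose z x hx halg
  have halgQ : Algebra.IsAlgebraic ℤ ℚ := IsLocalization.isAlgebraic ℚ (nonZeroDivisors ℤ)
  have hq : ∀ f : MvPolynomial (Fin (t + 1)) ℤ,
      aeval z (map (Int.castRingHom ℚ) f) = aeval z f := fun f =>
    MvPolynomial.aeval_map_algebraMap ℚ z f
  exact fb_indep _ _ hg hgD z (by rw [hq, h1]) (by rw [hq, h2]) i₁ (hi₁.extendScalars ℚ)

/-- the main argument of `exists_bad_poly` in a field -/
private theorem fb_field {B K : Type} [CommRing B] [Field K] [CharZero K]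
    (Cc : MvPolynomial (Fin t) ℤ →+* B) (T : ℤ → B)
    (hT0 : T 0 = 1) (hTadd : ∀ a b, T (a + b) = T a * T b) (i₀ : Fin (t + 1))
    (n : Fin (t + 1) → ℤ) (hn : n i₀ ≠ 0)
    (g D : MvPolynomial (Fin (t + 1)) ℤ) (hg : Irreducible (map (Int.castRingHom ℚ) g))
    (hgD : ¬ map (Int.castRingHom ℚ) g ∣ map (Int.castRingHom ℚ) D) (zB : Fin (t + 1) → B)
    (hz0 : zB i₀ = T (n i₀))
    (hz1 : ∀ k, zB (i₀.succAbove k) = T (n (i₀.succAbove k)) * Cc (X k)) (q : B →+* K)
    (hgI : q (aeval zB g) = 0) (hDI : q (aeval zB D) = 0)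
    (hqC : ∀ h : MvPolynomial (Fin t) ℤ, q (Cc h) = 0 → h = 0) : False := by
  have hqev : ∀ f : MvPolynomial (Fin (t + 1)) ℤ, aeval (fun i => q (zB i)) f =
      q (aeval zB f) := by
    intro f
    induction f using MvPolynomial.induction_on with
    | C a =>
      rw [aeval_C, aeval_C]
      simp
    | add p r hp hr => rw [map_add, map_add, hp, hr, map_add]
    | mul_X p i hp => rw [map_mul, map_mul, hp, map_mul, aeval_X, aeval_X]
  have hg0 : aeval (fun i => q (zB i)) g = 0 := by
    rw [hqev, hgI]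
  have hD0 : aeval (fun i => q (zB i)) D = 0 := by
    rw [hqev, hDI]
  refine trdeg_common_zero g D hg hgD (fun i => q (zB i)) hg0 hD0
    (fun k => q (Cc (X k))) ?_ ?_
  · rw [algebraicIndependent_iff]
    intro p hp
    have h1 : ∀ f : MvPolynomial (Fin t) ℤ, aeval (fun k => q (Cc (X k))) f = q (Cc f) := by
      intro f
      induction f using MvPolynomial.induction_on with
      | C a =>
        rw [aeval_C]
        have h2 : (MvPolynomial.C a : MvPolynomial (Fin t) ℤ) = (a : MvPolynomial (Fin t) ℤ) := by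
          simp
        rw [h2, map_intCast, map_intCast]
        simp
      | add p r hp hr => rw [map_add, map_add, hp, hr, map_add]
      | mul_X p i hp => rw [map_mul, map_mul, hp, map_mul, aeval_X]
    rw [h1] at hp
    exact hqC p hp
  · have hne : ∀ m : ℤ, q (T m) ≠ 0 := by
      intro m h
      have h1 : q (T m) * q (T (-m)) = 1 := by
        rw [← map_mul, ← hTadd, add_neg_cancel, hT0, map_one]
      rw [h, zero_mul] at h1
      exact zero_ne_one h1
    have hT : ∀ m : ℤ, q (T m) = q (T 1) ^ m := by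
      have h1 : ∀ m : ℕ, q (T m) = q (T 1) ^ m := by
        intro m
        induction m with
        | zero => rw [Nat.cast_zero, hT0, map_one, pow_zero]
        | succ m ih => rw [Nat.cast_succ, hTadd, map_mul, ih, pow_succ]
      intro m
      obtain ⟨m, rfl | rfl⟩ := m.eq_nat_or_neg
      · rw [h1, zpow_natCast]
      · rw [zpow_neg, zpow_natCast, ← h1]
        refine eq_inv_of_mul_eq_one_left ?_
        rw [← map_mul, ← hTadd, neg_add_cancel, hT0, map_one]
    have hz : ∀ i, IsAlgebraic (Algebra.adjoin ℤ (Set.range fun i => q (zB i))) (q (zB i)) :=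
      fun i => isAlgebraic_algebraMap
        (⟨q (zB i), Algebra.subset_adjoin ⟨i, rfl⟩⟩ :
          Algebra.adjoin ℤ (Set.range fun i => q (zB i)))
    have hu0 : IsAlgebraic (Algebra.adjoin ℤ (Set.range fun i => q (zB i)))
        (q (T 1) ^ n i₀) := by
      have h1 := hz i₀
      rwa [hz0, hT] at h1
    have hu : IsAlgebraic (Algebra.adjoin ℤ (Set.range fun i => q (zB i))) (q (T 1)) := by
      obtain ⟨N, hN | hN⟩ := (n i₀).eq_nat_or_neg
      · rw [hN, zpow_natCast] at hu0
        exact hu0.of_pow (by omega)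
      · rw [hN, zpow_neg, zpow_natCast] at hu0
        have h1 := hu0.inv
        rw [inv_inv] at h1
        exact h1.of_pow (by omega)
    intro k
    have h1 : q (Cc (X k)) = q (zB (i₀.succAbove k)) *
        (q (T 1) ^ n (i₀.succAbove k))⁻¹ := by
      rw [eq_mul_inv_iff_mul_eq₀ (zpow_ne_zero _ (hne 1)), hz1, map_mul,
        hT (n (i₀.succAbove k)), mul_comm]
    rw [h1]
    refine (hz _).mul (IsAlgebraic.inv ?_)
    obtain ⟨N, hN | hN⟩ := (n (i₀.succAbove k)).eq_nat_or_neg
    · rw [hN, zpow_natCast]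
      exact hu.pow N
    · rw [hN, zpow_neg, zpow_natCast]
      exact (hu.pow N).inv

/-- the main argument of `exists_bad_poly` in a ring which contains the Laurent polynomials -/
private theorem fb_prime {B : Type} [CommRing B] (Cc : MvPolynomial (Fin t) ℤ →+* B) (T : ℤ → B)
    (hT0 : T 0 = 1) (hTadd : ∀ a b, T (a + b) = T a * T b) (i₀ : Fin (t + 1))
    (n : Fin (t + 1) → ℤ) (hn : n i₀ ≠ 0)
    (g D : MvPolynomial (Fin (t + 1)) ℤ) (hg : Irreducible (map (Int.castRingHom ℚ) g))
    (hgD : ¬ map (Int.castRingHom ℚ) g ∣ map (Int.castRingHom ℚ) D) (zB : Fin (t + 1) → B)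
    (hz0 : zB i₀ = T (n i₀))
    (hz1 : ∀ k, zB (i₀.succAbove k) = T (n (i₀.succAbove k)) * Cc (X k)) (I : Ideal B)
    (hgI : aeval zB g ∈ I) (hDI : aeval zB D ∈ I)
    (hex : ∀ h : MvPolynomial (Fin t) ℤ, h ≠ 0 → Cc h ∉ I) : False := by
  classical
  obtain ⟨S, hS⟩ : ∃ S : Submonoid B, S = (nonZeroDivisors (MvPolynomial (Fin t) ℤ)).map Cc :=
    ⟨_, rfl⟩
  have hdisj : Disjoint (I : Set B) S := by
    rw [Set.disjoint_left]
    intro x hx hxS
    rw [hS] at hxS
    obtain ⟨h, hh, rfl⟩ := hxS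
    exact hex h (nonZeroDivisors.ne_zero hh) hx
  obtain ⟨P, hP, hIP, hPS⟩ := Ideal.exists_le_prime_disjoint I S hdisj
  have hq : ∀ b, ((algebraMap (B ⧸ P) (FractionRing (B ⧸ P))).comp (Ideal.Quotient.mk P)) b = 0 ↔
      b ∈ P := by
    intro b
    rw [RingHom.comp_apply, map_eq_zero_iff _ (IsFractionRing.injective (B ⧸ P) _),
      Ideal.Quotient.eq_zero_iff_mem]
  have hqC : ∀ h : MvPolynomial (Fin t) ℤ,
      ((algebraMap (B ⧸ P) (FractionRing (B ⧸ P))).comp (Ideal.Quotient.mk P)) (Cc h) = 0 →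
      h = 0 := by
    intro h hh
    by_contra h0
    have h1 := (hq _).1 hh
    refine Set.disjoint_left.1 hPS h1 ?_
    rw [hS]
    exact ⟨h, mem_nonZeroDivisors_of_ne_zero h0, rfl⟩
  have hchar : CharZero (FractionRing (B ⧸ P)) := by
    refine charZero_of_inj_zero fun m hm => ?_
    have h1 : ((algebraMap (B ⧸ P) (FractionRing (B ⧸ P))).comp (Ideal.Quotient.mk P))
        (Cc (m : MvPolynomial (Fin t) ℤ)) = 0 := by
      rw [map_natCast, map_natCast]
      exact hm
    exact_mod_cast hqC _ h1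
  exact fb_field (K := FractionRing (B ⧸ P)) Cc T hT0 hTadd i₀ n hn g D hg hgD zB hz0 hz1
    ((algebraMap (B ⧸ P) (FractionRing (B ⧸ P))).comp (Ideal.Quotient.mk P))
    ((hq _).2 (hIP hgI)) ((hq _).2 (hIP hDI)) hqC

/-- **The bad parameters.** Let `K` be an algebraic closure of `ℚ(ζ_k)`, `ζ_k` independent variables
(`FractionRing (MvPolynomial (Fin t) ℚ)`). `g', D'` = the twists of `exists_twist` (as polynomials in `X`
with coefficients in `ℤ[ζ]`: `finSuccEquivNth` or `spec` over `K`). They have no common zero `X ≠ 0` in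
`K`: otherwise `z_i = X ^ (n i) ζ_i` (`ζ_(i₀) = 1`) is a common zero of `g` and `D`, `X` is algebraic over
`ℚ(z)` (`X ^ (n i₀) = z_(i₀)`), so all `ζ_k` are algebraic over `ℚ(z)`: contradiction to
`trdeg_common_zero`. So `g', D'` generate over `ℚ(ζ)` an ideal of `ℚ(ζ)[X]` which contains a power of `X`:
`A g' + B D' = h X ^ M` with `A, B ∈ ℤ[ζ][X]`, `h ∈ ℤ[ζ]`, `h ≠ 0` (cleared denominators). Evaluate. -/
theorem exists_bad_poly (i₀ : Fin (t + 1)) (n : Fin (t + 1) → ℤ) (hn : n i₀ ≠ 0)
    (g D : MvPolynomial (Fin (t + 1)) ℤ) (hg : Irreducible (map (Int.castRingHom ℚ) g))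
    (hgD : ¬ map (Int.castRingHom ℚ) g ∣ map (Int.castRingHom ℚ) D) :
    ∃ h : MvPolynomial (Fin t) ℤ, h ≠ 0 ∧ ∀ (X : ℂ) (ζ : Fin (t + 1) → ℂ), X ≠ 0 → ζ i₀ = 1 →
      aeval (tw n ζ X) g = 0 → aeval (tw n ζ X) D = 0 →
      aeval (fun k => ζ (i₀.succAbove k)) h = 0 := by
  classical
  obtain ⟨zR, hzR⟩ : ∃ zR : Fin (t + 1) → MvPolynomial (Fin t) ℤ,
      zR = i₀.insertNth (α := fun _ => MvPolynomial (Fin t) ℤ) 1 fun k => X k := ⟨_, rfl⟩
  have hzR0 : zR i₀ = 1 := by rw [hzR, Fin.insertNth_apply_same]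
  have hzR1 : ∀ k, zR (i₀.succAbove k) = X k := fun k => by
    rw [hzR, Fin.insertNth_apply_succAbove]
  obtain ⟨zB, hzB⟩ : ∃ zB : Fin (t + 1) → LaurentPolynomial (MvPolynomial (Fin t) ℤ),
      zB = fun i => LaurentPolynomial.T (n i) * LaurentPolynomial.C (zR i) := ⟨_, rfl⟩
  obtain ⟨I, hI⟩ : ∃ I : Ideal (LaurentPolynomial (MvPolynomial (Fin t) ℤ)),
      I = Ideal.span {aeval zB g, aeval zB D} := ⟨_, rfl⟩
  by_cases hex : ∃ h : MvPolynomial (Fin t) ℤ, h ≠ 0 ∧ LaurentPolynomial.C h ∈ I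
  · obtain ⟨h, h0, hmem⟩ := hex
    refine ⟨h, h0, fun X ζ hX hζ e1 e2 => ?_⟩
    rw [hI] at hmem
    obtain ⟨a, b, hab⟩ := Ideal.mem_span_pair.1 hmem
    obtain ⟨ev, hevdef⟩ : ∃ ev : LaurentPolynomial (MvPolynomial (Fin t) ℤ) →+* ℂ,
        ev = LaurentPolynomial.eval₂ (aeval (fun k => ζ (i₀.succAbove k)) :
          MvPolynomial (Fin t) ℤ →ₐ[ℤ] ℂ).toRingHom (Units.mk0 X hX) := ⟨_, rfl⟩
    have hevC : ∀ r, ev (LaurentPolynomial.C r) = aeval (fun k => ζ (i₀.succAbove k)) r := by
      intro r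
      rw [hevdef, LaurentPolynomial.eval₂_C]
      rfl
    have hz : ∀ i, ev (zB i) = tw n ζ X i := by
      intro i
      rw [hzB]
      simp only
      rw [map_mul, hevC]
      have h3 : ev (LaurentPolynomial.T (n i)) = X ^ n i := by
        rw [hevdef, LaurentPolynomial.eval₂_T]
        simp
      have h4 : aeval (fun k => ζ (i₀.succAbove k)) (zR i) = ζ i := by
        rcases Fin.eq_self_or_eq_succAbove i₀ i with rfl | ⟨k, rfl⟩
        · rw [hzR0, map_one, hζ]
        · rw [hzR1, aeval_X]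
      rw [h3, h4]
      rfl
    have hev : ∀ f : MvPolynomial (Fin (t + 1)) ℤ, ev (aeval zB f) = aeval (tw n ζ X) f := by
      intro f
      induction f using MvPolynomial.induction_on with
      | C a =>
        rw [aeval_C, aeval_C]
        simp
      | add p q hp hq => rw [map_add, map_add, hp, hq, map_add]
      | mul_X p i hp => rw [map_mul, map_mul, hp, map_mul, aeval_X, aeval_X, hz]
    have h5 := congrArg ev hab
    rw [map_add, map_mul, map_mul, hev, hev, e1, e2, mul_zero, mul_zero, add_zero, hevC] at h5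
    exact h5.symm
  · exfalso
    push Not at hex
    refine fb_prime LaurentPolynomial.C LaurentPolynomial.T LaurentPolynomial.T_zero
      LaurentPolynomial.T_add i₀ n hn g D hg hgD zB ?_ (fun k => ?_) I ?_ ?_ hex
    · rw [hzB]
      simp only
      rw [hzR0, map_one, mul_one]
    · rw [hzB]
      simp only
      rw [hzR1]
    · rw [hI]
      exact Ideal.subset_span (Or.inl rfl)
    · rw [hI]
      exact Ideal.subset_span (Or.inr rfl)

end Pool.Agent.Zil.Gam
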