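import Pool.Agent.Zil.GAJenA

set_option autoImplicit false

/-! GA9. Jensen's formula on an orbit of torsion points (section 5.5). -/

namespace Pool.Agent.Zil.Gam

/-- `F` as a polynomial in the variable `i₀`. -/
private noncomputable def gjPoly {t : ℕ} (i₀ : Fin (t + 1)) (F : MvPolynomial (Fin (t + 1)) ℤ) :
    Polynomial (MvPolynomial (Fin t) ℤ) :=
  MvPolynomial.optionEquivLeft ℤ (Fin t) (MvPolynomial.rename (finSuccEquiv' i₀) F)

private theorem gjPoly_ne_zero {t : ℕ} (i₀ : Fin (t + 1)) {F : MvPolynomial (Fin (t + 1)) ℤ}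
    (hF : F ≠ 0) : gjPoly i₀ F ≠ 0 := by
  unfold gjPoly
  rw [Ne, EmbeddingLike.map_eq_zero_iff]
  intro h
  apply hF
  apply MvPolynomial.rename_injective _ (finSuccEquiv' i₀).injective
  rw [h, map_zero]

private theorem gj_spec {t : ℕ} (i₀ : Fin (t + 1)) (ζ : Fin (t + 1) → ℂ)
    (F : MvPolynomial (Fin (t + 1)) ℤ) :
    spec i₀ ζ F = (gjPoly i₀ F).map
      ((MvPolynomial.aeval (fun k => ζ (i₀.succAbove k)) : MvPolynomial (Fin t) ℤ →ₐ[ℤ] ℂ) :
        MvPolynomial (Fin t) ℤ →+* ℂ) := by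
  have key : (MvPolynomial.aeval (fun i => if i = i₀ then (Polynomial.X : Polynomial ℂ)
        else Polynomial.C (ζ i)) : MvPolynomial (Fin (t + 1)) ℤ →ₐ[ℤ] Polynomial ℂ) =
      ((Polynomial.mapAlgHom
        (MvPolynomial.aeval (fun k => ζ (i₀.succAbove k)) : MvPolynomial (Fin t) ℤ →ₐ[ℤ] ℂ)).comp
        (MvPolynomial.optionEquivLeft ℤ (Fin t)).toAlgHom).comp
        (MvPolynomial.rename (finSuccEquiv' i₀)) := by
    apply MvPolynomial.algHom_ext
    intro i
    rcases Fin.eq_self_or_eq_succAbove i₀ i with h | ⟨k, h⟩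
    · subst h
      simp
    · subst h
      simp [Fin.succAbove_ne]
  have := DFunLike.congr_fun key F
  exact this

private theorem gj_aeval {t : ℕ} (e : Fin t → ℕ) (ω : ℂ) (a : MvPolynomial (Fin t) ℤ) :
    Polynomial.aeval ω (MvPolynomial.aeval (fun k => (Polynomial.X : Polynomial ℤ) ^ (e k)) a) =
      MvPolynomial.aeval (fun k => ω ^ (e k)) a := by
  have key : ((Polynomial.aeval ω : Polynomial ℤ →ₐ[ℤ] ℂ).comp
      (MvPolynomial.aeval (fun k => (Polynomial.X : Polynomial ℤ) ^ (e k)))) =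
      MvPolynomial.aeval (fun k => ω ^ (e k)) := by
    apply MvPolynomial.algHom_ext
    intro i
    simp
  exact DFunLike.congr_fun key a

/-- **Jensen on an orbit.** Write `F` as a polynomial in the variable `i₀` with coefficients in
`MvPolynomial (Fin t) ℤ` (`MvPolynomial.finSuccEquivNth`, or by hand), leading coefficient
`a ≠ 0`. `exists_orbit` for `H = {h, a}` gives `p, e`. `N = (primitiveRoots p ℂ).card = p -
1 > 0`; `ν ↦ ω_ν` enumerates the primitive `p`-th roots of unity, `ζ ν i₀ = 1`, `ζ ν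
(i₀.succAbove k) = ω_ν ^ (e k)`. For each `ν`: the leading coefficient of `spec i₀ (ζ ν) F`
is `a(ζ)` (it is not `0`), so `jensen_one` and `l1_spec_le`: `log ‖a(ζ)‖ + ∑ log⁺ ≤ log (l1
F)`; sum over `ν` and `orbit_log_nonneg` for the polynomial `A(T) = a (T ^ (e k))_k`. -/
theorem jensen_orbit {t : ℕ} (i₀ : Fin (t + 1)) (F : MvPolynomial (Fin (t + 1)) ℤ) (hF : F ≠ 0)
    (h : MvPolynomial (Fin t) ℤ) (hh : h ≠ 0) :
    ∃ (N : ℕ) (ζ : Fin N → Fin (t + 1) → ℂ), 0 < N ∧ (∀ ν, (∀ i, ‖ζ ν i‖ = 1) ∧ ζ ν i₀ = 1 ∧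
      MvPolynomial.aeval (fun k => ζ ν (i₀.succAbove k)) h ≠ 0 ∧ spec i₀ (ζ ν) F ≠ 0) ∧
      ∑ ν, ((spec i₀ (ζ ν) F).roots.map (fun X => Real.posLog ‖X‖)).sum ≤
        N * Real.log (l1 F) := by
  classical
  set G := gjPoly i₀ F with hG
  have hG0 : G ≠ 0 := gjPoly_ne_zero i₀ hF
  set a := G.leadingCoeff with ha
  have ha0 : a ≠ 0 := Polynomial.leadingCoeff_ne_zero.mpr hG0
  obtain ⟨p, e, hp, hH⟩ := exists_orbit ({h, a} : Finset (MvPolynomial (Fin t) ℤ)) (by
    intro x hx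
    rw [Finset.mem_insert, Finset.mem_singleton] at hx
    rcases hx with rfl | rfl
    · exact hh
    · exact ha0)
  have hcard : (primitiveRoots p ℂ).card = Nat.totient p := Complex.card_primitiveRoots p
  let eqv := (primitiveRoots p ℂ).equivFin
  let om' : Fin (primitiveRoots p ℂ).card → ℂ := fun ν => (eqv.symm ν : ℂ)
  have hom : ∀ ν, om' ν ∈ primitiveRoots p ℂ := fun ν => (eqv.symm ν).2
  let ζ : Fin (primitiveRoots p ℂ).card → Fin (t + 1) → ℂ := fun ν =>
    Fin.insertNth i₀ (1 : ℂ) (fun k => om' ν ^ (e k))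
  have hζ0 : ∀ ν, ζ ν i₀ = 1 := fun ν => by simp [ζ]
  have hζs : ∀ ν k, ζ ν (i₀.succAbove k) = om' ν ^ (e k) := fun ν k => by simp [ζ]
  have hnorm : ∀ ν, ‖om' ν‖ = 1 := by
    intro ν
    have h1 := isPrimitiveRoot_of_mem_primitiveRoots (hom ν)
    exact IsPrimitiveRoot.norm'_eq_one h1 hp.ne_zero
  have hζn : ∀ ν i, ‖ζ ν i‖ = 1 := by
    intro ν i
    rcases Fin.eq_self_or_eq_succAbove i₀ i with h' | ⟨k, h'⟩
    · rw [h', hζ0, norm_one]
    · rw [h', hζs, norm_pow, hnorm, one_pow]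
  have hfun : ∀ ν, (fun k => ζ ν (i₀.succAbove k)) = fun k => om' ν ^ (e k) := fun ν =>
    funext (hζs ν)
  have hlc : ∀ ν, (spec i₀ (ζ ν) F).leadingCoeff =
      MvPolynomial.aeval (fun k => om' ν ^ (e k)) a ∧ spec i₀ (ζ ν) F ≠ 0 := by
    intro ν
    have h1 : MvPolynomial.aeval (fun k => om' ν ^ (e k)) a ≠ 0 :=
      hH a (by simp) (om' ν) (hom ν)
    have h2 : (spec i₀ (ζ ν) F).leadingCoeff =
        MvPolynomial.aeval (fun k => om' ν ^ (e k)) a := by
      rw [gj_spec, Polynomial.leadingCoeff_map_of_leadingCoeff_ne_zero]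
      · rw [← hfun ν]
        rfl
      · rw [← hfun ν] at h1
        exact h1
    refine ⟨h2, ?_⟩
    intro h0
    rw [h0, Polynomial.leadingCoeff_zero] at h2
    exact h1 h2.symm
  refine ⟨(primitiveRoots p ℂ).card, ζ, ?_, ?_, ?_⟩
  · rw [hcard]
    exact Nat.totient_pos.mpr hp.pos
  · intro ν
    refine ⟨hζn ν, hζ0 ν, ?_, (hlc ν).2⟩
    rw [hfun ν]
    exact hH h (by simp) (om' ν) (hom ν)
  · have hterm : ∀ ν, ((spec i₀ (ζ ν) F).roots.map (fun X => Real.posLog ‖X‖)).sum ≤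
        Real.log (l1 F) - Real.log ‖MvPolynomial.aeval (fun k => om' ν ^ (e k)) a‖ := by
      intro ν
      have h1 := jensen_one (spec i₀ (ζ ν) F) (hlc ν).2
      rw [(hlc ν).1] at h1
      have h2 := l1_spec_le i₀ F (ζ ν) (hζn ν)
      have h3 : 0 < ∑ k ∈ (spec i₀ (ζ ν) F).support, ‖(spec i₀ (ζ ν) F).coeff k‖ := by
        apply Finset.sum_pos
        · intro k hk
          exact norm_pos_iff.mpr (Polynomial.mem_support_iff.mp hk)
        · exact Polynomial.nonempty_support_iff.mpr (hlc ν).2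
      have h4 := Real.log_le_log h3 h2
      linarith
    have hsum := Finset.sum_le_sum (s := Finset.univ) fun ν _ => hterm ν
    rw [Finset.sum_sub_distrib, Finset.sum_const, Finset.card_univ, Fintype.card_fin,
      nsmul_eq_mul] at hsum
    have hpos : 0 ≤ ∑ ν, Real.log ‖MvPolynomial.aeval (fun k => om' ν ^ (e k)) a‖ := by
      set A : Polynomial ℤ :=
        MvPolynomial.aeval (fun k => (Polynomial.X : Polynomial ℤ) ^ (e k)) a with hA
      have h1 := orbit_log_nonneg hp A (by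
        intro ω hω
        rw [hA, gj_aeval e ω a]
        exact hH a (by simp) ω hω)
      have h2 : ∑ ν, Real.log ‖MvPolynomial.aeval (fun k => om' ν ^ (e k)) a‖ =
          ∑ ω ∈ primitiveRoots p ℂ, Real.log ‖Polynomial.aeval ω A‖ := by
        rw [← Finset.sum_coe_sort (primitiveRoots p ℂ)]
        refine Fintype.sum_equiv eqv.symm _ _ fun ν => ?_
        rw [hA, gj_aeval e _ a]
      rw [h2]
      exact h1
    linarith

end Pool.Agent.Zil.Gam
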