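import Pool.Agent.Zil.GAMany
import Pool.Agent.Zil.GAJen
import Pool.Agent.Zil.GAFib

set_option autoImplicit false

/-! GA12. The lower bound for the coefficients of the face (section 5.5). -/

namespace Pool.Agent.Zil.Gam

open MvPolynomial

/-- **The count at one `ζ`.** `Y` has at least `κ E ^ t` elements, every `y ∈ Y` has an `X(y) ≠ 0` with
`zz ℓ a ρ y = tw n ζ (X y)`, `|X(y)| ≥ exp (κ E)`, and `g (zz ..) = 0`. The fibres of `y ↦ X(y)` have at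
most `e₀` elements (`hfib`: `D (tw n ζ X) ≠ 0` for `X = X(y)`), so there are at least `κ E ^ t / e₀`
different values `X`; each is a root of `P = spec i₀ ζ F'` of multiplicity at least `s`
(`le_rootMultiplicity`), `log⁺ |X| ≥ κ E`, all other terms of the sum over the roots are `≥ 0`
(`Multiset` sum over `P.roots` = sum over `P.roots.toFinset` of multiplicity times the value). -/
theorem sum_roots_ge {t : ℕ} (i₀ : Fin (t + 1)) (n : Fin (t + 1) → ℤ) (hn : n i₀ ≠ 0)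
    {F F' g D : MvPolynomial (Fin (t + 1)) ℤ} {N s e₀ : ℕ} (hgF : g ^ s ∣ F)
    (ζ : Fin (t + 1) → ℂ) (hζ : ζ i₀ = 1)
    (hF' : ∀ X : ℂ, X ≠ 0 →
      Polynomial.eval X (spec i₀ ζ F') = X ^ N * aeval (tw n ζ X) F)
    (h0 : spec i₀ ζ F' ≠ 0) (z : (Fin t → ℂ) → Fin (t + 1) → ℂ) (Y : Finset (Fin t → ℂ))
    (hg : ∀ y ∈ Y, aeval (z y) g = 0) {B : ℝ} (hB : 0 ≤ B)
    (hY : ∀ y ∈ Y, ∃ X : ℂ, Real.exp B ≤ ‖X‖ ∧ z y = tw n ζ X)
    (hD : ∀ X : ℂ, X ≠ 0 → aeval (tw n ζ X) g = 0 → aeval (tw n ζ X) D ≠ 0)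
    (hfib : ∀ z₀ : Fin (t + 1) → ℂ, aeval z₀ D ≠ 0 → ∀ Y' ⊆ Y, (∀ y ∈ Y', z y = z₀) →
      Y'.card ≤ e₀) :
    (s : ℝ) * Y.card * B ≤ e₀ * ((spec i₀ ζ F').roots.map (fun X => Real.posLog ‖X‖)).sum := by
  classical
  have hpos : 0 ≤ ((spec i₀ ζ F').roots.map (fun X => Real.posLog ‖X‖)).sum := by
    refine Multiset.sum_nonneg ?_
    intro x hx
    obtain ⟨X, -, rfl⟩ := Multiset.mem_map.1 hx
    exact Real.posLog_nonneg
  rcases Nat.eq_zero_or_pos s with hs | hs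
  · rw [hs]
    have : (0 : ℝ) ≤ e₀ * ((spec i₀ ζ F').roots.map (fun X => Real.posLog ‖X‖)).sum :=
      mul_nonneg (Nat.cast_nonneg _) hpos
    simpa using this
  choose! Xf hXf hzf using hY
  set W : Finset ℂ := Y.image Xf with hW
  have hW1 : ∀ u ∈ W, Real.exp B ≤ ‖u‖ ∧ aeval (tw n ζ u) g = 0 := by
    intro u hu
    obtain ⟨y, hy, rfl⟩ := Finset.mem_image.1 hu
    refine ⟨hXf y hy, ?_⟩
    rw [← hzf y hy]
    exact hg y hy
  have hW0 : ∀ u ∈ W, u ≠ 0 := by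
    intro u hu h0'
    have h1 := (hW1 u hu).1
    rw [h0', norm_zero] at h1
    exact absurd h1 (not_le.2 (Real.exp_pos B))
  have hcard : Y.card ≤ e₀ * W.card := by
    refine Finset.card_le_mul_card_image (f := Xf) Y e₀ ?_
    intro u hu
    have hu' : u ∈ W := hu
    refine hfib (tw n ζ u) (hD u (hW0 u hu') (hW1 u hu').2) _ (Finset.filter_subset _ _) ?_
    intro y hy
    obtain ⟨hy1, hy2⟩ := Finset.mem_filter.1 hy
    rw [hzf y hy1, hy2]
  have hmult : ∀ u ∈ W, s ≤ (spec i₀ ζ F').roots.count u := by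
    intro u hu
    rw [Polynomial.count_roots]
    exact le_rootMultiplicity i₀ n hn hgF ζ hζ hF' h0 (hW0 u hu) (hW1 u hu).2
  have hsub : W ⊆ (spec i₀ ζ F').roots.toFinset := by
    intro u hu
    rw [Multiset.mem_toFinset, ← Multiset.count_pos]
    exact lt_of_lt_of_le hs (hmult u hu)
  have hsum : (W.card : ℝ) * (s * B) ≤
      ((spec i₀ ζ F').roots.map (fun X => Real.posLog ‖X‖)).sum := by
    rw [Finset.sum_multiset_map_count]
    calc (W.card : ℝ) * (s * B) = ∑ _u ∈ W, (s * B : ℝ) := by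
          rw [Finset.sum_const, nsmul_eq_mul]
      _ ≤ ∑ u ∈ W, (spec i₀ ζ F').roots.count u • Real.posLog ‖u‖ := by
          refine Finset.sum_le_sum fun u hu => ?_
          rw [nsmul_eq_mul]
          have h1 : B ≤ Real.posLog ‖u‖ := by
            have h2 : B ≤ Real.log ‖u‖ := by
              have h3 := Real.log_le_log (Real.exp_pos B) (hW1 u hu).1
              rwa [Real.log_exp] at h3
            exact h2.trans (le_max_right _ _)
          have h4 : (s : ℝ) ≤ ((spec i₀ ζ F').roots.count u : ℕ) := by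
            exact_mod_cast hmult u hu
          exact mul_le_mul h4 h1 hB (Nat.cast_nonneg _)
      _ ≤ ∑ u ∈ (spec i₀ ζ F').roots.toFinset,
            (spec i₀ ζ F').roots.count u • Real.posLog ‖u‖ := by
          refine Finset.sum_le_sum_of_subset_of_nonneg hsub fun u _ _ => ?_
          exact nsmul_nonneg Real.posLog_nonneg _
  have hc : (Y.card : ℝ) ≤ e₀ * W.card := by exact_mod_cast hcard
  have hsB : 0 ≤ (s : ℝ) * B := mul_nonneg (Nat.cast_nonneg _) hB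
  calc (s : ℝ) * Y.card * B = Y.card * (s * B) := by ring
    _ ≤ (e₀ * W.card) * (s * B) := mul_le_mul_of_nonneg_right hc hsB
    _ = e₀ * (W.card * (s * B)) := by ring
    _ ≤ _ := mul_le_mul_of_nonneg_left hsum (Nat.cast_nonneg _)

/-- **The lower bound.** `many_points` for `E, a, ρ` gives `i₀, n`; `exists_twist` gives `F'` (for
`F`), `exists_bad_poly` gives `h`, `jensen_orbit` (for `F'`, `h`) gives `ζ ν`. For each `ν` `sum_roots_ge` with
the points `Y` of `many_points` (`D ≠ 0` where `g = 0`, because `h (ζ ν) ≠ 0`), `B = κ E`: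
`s κ E ^ t κ E ≤ e₀ * sum`; sum over `ν` and divide by `N > 0`. `κ, E₀` are those of `many_points`. -/
theorem gamma_face {t q : ℕ} {U : Set (Fin t → ℂ)} (hU : IsOpen U)
    {ℓ : (Fin t → ℂ) → Fin q → ℂ} (hℓ : ContDiffOn ℂ 2 ℓ U) {R : Fin (t + 1) → Fin q → ℝ}
    (hR : LinearIndependent ℝ R) (hN : NoConst U ℓ)
    (hr : ∃ y ∈ U, LinearIndependent ℂ (om (fun y i => ∑ s, (R i s : ℂ) * ℓ y s) y)) (C : ℝ) :
    ∃ κ : ℝ, 0 < κ ∧ ∃ E₀ : ℝ, 0 < E₀ ∧ ∀ E : ℝ, E₀ ≤ E →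
      ∀ a : Fin (t + 1) → Fin q → ℤ, (∀ i s, |(a i s : ℝ) - E * R i s| ≤ C) →
      ∀ ρ : Fin (t + 1) → ℂ, (∀ i, ρ i ≠ 0) → (∀ i, |Real.log ‖ρ i‖| ≤ C * E) →
      ∀ (F g D : MvPolynomial (Fin (t + 1)) ℤ) (s e₀ : ℕ), F ≠ 0 → g ^ s ∣ F →
        Irreducible (map (Int.castRingHom ℚ) g) →
        ¬ map (Int.castRingHom ℚ) g ∣ map (Int.castRingHom ℚ) D →
        (∀ y ∈ U, aeval (zz ℓ a ρ y) g = 0) →
        (∀ z₀ : Fin (t + 1) → ℂ, aeval z₀ D ≠ 0 → ∀ Y' : Finset (Fin t → ℂ), (∀ y ∈ Y', y ∈ U) →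
          (∀ y ∈ Y', zz ℓ a ρ y = z₀) → Y'.card ≤ e₀) →
        (s : ℝ) * (κ * E ^ t) * (κ * E) ≤ e₀ * Real.log (l1 F) := by
  obtain ⟨κ, hκ, E₀, hE₀, NA, hmp⟩ := many_points hU hℓ hR hN hr C
  refine ⟨κ, hκ, E₀, hE₀, fun E hE a ha ρ hρ hρ' F g D s e₀ hF hgF hgi hgD hgU hfib => ?_⟩
  have hE0 : 0 < E := lt_of_lt_of_le hE₀ hE
  obtain ⟨i₀, n, hn, -, hY⟩ := hmp E hE a ha ρ hρ hρ'
  obtain ⟨F', N₀, hl1, hF'0, hF'⟩ := exists_twist i₀ n hn F
  obtain ⟨h, hh0, hbad⟩ := exists_bad_poly i₀ n hn g D hgi hgD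
  obtain ⟨N, ζ, hN0, hζ, hsum⟩ := jensen_orbit i₀ F' (hF'0 hF) h hh0
  have key : ∀ ν : Fin N, (s : ℝ) * (κ * E ^ t) * (κ * E) ≤
      e₀ * ((spec i₀ (ζ ν) F').roots.map (fun X => Real.posLog ‖X‖)).sum := by
    intro ν
    obtain ⟨h1, h2, h3, h4⟩ := hζ ν
    obtain ⟨Y, hYc, hYp⟩ := hY (ζ ν) h1
    have hB : 0 ≤ κ * E := (mul_pos hκ hE0).le
    have h5 := sum_roots_ge i₀ n hn hgF (ζ ν) h2 (fun X hX => hF' X (ζ ν) hX h2) h4
      (zz ℓ a ρ) Y (fun y hy => hgU y (hYp y hy).1) hB (fun y hy => (hYp y hy).2)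
      (fun X hX hgX hDX => h3 (hbad X (ζ ν) hX h2 hgX hDX)) (e₀ := e₀) (D := D)
      (fun z₀ hz₀ Y' hY' hy' => hfib z₀ hz₀ Y' (fun y hy => (hYp y (hY' hy)).1) hy')
    refine le_trans ?_ h5
    refine mul_le_mul_of_nonneg_right ?_ hB
    exact mul_le_mul_of_nonneg_left hYc (Nat.cast_nonneg _)
  have hN' : (0 : ℝ) < N := by exact_mod_cast hN0
  have htot : (N : ℝ) * ((s : ℝ) * (κ * E ^ t) * (κ * E)) ≤ N * (e₀ * Real.log (l1 F)) := by
    calc (N : ℝ) * ((s : ℝ) * (κ * E ^ t) * (κ * E)) =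
          ∑ _ν : Fin N, ((s : ℝ) * (κ * E ^ t) * (κ * E)) := by
          rw [Finset.sum_const, Finset.card_univ, Fintype.card_fin, nsmul_eq_mul]
      _ ≤ ∑ ν : Fin N, e₀ * ((spec i₀ (ζ ν) F').roots.map
            (fun X => Real.posLog ‖X‖)).sum := Finset.sum_le_sum fun ν _ => key ν
      _ = e₀ * ∑ ν : Fin N, ((spec i₀ (ζ ν) F').roots.map
            (fun X => Real.posLog ‖X‖)).sum := by rw [Finset.mul_sum]
      _ ≤ e₀ * (N * Real.log (l1 F')) := mul_le_mul_of_nonneg_left hsum (Nat.cast_nonneg _)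
      _ = N * (e₀ * Real.log (l1 F)) := by rw [hl1]; ring
  exact le_of_mul_le_mul_left htot hN'

end Pool.Agent.Zil.Gam
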