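import Pool.Agent.Zil.GADefs

set_option autoImplicit false

/-! GA9a. Tools for Jensen's formula on an orbit of torsion points. -/

namespace Pool.Agent.Zil.Gam

open Polynomial in
/-- The product of the `A(ω)` over the primitive `p`-th roots of unity `ω` is a rational integer (the
resultant of the cyclotomic polynomial and `A`; or the norm of `A(ω)` in the cyclotomic field,
`Algebra.norm_eq_prod_embeddings`, which is an integer because `A(ω)` is integral) and it is not `0`, so its
absolute value is at least `1`; logarithm of the product. -/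
theorem orbit_log_nonneg {p : ℕ} (hp : p.Prime) (A : ℤ[X])
    (hA : ∀ ω ∈ primitiveRoots p ℂ, aeval ω A ≠ 0) :
    0 ≤ ∑ ω ∈ primitiveRoots p ℂ, Real.log ‖aeval ω A‖ := by
  set φ := Int.castRingHom ℂ with hφ
  have hp0 : NeZero ((p : ℕ) : ℂ) := ⟨Nat.cast_ne_zero.2 hp.ne_zero⟩
  have h1 : (cyclotomic p ℤ).map φ = cyclotomic p ℂ := map_cyclotomic_int p ℂ
  have h2 := resultant_eq_prod_eval (cyclotomic p ℂ) (A.map φ) A.natDegree natDegree_map_le
    (IsAlgClosed.splits _)
  rw [(cyclotomic.monic p ℂ).leadingCoeff, one_pow, one_mul,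
    cyclotomic.roots_eq_primitiveRoots_val] at h2
  have h3 : ((primitiveRoots p ℂ).val.map (A.map φ).eval).prod =
      ∏ ω ∈ primitiveRoots p ℂ, aeval ω A := by
    show _ = ((primitiveRoots p ℂ).val.map fun ω => aeval ω A).prod
    congr 1
    refine Multiset.map_congr rfl fun ω _ => ?_
    rw [eval_map]
    rfl
  rw [h3, ← h1, resultant_map_map] at h2
  have h4 : (∏ ω ∈ primitiveRoots p ℂ, aeval ω A) ≠ 0 := Finset.prod_ne_zero_iff.2 hA
  rw [← h2] at h4
  have h5 : (1 : ℝ) ≤ ‖∏ ω ∈ primitiveRoots p ℂ, aeval ω A‖ := by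
    rw [← h2]
    rw [hφ, eq_intCast] at h4 ⊢
    have h6 : resultant (cyclotomic p ℤ) A ((cyclotomic p ℤ).map φ).natDegree A.natDegree ≠ 0 := by
      intro h7
      exact h4 (by rw [h7, Int.cast_zero])
    rw [Complex.norm_intCast]
    exact_mod_cast Int.one_le_abs h6
  rw [norm_prod] at h5
  rw [← Real.log_prod fun ω hω => norm_ne_zero_iff.2 (hA ω hω)]
  exact Real.log_nonneg h5

/-- Kronecker substitution -/
private lemma kron {t : ℕ} (h : MvPolynomial (Fin t) ℤ) (hh : h ≠ 0) (d : ℕ)
    (hd : ∀ m ∈ h.support, ∀ k, m k < d) :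
    MvPolynomial.aeval (fun k : Fin t => (Polynomial.X : Polynomial ℤ) ^ (d ^ (k : ℕ))) h ≠ 0 := by
  have h1 : MvPolynomial.aeval (fun k : Fin t => (Polynomial.X : Polynomial ℤ) ^ (d ^ (k : ℕ))) h =
      ∑ m ∈ h.support, Polynomial.monomial (∑ k, m k * d ^ (k : ℕ)) (MvPolynomial.coeff m h) := by
    rw [MvPolynomial.aeval_def, MvPolynomial.eval₂_eq']
    refine Finset.sum_congr rfl fun m _ => ?_
    rw [← Polynomial.C_mul_X_pow_eq_monomial, ← Finset.prod_pow_eq_pow_sum]
    congr 1
    refine Finset.prod_congr rfl fun k _ => ?_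
    rw [← pow_mul, mul_comm]
  obtain ⟨m₀, hm₀⟩ := Finset.nonempty_of_ne_empty (mt MvPolynomial.support_eq_empty.1 hh)
  intro h2
  have h3 := congrArg (fun q => Polynomial.coeff q (∑ k, m₀ k * d ^ (k : ℕ))) h2
  simp only [Polynomial.coeff_zero] at h3
  rw [h1, Polynomial.finsetSum_coeff, Finset.sum_eq_single m₀] at h3
  · rw [Polynomial.coeff_monomial, if_pos rfl] at h3
    exact MvPolynomial.mem_support_iff.1 hm₀ h3
  · intro m hm hne
    rw [Polynomial.coeff_monomial, if_neg]
    intro h4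
    apply hne
    have h5 : (finFunctionFinEquiv (fun k : Fin t => (⟨m k, hd m hm k⟩ : Fin d)) : ℕ) =
        (finFunctionFinEquiv (fun k : Fin t => (⟨m₀ k, hd m₀ hm₀ k⟩ : Fin d)) : ℕ) := by
      rw [finFunctionFinEquiv_apply, finFunctionFinEquiv_apply]
      exact h4
    have h6 := finFunctionFinEquiv.injective (Fin.ext h5)
    ext k
    exact congrArg Fin.val (congrFun h6 k)
  · intro h4
    exact absurd hm₀ h4

/-- Kronecker substitution: for `d` larger than all exponents in the polynomials of the finite set `H` let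
`e k = d ^ k`; then for `h ∈ H` the polynomial `A_h(T) = h (T ^ (e k))_k` in one variable is not `0`
(different monomials have different exponents in base `d`); take a prime `p` larger than
all `natDegree A_h + 1`: a primitive `p`-th root of unity has degree `p - 1` over `ℚ`
(`Polynomial.cyclotomic_eq_minpoly`, `minpoly.degree_le_of_ne_zero` or `natDegree_cyclotomic`), so it is not a
root of `A_h`. -/
theorem exists_orbit {t : ℕ} (H : Finset (MvPolynomial (Fin t) ℤ)) (hH : ∀ h ∈ H, h ≠ 0) :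
    ∃ (p : ℕ) (e : Fin t → ℕ), p.Prime ∧ ∀ h ∈ H, ∀ ω ∈ primitiveRoots p ℂ,
      MvPolynomial.aeval (fun k => ω ^ (e k)) h ≠ 0 := by
  classical
  set d := (H.sup fun h => h.support.sup fun m => Finset.univ.sup fun k => m k) + 1 with hd
  have hd' : ∀ h ∈ H, ∀ m ∈ h.support, ∀ k, m k < d := by
    intro h hh m hm k
    rw [hd]
    refine Nat.lt_succ_of_le ?_
    exact ((Finset.le_sup (f := fun k => m k) (Finset.mem_univ k)).trans
      (Finset.le_sup (f := fun m : Fin t →₀ ℕ => Finset.univ.sup fun k => m k) hm)).trans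
      (Finset.le_sup (f := fun h : MvPolynomial (Fin t) ℤ =>
        h.support.sup fun m => Finset.univ.sup fun k => m k) hh)
  set B : MvPolynomial (Fin t) ℤ → Polynomial ℤ := fun h =>
    MvPolynomial.aeval (fun k : Fin t => (Polynomial.X : Polynomial ℤ) ^ (d ^ (k : ℕ))) h with hB
  obtain ⟨p, hp1, hp⟩ := Nat.exists_infinite_primes ((H.sup fun h => (B h).natDegree) + 2)
  refine ⟨p, fun k => d ^ (k : ℕ), hp, fun h hh ω hω h0 => ?_⟩
  have hω' : IsPrimitiveRoot ω p := (mem_primitiveRoots hp.pos).1 hω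
  have h1 : Polynomial.aeval ω (B h) = 0 := by
    rw [hB]
    simp only
    rw [MvPolynomial.comp_aeval_apply]
    simpa only [map_pow, Polynomial.aeval_X] using h0
  have h2 := minpoly.isIntegrallyClosed_dvd (hω'.isIntegral hp.pos) h1
  rw [← Polynomial.cyclotomic_eq_minpoly hω' hp.pos] at h2
  have h3 := Polynomial.natDegree_le_of_dvd h2 (kron h (hH h hh) d (hd' h hh))
  rw [Polynomial.natDegree_cyclotomic, Nat.totient_prime hp] at h3
  have h4 := Finset.le_sup (f := fun h => (B h).natDegree) hh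
  have h5 : (MvPolynomial.aeval (fun k : Fin t => (Polynomial.X : Polynomial ℤ) ^ (d ^ (k : ℕ)))
      h).natDegree ≤ H.sup fun h => (B h).natDegree := h4
  omega

open Polynomial in
/-- `Polynomial.mahlerMeasure_eq_leadingCoeff_mul_prod_roots` and
`Polynomial.mahlerMeasure_le_sum_norm_coeff` (names may differ: Analysis/Polynomial/MahlerMeasure). -/
theorem jensen_one (P : ℂ[X]) (hP : P ≠ 0) :
    Real.log ‖P.leadingCoeff‖ + (P.roots.map (fun X => Real.posLog ‖X‖)).sum ≤
      Real.log (∑ k ∈ P.support, ‖P.coeff k‖) := by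
  rw [← logMahlerMeasure_eq_log_leadingCoeff_add_sum_log_roots,
    logMahlerMeasure_eq_log_MahlerMeasure]
  exact Real.log_le_log (mahlerMeasure_pos_of_ne_zero hP) (mahlerMeasure_le_sum_norm_coeff P)

/-- The sum of the absolute values of the coefficients of `F(X, ζ)`, `|ζ_i| = 1`, is at most `l1 F`
(`MvPolynomial.aeval_def`, `eval₂_eq`; triangle inequality). -/
theorem l1_spec_le {t : ℕ} (i₀ : Fin (t + 1)) (F : MvPolynomial (Fin (t + 1)) ℤ)
    (ζ : Fin (t + 1) → ℂ) (hζ : ∀ i, ‖ζ i‖ = 1) :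
    ∑ k ∈ (spec i₀ ζ F).support, ‖(spec i₀ ζ F).coeff k‖ ≤ l1 F := by
  classical
  set b : (Fin (t + 1) →₀ ℕ) → ℂ := fun m =>
    ((MvPolynomial.coeff m F : ℤ) : ℂ) * ∏ i, (if i = i₀ then 1 else ζ i) ^ (m i) with hb
  have hbn : ∀ m, ‖b m‖ = |((MvPolynomial.coeff m F : ℤ) : ℝ)| := by
    intro m
    have h1 : ‖∏ i, (if i = i₀ then (1 : ℂ) else ζ i) ^ (m i)‖ = 1 := by
      rw [norm_prod]
      refine Finset.prod_eq_one fun i _ => ?_
      rw [norm_pow]
      split_ifs
      · rw [norm_one, one_pow]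
      · rw [hζ i, one_pow]
    rw [hb]
    simp only
    rw [norm_mul, h1, mul_one, Complex.norm_intCast]
  have hs : spec i₀ ζ F = ∑ m ∈ F.support, Polynomial.monomial (m i₀) (b m) := by
    unfold spec
    rw [MvPolynomial.aeval_def, MvPolynomial.eval₂_eq']
    refine Finset.sum_congr rfl fun m _ => ?_
    have h1 : ∏ i, (if i = i₀ then (Polynomial.X : Polynomial ℂ) else Polynomial.C (ζ i)) ^ (m i) =
        Polynomial.C (∏ i, (if i = i₀ then 1 else ζ i) ^ (m i)) * Polynomial.X ^ (m i₀) := by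
      have h2 : ∀ i, (if i = i₀ then (Polynomial.X : Polynomial ℂ) else Polynomial.C (ζ i)) ^ (m i) =
          Polynomial.C ((if i = i₀ then 1 else ζ i) ^ (m i)) *
            (if i = i₀ then (Polynomial.X : Polynomial ℂ) ^ (m i₀) else 1) := by
        intro i
        split_ifs with h3
        · rw [h3, one_pow, map_one, one_mul]
        · rw [mul_one, map_pow]
      rw [Finset.prod_congr rfl fun i _ => h2 i, Finset.prod_mul_distrib, ← map_prod,
        Finset.prod_ite_eq' Finset.univ i₀, if_pos (Finset.mem_univ _)]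
    rw [h1, ← Polynomial.C_mul_X_pow_eq_monomial, hb]
    simp only
    rw [map_mul, mul_assoc]
    rfl
  have h2 : ∀ k, ‖(spec i₀ ζ F).coeff k‖ ≤ ∑ m ∈ F.support, if m i₀ = k then ‖b m‖ else 0 := by
    intro k
    rw [hs, Polynomial.finsetSum_coeff]
    refine (norm_sum_le _ _).trans (Finset.sum_le_sum fun m _ => ?_)
    rw [Polynomial.coeff_monomial]
    split_ifs
    · exact le_rfl
    · rw [norm_zero]
  refine (Finset.sum_le_sum fun k _ => h2 k).trans ?_
  rw [Finset.sum_comm]
  unfold l1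
  refine Finset.sum_le_sum fun m _ => ?_
  rw [Finset.sum_ite_eq, ← hbn]
  split_ifs
  · exact le_rfl
  · exact norm_nonneg _

end Pool.Agent.Zil.Gam
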