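import Pool.Agent.Zil.GADefs

set_option autoImplicit false

/-! GA1. Linear algebra of `Dt` and `phi`. -/

namespace Pool.Agent.Zil.Gam

variable {t : ℕ} {A : Fin t → Fin (t + 1) → ℂ}

/-- The determinant as a linear function of the first row. -/
private noncomputable def dl (A : Fin t → Fin (t + 1) → ℂ) : (Fin (t + 1) → ℂ) →ₗ[ℂ] ℂ :=
  (Matrix.detRowAlternating (n := Fin (t + 1)) (R := ℂ)).toMultilinearMap.toLinearMap
    (Fin.cons 0 A) 0

private theorem dl_eq (A : Fin t → Fin (t + 1) → ℂ) (u : Fin (t + 1) → ℂ) :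
    dl A u = Dt A u := by
  have h1 : Function.update (Fin.cons (0 : Fin (t + 1) → ℂ) A : Fin (t + 1) → Fin (t + 1) → ℂ)
      0 u = Fin.cons u A := Fin.update_cons_zero _ _ _
  change Matrix.det (Matrix.of (Function.update
    (Fin.cons (0 : Fin (t + 1) → ℂ) A : Fin (t + 1) → Fin (t + 1) → ℂ) 0 u)) = _
  rw [h1]
  rfl

/-- Expansion in the first row (`Matrix.det_succ_row_zero`) or linearity of the determinant in
the first row (`MultilinearMap`, `Matrix.det_updateRow_add`, `Matrix.det_updateRow_smul`): both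
sides are linear in `u`, and `u = ∑ i, u i • Pi.single i 1`. -/
theorem Dt_eq (A : Fin t → Fin (t + 1) → ℂ) (u : Fin (t + 1) → ℂ) :
    Dt A u = ∑ i, phi A i * u i := by
  rw [← dl_eq, LinearMap.pi_apply_eq_sum_univ (dl A) u]
  refine Finset.sum_congr rfl fun i _ => ?_
  have h1 : (fun j => if i = j then (1 : ℂ) else 0) = Pi.single i 1 := by
    funext j
    rw [Pi.single_apply]
    by_cases h : i = j
    · rw [if_pos h, if_pos h.symm]
    · rw [if_neg h, if_neg fun h' => h h'.symm]
  rw [h1, dl_eq, smul_eq_mul, mul_comm]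
  rfl

private theorem Dt_ne_iff {u : Fin (t + 1) → ℂ} :
    Dt A u ≠ 0 ↔ LinearIndependent ℂ (Fin.cons u A : Fin (t + 1) → Fin (t + 1) → ℂ) := by
  have h1 := Matrix.linearIndependent_rows_iff_isUnit
    (A := Matrix.of (Fin.cons u A : Fin (t + 1) → Fin (t + 1) → ℂ))
  rw [Matrix.isUnit_iff_isUnit_det, isUnit_iff_ne_zero] at h1
  exact h1.symm

private theorem li_of_ne {u : Fin (t + 1) → ℂ} (hu : Dt A u ≠ 0) :
    LinearIndependent ℂ A ∧ u ∉ Submodule.span ℂ (Set.range A) :=
  linearIndependent_finCons.1 (Dt_ne_iff.1 hu)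

private theorem exists_ne (hA : LinearIndependent ℂ A) : ∃ u, Dt A u ≠ 0 := by
  have h1 : Submodule.span ℂ (Set.range A) ≠ ⊤ := by
    intro h
    have h2 := finrank_span_eq_card hA
    rw [h, finrank_top, Module.finrank_fin_fun, Fintype.card_fin] at h2
    omega
  obtain ⟨u, _, hu⟩ := SetLike.exists_of_lt (lt_top_iff_ne_top.2 h1)
  exact ⟨u, Dt_ne_iff.2 (linearIndependent_finCons.2 ⟨hA, hu⟩)⟩

/-- Two equal rows. -/
theorem Dt_self (A : Fin t → Fin (t + 1) → ℂ) (b : Fin t) : Dt A (A b) = 0 := by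
  refine Matrix.det_zero_of_row_eq (i := 0) (j := b.succ) (Fin.succ_ne_zero b).symm ?_
  change (Fin.cons (A b) A : Fin (t + 1) → Fin (t + 1) → ℂ) 0 =
    (Fin.cons (A b) A : Fin (t + 1) → Fin (t + 1) → ℂ) b.succ
  rw [Fin.cons_zero, Fin.cons_succ]

/-- If `A` is linearly independent there is `u` with `u, A_1, .., A_t` independent
(`Fin (t+1) → ℂ` has dimension `t + 1`), so `Dt A u ≠ 0`, so some `phi A i ≠ 0` by `Dt_eq`. Conversely a
linear relation between the `A b` gives `Dt A u = 0` for all `u`. -/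
theorem phi_ne_zero_iff : (∃ i, phi A i ≠ 0) ↔ LinearIndependent ℂ A := by
  constructor
  · rintro ⟨i, hi⟩
    exact (li_of_ne hi).1
  · intro hA
    obtain ⟨u, hu⟩ := exists_ne hA
    by_contra h
    push Not at h
    apply hu
    rw [Dt_eq]
    exact Finset.sum_eq_zero fun i _ => by rw [h i, zero_mul]

/-- `Dt A u ≠ 0` iff `u, A_1, …, A_t` are linearly independent; so a combination of the `A b` which is a
multiple of `u` is `0`. -/
theorem eq_zero_of_comb {u : Fin (t + 1) → ℂ} (hu : Dt A u ≠ 0) (v : Fin t → ℂ) (lam : ℂ)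
    (h : ∑ b, v b • A b = lam • u) : v = 0 := by
  obtain ⟨hA, hus⟩ := li_of_ne hu
  have hm : ∑ b, v b • A b ∈ Submodule.span ℂ (Set.range A) :=
    Submodule.sum_mem _ fun b _ => Submodule.smul_mem _ _ (Submodule.subset_span ⟨b, rfl⟩)
  have hl : lam = 0 := by
    by_contra hl
    apply hus
    rw [h] at hm
    exact (Submodule.smul_mem_iff _ hl).1 hm
  rw [hl, zero_smul] at h
  funext b
  exact Fintype.linearIndependent_iff.1 hA v h b

/-- The functionals which vanish on all `A b` (`A` independent: they form a line) are multiples of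
`phi`: the space of these functionals has dimension `1` and `phi A ≠ 0` is in it (`Dt_eq`,
`Dt_self`). -/
theorem eq_smul_phi (hA : LinearIndependent ℂ A) (ψ : Fin (t + 1) → ℂ)
    (h : ∀ b, ∑ i, ψ i * A b i = 0) : ∃ lam : ℂ, ∀ i, ψ i = lam * phi A i := by
  obtain ⟨u, hu⟩ := exists_ne hA
  have hli := Dt_ne_iff.1 hu
  have htop : Submodule.span ℂ (Set.range (Fin.cons u A : Fin (t + 1) → Fin (t + 1) → ℂ)) = ⊤ :=
    hli.span_eq_top_of_card_eq_finrank' (by simp)
  let lam : ℂ := (∑ i, ψ i * u i) / Dt A u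
  let P : (Fin (t + 1) → ℂ) →ₗ[ℂ] ℂ :=
    { toFun := fun v => ∑ i, ψ i * v i
      map_add' := fun v w => by
        simp only [Pi.add_apply, mul_add, Finset.sum_add_distrib]
      map_smul' := fun c v => by
        simp only [Pi.smul_apply, smul_eq_mul, RingHom.id_apply, Finset.mul_sum]
        exact Finset.sum_congr rfl fun i _ => by ring }
  have hP : ∀ v, P v = ∑ i, ψ i * v i := fun v => rfl
  let Q : (Fin (t + 1) → ℂ) →ₗ[ℂ] ℂ := P - lam • dl A
  have hQ : ∀ v, Q v = P v - lam * Dt A v := fun v => by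
    rw [← dl_eq]
    rfl
  have hk : Submodule.span ℂ (Set.range (Fin.cons u A : Fin (t + 1) → Fin (t + 1) → ℂ)) ≤
      LinearMap.ker Q := by
    rw [Submodule.span_le]
    rintro v ⟨j, rfl⟩
    refine Fin.cases ?_ (fun b => ?_) j
    · change Q _ = 0
      rw [hQ, Fin.cons_zero, hP]
      simp only [lam]
      rw [div_mul_cancel₀ _ hu, sub_self]
    · change Q _ = 0
      rw [hQ, Fin.cons_succ, hP, h b, Dt_self, mul_zero, sub_self]
  refine ⟨lam, fun i => ?_⟩
  have h1 : Q (Pi.single i 1) = 0 := hk (htop ▸ Submodule.mem_top)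
  rw [hQ, hP] at h1
  have h2 : ∑ j, ψ j * (Pi.single i (1 : ℂ) : Fin (t + 1) → ℂ) j = ψ i := by
    rw [Finset.sum_eq_single i]
    · rw [Pi.single_eq_same, mul_one]
    · intro j _ hj
      rw [Pi.single_eq_of_ne hj, mul_zero]
    · intro hi
      exact absurd (Finset.mem_univ i) hi
  rw [h2] at h1
  exact sub_eq_zero.1 h1

/-- If `Dt A (conj (A b)) = 0` for all `b`, then by `Dt_eq` `∑ i, phi i * conj (A b i) = 0`, conjugate:
`∑ i, conj (phi i) * A b i = 0`, so `conj (phi i) = lam * phi i` for all `i` (`eq_smul_phi`), and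
`phi i * conj (phi k) = lam * phi i * phi k` is symmetric in `i, k`, so it is equal to its conjugate
`conj (phi i) * phi k`, so it is real. -/
theorem not_nonReal_of_conj (hA : LinearIndependent ℂ A)
    (h : ∀ b, Dt A (fun i => (starRingEnd ℂ) (A b i)) = 0) : ¬ NonReal A := by
  obtain ⟨lam, hl⟩ := eq_smul_phi hA (fun i => (starRingEnd ℂ) (phi A i)) (fun b => by
    have h1 := h b
    rw [Dt_eq] at h1
    have h2 := congrArg (starRingEnd ℂ) h1
    rw [map_sum, map_zero] at h2
    simpa only [map_mul, Complex.conj_conj] using h2)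
  rintro ⟨i, k, hik⟩
  apply hik
  apply Complex.conj_eq_iff_im.1
  rw [map_mul, Complex.conj_conj]
  have h3 : (starRingEnd ℂ) (phi A i) = lam * phi A i := hl i
  have h4 : (starRingEnd ℂ) (phi A k) = lam * phi A k := hl k
  rw [h3, h4]
  ring

/-- A real vector `c ≠ 0` with `∑ i, c i * A b i = 0` for all `b` is a multiple of `phi`
(`eq_smul_phi`: `c i = lam * phi i`, `lam ≠ 0`), so `phi i * conj (phi k) = c i * c k / |lam|^2` is
real. -/
theorem not_nonReal_of_real (hA : LinearIndependent ℂ A) (c : Fin (t + 1) → ℝ) (hc : c ≠ 0)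
    (h : ∀ b, ∑ i, (c i : ℂ) * A b i = 0) : ¬ NonReal A := by
  obtain ⟨lam, hl⟩ := eq_smul_phi hA (fun i => (c i : ℂ)) h
  have hlam : lam ≠ 0 := by
    rintro rfl
    apply hc
    funext i
    have h1 : (c i : ℂ) = 0 * phi A i := hl i
    rw [zero_mul] at h1
    exact_mod_cast h1
  have hlam' : (starRingEnd ℂ) lam ≠ 0 := (map_ne_zero _).2 hlam
  have hphi : ∀ i, phi A i = (c i : ℂ) / lam := fun i => by
    have h1 : (c i : ℂ) = lam * phi A i := hl i
    rw [h1, mul_div_cancel_left₀ _ hlam]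
  rintro ⟨i, k, hik⟩
  apply hik
  apply Complex.conj_eq_iff_im.1
  rw [map_mul, Complex.conj_conj, hphi i, hphi k, map_div₀, map_div₀, Complex.conj_ofReal,
    Complex.conj_ofReal]
  field_simp

end Pool.Agent.Zil.Gam
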