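import Mathlib

set_option autoImplicit false

/-! GA6. Quantitative inverse function theorem for perturbations, and a count of integer points. -/

namespace Pool.Agent.Zil.Gam

/-- `Ψ'(y)` is injective, so invertible (same dimension). Choose `r ≤ r₀` such that `closedBall y r ⊆ U`
and `‖fderiv Ψ y' - fderiv Ψ y‖ ≤ c₁` on `closedBall y r` (continuity of the derivative), where `2 c₁` is
smaller than half of `‖(fderiv Ψ y)⁻¹‖⁻¹` (any `c₁` if the space is trivial). For `Θ` as in the statement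
`‖fderiv Θ y' - fderiv Ψ y‖ ≤ 2 c₁` on the ball, so `Θ` satisfies `ApproximatesLinearOn Θ (fderiv Ψ y)
(closedBall y r) (2 c₁)` (mean value inequality, `Convex.norm_image_sub_le_of_norm_fderiv_le` or
`Convex.norm_image_sub_le_of_norm_hasFDerivWithin_le` for `Θ - fderiv Ψ y`), and
`ApproximatesLinearOn.surjOn_closedBall_of_nonlinearRightInverse` gives the claim with
`ε = (‖inverse‖⁻¹ - 2 c₁) r`. -/
theorem surj_perturb {t : ℕ} {U : Set (Fin t → ℂ)} (hU : IsOpen U)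
    {Ψ : (Fin t → ℂ) → Fin t → ℂ} (hΨ : ContDiffOn ℂ 1 Ψ U) {y : Fin t → ℂ} (hy : y ∈ U)
    (hinv : ∀ v, fderiv ℂ Ψ y v = 0 → v = 0) {r₀ : ℝ} (hr₀ : 0 < r₀) :
    ∃ r : ℝ, 0 < r ∧ r ≤ r₀ ∧ Metric.closedBall y r ⊆ U ∧ ∃ ε : ℝ, 0 < ε ∧ ∃ c₁ : ℝ, 0 < c₁ ∧
      ∀ Θ : (Fin t → ℂ) → Fin t → ℂ, (∀ y' ∈ Metric.closedBall y r, DifferentiableAt ℂ Θ y' ∧
        ‖fderiv ℂ Θ y' - fderiv ℂ Ψ y'‖ ≤ c₁) →
        Metric.closedBall (Θ y) ε ⊆ Θ '' Metric.closedBall y r := by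
  classical
  set A := fderiv ℂ Ψ y with hA
  have hinj : Function.Injective A := (injective_iff_map_eq_zero A).2 hinv
  have hsur : Function.Surjective A := by
    have h1 : Function.Injective (A : (Fin t → ℂ) →ₗ[ℂ] (Fin t → ℂ)) := hinj
    exact LinearMap.injective_iff_surjective.1 h1
  obtain ⟨R, hR⟩ := A.exists_nonlinearRightInverse_of_surjective (LinearMap.range_eq_top.2 hsur)
  have hR' : (0 : ℝ) < R.nnnorm := hR
  set c₁ : ℝ := (R.nnnorm : ℝ)⁻¹ / 4 with hc₁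
  have hc₁0 : 0 < c₁ := by positivity
  -- the radius
  have hcont : ContinuousAt (fun x => fderiv ℂ Ψ x) y :=
    (hΨ.continuousOn_fderiv_of_isOpen hU le_rfl).continuousAt (hU.mem_nhds hy)
  have h1 : ∀ᶠ x in nhds y, ‖fderiv ℂ Ψ x - A‖ < c₁ := by
    have h2 := Metric.continuousAt_iff'.1 hcont c₁ hc₁0
    filter_upwards [h2] with x hx
    rwa [dist_eq_norm] at hx
  have h2 : ∀ᶠ x in nhds y, x ∈ U := hU.mem_nhds hy
  obtain ⟨r₁, hr₁, hr₁'⟩ := Metric.nhds_basis_closedBall.mem_iff.1 (h1.and h2)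
  refine ⟨min r₀ r₁, lt_min hr₀ hr₁, min_le_left _ _, ?_, ?_⟩
  · exact fun x hx => (hr₁' (Metric.closedBall_subset_closedBall (min_le_right _ _) hx)).2
  set r := min r₀ r₁ with hr
  have hr0 : 0 < r := lt_min hr₀ hr₁
  refine ⟨((R.nnnorm : ℝ)⁻¹ - 2 * c₁) * r, ?_, c₁, hc₁0, fun Θ hΘ => ?_⟩
  · have : (R.nnnorm : ℝ)⁻¹ - 2 * c₁ = (R.nnnorm : ℝ)⁻¹ / 2 := by
      rw [hc₁]
      ring
    rw [this]
    positivity
  have happ : ApproximatesLinearOn Θ A (Metric.closedBall y r) ⟨2 * c₁, by positivity⟩ := by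
    intro u hu v hv
    refine (convex_closedBall y r).norm_image_sub_le_of_norm_fderiv_le' (𝕜 := ℂ)
      (fun x hx => (hΘ x hx).1) (fun x hx => ?_) hv hu
    have h3 := (hΘ x hx).2
    have h4 := (hr₁' (Metric.closedBall_subset_closedBall (min_le_right _ _) hx)).1
    calc ‖fderiv ℂ Θ x - A‖ = ‖(fderiv ℂ Θ x - fderiv ℂ Ψ x) + (fderiv ℂ Ψ x - A)‖ := by
          congr 1
          abel
      _ ≤ ‖fderiv ℂ Θ x - fderiv ℂ Ψ x‖ + ‖fderiv ℂ Ψ x - A‖ := norm_add_le _ _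
      _ ≤ 2 * c₁ := by linarith
  exact happ.surjOn_closedBall_of_nonlinearRightInverse R hr0.le subset_rfl

/-- the number of integers in an interval -/
private lemma card_int {a ρ : ℝ} (hρ : 1 ≤ ρ) :
    ρ ≤ ((Finset.Icc ⌈a - ρ⌉ ⌊a + ρ⌋).card : ℝ) := by
  rw [Int.card_Icc]
  have h1 := Int.sub_one_lt_floor (a + ρ)
  have h2 := Int.ceil_lt_add_one (a - ρ)
  have h3 : ((⌊a + ρ⌋ + 1 - ⌈a - ρ⌉ : ℤ) : ℝ) ≤ (((⌊a + ρ⌋ + 1 - ⌈a - ρ⌉).toNat : ℤ) : ℝ) := by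
    exact_mod_cast Int.self_le_toNat _
  push_cast at h3 ⊢
  linarith

/-- For each `k` the integers `m` with `|2 π m / E - x k| ≤ ε` are those of an interval of length
`ε E / π`, at least `ε E / π - 1 ≥ ε E / (2 π)` of them if `E ≥ 2 π / ε`. `S` is the product
(`Fintype.piFinset` of `Finset.Icc`), `κ = (ε / (2 π)) ^ t`. -/
theorem count_ints (t : ℕ) {ε : ℝ} (hε : 0 < ε) : ∃ κ : ℝ, 0 < κ ∧ ∃ E₀ : ℝ, 0 < E₀ ∧
    ∀ E : ℝ, E₀ ≤ E → ∀ x : Fin t → ℝ, ∃ S : Finset (Fin t → ℤ), κ * E ^ t ≤ S.card ∧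
      ∀ m ∈ S, ∀ k, |2 * Real.pi * m k / E - x k| ≤ ε := by
  have hpi := Real.pi_pos
  refine ⟨(ε / (2 * Real.pi)) ^ t, by positivity, 2 * Real.pi / ε, by positivity,
    fun E hE x => ?_⟩
  have hE0 : 0 < E := lt_of_lt_of_le (by positivity) hE
  set ρ := ε / (2 * Real.pi) * E with hρ
  have hρ1 : 1 ≤ ρ := by
    have h1 : ε / (2 * Real.pi) * (2 * Real.pi / ε) = 1 := by field_simp
    rw [← h1]
    exact mul_le_mul_of_nonneg_left hE (by positivity)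
  refine ⟨Fintype.piFinset fun k => Finset.Icc ⌈x k * E / (2 * Real.pi) - ρ⌉
    ⌊x k * E / (2 * Real.pi) + ρ⌋, ?_, ?_⟩
  · rw [Fintype.card_piFinset, ← mul_pow]
    push_cast
    calc ρ ^ t = ∏ _k : Fin t, ρ := by rw [Finset.prod_const, Finset.card_univ, Fintype.card_fin]
      _ ≤ _ := Finset.prod_le_prod (fun _ _ => by linarith) fun k _ => card_int hρ1
  · intro m hm k
    rw [Fintype.mem_piFinset] at hm
    have h1 := Finset.mem_Icc.1 (hm k)
    have h2 := Int.ceil_le.1 h1.1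
    have h3 := Int.le_floor.1 h1.2
    have h4 : 2 * Real.pi * m k / E - x k =
        2 * Real.pi / E * (m k - x k * E / (2 * Real.pi)) := by field_simp
    have h5 : |(m k : ℝ) - x k * E / (2 * Real.pi)| ≤ ρ := by
      rw [abs_le]
      constructor <;> linarith
    rw [h4, abs_mul, abs_of_pos (by positivity)]
    calc 2 * Real.pi / E * |(m k : ℝ) - x k * E / (2 * Real.pi)| ≤ 2 * Real.pi / E * ρ :=
          mul_le_mul_of_nonneg_left h5 (by positivity)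
      _ = ε := by
        rw [hρ]
        field_simp

end Pool.Agent.Zil.Gam
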