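import Pool.Agent.Zil.GARat
import Pool.Agent.Zil.GASurj

set_option autoImplicit false

/-! GA7. Many points near a good point. -/

namespace Pool.Agent.Zil.Gam

variable {t : ℕ} {U : Set (Fin t → ℂ)} {L : (Fin t → ℂ) → Fin (t + 1) → ℂ}

/-- The map `v ↦ (v_i - q_i v_(i₀))` for `i ≠ i₀`. -/
private noncomputable def galP (i₀ : Fin (t + 1)) (q : Fin (t + 1) → ℝ) :
    (Fin (t + 1) → ℂ) →L[ℂ] (Fin t → ℂ) :=
  ContinuousLinearMap.pi (fun k =>
    ContinuousLinearMap.proj (R := ℂ) (φ := fun _ : Fin (t + 1) => ℂ) (i₀.succAbove k)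
    - ((q (i₀.succAbove k) : ℝ) : ℂ) •
      ContinuousLinearMap.proj (R := ℂ) (φ := fun _ : Fin (t + 1) => ℂ) i₀)

private lemma galP_apply (i₀ : Fin (t + 1)) (q : Fin (t + 1) → ℝ) (v : Fin (t + 1) → ℂ)
    (k : Fin t) :
    galP i₀ q v k = v (i₀.succAbove k) - ((q (i₀.succAbove k) : ℝ) : ℂ) * v i₀ := by
  simp [galP]

/-- Injectivity of the derivative of `Ψ`. -/
private lemma gal_inj {y : Fin t → ℂ} {n : Fin (t + 1) → ℤ}
    (hD : Dt (om L y) (fun i => (n i : ℂ)) ≠ 0) (i₀ : Fin (t + 1)) (hi₀ : n i₀ ≠ 0)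
    (v : Fin t → ℂ)
    (hv : galP i₀ (fun i => (n i : ℝ) / (n i₀ : ℝ)) (fderiv ℂ L y v) = 0) : v = 0 := by
  have hm : (n i₀ : ℂ) ≠ 0 := by exact_mod_cast hi₀
  apply eq_zero_of_comb hD v (fderiv ℂ L y v i₀ / (n i₀ : ℂ))
  rw [← fderiv_eq_sum]
  funext i
  by_cases hi : i = i₀
  · subst hi
    simp only [Pi.smul_apply, smul_eq_mul]
    field_simp
  · obtain ⟨k, rfl⟩ := Fin.exists_succAbove_eq hi
    have h := congrFun hv k
    rw [galP_apply] at h
    simp only [Pi.zero_apply] at h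
    have h2 := sub_eq_zero.mp h
    rw [h2]
    simp only [Pi.smul_apply, smul_eq_mul]
    push_cast
    field_simp

/-- The power identity. -/
private lemma gal_pow {W W₀ : ℂ} {a m μ : ℤ} (hm : m ≠ 0)
    (h : W = ((((a : ℝ) / (m : ℝ) : ℝ)) : ℂ) * W₀ + 2 * Real.pi * Complex.I * μ) :
    Complex.exp W = (Complex.exp (W₀ / (m : ℂ))) ^ a := by
  have hmC : (m : ℂ) ≠ 0 := by exact_mod_cast hm
  rw [← Complex.exp_int_mul, h, Complex.exp_add]
  have h1 : Complex.exp (2 * Real.pi * Complex.I * μ) = 1 := by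
    rw [Complex.exp_eq_one_iff]
    exact ⟨μ, by ring⟩
  rw [h1, mul_one]
  congr 1
  push_cast
  field_simp

private lemma gal_norm {W₀ : ℂ} {m : ℤ} {B : ℝ} (h : B ≤ W₀.re / (m : ℝ)) :
    Real.exp B ≤ ‖Complex.exp (W₀ / (m : ℂ))‖ := by
  rw [Complex.norm_exp]
  apply Real.exp_le_exp.mpr
  have : (W₀ / (m : ℂ)).re = W₀.re / (m : ℝ) := by
    have h2 : (m : ℂ) = ((m : ℝ) : ℂ) := by push_cast; rfl
    rw [h2, Complex.div_ofReal_re]
  rw [this]
  exact h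

/-- **Many points.** Let `m = n i₀`, `i = i₀.succAbove k`, `Ψ_k = L_i - (n_i / m) L_(i₀)`. `Ψ'(y)` is
injective: `Ψ'(y) v = 0` means `L'(y) v = lam • n`, `lam = (L'(y) v)_(i₀) / m`, so `v = 0` by
`fderiv_eq_sum` and `eq_zero_of_comb`. Take `r₀` so small that `closedBall y r₀ ⊆ U` and
`|Re L_(i₀)(y') - Re L_(i₀)(y)| ≤ c |m| / 4` on it; `surj_perturb` gives `r, ε, c₁`. Given `Λ, η` let
`Θ_k(y') = (1/E) (Λ_i(y') + η_i - (n_i / m) (Λ_(i₀)(y') + η_(i₀)))`. For `E` large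
`‖fderiv Θ - fderiv Ψ‖ ≤ C' / E ≤ c₁`. `Re Θ_k(y) = c n_i - (n_i/m) c m + O(C / E + δ)`, the main part is
`0`, so `|Re Θ_k(y)| ≤ ε / 2` for `δ` small and `E` large. For the integer vectors `μ` of `count_ints`
(with `ε / 2` and `x k = Im Θ_k(y)`) the point `2 π I μ / E` is in `closedBall (Θ y) ε` (sup norm,
`|z| ≤ |Re z| + |Im z|`), so it is `Θ y'` with `y' ∈ closedBall y r`; different `μ` give different `y'`. For
such a `y'` let `X = exp ((Λ_(i₀)(y') + η_(i₀)) / m)`: `X ^ m = exp (Λ_(i₀) + η_(i₀))` and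
`exp (Λ_i + η_i) = exp ((n_i / m) (Λ_(i₀) + η_(i₀)) + 2 π I μ_k) = X ^ n_i`. Finally
`log ‖X‖ = (1/m) Re (Λ_(i₀)(y') + η_(i₀)) ≥ E (c - c/4 - (C/E + δ) / |m|) ≥ E c / 2`. -/
theorem local_points (hU : IsOpen U) (hL : ContDiffOn ℂ 2 L U) (g : Fin (t + 1) → ℝ)
    {y : Fin t → ℂ} (hy : y ∈ U) {c : ℝ} (hc : 0 < c) {n : Fin (t + 1) → ℤ}
    (hn : ∀ i, (L y i).re + g i = c * n i) (hD : Dt (om L y) (fun i => (n i : ℂ)) ≠ 0)
    (i₀ : Fin (t + 1)) (hi₀ : n i₀ ≠ 0) :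
    ∃ r : ℝ, 0 < r ∧ Metric.closedBall y r ⊆ U ∧ ∃ κ : ℝ, 0 < κ ∧ ∃ δ : ℝ, 0 < δ ∧
      ∀ C : ℝ, ∃ E₀ : ℝ, 0 < E₀ ∧ ∀ E : ℝ, E₀ ≤ E → ∀ Λ : (Fin t → ℂ) → Fin (t + 1) → ℂ,
        (∀ y' ∈ Metric.closedBall y r, DifferentiableAt ℂ Λ y' ∧
          ‖Λ y' - (E : ℂ) • L y'‖ ≤ C ∧ ‖fderiv ℂ Λ y' - (E : ℂ) • fderiv ℂ L y'‖ ≤ C) →
        ∀ η : Fin (t + 1) → ℂ, (∀ i, |(η i).re - E * g i| ≤ δ * E) →
          ∃ Y : Finset (Fin t → ℂ), κ * E ^ t ≤ Y.card ∧ ∀ y' ∈ Y,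
            y' ∈ Metric.closedBall y r ∧ ∃ X : ℂ, Real.exp (κ * E) ≤ ‖X‖ ∧
              ∀ i, Complex.exp (Λ y' i + η i) = X ^ (n i) := by
  classical
  -- constants
  have hmR : (n i₀ : ℝ) ≠ 0 := by exact_mod_cast hi₀
  have hm1 : (1 : ℝ) ≤ |(n i₀ : ℝ)| := by
    have : (1 : ℤ) ≤ |n i₀| := Int.one_le_abs hi₀
    exact_mod_cast this
  have hm0 : (0 : ℝ) < |(n i₀ : ℝ)| := lt_of_lt_of_le one_pos hm1
  obtain ⟨q, hq⟩ : ∃ q : Fin (t + 1) → ℝ, q = fun i => (n i : ℝ) / (n i₀ : ℝ) := ⟨_, rfl⟩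
  obtain ⟨P, hP⟩ : ∃ P : (Fin (t + 1) → ℂ) →L[ℂ] (Fin t → ℂ), P = galP i₀ q := ⟨_, rfl⟩
  have hPa : ∀ v k, P v k = v (i₀.succAbove k) - ((q (i₀.succAbove k) : ℝ) : ℂ) * v i₀ := by
    intro v k
    rw [hP, galP_apply]
  have hLd : ∀ y' ∈ U, DifferentiableAt ℂ L y' := fun y' hy' =>
    ((hL.contDiffAt (hU.mem_nhds hy')).differentiableAt (by norm_num))
  -- Ψ
  have hΨ : ContDiffOn ℂ 1 (fun y' => P (L y')) U :=
    P.contDiff.comp_contDiffOn (hL.of_le (by norm_num))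
  have hΨd : ∀ y' ∈ U, fderiv ℂ (fun y' => P (L y')) y' = P.comp (fderiv ℂ L y') := by
    intro y' hy'
    exact (P.hasFDerivAt.comp y' (hLd y' hy').hasFDerivAt).fderiv
  have hinv : ∀ v, fderiv ℂ (fun y' => P (L y')) y v = 0 → v = 0 := by
    intro v hv
    rw [hΨd y hy] at hv
    rw [ContinuousLinearMap.comp_apply, hP, hq] at hv
    exact gal_inj hD i₀ hi₀ v hv
  -- radius
  have hcm : 0 < c * |(n i₀ : ℝ)| / 4 := by positivity
  have hcont : ContinuousAt L y := (hLd y hy).continuousAt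
  obtain ⟨r₁, hr₁, hr₁'⟩ := Metric.continuousAt_iff.mp hcont _ hcm
  obtain ⟨r, hr, hrr, hrU, ε, hε, c₁, hc₁, hsurj⟩ :=
    surj_perturb hU hΨ hy hinv (r₀ := r₁ / 2) (by positivity)
  obtain ⟨κ₁, hκ₁, E₁, hE₁, hcount⟩ := count_ints t (ε := ε / 2) (by positivity)
  obtain ⟨Q, hQ⟩ : ∃ Q : ℝ, Q = 1 + ∑ i, |q i| := ⟨_, rfl⟩
  have hQ1 : 1 ≤ Q := by
    rw [hQ]
    have : 0 ≤ ∑ i, |q i| := Finset.sum_nonneg (fun i _ => abs_nonneg _)
    linarith
  have hQq : ∀ i, 1 + |q i| ≤ Q := by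
    intro i
    rw [hQ]
    have := Finset.single_le_sum (f := fun i => |q i|) (fun i _ => abs_nonneg _)
      (Finset.mem_univ i)
    linarith
  have hQ0 : 0 < Q := lt_of_lt_of_le one_pos hQ1
  obtain ⟨τ, hτ⟩ : ∃ τ : ℝ, τ = min (c / 4) (ε / (2 * Q)) := ⟨_, rfl⟩
  have hτ0 : 0 < τ := by
    rw [hτ]
    exact lt_min (by positivity) (by positivity)
  have hτ1 : τ ≤ c / 4 := by rw [hτ]; exact min_le_left _ _
  have hτ2 : Q * τ ≤ ε / 2 := by
    have : τ ≤ ε / (2 * Q) := by rw [hτ]; exact min_le_right _ _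
    calc Q * τ ≤ Q * (ε / (2 * Q)) := by gcongr
      _ = ε / 2 := by field_simp
  obtain ⟨M, hM⟩ : ∃ M : ℝ, M = ‖P‖ + 1 := ⟨_, rfl⟩
  have hM0 : 0 < M := by rw [hM]; positivity
  refine ⟨r, hr, hrU, min κ₁ (c / 2), lt_min hκ₁ (by positivity), τ / 2, by positivity, ?_⟩
  intro C
  refine ⟨E₁ + M * |C| / c₁ + 2 * |C| / τ, by positivity, ?_⟩
  intro E hE Λ hΛ η hη
  have hEE₁ : E₁ ≤ E := by
    have h1 : 0 ≤ M * |C| / c₁ := by positivity
    have h2 : 0 ≤ 2 * |C| / τ := by positivity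
    linarith
  have hE0 : 0 < E := lt_of_lt_of_le hE₁ hEE₁
  have hE2 : M * |C| ≤ c₁ * E := by
    have h1 : M * |C| / c₁ ≤ E := by
      have h2 : 0 ≤ 2 * |C| / τ := by positivity
      linarith
    rw [div_le_iff₀ hc₁] at h1
    linarith
  have hE3 : |C| ≤ τ / 2 * E := by
    have h1 : 2 * |C| / τ ≤ E := by
      have h2 : 0 ≤ M * |C| / c₁ := by positivity
      linarith
    rw [div_le_iff₀ hτ0] at h1
    linarith
  have hEC : (E : ℂ) ≠ 0 := by exact_mod_cast hE0.ne'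
  -- real parts
  have hyr : y ∈ Metric.closedBall y r := Metric.mem_closedBall_self hr.le
  have hre : ∀ y' ∈ Metric.closedBall y r, ∀ i,
      |(Λ y' i + η i).re - E * ((L y' i).re + g i)| ≤ τ * E := by
    intro y' hy' i
    have h1 : |(Λ y' i).re - E * (L y' i).re| ≤ C := by
      have h2 := norm_le_pi_norm (Λ y' - (E : ℂ) • L y') i
      have h3 := Complex.abs_re_le_norm ((Λ y' - (E : ℂ) • L y') i)
      have h4 : ((Λ y' - (E : ℂ) • L y') i).re = (Λ y' i).re - E * (L y' i).re := by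
        simp
      rw [h4] at h3
      exact (h3.trans h2).trans (hΛ y' hy').2.1
    have h2 : C ≤ τ / 2 * E := (le_abs_self C).trans hE3
    have h3 := hη i
    have h4 : (Λ y' i + η i).re - E * ((L y' i).re + g i)
        = ((Λ y' i).re - E * (L y' i).re) + ((η i).re - E * g i) := by
      rw [Complex.add_re]; ring
    rw [h4]
    refine (abs_add_le _ _).trans ?_
    linarith
  -- Θ
  obtain ⟨Θ, hΘ⟩ : ∃ Θ : (Fin t → ℂ) → Fin t → ℂ,
    Θ = fun y' => P ((E : ℂ)⁻¹ • (Λ y' + η)) := ⟨_, rfl⟩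
  have hΘa : ∀ y' k, Θ y' k = (E : ℂ)⁻¹ * ((Λ y' (i₀.succAbove k) + η (i₀.succAbove k))
      - ((q (i₀.succAbove k) : ℝ) : ℂ) * (Λ y' i₀ + η i₀)) := by
    intro y' k
    rw [hΘ]
    simp only [hPa, Pi.smul_apply, Pi.add_apply, smul_eq_mul]
    ring
  have hΘd : ∀ y' ∈ Metric.closedBall y r, DifferentiableAt ℂ Θ y' ∧
      ‖fderiv ℂ Θ y' - fderiv ℂ (fun y' => P (L y')) y'‖ ≤ c₁ := by
    intro y' hy'
    have hd := (hΛ y' hy').1
    have hfd : HasFDerivAt Θ (P.comp ((E : ℂ)⁻¹ • fderiv ℂ Λ y')) y' := by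
      rw [hΘ]
      exact P.hasFDerivAt.comp y' ((hd.hasFDerivAt.add_const η).const_smul ((E : ℂ)⁻¹))
    refine ⟨hfd.differentiableAt, ?_⟩
    rw [hfd.fderiv, hΨd y' (hrU hy')]
    have h1 : P.comp ((E : ℂ)⁻¹ • fderiv ℂ Λ y') - P.comp (fderiv ℂ L y')
        = P.comp ((E : ℂ)⁻¹ • (fderiv ℂ Λ y' - (E : ℂ) • fderiv ℂ L y')) := by
      rw [smul_sub, smul_smul, inv_mul_cancel₀ hEC, one_smul, ContinuousLinearMap.comp_sub]
    rw [h1]
    have h2 := ContinuousLinearMap.opNorm_comp_le P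
      ((E : ℂ)⁻¹ • (fderiv ℂ Λ y' - (E : ℂ) • fderiv ℂ L y'))
    have h3 : ‖(E : ℂ)⁻¹ • (fderiv ℂ Λ y' - (E : ℂ) • fderiv ℂ L y')‖ ≤ E⁻¹ * |C| := by
      rw [norm_smul]
      have h4 : ‖(E : ℂ)⁻¹‖ = E⁻¹ := by
        rw [norm_inv, Complex.norm_real, Real.norm_of_nonneg hE0.le]
      rw [h4]
      have h5 := (hΛ y' hy').2.2.trans (le_abs_self C)
      gcongr
    have h4 : ‖P‖ ≤ M := by rw [hM]; linarith
    calc _ ≤ ‖P‖ * ‖(E : ℂ)⁻¹ • (fderiv ℂ Λ y' - (E : ℂ) • fderiv ℂ L y')‖ := h2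
      _ ≤ M * (E⁻¹ * |C|) := by gcongr
      _ = (M * |C|) / E := by rw [div_eq_mul_inv]; ring
      _ ≤ c₁ := by rw [div_le_iff₀ hE0]; exact hE2
  have hball := hsurj Θ hΘd
  -- real part of Θ at y
  have hΘre : ∀ k, |(Θ y k).re| ≤ ε / 2 := by
    intro k
    obtain ⟨i, hi⟩ : ∃ i, i = i₀.succAbove k := ⟨_, rfl⟩
    have h1 := hre y hyr i
    have h2 := hre y hyr i₀
    rw [hn i] at h1
    rw [hn i₀] at h2
    have h3 : (Θ y k).re = E⁻¹ * (((Λ y i + η i).re - E * (c * n i))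
        - q i * ((Λ y i₀ + η i₀).re - E * (c * n i₀))) := by
      rw [hΘa, ← hi]
      have h4 : q i * (n i₀ : ℝ) = n i := by
        rw [hq]
        field_simp
      have h5 : ((E : ℂ)⁻¹ * (Λ y i + η i - ((q i : ℝ) : ℂ) * (Λ y i₀ + η i₀))).re
          = E⁻¹ * ((Λ y i + η i).re - q i * (Λ y i₀ + η i₀).re) := by
        rw [← Complex.ofReal_inv, Complex.re_ofReal_mul, Complex.sub_re,
          Complex.re_ofReal_mul]
      rw [h5]
      rw [← h4]
      ring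
    rw [h3, abs_mul, abs_of_pos (inv_pos.mpr hE0)]
    have h4 : |((Λ y i + η i).re - E * (c * n i))
        - q i * ((Λ y i₀ + η i₀).re - E * (c * n i₀))| ≤ Q * (τ * E) := by
      refine (abs_sub _ _).trans ?_
      rw [abs_mul]
      have h6 : |q i| * |(Λ y i₀ + η i₀).re - E * (c * n i₀)| ≤ |q i| * (τ * E) := by gcongr
      have h7 : (1 + |q i|) * (τ * E) ≤ Q * (τ * E) := by
        have := hQq i
        gcongr
      linarith
    calc E⁻¹ * _ ≤ E⁻¹ * (Q * (τ * E)) := by gcongr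
      _ = Q * τ := by field_simp
      _ ≤ ε / 2 := hτ2
  -- integer vectors
  obtain ⟨S, hS, hSm⟩ := hcount E hEE₁ (fun k => (Θ y k).im)
  have hz : ∀ μ ∈ S, (fun k => 2 * Real.pi * Complex.I * (μ k : ℂ) / E) ∈
      Metric.closedBall (Θ y) ε := by
    intro μ hμ
    rw [Metric.mem_closedBall, dist_eq_norm, pi_norm_le_iff_of_nonneg hε.le]
    intro k
    simp only [Pi.sub_apply]
    have h1 := hSm μ hμ k
    have h2 : (2 * Real.pi * Complex.I * (μ k : ℂ) / E - Θ y k)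
        = ((- (Θ y k).re : ℝ) : ℂ) + ((2 * Real.pi * μ k / E - (Θ y k).im : ℝ) : ℂ)
          * Complex.I := by
      conv_lhs => rw [← Complex.re_add_im (Θ y k)]
      push_cast
      ring
    rw [h2]
    refine (norm_add_le _ _).trans ?_
    rw [norm_mul, Complex.norm_real, Complex.norm_real, Complex.norm_I, mul_one,
      Real.norm_eq_abs, Real.norm_eq_abs, abs_neg]
    have h3 := hΘre k
    linarith
  have hex : ∀ μ : Fin t → ℤ, ∃ y' : Fin t → ℂ, μ ∈ S → y' ∈ Metric.closedBall y r ∧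
      Θ y' = (fun k => 2 * Real.pi * Complex.I * (μ k : ℂ) / E) := by
    intro μ
    by_cases hμ : μ ∈ S
    · obtain ⟨y', h1, h2⟩ := hball (hz μ hμ)
      exact ⟨y', fun _ => ⟨h1, h2⟩⟩
    · exact ⟨y, fun h => absurd h hμ⟩
  choose f hf using hex
  refine ⟨S.image f, ?_, ?_⟩
  · rw [Finset.card_image_of_injOn]
    · refine le_trans ?_ hS
      have : min κ₁ (c / 2) ≤ κ₁ := min_le_left _ _
      gcongr
    · intro μ hμ ν hν hμν
      have h1 := (hf μ hμ).2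
      have h2 := (hf ν hν).2
      rw [hμν, h2] at h1
      funext k
      have h3 := congrFun h1 k
      have h4 : (ν k : ℂ) = (μ k : ℂ) := by
        have hpi : (2 * Real.pi * Complex.I : ℂ) ≠ 0 := Complex.two_pi_I_ne_zero
        have h5 := (div_left_inj' hEC).mp h3
        exact mul_left_cancel₀ hpi h5
      exact_mod_cast h4.symm
  · intro y' hy'
    obtain ⟨μ, hμ, rfl⟩ := Finset.mem_image.mp hy'
    obtain ⟨hyb, hyΘ⟩ := hf μ hμ
    obtain ⟨y', hy'e⟩ : ∃ y', y' = f μ := ⟨_, rfl⟩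
    rw [← hy'e] at hyb hyΘ ⊢
    refine ⟨hyb, Complex.exp ((Λ y' i₀ + η i₀) / (n i₀ : ℂ)), ?_, ?_⟩
    · apply gal_norm
      have h1 := hre y' hyb i₀
      have h2 : |(L y' i₀).re - (L y i₀).re| ≤ c * |(n i₀ : ℝ)| / 4 := by
        have h3 : dist y' y < r₁ := by
          have := Metric.mem_closedBall.mp hyb
          linarith
        have h4 := (hr₁' h3).le
        rw [dist_eq_norm] at h4
        have h5 := norm_le_pi_norm (L y' - L y) i₀
        have h6 := Complex.abs_re_le_norm ((L y' - L y) i₀)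
        rw [Pi.sub_apply, Complex.sub_re] at h6
        exact (h6.trans h5).trans h4
      have h3 : |(Λ y' i₀ + η i₀).re - E * (c * n i₀)| ≤ E * (c * |(n i₀ : ℝ)| / 2) := by
        have h4 : (Λ y' i₀ + η i₀).re - E * (c * n i₀)
            = ((Λ y' i₀ + η i₀).re - E * ((L y' i₀).re + g i₀))
              + E * ((L y' i₀).re - (L y i₀).re) := by
          rw [← hn i₀]
          ring
        rw [h4]
        refine (abs_add_le _ _).trans ?_
        rw [abs_mul, abs_of_pos hE0]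
        have h5 : E * |(L y' i₀).re - (L y i₀).re| ≤ E * (c * |(n i₀ : ℝ)| / 4) := by gcongr
        have h6 : τ * E ≤ E * (c * |(n i₀ : ℝ)| / 4) := by
          have h7 : τ ≤ c * |(n i₀ : ℝ)| / 4 := by
            have h8 : c / 4 ≤ c * |(n i₀ : ℝ)| / 4 := by
              have := mul_le_mul_of_nonneg_left hm1 hc.le
              linarith
            linarith
          have := mul_le_mul_of_nonneg_right h7 hE0.le
          linarith
        linarith
      have hκ : min κ₁ (c / 2) * E ≤ c / 2 * E := by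
        have : min κ₁ (c / 2) ≤ c / 2 := min_le_right _ _
        gcongr
      refine hκ.trans ?_
      have h4 : |(Λ y' i₀ + η i₀).re / (n i₀ : ℝ) - E * c| ≤ E * c / 2 := by
        have h5 : (Λ y' i₀ + η i₀).re / (n i₀ : ℝ) - E * c
            = ((Λ y' i₀ + η i₀).re - E * (c * n i₀)) / (n i₀ : ℝ) := by
          field_simp
        rw [h5, abs_div, div_le_iff₀ hm0]
        refine h3.trans (le_of_eq ?_)
        ring
      have h5 := (abs_le.mp h4).1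
      linarith
    · intro i
      by_cases hi : i = i₀
      · subst hi
        apply gal_pow (μ := 0) hi₀
        rw [div_self hmR]
        push_cast
        ring
      · obtain ⟨k, rfl⟩ := Fin.exists_succAbove_eq hi
        apply gal_pow (μ := μ k) hi₀
        have h1 := congrFun hyΘ k
        rw [hΘa] at h1
        have h2 : (Λ y' (i₀.succAbove k) + η (i₀.succAbove k))
            - ((q (i₀.succAbove k) : ℝ) : ℂ) * (Λ y' i₀ + η i₀)
            = 2 * Real.pi * Complex.I * (μ k : ℂ) := by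
          field_simp at h1
          linear_combination h1
        have h3 : (((n (i₀.succAbove k) : ℝ) / (n i₀ : ℝ) : ℝ) : ℂ)
            = ((q (i₀.succAbove k) : ℝ) : ℂ) := by
          rw [hq]
        rw [h3]
        linear_combination h2

end Pool.Agent.Zil.Gam
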