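import Pool.Agent.Zil.GALoc

set_option autoImplicit false

/-! GA8. Many points on the variety, uniformly (section 5.4). -/

namespace Pool.Agent.Zil.Gam

/-- `∑ i, c i * L_i = ∑ s, β_s ℓ_s` with `β_s = ∑ i, c i * R i s`, and `β ≠ 0` if `c ≠ 0`, since `R` is
linearly independent. -/
theorem noConst_comb {t q : ℕ} {U : Set (Fin t → ℂ)} {ℓ : (Fin t → ℂ) → Fin q → ℂ}
    (hN : NoConst U ℓ) {R : Fin (t + 1) → Fin q → ℝ} (hR : LinearIndependent ℝ R) :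
    NoConst U (fun y i => ∑ s, (R i s : ℂ) * ℓ y s) := by
  intro c hc U' hU' ho hne b
  have hβ : (fun s => ∑ i, c i * R i s) ≠ 0 := by
    intro h0
    apply hc
    have h1 : ∑ i, c i • R i = 0 := by
      funext s
      have := congrFun h0 s
      simpa [Finset.sum_apply] using this
    funext i
    exact (Fintype.linearIndependent_iff.1 hR) c h1 i
  obtain ⟨y, hy, hb⟩ := hN _ hβ U' hU' ho hne b
  refine ⟨y, hy, fun h => hb ?_⟩
  rw [← h]
  push_cast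
  simp_rw [Finset.sum_mul, Finset.mul_sum]
  rw [Finset.sum_comm]
  refine Finset.sum_congr rfl fun i _ => Finset.sum_congr rfl fun s _ => ?_
  ring

/-- The linear map with the matrix `M`. -/
private noncomputable def comb {p q : ℕ} (M : Fin p → Fin q → ℂ) :
    (Fin q → ℂ) →L[ℂ] (Fin p → ℂ) :=
  ContinuousLinearMap.pi fun i => ∑ s, M i s • (ContinuousLinearMap.proj s : (Fin q → ℂ) →L[ℂ] ℂ)

private theorem comb_apply {p q : ℕ} (M : Fin p → Fin q → ℂ) (v : Fin q → ℂ) (i : Fin p) :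
    comb M v i = ∑ s, M i s * v s := by
  simp [comb]

private theorem comb_sub {p q : ℕ} (M N : Fin p → Fin q → ℂ) (E : ℂ) :
    comb M - E • comb N = comb (fun i s => M i s - E * N i s) := by
  ext v i
  simp only [ContinuousLinearMap.sub_apply, ContinuousLinearMap.smul_apply, Pi.sub_apply,
    Pi.smul_apply, smul_eq_mul, comb_apply, Finset.mul_sum, ← Finset.sum_sub_distrib]
  exact Finset.sum_congr rfl fun s _ => by ring

private theorem norm_comb_le {p q : ℕ} (M : Fin p → Fin q → ℂ) {K : ℝ} (hK : 0 ≤ K)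
    (h : ∀ i s, ‖M i s‖ ≤ K) : ‖comb M‖ ≤ q * K := by
  refine ContinuousLinearMap.opNorm_le_bound _ (by positivity) fun v => ?_
  rw [pi_norm_le_iff_of_nonneg (by positivity)]
  intro i
  rw [comb_apply]
  refine (norm_sum_le _ _).trans ?_
  calc ∑ s, ‖M i s * v s‖ ≤ ∑ _s : Fin q, K * ‖v‖ := by
        refine Finset.sum_le_sum fun s _ => ?_
        rw [norm_mul]
        exact mul_le_mul (h i s) (norm_le_pi_norm v s) (norm_nonneg _) hK
    _ = q * K * ‖v‖ := by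
        rw [Finset.sum_const, Finset.card_univ, Fintype.card_fin, nsmul_eq_mul]
        ring

/-- The statement for the `ρ` with `log ‖ρ i‖ / E` in the set `S`. -/
private def Good {t q : ℕ} (U : Set (Fin t → ℂ)) (ℓ : (Fin t → ℂ) → Fin q → ℂ)
    (R : Fin (t + 1) → Fin q → ℝ) (C : ℝ) (S : Set (Fin (t + 1) → ℝ)) : Prop :=
  ∃ κ : ℝ, 0 < κ ∧ ∃ E₀ : ℝ, 0 < E₀ ∧ ∃ NA : ℕ, ∀ E : ℝ, E₀ ≤ E →
    ∀ a : Fin (t + 1) → Fin q → ℤ, (∀ i s, |(a i s : ℝ) - E * R i s| ≤ C) →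
    ∀ ρ : Fin (t + 1) → ℂ, (∀ i, ρ i ≠ 0) → (fun i => Real.log ‖ρ i‖ / E) ∈ S →
    ∃ (i₀ : Fin (t + 1)) (n : Fin (t + 1) → ℤ), n i₀ ≠ 0 ∧ (∀ i, |n i| ≤ NA) ∧
      ∀ ζ : Fin (t + 1) → ℂ, (∀ i, ‖ζ i‖ = 1) → ∃ Y : Finset (Fin t → ℂ),
        κ * E ^ t ≤ Y.card ∧ ∀ y ∈ Y, y ∈ U ∧ ∃ X : ℂ, Real.exp (κ * E) ≤ ‖X‖ ∧
          zz ℓ a ρ y = tw n ζ X

private theorem good_weaken {t q : ℕ} {U : Set (Fin t → ℂ)} {ℓ : (Fin t → ℂ) → Fin q → ℂ}
    {a : Fin (t + 1) → Fin q → ℤ} {ρ : Fin (t + 1) → ℂ} {E κ κ' : ℝ} {NA NA' : ℕ}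
    (hE : 0 < E) (hκ : κ' ≤ κ) (hNA : NA ≤ NA')
    (h : ∃ (i₀ : Fin (t + 1)) (n : Fin (t + 1) → ℤ), n i₀ ≠ 0 ∧ (∀ i, |n i| ≤ NA) ∧
      ∀ ζ : Fin (t + 1) → ℂ, (∀ i, ‖ζ i‖ = 1) → ∃ Y : Finset (Fin t → ℂ),
        κ * E ^ t ≤ Y.card ∧ ∀ y ∈ Y, y ∈ U ∧ ∃ X : ℂ, Real.exp (κ * E) ≤ ‖X‖ ∧
          zz ℓ a ρ y = tw n ζ X) :
    ∃ (i₀ : Fin (t + 1)) (n : Fin (t + 1) → ℤ), n i₀ ≠ 0 ∧ (∀ i, |n i| ≤ NA') ∧
      ∀ ζ : Fin (t + 1) → ℂ, (∀ i, ‖ζ i‖ = 1) → ∃ Y : Finset (Fin t → ℂ),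
        κ' * E ^ t ≤ Y.card ∧ ∀ y ∈ Y, y ∈ U ∧ ∃ X : ℂ, Real.exp (κ' * E) ≤ ‖X‖ ∧
          zz ℓ a ρ y = tw n ζ X := by
  obtain ⟨i₀, n, hn, hna, h⟩ := h
  refine ⟨i₀, n, hn, fun i => (hna i).trans (by exact_mod_cast hNA), fun ζ hζ => ?_⟩
  obtain ⟨Y, hY, hY'⟩ := h ζ hζ
  refine ⟨Y, le_trans (mul_le_mul_of_nonneg_right hκ (by positivity)) hY, fun y hy => ?_⟩
  obtain ⟨hyU, X, hX, hz⟩ := hY' y hy
  exact ⟨hyU, X, le_trans (Real.exp_le_exp.2 (mul_le_mul_of_nonneg_right hκ hE.le)) hX, hz⟩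

private theorem good_local {t q : ℕ} {U : Set (Fin t → ℂ)} (hU : IsOpen U)
    {ℓ : (Fin t → ℂ) → Fin q → ℂ} (hℓ : ContDiffOn ℂ 2 ℓ U) {R : Fin (t + 1) → Fin q → ℝ}
    (hR : LinearIndependent ℝ R) (hN : NoConst U ℓ)
    (hr : ∃ y ∈ U, LinearIndependent ℂ (om (fun y i => ∑ s, (R i s : ℂ) * ℓ y s) y)) (C : ℝ)
    (g : Fin (t + 1) → ℝ) : ∃ δ : ℝ, 0 < δ ∧ Good U ℓ R C (Metric.ball g δ) := by
  set L : (Fin t → ℂ) → Fin (t + 1) → ℂ := fun y i => ∑ s, (R i s : ℂ) * ℓ y s with hLdef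
  have hLc : L = fun y => comb (fun i s => (R i s : ℂ)) (ℓ y) := by
    funext y i
    rw [comb_apply]
  have hL : ContDiffOn ℂ 2 L U := by
    rw [hLc]
    exact (comb (fun i s => (R i s : ℂ))).contDiff.comp_contDiffOn hℓ
  obtain ⟨y, hy, c, n, hc, hn, hD⟩ := exists_rational_point hU hL (noConst_comb hN hR) hr g
  have hn0 : ∃ i₀, n i₀ ≠ 0 := by
    by_contra hcon
    push_neg at hcon
    apply hD
    have h0 : (fun i => (n i : ℂ)) = 0 := by funext i; simp [hcon i]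
    rw [h0]
    exact Matrix.det_eq_zero_of_row_eq_zero 0 (fun j => by simp [Matrix.of_apply])
  obtain ⟨i₀, hi₀⟩ := hn0
  obtain ⟨r, hr0, hrU, κ, hκ, δ, hδ, hloc⟩ := local_points hU hL g hy hc hn hD i₀ hi₀
  -- bounds on the closed ball
  have hcomp : IsCompact (Metric.closedBall y r) := isCompact_closedBall y r
  obtain ⟨B₁, hB₁⟩ := hcomp.exists_bound_of_continuousOn (hℓ.continuousOn.mono hrU)
  obtain ⟨B₂, hB₂⟩ := hcomp.exists_bound_of_continuousOn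
    ((hℓ.continuousOn_fderiv_of_isOpen hU (by norm_num)).mono hrU)
  obtain ⟨E₀, hE₀, hpts⟩ := hloc (q * |C| * max B₁ B₂)
  have hyb : y ∈ Metric.closedBall y r := Metric.mem_closedBall_self hr0.le
  have hB0 : 0 ≤ max B₁ B₂ := ((norm_nonneg _).trans (hB₁ y hyb)).trans (le_max_left _ _)
  refine ⟨δ, hδ, κ, hκ, E₀, hE₀, Finset.univ.sup (fun i => (n i).natAbs),
    fun E hE a ha ρ hρ hS => ⟨i₀, n, hi₀, fun i => ?_, fun ζ hζ => ?_⟩⟩
  · rw [Int.abs_eq_natAbs]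
    exact_mod_cast Finset.le_sup (f := fun i => (n i).natAbs) (Finset.mem_univ i)
  have hE0 : 0 < E := hE₀.trans_le hE
  have hcn : ‖comb (fun i s => (a i s : ℂ)) - (E : ℂ) • comb (fun i s => (R i s : ℂ))‖
      ≤ q * |C| := by
    rw [comb_sub]
    refine norm_comb_le _ (abs_nonneg C) fun i s => ?_
    have h1 : ((a i s : ℂ) - (E : ℂ) * (R i s : ℂ)) = (((a i s : ℝ) - E * R i s : ℝ) : ℂ) := by
      push_cast
      ring
    rw [h1, Complex.norm_real, Real.norm_eq_abs]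
    exact (ha i s).trans (le_abs_self C)
  obtain ⟨Y, hY, hY'⟩ := hpts E hE (fun y => comb (fun i s => (a i s : ℂ)) (ℓ y))
    (fun y' hy' => by
      have hd : DifferentiableAt ℂ ℓ y' :=
        (hℓ.differentiableOn (by norm_num)).differentiableAt (hU.mem_nhds (hrU hy'))
      refine ⟨(comb _).differentiableAt.comp y' hd, ?_, ?_⟩
      · have h1 : comb (fun i s => (a i s : ℂ)) (ℓ y') - (E : ℂ) • L y' =
            (comb (fun i s => (a i s : ℂ)) - (E : ℂ) • comb (fun i s => (R i s : ℂ))) (ℓ y') := by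
          rw [hLc]
          simp
        rw [h1]
        refine (ContinuousLinearMap.le_opNorm _ _).trans ?_
        exact mul_le_mul hcn ((hB₁ y' hy').trans (le_max_left _ _)) (norm_nonneg _)
          (by positivity)
      · have h1 : fderiv ℂ (fun y => comb (fun i s => (a i s : ℂ)) (ℓ y)) y' =
            (comb (fun i s => (a i s : ℂ))).comp (fderiv ℂ ℓ y') :=
          ((comb (fun i s => (a i s : ℂ))).hasFDerivAt.comp y' hd.hasFDerivAt).fderiv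
        have h2 : fderiv ℂ L y' = (comb (fun i s => (R i s : ℂ))).comp (fderiv ℂ ℓ y') := by
          rw [hLc]
          exact ((comb (fun i s => (R i s : ℂ))).hasFDerivAt.comp y' hd.hasFDerivAt).fderiv
        have h3 : (comb (fun i s => (a i s : ℂ))).comp (fderiv ℂ ℓ y') -
            (E : ℂ) • (comb (fun i s => (R i s : ℂ))).comp (fderiv ℂ ℓ y') =
            (comb (fun i s => (a i s : ℂ)) - (E : ℂ) • comb (fun i s => (R i s : ℂ))).comp
              (fderiv ℂ ℓ y') := by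
          ext v
          simp
        rw [h1, h2, h3]
        refine (ContinuousLinearMap.opNorm_comp_le _ _).trans ?_
        exact mul_le_mul hcn ((hB₂ y' hy').trans (le_max_right _ _)) (norm_nonneg _)
          (by positivity))
    (fun i => Complex.log (ρ i) - Complex.log (ζ i))
    (fun i => by
      rw [Complex.sub_re, Complex.log_re, Complex.log_re, hζ i, Real.log_one, sub_zero]
      have h1 := (dist_le_pi_dist (fun i => Real.log ‖ρ i‖ / E) g i).trans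
        (Metric.mem_ball.1 hS).le
      rw [Real.dist_eq] at h1
      have h2 : Real.log ‖ρ i‖ - E * g i = (Real.log ‖ρ i‖ / E - g i) * E := by
        field_simp
      rw [h2, abs_mul, abs_of_pos hE0]
      exact mul_le_mul_of_nonneg_right h1 hE0.le)
  refine ⟨Y, hY, fun y' hy' => ?_⟩
  obtain ⟨hb, X, hX, hz⟩ := hY' y' hy'
  refine ⟨hrU hb, X, hX, ?_⟩
  funext i
  have hζ0 : ζ i ≠ 0 := fun h => by
    have := hζ i
    rw [h, norm_zero] at this
    exact zero_ne_one this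
  have h1 := hz i
  rw [Complex.exp_add, Complex.exp_sub, Complex.exp_log (hρ i), Complex.exp_log hζ0,
    comb_apply] at h1
  simp only [zz, tw]
  rw [← h1]
  field_simp

/-- **Many points.** Let `L_i = ∑ s, R i s * ℓ_s` (of class `C²`, `noConst_comb`). For every `g` in the
compact box `|g i| ≤ C` (if `C < 0` nothing satisfies the hypotheses, or replace `C` by `max C 0`)
`exists_rational_point` gives `y, c, n`; `n ≠ 0` because `Dt (..) n ≠ 0`, so there is `i₀` with `n i₀ ≠ 0`, and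
`local_points` gives `r, κ, δ` (depending on `g`). The box is covered by finitely many balls
`ball g (δ_g)` (`IsCompact.elim_finite_subcover` or `IsCompact.elim_nhds_subcover`). For these finitely
many `g`: on `closedBall y r` (compact) `ℓ` and `fderiv ℂ ℓ` are bounded, so with
`Λ_i = ∑ s, a i s * ℓ_s` the differences `Λ - E L` and `fderiv Λ - E fderiv L` are bounded by a constant
`C_g` (only `|a - E R| ≤ C` is used). `κ` = the minimum of the `κ_g` (`E ^ t ≥ 0`, `exp` is monotone),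
`E₀` = the maximum of the `E₀` of `local_points` for `C_g`, `NA` = the maximum of the `|n i|`. Given
`E, a, ρ`: `g' i = log ‖ρ i‖ / E` is in the box, in the ball of some `g`. For `ζ` let
`η i = log (ρ i) - log (ζ i)` (`Complex.log`); `Re η i = log ‖ρ i‖ = E * g' i`. The points `Y` of
`local_points` satisfy `ρ i * exp (Λ_i(y)) = exp (Λ_i(y) + η i) * ζ i = X ^ (n i) * ζ i`. -/
theorem many_points {t q : ℕ} {U : Set (Fin t → ℂ)} (hU : IsOpen U)
    {ℓ : (Fin t → ℂ) → Fin q → ℂ} (hℓ : ContDiffOn ℂ 2 ℓ U) {R : Fin (t + 1) → Fin q → ℝ}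
    (hR : LinearIndependent ℝ R) (hN : NoConst U ℓ)
    (hr : ∃ y ∈ U, LinearIndependent ℂ (om (fun y i => ∑ s, (R i s : ℂ) * ℓ y s) y)) (C : ℝ) :
    ∃ κ : ℝ, 0 < κ ∧ ∃ E₀ : ℝ, 0 < E₀ ∧ ∃ NA : ℕ, ∀ E : ℝ, E₀ ≤ E →
      ∀ a : Fin (t + 1) → Fin q → ℤ, (∀ i s, |(a i s : ℝ) - E * R i s| ≤ C) →
      ∀ ρ : Fin (t + 1) → ℂ, (∀ i, ρ i ≠ 0) → (∀ i, |Real.log ‖ρ i‖| ≤ C * E) →
      ∃ (i₀ : Fin (t + 1)) (n : Fin (t + 1) → ℤ), n i₀ ≠ 0 ∧ (∀ i, |n i| ≤ NA) ∧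
        ∀ ζ : Fin (t + 1) → ℂ, (∀ i, ‖ζ i‖ = 1) → ∃ Y : Finset (Fin t → ℂ),
          κ * E ^ t ≤ Y.card ∧ ∀ y ∈ Y, y ∈ U ∧ ∃ X : ℂ, Real.exp (κ * E) ≤ ‖X‖ ∧
            zz ℓ a ρ y = tw n ζ X := by
  have key : Good U ℓ R C (Metric.closedBall (0 : Fin (t + 1) → ℝ) |C|) := by
    refine (isCompact_closedBall (0 : Fin (t + 1) → ℝ) |C|).induction_on (p := Good U ℓ R C)
      ?_ ?_ ?_ ?_
    · exact ⟨1, one_pos, 1, one_pos, 0, fun E _ a _ ρ _ h => absurd h (Set.notMem_empty _)⟩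
    · rintro S T hST ⟨κ, hκ, E₀, hE₀, NA, h⟩
      exact ⟨κ, hκ, E₀, hE₀, NA, fun E hE a ha ρ hρ hS => h E hE a ha ρ hρ (hST hS)⟩
    · rintro S T ⟨κ, hκ, E₀, hE₀, NA, h⟩ ⟨κ', hκ', E₀', hE₀', NA', h'⟩
      refine ⟨min κ κ', lt_min hκ hκ', max E₀ E₀', lt_max_of_lt_left hE₀, max NA NA',
        fun E hE a ha ρ hρ hS => ?_⟩
      have hE1 : E₀ ≤ E := (le_max_left _ _).trans hE
      have hE2 : E₀' ≤ E := (le_max_right _ _).trans hE
      rcases hS with hS | hS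
      · exact good_weaken (hE₀.trans_le hE1) (min_le_left _ _) (le_max_left _ _)
          (h E hE1 a ha ρ hρ hS)
      · exact good_weaken (hE₀.trans_le hE1) (min_le_right _ _) (le_max_right _ _)
          (h' E hE2 a ha ρ hρ hS)
    · intro g _
      obtain ⟨δ, hδ, hg⟩ := good_local hU hℓ hR hN hr C g
      exact ⟨Metric.ball g δ, mem_nhdsWithin_of_mem_nhds (Metric.ball_mem_nhds g hδ), hg⟩
  obtain ⟨κ, hκ, E₀, hE₀, NA, h⟩ := key
  refine ⟨κ, hκ, E₀, hE₀, NA, fun E hE a ha ρ hρ hρ' => h E hE a ha ρ hρ ?_⟩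
  have hE0 : 0 < E := hE₀.trans_le hE
  rw [mem_closedBall_zero_iff, pi_norm_le_iff_of_nonneg (abs_nonneg C)]
  intro i
  rw [Real.norm_eq_abs, abs_div, abs_of_pos hE0, div_le_iff₀ hE0]
  exact (hρ' i).trans (mul_le_mul_of_nonneg_right (le_abs_self C) hE0.le)

end Pool.Agent.Zil.Gam
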