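import Pool.Agent.Zil.GAReal
import Pool.Agent.Zil.GAConj

set_option autoImplicit false

/-! GA5. A good point with a rational value. -/

namespace Pool.Agent.Zil.Gam

variable {t : ℕ} {U : Set (Fin t → ℂ)} {L : (Fin t → ℂ) → Fin (t + 1) → ℂ}

private theorem indep_of_nonReal {A : Fin t → Fin (t + 1) → ℂ} (h : NonReal A) :
    LinearIndependent ℂ A := by
  obtain ⟨i, k, hik⟩ := h
  refine phi_ne_zero_iff.1 ⟨i, fun h0 => hik ?_⟩
  rw [h0, zero_mul, Complex.zero_im]

/-- At a point where `phi` is not real the map `w = Re L` is open: its real derivative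
`v ↦ Re (L' v)` is surjective onto `Fin (t+1) → ℝ`. Otherwise a real `c ≠ 0` with
`∑ c i Re ((L' v) i) = 0` for all `v`; for `I v`: `∑ c i * (L' v) i = 0` for all `v`, so
`not_nonReal_of_real` gives a contradiction (`NonReal` implies some `phi ≠ 0`, so independence by
`phi_ne_zero_iff`). `HasStrictFDerivAt.map_nhds_eq_of_surj` (over `ℝ`:
`ContDiffAt.hasStrictFDerivAt`, `HasStrictFDerivAt.restrictScalars`, composition with `Re`). -/
theorem image_re_mem_nhds (hU : IsOpen U) (hL : ContDiffOn ℂ 2 L U) {y : Fin t → ℂ}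
    (hy : y ∈ U) (hn : NonReal (om L y)) {V : Set (Fin t → ℂ)} (hV : V ∈ nhds y) :
    (fun y' => fun i => (L y' i).re) '' V ∈ nhds (fun i => (L y i).re) := by
  have hA := indep_of_nonReal hn
  have h1 : HasStrictFDerivAt L (fderiv ℂ L y) y :=
    (hL.contDiffAt (hU.mem_nhds hy)).hasStrictFDerivAt two_ne_zero
  have h2 : HasStrictFDerivAt L ((fderiv ℂ L y).restrictScalars ℝ) y := h1.restrictScalars ℝ
  let R : (Fin (t + 1) → ℂ) →L[ℝ] (Fin (t + 1) → ℝ) :=
    ContinuousLinearMap.pi fun i => Complex.reCLM.comp (ContinuousLinearMap.proj i)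
  have h3 : HasStrictFDerivAt (fun y' => R (L y')) (R.comp ((fderiv ℂ L y).restrictScalars ℝ)) y :=
    R.hasStrictFDerivAt.comp y h2
  have hsurj : (R.comp ((fderiv ℂ L y).restrictScalars ℝ)).range = ⊤ := by
    by_contra hne
    obtain ⟨f, hf0, hf⟩ := Submodule.exists_le_ker_of_lt_top _ (lt_top_iff_ne_top.2 hne)
    have hfv : ∀ w : Fin (t + 1) → ℝ, f w = ∑ i, f (Pi.single i 1) * w i := by
      intro w
      conv_lhs => rw [← Finset.univ_sum_single w]
      rw [map_sum]
      refine Finset.sum_congr rfl fun i _ => ?_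
      have h4 : (Pi.single i (w i) : Fin (t + 1) → ℝ) = w i • Pi.single i 1 := by
        rw [← Pi.single_smul, smul_eq_mul, mul_one]
      rw [h4, map_smul, smul_eq_mul, mul_comm]
    have hker : ∀ v : Fin t → ℂ, ∑ i, f (Pi.single i 1) * (fderiv ℂ L y v i).re = 0 := by
      intro v
      have h5 : f (R (fderiv ℂ L y v)) = 0 := hf ⟨v, rfl⟩
      rw [hfv] at h5
      exact h5
    refine not_nonReal_of_real hA (fun i => f (Pi.single i 1)) ?_ (fun b => ?_) hn
    · intro h0
      apply hf0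
      ext i
      rw [LinearMap.zero_comp, LinearMap.zero_apply]
      exact congrFun h0 i
    · have h6 := hker (Pi.single b 1)
      have h7 := hker (Complex.I • Pi.single b 1)
      have h8 : ∀ i, (fderiv ℂ L y (Complex.I • Pi.single b 1) i).re = - (om L y b i).im := by
        intro i
        rw [map_smul, Pi.smul_apply, smul_eq_mul, Complex.I_mul_re]
        rfl
      simp only [h8] at h7
      apply Complex.ext
      · rw [Complex.re_sum, Complex.zero_re, ← h6]
        refine Finset.sum_congr rfl fun i _ => ?_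
        rw [Complex.re_ofReal_mul]
        rfl
      · rw [Complex.im_sum, Complex.zero_im]
        have h9 : ∑ i, f (Pi.single i 1) * (om L y b i).im = 0 := by
          have := congrArg Neg.neg h7
          rw [← Finset.sum_neg_distrib, neg_zero] at this
          rw [← this]
          exact Finset.sum_congr rfl fun i _ => by ring
        rw [← h9]
        refine Finset.sum_congr rfl fun i _ => ?_
        rw [Complex.im_ofReal_mul]
  have h4 := h3.map_nhds_eq_of_surj hsurj
  have h5 := Filter.image_mem_map (m := fun y' => R (L y')) hV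
  rw [h4] at h5
  exact h5

/-- **The good point.** `exists_nonReal` gives `y₀`, `exists_ball` a ball `B` around `y₀` where
`NonReal` holds. There is `y₁ ∈ B` with `Dt (om L y₁) (Re L(y₁) + g) ≠ 0`: otherwise
`Dt_conj_eq_zero` (for `B`) and `not_nonReal_of_conj` contradict `NonReal (om L y₀)`. The set `V` of
the `y ∈ B` with `Dt (om L y) (Re L(y) + g) ≠ 0` is open (`continuousOn_Dt`), so by
`image_re_mem_nhds` (at `y₁`) the set `{Re L(y) + g | y ∈ V}` is a neighbourhood; it contains a
vector with rational coordinates (`Rat.denseRange_cast`, `DenseRange` for finite products),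
`r = n / N`, `N ≥ 1`, `n` integers; `c = 1/N`.
`Dt (om L y) n = N * Dt (om L y) r ≠ 0` (`Dt_eq`). -/
theorem exists_rational_point (hU : IsOpen U) (hL : ContDiffOn ℂ 2 L U) (hN : NoConst U L)
    (hr : ∃ y ∈ U, LinearIndependent ℂ (om L y)) (g : Fin (t + 1) → ℝ) :
    ∃ y ∈ U, ∃ (c : ℝ) (n : Fin (t + 1) → ℤ), 0 < c ∧ (∀ i, (L y i).re + g i = c * n i) ∧
      Dt (om L y) (fun i => (n i : ℂ)) ≠ 0 := by
  obtain ⟨y₀, hy₀, hn₀⟩ := exists_nonReal hU hL hN hr
  obtain ⟨ε, hε, hB, hnB⟩ := exists_ball hU hL hy₀ hn₀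
  have hy₀B : y₀ ∈ Metric.ball y₀ ε := Metric.mem_ball_self hε
  obtain ⟨y₁, hy₁, hD₁⟩ : ∃ y ∈ Metric.ball y₀ ε,
      Dt (om L y) (fun i => (((L y i).re + g i : ℝ) : ℂ)) ≠ 0 := by
    by_contra hcon
    push Not at hcon
    exact not_nonReal_of_conj (indep_of_nonReal hn₀) (fun b =>
      Dt_conj_eq_zero Metric.isOpen_ball (hL.mono hB) g hcon hy₀B b) hn₀
  have hy₁U : y₁ ∈ U := hB hy₁
  -- the open set `V`
  have hcu : ContinuousOn (fun y => fun i => (((L y i).re + g i : ℝ) : ℂ)) U := by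
    refine continuousOn_pi.2 fun i => ?_
    have h1 : ContinuousOn (fun y => L y i) U :=
      (continuous_apply i).comp_continuousOn hL.continuousOn
    exact Complex.continuous_ofReal.comp_continuousOn
      ((Complex.continuous_re.comp_continuousOn h1).add continuousOn_const)
  have hcD := (continuousOn_Dt hU hL hcu).continuousAt (hU.mem_nhds hy₁U)
  have hV : {y | y ∈ Metric.ball y₀ ε ∧
      Dt (om L y) (fun i => (((L y i).re + g i : ℝ) : ℂ)) ≠ 0} ∈ nhds y₁ :=
    Filter.inter_mem (Metric.isOpen_ball.mem_nhds hy₁) (hcD.eventually_ne hD₁)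
  have him := image_re_mem_nhds hU hL hy₁U (hnB y₁ hy₁) hV
  -- a rational vector
  have hdense : DenseRange (fun q : Fin (t + 1) → ℚ => fun i => ((q i : ℚ) : ℝ)) :=
    DenseRange.piMap fun _ => Rat.denseRange_cast
  have hcont : Continuous (fun w : Fin (t + 1) → ℝ => w - g) := continuous_id.sub continuous_const
  have hnb : (fun w : Fin (t + 1) → ℝ => w - g) ⁻¹'
      ((fun y' => fun i => (L y' i).re) '' {y | y ∈ Metric.ball y₀ ε ∧
        Dt (om L y) (fun i => (((L y i).re + g i : ℝ) : ℂ)) ≠ 0}) ∈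
      nhds ((fun i => (L y₁ i).re) + g) := by
    refine hcont.continuousAt.preimage_mem_nhds ?_
    rw [add_sub_cancel_right]
    exact him
  obtain ⟨w, hw, ⟨q, hq⟩⟩ := mem_closure_iff_nhds.1 (hdense _) _ hnb
  obtain ⟨y, ⟨hyB, hyD⟩, hyw⟩ := hw
  have hLq : ∀ i, (L y i).re + g i = ((q i : ℚ) : ℝ) := by
    intro i
    have h1 := congrFun hyw i
    have h2 := congrFun hq i
    simp only [Pi.sub_apply] at h1
    rw [h1, ← h2]
    ring
  -- the common denominator
  let N : ℕ := ∏ i, (q i).den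
  have hNpos : 0 < N := Finset.prod_pos fun i _ => (q i).pos
  have hn : ∀ i, ∃ z : ℤ, (z : ℚ) = (N : ℚ) * q i := by
    intro i
    obtain ⟨e, he⟩ : (q i).den ∣ N :=
      Finset.dvd_prod_of_mem (fun i => (q i).den) (Finset.mem_univ i)
    refine ⟨e * (q i).num, ?_⟩
    have h1 : (q i) * ((q i).den : ℚ) = ((q i).num : ℚ) := Rat.mul_den_eq_num (q i)
    rw [he]
    push_cast
    rw [← h1]
    ring
  choose n hn using hn
  have hNR : (N : ℝ) ≠ 0 := by exact_mod_cast hNpos.ne'
  have hnR : ∀ i, ((n i : ℤ) : ℝ) = (N : ℝ) * ((q i : ℚ) : ℝ) := by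
    intro i
    have h2 := congrArg (fun r : ℚ => (r : ℝ)) (hn i)
    push_cast at h2
    exact h2
  refine ⟨y, hB hyB, (N : ℝ)⁻¹, n, inv_pos.2 (by exact_mod_cast hNpos), fun i => ?_, fun h0 => ?_⟩
  · rw [hLq i, hnR i, ← mul_assoc, inv_mul_cancel₀ hNR, one_mul]
  · apply hyD
    rw [Dt_eq] at h0 ⊢
    have h3 : ∀ i, ((((L y i).re + g i : ℝ)) : ℂ) = ((N : ℂ))⁻¹ * (n i : ℂ) := by
      intro i
      rw [hLq i]
      have h4 := congrArg (fun r : ℝ => (r : ℂ)) (hnR i)
      push_cast at h4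
      rw [h4, ← mul_assoc, inv_mul_cancel₀ (by exact_mod_cast hNpos.ne'), one_mul]
      norm_cast
    calc ∑ i, phi (om L y) i * ((((L y i).re + g i : ℝ)) : ℂ)
        = (N : ℂ)⁻¹ * ∑ i, phi (om L y) i * (n i : ℂ) := by
          rw [Finset.mul_sum]
          exact Finset.sum_congr rfl fun i _ => by rw [h3 i]; ring
      _ = 0 := by rw [h0, mul_zero]

end Pool.Agent.Zil.Gam
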