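import Pool.Agent.Zil.GACalc

set_option autoImplicit false

/-! GA4. Real ratios are constant. -/

namespace Pool.Agent.Zil.Gam

variable {t : ℕ} {U : Set (Fin t → ℂ)} {L : (Fin t → ℂ) → Fin (t + 1) → ℂ}

/-- A holomorphic function with real values on an open set has derivative `0`: for the direction `v` the
values `f' v` and `f' (I v) = I f' v` are both real (limits of real difference quotients). -/
theorem fderiv_eq_zero_of_real (hU : IsOpen U) {f : (Fin t → ℂ) → ℂ}
    (hf : DifferentiableOn ℂ f U) (hr : ∀ y ∈ U, (f y).im = 0) {y : Fin t → ℂ} (hy : y ∈ U) :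
    fderiv ℂ f y = 0 := by
  have h1 : HasFDerivAt f (fderiv ℂ f y) y := (hf.differentiableAt (hU.mem_nhds hy)).hasFDerivAt
  have h2 : HasFDerivAt f ((fderiv ℂ f y).restrictScalars ℝ) y := h1.restrictScalars ℝ
  have h3 : HasFDerivAt (fun x => (f x).im) (Complex.imCLM.comp ((fderiv ℂ f y).restrictScalars ℝ)) y :=
    (Complex.imCLM.hasFDerivAt (x := f y)).comp y h2
  have h4 : (fun x => (f x).im) =ᶠ[nhds y] fun _ => (0 : ℝ) := by
    filter_upwards [hU.mem_nhds hy] with x hx
    exact hr x hx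
  have h5 : HasFDerivAt (fun _ : Fin t → ℂ => (0 : ℝ))
      (Complex.imCLM.comp ((fderiv ℂ f y).restrictScalars ℝ)) y := h3.congr_of_eventuallyEq h4.symm
  have h6 : Complex.imCLM.comp ((fderiv ℂ f y).restrictScalars ℝ) = 0 :=
    h5.unique (hasFDerivAt_const (0 : ℝ) y)
  have h7 : ∀ v, (fderiv ℂ f y v).im = 0 := fun v => DFunLike.congr_fun h6 v
  ext v
  apply Complex.ext
  · have h8 := h7 (Complex.I • v)
    rw [map_smul, smul_eq_mul, Complex.I_mul_im] at h8
    exact h8
  · exact h7 v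

/-- **There is a point where `phi` is not proportional to a real vector.** Let `y₀ ∈ U` be such that
`om L y₀` is linearly independent, `phi (om L y₀) k ≠ 0` (`phi_ne_zero_iff`). On a ball `B ⊆ U` around `y₀`
`phi (om L y) k ≠ 0` (continuity). Suppose `¬ NonReal (om L y)` for all `y ∈ B`. Then
`f_i(y) = phi (om L y) i / phi (om L y) k` is holomorphic with real values on `B` (it is
`phi i * conj (phi k) / |phi k|^2`), so it is constant `c i` (`fderiv_eq_zero_of_real`,
`IsOpen.is_const_of_fderiv_eq_zero` or `Convex.is_const_of_fderivWithin_eq_zero`; balls are convex),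
`c k = 1`. By `Dt_eq`, `Dt_self`: `∑ i, c i * om L y b i = 0` for all `b` and `y ∈ B`, so
`y ↦ ∑ i, c i * L y i` has derivative `0` on `B` (`fderiv_eq_sum`) and is constant on `B`, against
`NoConst`. -/
theorem exists_nonReal (hU : IsOpen U) (hL : ContDiffOn ℂ 2 L U) (hN : NoConst U L)
    (hr : ∃ y ∈ U, LinearIndependent ℂ (om L y)) : ∃ y ∈ U, NonReal (om L y) := by
  classical
  obtain ⟨y₀, hy₀, hli⟩ := hr
  obtain ⟨k, hk⟩ := phi_ne_zero_iff.2 hli
  by_contra hcon
  push Not at hcon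
  have hreal : ∀ y ∈ U, ∀ i l, (phi (om L y) i * (starRingEnd ℂ) (phi (om L y) l)).im = 0 := by
    intro y hy i l
    by_contra h
    exact hcon y hy ⟨i, l, h⟩
  have hdphi := fun i => differentiableOn_phi hU hL i
  have hopen : IsOpen (U ∩ (fun y => phi (om L y) k) ⁻¹' {0}ᶜ) :=
    (hdphi k).continuousOn.isOpen_inter_preimage hU isOpen_compl_singleton
  obtain ⟨ε, hε, hB⟩ := Metric.isOpen_iff.1 hopen y₀ ⟨hy₀, hk⟩
  have hBU : Metric.ball y₀ ε ⊆ U := fun y hy => (hB hy).1
  have hBk : ∀ y ∈ Metric.ball y₀ ε, phi (om L y) k ≠ 0 := fun y hy => (hB hy).2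
  have hBo : IsOpen (Metric.ball y₀ ε) := Metric.isOpen_ball
  have hBc : IsPreconnected (Metric.ball y₀ ε) := (convex_ball y₀ ε).isPreconnected
  have hy₀B : y₀ ∈ Metric.ball y₀ ε := Metric.mem_ball_self hε
  let f : Fin (t + 1) → (Fin t → ℂ) → ℂ := fun i y => phi (om L y) i / phi (om L y) k
  have hfd : ∀ i, DifferentiableOn ℂ (f i) (Metric.ball y₀ ε) := by
    intro i
    have h1 := ((hdphi i).mono hBU).mul
      (DifferentiableOn.fun_inv ((hdphi k).mono hBU) hBk)
    refine h1.congr fun y _ => ?_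
    exact div_eq_mul_inv _ _
  have hfr : ∀ i, ∀ y ∈ Metric.ball y₀ ε, (f i y).im = 0 := by
    intro i y hy
    have h1 := hreal y (hBU hy) i k
    have h2 : f i y = (phi (om L y) i * (starRingEnd ℂ) (phi (om L y) k)) /
        ((Complex.normSq (phi (om L y) k) : ℝ) : ℂ) := by
      rw [← Complex.mul_conj]
      exact (mul_div_mul_right _ _ ((map_ne_zero _).2 (hBk y hy))).symm
    rw [h2, Complex.div_ofReal_im, h1, zero_div]
  have hfc : ∀ i, ∀ y ∈ Metric.ball y₀ ε, f i y = f i y₀ := by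
    intro i y hy
    refine hBo.is_const_of_fderiv_eq_zero (𝕜 := ℂ) hBc (hfd i) ?_ hy hy₀B
    intro z hz
    exact fderiv_eq_zero_of_real hBo (hfd i) (hfr i) hz
  let c : Fin (t + 1) → ℝ := fun i => (f i y₀).re
  have hc : ∀ i, ∀ y ∈ Metric.ball y₀ ε, ((c i : ℝ) : ℂ) = f i y := by
    intro i y hy
    rw [hfc i y hy]
    exact Complex.ext (Complex.ofReal_re _) ((Complex.ofReal_im _).trans (hfr i y₀ hy₀B).symm)
  have hc0 : c ≠ 0 := by
    intro h
    have h1 := hc k y₀ hy₀B
    have h2 : f k y₀ = 1 := div_self hk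
    rw [h2, h] at h1
    simp at h1
  have hsum : ∀ y ∈ Metric.ball y₀ ε, ∀ b, ∑ i, (c i : ℂ) * om L y b i = 0 := by
    intro y hy b
    have h1 : Dt (om L y) (om L y b) = 0 := Dt_self _ b
    rw [Dt_eq] at h1
    have h2 : ∀ i, (c i : ℂ) * om L y b i = (phi (om L y) i * om L y b i) / phi (om L y) k := by
      intro i
      rw [hc i y hy]
      exact div_mul_eq_mul_div _ _ _
    rw [Finset.sum_congr rfl fun i _ => h2 i, ← Finset.sum_div, h1, zero_div]
  have hLd : DifferentiableOn ℂ L U := hL.differentiableOn (by norm_num)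
  let P : (Fin (t + 1) → ℂ) →L[ℂ] ℂ := ∑ i, (c i : ℂ) • ContinuousLinearMap.proj i
  have hP : ∀ u, P u = ∑ i, (c i : ℂ) * u i := by
    intro u
    simp only [P, ContinuousLinearMap.sum_apply, ContinuousLinearMap.smul_apply,
      ContinuousLinearMap.proj_apply, smul_eq_mul]
  have hgd : ∀ y ∈ Metric.ball y₀ ε, HasFDerivAt (fun y => P (L y)) (P.comp (fderiv ℂ L y)) y := by
    intro y hy
    exact (P.hasFDerivAt (x := L y)).comp y
      (hLd.differentiableAt (hU.mem_nhds (hBU hy))).hasFDerivAt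
  have hgc : ∀ y ∈ Metric.ball y₀ ε, P (L y) = P (L y₀) := by
    intro y hy
    refine hBo.is_const_of_fderiv_eq_zero (𝕜 := ℂ) (f := fun y => P (L y)) hBc
      (fun z hz => (hgd z hz).differentiableAt.differentiableWithinAt) ?_ hy hy₀B
    intro z hz
    rw [(hgd z hz).fderiv]
    ext v
    change P (fderiv ℂ L z v) = 0
    rw [fderiv_eq_sum, map_sum]
    refine Finset.sum_eq_zero fun b _ => ?_
    rw [map_smul, hP, hsum z hz b, smul_zero]
  obtain ⟨y, hy, hne⟩ := hN c hc0 (Metric.ball y₀ ε) hBU hBo ⟨y₀, hy₀B⟩ (P (L y₀))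
  apply hne
  rw [← hP]
  exact hgc y hy

end Pool.Agent.Zil.Gam
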