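import Mathlib

set_option autoImplicit false

/-! GA14. The irreducible relation. -/

namespace Pool.Agent.Zil.Gam

open MvPolynomial

/-- The kernel of the evaluation at an algebraic element is principal. -/
private theorem rel_gauss {R Ω : Type} [CommRing R] [IsDomain R] [UniqueFactorizationMonoid R]
    [Field Ω] (φ : R →+* Ω) (hφ : Function.Injective φ) (z : Ω) {P : Polynomial R} (hP0 : P ≠ 0)
    (hP : P.eval₂ φ z = 0) :
    ∃ g : Polynomial R, Irreducible g ∧ g.eval₂ φ z = 0 ∧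
      ∀ p : Polynomial R, p.eval₂ φ z = 0 → g ∣ p := by
  have hI : (RingHom.ker (Polynomial.eval₂RingHom φ z)).IsPrime := RingHom.ker_isPrime _
  have hne : RingHom.ker (Polynomial.eval₂RingHom φ z) ≠ ⊥ := by
    intro h
    have h1 : P ∈ RingHom.ker (Polynomial.eval₂RingHom φ z) := hP
    rw [h] at h1
    exact hP0 h1
  obtain ⟨g, hg, hgp⟩ := hI.exists_mem_prime_of_ne_bot hne
  have hg0 : g.eval₂ φ z = 0 := hg
  have hirr : Irreducible g := hgp.irreducible
  have hdeg : g.natDegree ≠ 0 := by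
    intro h
    have hg1 := hg0
    rw [Polynomial.eq_C_of_natDegree_eq_zero h, Polynomial.eval₂_C] at hg1
    have h1 : g.coeff 0 = 0 := hφ (hg1.trans (map_zero φ).symm)
    apply hgp.ne_zero
    rw [Polynomial.eq_C_of_natDegree_eq_zero h, h1, map_zero]
  have hprim : g.IsPrimitive := hirr.isPrimitive hdeg
  let K := FractionRing R
  have hirrK : Irreducible (g.map (algebraMap R K)) :=
    hprim.irreducible_iff_irreducible_map_fraction_map.1 hirr
  let φK : K →+* Ω := IsFractionRing.lift hφ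
  have hφK : φK.comp (algebraMap R K) = φ := by
    ext r
    exact IsFractionRing.lift_algebraMap hφ r
  have hev : ∀ p : Polynomial R, (p.map (algebraMap R K)).eval₂ φK z = p.eval₂ φ z := by
    intro p
    rw [Polynomial.eval₂_map, hφK]
  refine ⟨g, hirr, hg0, fun p hp => ?_⟩
  refine hprim.dvd_of_fraction_map_dvd_fraction_map (K := K) ?_
  by_contra hcon
  obtain ⟨a, b, hab⟩ := (hirrK.coprime_iff_not_dvd).2 hcon
  have h1 := congrArg (fun q => Polynomial.eval₂ φK z q) hab
  simp only [Polynomial.eval₂_add, Polynomial.eval₂_mul, hev, hp, hg0, mul_zero, add_zero,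
    Polynomial.eval₂_one] at h1
  exact zero_ne_one h1

/-- Clearing denominators. -/
private theorem rel_clear {σ : Type} (f : MvPolynomial σ ℚ) :
    ∃ (N : ℕ) (g : MvPolynomial σ ℤ), N ≠ 0 ∧ map (Int.castRingHom ℚ) g = C (N : ℚ) * f := by
  induction f using MvPolynomial.induction_on with
  | C a =>
    refine ⟨a.den, C a.num, a.den_ne_zero, ?_⟩
    rw [map_C, ← C_mul]
    congr 1
    rw [eq_intCast]
    exact (Rat.den_mul_eq_num a).symm
  | add f1 f2 h1 h2 =>
    obtain ⟨N1, g1, hN1, hg1⟩ := h1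
    obtain ⟨N2, g2, hN2, hg2⟩ := h2
    refine ⟨N1 * N2, C (N2 : ℤ) * g1 + C (N1 : ℤ) * g2, mul_ne_zero hN1 hN2, ?_⟩
    rw [map_add, map_mul, map_mul, map_C, map_C, hg1, hg2]
    simp only [eq_intCast, Int.cast_natCast, Nat.cast_mul, C_mul]
    ring
  | mul_X f1 i h1 =>
    obtain ⟨N1, g1, hN1, hg1⟩ := h1
    refine ⟨N1, g1 * X i, hN1, ?_⟩
    rw [map_mul, map_X, hg1, mul_assoc]

/-- **The relation.** `z_0 .. z_t` with `z_i`, `i ≠ i₁`, algebraically independent over `ℚ` and `z_(i₁)`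
algebraic over them: the kernel of `ℤ[X_0 .. X_t] → Ω` is generated over `ℚ` by one polynomial which is
irreducible over `ℚ`. Proof: minimal polynomial of `z_(i₁)` over the field `ℚ(z_i, i ≠ i₁)`, isomorphic to the
field of rational functions; cleared denominators, primitive part; Gauss lemma. -/
theorem exists_relation {Ω : Type} [Field Ω] [CharZero Ω] {t : ℕ} (z : Fin (t + 1) → Ω)
    (i₁ : Fin (t + 1)) (hind : AlgebraicIndependent ℚ (fun k : Fin t => z (i₁.succAbove k)))
    (halg : IsAlgebraic (Algebra.adjoin ℚ (Set.range fun k : Fin t => z (i₁.succAbove k)))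
      (z i₁)) :
    ∃ g : MvPolynomial (Fin (t + 1)) ℤ, Irreducible (map (Int.castRingHom ℚ) g) ∧
      aeval z g = 0 ∧ ∀ p : MvPolynomial (Fin (t + 1)) ℤ, aeval z p = 0 →
        map (Int.castRingHom ℚ) g ∣ map (Int.castRingHom ℚ) p := by
  let φ : MvPolynomial (Fin t) ℚ →ₐ[ℚ] Ω := aeval (fun k : Fin t => z (i₁.succAbove k))
  have hφ : Function.Injective (φ : MvPolynomial (Fin t) ℚ →+* Ω) := hind
  let e : MvPolynomial (Fin (t + 1)) ℚ ≃ₐ[ℚ] Polynomial (MvPolynomial (Fin t) ℚ) :=
    (renameEquiv ℚ (finSuccEquiv' i₁)).trans (optionEquivLeft ℚ (Fin t))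
  have heX : ∀ i, (e (X i)).eval₂ (φ : MvPolynomial (Fin t) ℚ →+* Ω) (z i₁) = z i := by
    intro i
    have h1 : e (X i) = optionEquivLeft ℚ (Fin t) (X (finSuccEquiv' i₁ i)) := by
      change optionEquivLeft ℚ (Fin t) (rename (finSuccEquiv' i₁) (X i)) = _
      rw [rename_X]
    rw [h1]
    rcases Fin.eq_self_or_eq_succAbove i₁ i with rfl | ⟨j, rfl⟩
    · rw [finSuccEquiv'_at, optionEquivLeft_X_none, Polynomial.eval₂_X]
    · rw [finSuccEquiv'_succAbove, optionEquivLeft_X_some, Polynomial.eval₂_C]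
      exact aeval_X _ j
  have he : ∀ p : MvPolynomial (Fin (t + 1)) ℚ,
      (e p).eval₂ (φ : MvPolynomial (Fin t) ℚ →+* Ω) (z i₁) = aeval z p := by
    intro p
    have h1 : ((Polynomial.eval₂RingHom (φ : MvPolynomial (Fin t) ℚ →+* Ω) (z i₁)).comp
        (e : MvPolynomial (Fin (t + 1)) ℚ →+* Polynomial (MvPolynomial (Fin t) ℚ))) =
        (aeval z : MvPolynomial (Fin (t + 1)) ℚ →ₐ[ℚ] Ω) := by
      refine MvPolynomial.ringHom_ext (fun a => ?_) fun i => ?_
      · exact (RingHom.map_rat_algebraMap (((Polynomial.eval₂RingHom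
          (φ : MvPolynomial (Fin t) ℚ →+* Ω) (z i₁)).comp
          (e : MvPolynomial (Fin (t + 1)) ℚ →+* Polynomial (MvPolynomial (Fin t) ℚ)))) a).trans
          (aeval_C z a).symm
      · exact (heX i).trans (aeval_X z i).symm
    exact RingHom.congr_fun h1 p
  -- a relation
  obtain ⟨P, hP0, hP⟩ := halg
  obtain ⟨g, hg, hg0, hgd⟩ := rel_gauss (φ : MvPolynomial (Fin t) ℚ →+* Ω) hφ (z i₁)
    (P := P.map (hind.repr : _ →+* MvPolynomial (Fin t) ℚ)) (by
      rw [Ne, Polynomial.map_eq_zero_iff]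
      · exact hP0
      · exact hind.aevalEquiv.symm.injective) (by
      rw [Polynomial.eval₂_map]
      have h1 : (φ : MvPolynomial (Fin t) ℚ →+* Ω).comp
          (hind.repr : _ →+* MvPolynomial (Fin t) ℚ) = algebraMap
          (Algebra.adjoin ℚ (Set.range fun k : Fin t => z (i₁.succAbove k))) Ω := by
        ext x
        exact hind.aeval_repr x
      rw [h1]
      exact hP)
  obtain ⟨N, g', hN, hg'⟩ := rel_clear (e.symm g)
  have hNu : IsUnit (C (N : ℚ) : MvPolynomial (Fin (t + 1)) ℚ) :=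
    (isUnit_iff_ne_zero.2 (by exact_mod_cast hN)).map C
  have hsymm : Irreducible (e.symm g) := (MulEquiv.irreducible_iff e.symm).2 hg
  have haev : ∀ p : MvPolynomial (Fin (t + 1)) ℤ,
      aeval z (map (Int.castRingHom ℚ) p) = aeval z p := by
    intro p
    exact aeval_map_algebraMap ℚ z p
  refine ⟨g', ?_, ?_, fun p hp => ?_⟩
  · rw [hg']
    exact (irreducible_isUnit_mul hNu).2 hsymm
  · rw [← haev, hg', map_mul, ← he (e.symm g), e.apply_symm_apply, hg0, mul_zero]
  · rw [hg']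
    rw [← haev, ← he] at hp
    obtain ⟨q, hq⟩ := hgd _ hp
    have h1 : e.symm g ∣ map (Int.castRingHom ℚ) p := by
      refine ⟨e.symm q, ?_⟩
      rw [← map_mul, ← hq, e.symm_apply_apply]
    exact (hNu.mul_left_dvd).2 h1

end Pool.Agent.Zil.Gam
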