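import Pool.Agent.Zil.GADefs

set_option autoImplicit false

/-! GA10. Monomial substitutions. -/

namespace Pool.Agent.Zil.Gam

variable {t : ℕ}

/-- The exponent of `X` after the substitution, without the shift. -/
private def twW (n : Fin (t + 1) → ℤ) (e : Fin (t + 1) →₀ ℕ) : ℤ := ∑ i, n i * e i

/-- The new exponent. -/
private noncomputable def twE (i₀ : Fin (t + 1)) (n : Fin (t + 1) → ℤ) (N : ℕ)
    (e : Fin (t + 1) →₀ ℕ) : Fin (t + 1) →₀ ℕ := e.update i₀ (twW n e + N).toNat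

private theorem twE_same (i₀ : Fin (t + 1)) (n : Fin (t + 1) → ℤ) (N : ℕ)
    (e : Fin (t + 1) →₀ ℕ) : twE i₀ n N e i₀ = (twW n e + N).toNat := by
  classical
  rw [twE, Finsupp.update_apply, if_pos rfl]

private theorem twE_ne (i₀ : Fin (t + 1)) (n : Fin (t + 1) → ℤ) (N : ℕ)
    (e : Fin (t + 1) →₀ ℕ) {i : Fin (t + 1)} (hi : i ≠ i₀) : twE i₀ n N e i = e i := by
  classical
  rw [twE, Finsupp.update_apply, if_neg hi]

private theorem twE_inj (i₀ : Fin (t + 1)) (n : Fin (t + 1) → ℤ) (hn : n i₀ ≠ 0) (N : ℕ)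
    {e f : Fin (t + 1) →₀ ℕ} (he : 0 ≤ twW n e + N) (hf : 0 ≤ twW n f + N)
    (h : twE i₀ n N e = twE i₀ n N f) : e = f := by
  have h1 : ∀ i, i ≠ i₀ → e i = f i := by
    intro i hi
    rw [← twE_ne i₀ n N e hi, h, twE_ne i₀ n N f hi]
  have h2 : twW n e = twW n f := by
    have h3 := DFunLike.congr_fun h i₀
    rw [twE_same, twE_same] at h3
    omega
  have h3 : n i₀ * e i₀ = n i₀ * f i₀ := by
    rw [twW, twW, ← Finset.add_sum_erase _ _ (Finset.mem_univ i₀),
      ← Finset.add_sum_erase _ (fun i => n i * (f i : ℤ)) (Finset.mem_univ i₀)] at h2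
    have h4 : ∑ i ∈ Finset.univ.erase i₀, n i * (e i : ℤ) =
        ∑ i ∈ Finset.univ.erase i₀, n i * (f i : ℤ) :=
      Finset.sum_congr rfl fun i hi => by rw [h1 i (Finset.ne_of_mem_erase hi)]
    rw [h4] at h2
    exact add_right_cancel h2
  have h4 : e i₀ = f i₀ := by
    have h5 := mul_left_cancel₀ hn h3
    exact_mod_cast h5
  ext i
  by_cases hi : i = i₀
  · rw [hi, h4]
  · exact h1 i hi

private theorem tw_zpow {X : ℂ} (hX : X ≠ 0) {ι : Type} (s : Finset ι) (f : ι → ℤ) :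
    ∏ i ∈ s, X ^ f i = X ^ ∑ i ∈ s, f i := by
  classical
  induction s using Finset.induction_on with
  | empty => rw [Finset.prod_empty, Finset.sum_empty, zpow_zero]
  | insert a s ha ih => rw [Finset.prod_insert ha, Finset.sum_insert ha, ih, zpow_add₀ hX]

/-- The values of one monomial. -/
private theorem tw_term (i₀ : Fin (t + 1)) (n : Fin (t + 1) → ℤ) (N : ℕ)
    {e : Fin (t + 1) →₀ ℕ} (he : 0 ≤ twW n e + N) {X : ℂ} {ζ : Fin (t + 1) → ℂ} (hX : X ≠ 0)
    (hζ : ζ i₀ = 1) :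
    ∏ i, (if i = i₀ then X else ζ i) ^ (twE i₀ n N e i) =
      X ^ N * ∏ i, (tw n ζ X i) ^ (e i) := by
  have h1 : ∀ i, (if i = i₀ then X else ζ i) ^ (twE i₀ n N e i) =
      (if i = i₀ then X ^ (twW n e + N).toNat else 1) * ζ i ^ (e i) := by
    intro i
    by_cases hi : i = i₀
    · rw [if_pos hi, if_pos hi, hi, twE_same, hζ, one_pow, mul_one]
    · rw [if_neg hi, if_neg hi, twE_ne i₀ n N e hi, one_mul]
  have h2 : ∀ i, (tw n ζ X i) ^ (e i) = X ^ (n i * (e i : ℤ)) * ζ i ^ (e i) := by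
    intro i
    rw [tw, mul_pow, zpow_mul, zpow_natCast]
  have h3 : ∏ i, X ^ (n i * (e i : ℤ)) = X ^ (twW n e) := by
    rw [twW]
    exact tw_zpow hX _ _
  rw [Finset.prod_congr rfl fun i _ => h1 i, Finset.prod_congr rfl fun i _ => h2 i,
    Finset.prod_mul_distrib, Finset.prod_mul_distrib, Finset.prod_ite_eq' Finset.univ i₀,
    if_pos (Finset.mem_univ _), h3, ← mul_assoc]
  congr 1
  rw [← zpow_natCast X (twW n e + N).toNat, Int.toNat_of_nonneg he, zpow_add₀ hX, zpow_natCast,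
    mul_comm]

/-- `F' = ∑ e, coeff_e * monomial e'`, `e' i₀ = ∑ i, n i * e i + N` (natural number for `N` large),
`e' i = e i` for `i ≠ i₀`. The map `e ↦ e'` is injective (`n i₀ ≠ 0`), so the coefficients of `F'` are those
of `F` and `l1 F' = l1 F`. For `X ≠ 0`, `ζ i₀ = 1`: term by term
`X ^ (∑ n i * e i + N) * ∏ ζ_i ^ (e i) = X ^ N * ∏ (X ^ (n i) * ζ i) ^ (e i)`. -/
theorem exists_twist (i₀ : Fin (t + 1)) (n : Fin (t + 1) → ℤ) (hn : n i₀ ≠ 0)
    (F : MvPolynomial (Fin (t + 1)) ℤ) :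
    ∃ (F' : MvPolynomial (Fin (t + 1)) ℤ) (N : ℕ), l1 F' = l1 F ∧ (F ≠ 0 → F' ≠ 0) ∧
      ∀ (X : ℂ) (ζ : Fin (t + 1) → ℂ), X ≠ 0 → ζ i₀ = 1 →
        Polynomial.eval X (spec i₀ ζ F') = X ^ N * MvPolynomial.aeval (tw n ζ X) F := by
  classical
  obtain ⟨N, hN⟩ : ∃ N : ℕ, ∀ e ∈ F.support, 0 ≤ twW n e + N := by
    refine ⟨∑ e ∈ F.support, (twW n e).natAbs, fun e he => ?_⟩
    have h1 : (twW n e).natAbs ≤ ∑ e ∈ F.support, (twW n e).natAbs :=
      Finset.single_le_sum (f := fun e => (twW n e).natAbs) (fun _ _ => Nat.zero_le _) he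
    omega
  have hcoeff : ∀ m, MvPolynomial.coeff m
      (∑ e ∈ F.support, MvPolynomial.monomial (twE i₀ n N e) (F.coeff e)) =
      ∑ e ∈ F.support, if twE i₀ n N e = m then F.coeff e else 0 := by
    intro m
    rw [MvPolynomial.coeff_sum]
    exact Finset.sum_congr rfl fun e _ => MvPolynomial.coeff_monomial _ _ _
  have hco : ∀ e ∈ F.support, MvPolynomial.coeff (twE i₀ n N e)
      (∑ e ∈ F.support, MvPolynomial.monomial (twE i₀ n N e) (F.coeff e)) = F.coeff e := by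
    intro e he
    rw [hcoeff, Finset.sum_eq_single_of_mem e he, if_pos rfl]
    intro f hf hfe
    rw [if_neg]
    intro h
    exact hfe (twE_inj i₀ n hn N (hN f hf) (hN e he) h)
  refine ⟨∑ e ∈ F.support, MvPolynomial.monomial (twE i₀ n N e) (F.coeff e), N, ?_, ?_, ?_⟩
  · have h1 : l1 (∑ e ∈ F.support, MvPolynomial.monomial (twE i₀ n N e) (F.coeff e)) =
        ∑ m ∈ F.support.image (twE i₀ n N), |((MvPolynomial.coeff m
          (∑ e ∈ F.support, MvPolynomial.monomial (twE i₀ n N e) (F.coeff e)) : ℤ) : ℝ)| := by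
      rw [l1]
      refine Finset.sum_subset (fun m hm => ?_) fun m _ hm => ?_
      · rw [MvPolynomial.mem_support_iff, hcoeff] at hm
        obtain ⟨e, he, hne⟩ := Finset.exists_ne_zero_of_sum_ne_zero hm
        rw [Finset.mem_image]
        refine ⟨e, he, ?_⟩
        by_contra h
        exact hne (if_neg h)
      · rw [MvPolynomial.notMem_support_iff.1 hm, Int.cast_zero, abs_zero]
    rw [h1, Finset.sum_image, l1]
    · exact Finset.sum_congr rfl fun e he => by rw [hco e he]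
    · intro e he f hf h
      exact twE_inj i₀ n hn N (hN e he) (hN f hf) h
  · intro hF h0
    obtain ⟨e, he⟩ := Finset.nonempty_iff_ne_empty.2
      (fun h => hF (MvPolynomial.support_eq_empty.1 h))
    have h1 := hco e he
    rw [h0, MvPolynomial.coeff_zero] at h1
    exact MvPolynomial.mem_support_iff.1 he h1.symm
  · intro X ζ hX hζ
    have h1 : MvPolynomial.aeval (tw n ζ X) F =
        ∑ e ∈ F.support, ((F.coeff e : ℤ) : ℂ) * ∏ i, (tw n ζ X i) ^ (e i) := by
      conv_lhs => rw [F.as_sum]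
      rw [map_sum]
      refine Finset.sum_congr rfl fun e _ => ?_
      rw [MvPolynomial.aeval_monomial, Finsupp.prod_fintype _ _ fun i => pow_zero _,
        algebraMap_int_eq, eq_intCast]
    have h2 : Polynomial.eval X (spec i₀ ζ
        (∑ e ∈ F.support, MvPolynomial.monomial (twE i₀ n N e) (F.coeff e))) =
        ∑ e ∈ F.support, ((F.coeff e : ℤ) : ℂ) *
          ∏ i, (if i = i₀ then X else ζ i) ^ (twE i₀ n N e i) := by
      rw [spec, map_sum, Polynomial.eval_finsetSum]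
      refine Finset.sum_congr rfl fun e _ => ?_
      rw [MvPolynomial.aeval_monomial, Finsupp.prod_fintype _ _ fun i => pow_zero _,
        eq_intCast (algebraMap ℤ (Polynomial ℂ)), Polynomial.eval_mul, Polynomial.eval_intCast,
        Polynomial.eval_prod]
      congr 1
      refine Finset.prod_congr rfl fun i _ => ?_
      rw [Polynomial.eval_pow]
      by_cases hi : i = i₀
      · rw [if_pos hi, if_pos hi, Polynomial.eval_X]
      · rw [if_neg hi, if_neg hi, Polynomial.eval_C]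
    rw [h1, h2, Finset.mul_sum]
    refine Finset.sum_congr rfl fun e he => ?_
    rw [tw_term i₀ n N (hN e he) hX hζ]
    ring

/-- `F = g ^ s * h`. Let `F', g', h'` be the twists (`exists_twist`) with `N, N₁, N₂`; for `X ≠ 0`:
`X ^ (s N₁ + N₂) * F'(X) = X ^ N * g'(X) ^ s * h'(X)`, an identity of polynomials in `X` (infinitely many
values: `Polynomial.eq_of_infinite_eval_eq` or `Polynomial.funext` after multiplication by `X`), where
`g'(u) = 0` since `g (tw n ζ u) = 0`. So `(X - u) ^ s` divides `X ^ (..) * F'(X)`, and `X - u` does not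
divide `X` (`u ≠ 0`), so it divides `F'(X)`. -/
theorem le_rootMultiplicity (i₀ : Fin (t + 1)) (n : Fin (t + 1) → ℤ) (hn : n i₀ ≠ 0)
    {F F' g : MvPolynomial (Fin (t + 1)) ℤ} {N s : ℕ} (hgF : g ^ s ∣ F)
    (ζ : Fin (t + 1) → ℂ) (hζ : ζ i₀ = 1)
    (hF' : ∀ X : ℂ, X ≠ 0 →
      Polynomial.eval X (spec i₀ ζ F') = X ^ N * MvPolynomial.aeval (tw n ζ X) F)
    (h0 : spec i₀ ζ F' ≠ 0) {u : ℂ} (hu : u ≠ 0)
    (hgu : MvPolynomial.aeval (tw n ζ u) g = 0) :
    s ≤ (spec i₀ ζ F').rootMultiplicity u := by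
  obtain ⟨h, rfl⟩ := hgF
  obtain ⟨g', N₁, -, -, hg'⟩ := exists_twist i₀ n hn g
  obtain ⟨h', N₂, -, -, hh'⟩ := exists_twist i₀ n hn h
  have key : Polynomial.X ^ (N₁ * s + N₂) * spec i₀ ζ F' =
      Polynomial.X ^ N * (spec i₀ ζ g' ^ s * spec i₀ ζ h') := by
    refine Polynomial.eq_of_infinite_eval_eq _ _ ?_
    refine Set.Infinite.mono ?_ (Set.finite_singleton (0 : ℂ)).infinite_compl
    intro X hX
    have hX0 : X ≠ 0 := hX
    show Polynomial.eval X _ = Polynomial.eval X _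
    rw [Polynomial.eval_mul, Polynomial.eval_mul, Polynomial.eval_mul, Polynomial.eval_pow,
      Polynomial.eval_pow, Polynomial.eval_pow, Polynomial.eval_X, hF' X hX0, hg' X ζ hX0 hζ,
      hh' X ζ hX0 hζ, map_mul, map_pow, mul_pow, pow_add, pow_mul]
    ring
  have hroot : Polynomial.eval u (spec i₀ ζ g') = 0 := by
    rw [hg' u ζ hu hζ, hgu, mul_zero]
  have h1 : (Polynomial.X - Polynomial.C u) ∣ spec i₀ ζ g' := Polynomial.dvd_iff_isRoot.2 hroot
  have h2 : (Polynomial.X - Polynomial.C u) ^ s ∣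
      Polynomial.X ^ (N₁ * s + N₂) * spec i₀ ζ F' := by
    rw [key]
    exact Dvd.dvd.mul_left (Dvd.dvd.mul_right (pow_dvd_pow_of_dvd h1 s) _) _
  have h3 : ¬ (Polynomial.X - Polynomial.C u) ∣ (Polynomial.X : Polynomial ℂ) ^ (N₁ * s + N₂) := by
    rw [Polynomial.dvd_iff_isRoot, Polynomial.IsRoot.def, Polynomial.eval_pow, Polynomial.eval_X]
    exact pow_ne_zero _ hu
  rw [Polynomial.le_rootMultiplicity_iff h0]
  exact (Polynomial.prime_X_sub_C u).pow_dvd_of_dvd_mul_left s h3 h2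

end Pool.Agent.Zil.Gam
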