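import Mathlib

set_option autoImplicit false

/-! ZIL, case D, section 5.3: the multiplicity lemma, definitions. -/

namespace Pool.Agent.Zil.Gam

open MvPolynomial

/-- A field `E` with a real valuation `v` (on the nonzero elements) and a residue relation onto a field
`κ`: `Rs e c` means: `e` is integral with residue `c`. -/
structure Resd {E κ : Type} [Field E] [Field κ] (v : E → ℝ) (Rs : E → κ → Prop) : Prop where
  vmul : ∀ x y, x ≠ 0 → y ≠ 0 → v (x * y) = v x + v y
  vadd : ∀ x y, x ≠ 0 → y ≠ 0 → x + y ≠ 0 → min (v x) (v y) ≤ v (x + y)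
  one : Rs 1 1
  add : ∀ e e' c c', Rs e c → Rs e' c' → Rs (e + e') (c + c')
  mul : ∀ e e' c c', Rs e c → Rs e' c' → Rs (e * e') (c * c')
  neg : ∀ e c, Rs e c → Rs (-e) (-c)
  zero_iff : ∀ e, Rs e 0 ↔ e = 0 ∨ 0 < v e
  unit : ∀ e c, Rs e c → c ≠ 0 → e ≠ 0 ∧ v e = 0
  surj : ∀ c, ∃ e, Rs e c

/-- All coefficients of `P` have value at least `γ` (or vanish). -/
def GE {E : Type} [Field E] (v : E → ℝ) (γ : ℝ) {S : Type} [Field S] (φ : S →+* E)
    (P : Polynomial S) : Prop := ∀ n, P.coeff n = 0 ∨ γ ≤ v (φ (P.coeff n))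

/-- The polynomial `F(c, X)`, `X` at the place `i₁`. -/
noncomputable def pol {L : Type} [Field L] {t : ℕ} (i₁ : Fin (t + 1)) (c : Fin t → L)
    (F : MvPolynomial (Fin (t + 1)) ℤ) : Polynomial L :=
  aeval (Fin.insertNth (α := fun _ => Polynomial L) i₁ Polynomial.X
    (fun k => Polynomial.C (c k))) F

/-- The monomial `∏ w_b ^ (e b)`. -/
noncomputable def wmon {E B : Type} [Field E] [Fintype B] (w : B → E) (e : B → ℤ) : E :=
  ∏ b, w b ^ e b

section

variable {E κ : Type} [Field E] [Field κ] {v : E → ℝ} {Rs : E → κ → Prop}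

theorem Resd.zero (R : Resd v Rs) : Rs 0 0 := (R.zero_iff 0).2 (Or.inl rfl)

theorem Resd.sub (R : Resd v Rs) {e e' : E} {c c' : κ} (h : Rs e c) (h' : Rs e' c') :
    Rs (e - e') (c - c') := by
  rw [sub_eq_add_neg, sub_eq_add_neg]
  exact R.add _ _ _ _ h (R.neg _ _ h')

theorem Resd.uniq (R : Resd v Rs) {e : E} {c c' : κ} (h : Rs e c) (h' : Rs e c') : c = c' := by
  by_contra hne
  have h1 : Rs 0 (c - c') := by simpa using R.sub h h'
  exact (R.unit _ _ h1 (sub_ne_zero.2 hne)).1 rfl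

theorem Resd.sum (R : Resd v Rs) {α : Type} (s : Finset α) (e : α → E) (c : α → κ)
    (h : ∀ i ∈ s, Rs (e i) (c i)) : Rs (∑ i ∈ s, e i) (∑ i ∈ s, c i) := by
  classical
  induction s using Finset.induction_on with
  | empty => simpa using R.zero
  | insert a s ha ih =>
    rw [Finset.sum_insert ha, Finset.sum_insert ha]
    exact R.add _ _ _ _ (h a (Finset.mem_insert_self _ _))
      (ih fun i hi => h i (Finset.mem_insert_of_mem hi))

theorem Resd.prod (R : Resd v Rs) {α : Type} (s : Finset α) (e : α → E) (c : α → κ)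
    (h : ∀ i ∈ s, Rs (e i) (c i)) : Rs (∏ i ∈ s, e i) (∏ i ∈ s, c i) := by
  classical
  induction s using Finset.induction_on with
  | empty => simpa using R.one
  | insert a s ha ih =>
    rw [Finset.prod_insert ha, Finset.prod_insert ha]
    exact R.mul _ _ _ _ (h a (Finset.mem_insert_self _ _))
      (ih fun i hi => h i (Finset.mem_insert_of_mem hi))

theorem Resd.pow (R : Resd v Rs) {e : E} {c : κ} (h : Rs e c) (n : ℕ) : Rs (e ^ n) (c ^ n) := by
  induction n with
  | zero => simpa using R.one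
  | succ n ih => rw [pow_succ, pow_succ]; exact R.mul _ _ _ _ ih h

theorem Resd.nat (R : Resd v Rs) (n : ℕ) : Rs (n : E) (n : κ) := by
  induction n with
  | zero => simpa using R.zero
  | succ n ih => rw [Nat.cast_succ, Nat.cast_succ]; exact R.add _ _ _ _ ih R.one

theorem Resd.int (R : Resd v Rs) (n : ℤ) : Rs (n : E) (n : κ) := by
  obtain ⟨m, rfl | rfl⟩ := n.eq_nat_or_neg
  · simpa using R.nat m
  · simpa using R.neg _ _ (R.nat m)

theorem Resd.vone (R : Resd v Rs) : v 1 = 0 := (R.unit _ _ R.one one_ne_zero).2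

theorem Resd.vinv (R : Resd v Rs) {e : E} (h : e ≠ 0) : v e⁻¹ = - v e := by
  have h1 := R.vmul e e⁻¹ h (inv_ne_zero h)
  rw [mul_inv_cancel₀ h, R.vone] at h1
  linarith

theorem Resd.vneg (R : Resd v Rs) (e : E) : v (-e) = v e := by
  by_cases h : e = 0
  · rw [h, neg_zero]
  have h0 : v (-1 : E) = 0 := by
    have h1 := R.vmul (-1) (-1) (neg_ne_zero.2 one_ne_zero) (neg_ne_zero.2 one_ne_zero)
    rw [neg_mul_neg, mul_one, R.vone] at h1
    linarith
  rw [neg_eq_neg_one_mul, R.vmul _ _ (neg_ne_zero.2 one_ne_zero) h, h0, zero_add]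

theorem Resd.vpow (R : Resd v Rs) {e : E} (h : e ≠ 0) (n : ℕ) : v (e ^ n) = n * v e := by
  induction n with
  | zero => simp [R.vone]
  | succ n ih =>
    rw [pow_succ, R.vmul _ _ (pow_ne_zero _ h) h, ih]
    push_cast
    ring

theorem Resd.vzpow (R : Resd v Rs) {e : E} (h : e ≠ 0) (n : ℤ) : v (e ^ n) = n * v e := by
  obtain ⟨m, rfl | rfl⟩ := n.eq_nat_or_neg
  · simpa using R.vpow h m
  · rw [zpow_neg, R.vinv (zpow_ne_zero _ h), zpow_natCast, R.vpow h]
    push_cast
    ring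

theorem Resd.inv (R : Resd v Rs) {e : E} {c : κ} (h : Rs e c) (hc : c ≠ 0) : Rs e⁻¹ c⁻¹ := by
  obtain ⟨e', he'⟩ := R.surj c⁻¹
  obtain ⟨h1, h2⟩ := R.unit _ _ h hc
  have h3 : Rs (e * e' - 1) 0 := by
    have := R.sub (R.mul _ _ _ _ h he') R.one
    rwa [mul_inv_cancel₀ hc, sub_self] at this
  have h4 : Rs (e' - e⁻¹) 0 := by
    have h5 : e' - e⁻¹ = e⁻¹ * (e * e' - 1) := by field_simp
    rw [h5]
    rcases (R.zero_iff _).1 h3 with h6 | h6
    · rw [h6, mul_zero]; exact R.zero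
    · rcases eq_or_ne (e * e' - 1) 0 with h7 | h7
      · rw [h7, mul_zero]; exact R.zero
      · refine (R.zero_iff _).2 (Or.inr ?_)
        rw [R.vmul _ _ (inv_ne_zero h1) h7, R.vinv h1, h2]
        linarith
  have := R.sub he' h4
  simpa using this

theorem Resd.vprod (R : Resd v Rs) {α : Type} (s : Finset α) (e : α → E) (h : ∀ i ∈ s, e i ≠ 0) :
    v (∏ i ∈ s, e i) = ∑ i ∈ s, v (e i) := by
  classical
  induction s using Finset.induction_on with
  | empty => simpa using R.vone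
  | insert a s ha ih =>
    rw [Finset.prod_insert ha, Finset.sum_insert ha, R.vmul, ih]
    · exact fun i hi => h i (Finset.mem_insert_of_mem hi)
    · exact h a (Finset.mem_insert_self _ _)
    · exact Finset.prod_ne_zero_iff.2 fun i hi => h i (Finset.mem_insert_of_mem hi)

theorem wmon_ne {B : Type} [Fintype B] {w : B → E} (hw : ∀ b, w b ≠ 0) (e : B → ℤ) :
    wmon w e ≠ 0 := Finset.prod_ne_zero_iff.2 fun b _ => zpow_ne_zero _ (hw b)

theorem Resd.vwmon (R : Resd v Rs) {B : Type} [Fintype B] {w : B → E} (hw : ∀ b, w b ≠ 0)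
    (e : B → ℤ) : v (wmon w e) = ∑ b, (e b : ℝ) * v (w b) := by
  rw [wmon, R.vprod _ _ fun b _ => zpow_ne_zero _ (hw b)]
  exact Finset.sum_congr rfl fun b _ => R.vzpow (hw b) _

theorem Resd.poly (R : Resd v Rs) {σ : Type} (x : σ → E) (c : σ → κ) (h : ∀ i, Rs (x i) (c i))
    (p : MvPolynomial σ ℤ) : Rs (aeval x p) (aeval c p) := by
  induction p using MvPolynomial.induction_on with
  | C a => simpa using R.int a
  | add p q hp hq => rw [map_add, map_add]; exact R.add _ _ _ _ hp hq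
  | mul_X p n hp => rw [map_mul, map_mul, aeval_X, aeval_X]; exact R.mul _ _ _ _ hp (h n)

end

end Pool.Agent.Zil.Gam
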