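import Pool.Agent.Zil.GMGe

set_option autoImplicit false

/-! GM4. The dimension count. -/

namespace Pool.Agent.Zil.Gam

open Polynomial

variable {E κ : Type} [Field E] [Field κ] {v : E → ℝ} {Rs : E → κ → Prop}

private theorem gmd_lb {α : Type} (s : Finset α) (f : α → ℝ) :
    ∃ m : ℝ, m ≤ 0 ∧ ∀ x ∈ s, m ≤ f x := by
  refine ⟨-∑ x ∈ s, |f x|, ?_, fun x hx => ?_⟩
  · have := Finset.sum_nonneg (fun x (_ : x ∈ s) => abs_nonneg (f x))
    linarith
  · have h1 := Finset.single_le_sum (fun x (_ : x ∈ s) => abs_nonneg (f x)) hx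
    have h2 := neg_abs_le (f x)
    linarith

private theorem gmd_ge {S : Type} [Field S] (v : E → ℝ) (φ : S →+* E) (P : S[X]) :
    ∃ m : ℝ, GE v m φ P := by
  obtain ⟨m, -, h⟩ := gmd_lb P.support (fun n => v (φ (P.coeff n)))
  refine ⟨m, fun n => ?_⟩
  by_cases hn : P.coeff n = 0
  · exact Or.inl hn
  · exact Or.inr (h n (mem_support_iff.2 hn))

private theorem gmd_ge_C {S : Type} [Field S] {φ : S →+* E} {a : S} {γ : ℝ}
    (h : a = 0 ∨ γ ≤ v (φ a)) : GE v γ φ (C a) := by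
  intro n
  rw [coeff_C]
  split_ifs
  · exact h
  · exact Or.inl rfl

private theorem gmd_sum (R : Resd v Rs) {α : Type} (s : Finset α) (f : α → E) (δ : ℝ)
    (h : ∀ i ∈ s, f i = 0 ∨ δ ≤ v (f i)) : ∑ i ∈ s, f i = 0 ∨ δ ≤ v (∑ i ∈ s, f i) := by
  classical
  induction s using Finset.induction_on with
  | empty => exact Or.inl rfl
  | insert a s ha ih =>
    rw [Finset.sum_insert ha]
    have h1 := ih fun i hi => h i (Finset.mem_insert_of_mem hi)
    have h2 := h a (Finset.mem_insert_self _ _)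
    by_cases h3 : f a = 0
    · rw [h3, zero_add]
      exact h1
    by_cases h4 : ∑ i ∈ s, f i = 0
    · rw [h4, add_zero]
      exact h2
    by_cases h5 : f a + ∑ i ∈ s, f i = 0
    · exact Or.inl h5
    · exact Or.inr ((le_min (h2.resolve_left h3) (h1.resolve_left h4)).trans
        (R.vadd _ _ h3 h4 h5))

private theorem gmd_ge_sum (R : Resd v Rs) {S : Type} [Field S] {φ : S →+* E} {α : Type}
    (s : Finset α) (f : α → S[X]) (γ : ℝ) (h : ∀ i ∈ s, GE v γ φ (f i)) :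
    GE v γ φ (∑ i ∈ s, f i) := by
  classical
  induction s using Finset.induction_on with
  | empty => exact ge_zero γ φ
  | insert a s ha ih =>
    rw [Finset.sum_insert ha]
    exact ge_add R (h a (Finset.mem_insert_self _ _))
      (ih fun i hi => h i (Finset.mem_insert_of_mem hi))

private theorem gmd_pi (R : Resd v Rs) (𝓚 : Subfield E) {Θ : Type} [Fintype Θ] {e : ℕ}
    (P : Θ → Fin e → Polynomial 𝓚) :
    ∃ p : 𝓚, p ≠ 0 ∧ ∀ k l, GE v 0 𝓚.subtype (C p * P k l) := by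
  choose m hm using fun k l => gmd_ge v 𝓚.subtype (P k l)
  obtain ⟨m₀, -, hm₀⟩ := gmd_lb (Finset.univ : Finset (Θ × Fin e)) (fun q => m q.1 q.2)
  by_cases hneg : ∃ a : 𝓚, a ≠ 0 ∧ v (a : E) < 0
  · obtain ⟨a, ha, hva⟩ := hneg
    have ha' : (a : E) ≠ 0 := fun h => ha (Subtype.ext h)
    obtain ⟨N, hN⟩ := exists_nat_ge (-m₀ / -v (a : E))
    rw [div_le_iff₀ (neg_pos.2 hva)] at hN
    have hv : v (((a⁻¹ ^ N : 𝓚) : E)) = N * -v (a : E) := by
      rw [SubmonoidClass.coe_pow, Subfield.coe_inv, R.vpow (inv_ne_zero ha'), R.vinv ha']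
    refine ⟨a⁻¹ ^ N, pow_ne_zero _ (inv_ne_zero ha), fun k l => ?_⟩
    refine ge_mono ?_ (ge_mul R (gmd_ge_C (Or.inr hv.ge)) (hm k l))
    have := hm₀ (k, l) (Finset.mem_univ _)
    simp only at this
    linarith
  · refine ⟨1, one_ne_zero, fun k l n => ?_⟩
    rw [map_one, one_mul]
    by_cases h : (P k l).coeff n = 0
    · exact Or.inl h
    · refine Or.inr (not_lt.1 fun h1 => hneg ⟨_, h, h1⟩)

private theorem gmd_rel (R : Resd v Rs) (𝓚 : Subfield E) {Θ : Type} [Fintype Θ] {e D : ℕ}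
    (r : Θ → Fin e → Polynomial 𝓚) (hr : ∀ k l n, D ≤ n → (r k l).coeff n = 0)
    (hlt : e * D < Fintype.card Θ) :
    ∃ c : Θ → 𝓚, (∀ l, ∑ k, C (c k) * r k l = 0) ∧
      ∃ k₀, c k₀ = 1 ∧ ∀ k, c k = 0 ∨ 0 ≤ v (c k : E) := by
  classical
  have h1 : ¬ LinearIndependent 𝓚 (fun k (q : Fin e × Fin D) => (r k q.1).coeff q.2) := by
    intro h
    have h2 := h.fintype_card_le_finrank
    rw [Module.finrank_fintype_fun_eq_card, Fintype.card_prod, Fintype.card_fin,
      Fintype.card_fin] at h2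
    omega
  obtain ⟨c, hc, i, hi⟩ := Fintype.not_linearIndependent_iff.1 h1
  obtain ⟨k₀, hk₀, hmin⟩ := Finset.exists_min_image (Finset.univ.filter fun k => c k ≠ 0)
    (fun k => v (c k : E)) ⟨i, Finset.mem_filter.2 ⟨Finset.mem_univ _, hi⟩⟩
  have hk : c k₀ ≠ 0 := (Finset.mem_filter.1 hk₀).2
  have hk' : (c k₀ : E) ≠ 0 := fun h => hk (Subtype.ext h)
  refine ⟨fun k => c k / c k₀, fun l => ?_, k₀, div_self hk, fun k => ?_⟩
  · ext n : 1
    rw [finsetSum_coeff, coeff_zero]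
    by_cases hn : n < D
    · have h2 := congrFun hc (l, ⟨n, hn⟩)
      rw [Finset.sum_apply] at h2
      simp only [Pi.smul_apply, smul_eq_mul, Pi.zero_apply] at h2
      have h3 : ∀ k, (C (c k / c k₀) * r k l).coeff n = (c k₀)⁻¹ * (c k * (r k l).coeff n) := by
        intro k
        rw [coeff_C_mul]
        ring
      rw [Finset.sum_congr rfl fun k _ => h3 k, ← Finset.mul_sum, h2, mul_zero]
    · refine Finset.sum_eq_zero fun k _ => ?_
      rw [coeff_C_mul, hr k l n (not_lt.1 hn), mul_zero]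
  · by_cases h : c k = 0
    · left
      simp only [h, zero_div]
    · right
      have h' : (c k : E) ≠ 0 := fun h2 => h (Subtype.ext h2)
      have h2 : ((c k / c k₀ : 𝓚) : E) = (c k : E) * (c k₀ : E)⁻¹ := by
        rw [Subfield.coe_div, div_eq_mul_inv]
      simp only
      rw [h2, R.vmul _ _ h' (inv_ne_zero hk'), R.vinv hk']
      have h3 := hmin k (Finset.mem_filter.2 ⟨Finset.mem_univ _, h⟩)
      linarith

/-- **The dimension count.** Write `θ k = ∑ l, (P k l)(ξ) * ε l` (`hspan`). Choose `Π ∈ 𝓚`, `Π ≠ 0`, with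
`GE 0 (C Π * P k l)` for all `k, l`: if no element of `𝓚` has negative value take `Π = 1`; otherwise a large
power of the inverse of an element of negative value. Suppose `e * D < card Θ`. For `M : ℝ` take `u`
of `hu M` and `r k l = (C Π * P k l) %ₘ u`, of degree `< D`. The `card Θ` vectors `(coefficients of r k l)` in
`𝓚 ^ (Fin e × Fin D)` are linearly dependent: `∑ k, c k * r k l = 0` for all `l`, `c ≠ 0`; divide by the `c k₀ ≠ 0` of
the smallest value: `c k₀ = 1`, all `c k` vanish or have value `≥ 0`. Then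
`Π * ∑ c k θ k = ∑ l, (∑ k, c k * (C Π * P k l - r k l))(ξ) * ε l`, and `C Π * P k l - r k l = u * ((C Π * P k l) /ₘ u)`, so
(`ge_div`, `ge_eval`) this vanishes or has value at least `M + min_l v (ε l)` (over the `ε l ≠ 0`). But `hθ` for `k₀`:
`∑ c k θ k ≠ 0`, `v (∑ c k θ k) ≤ v (θ k₀)`, so `M + min ≤ v Π + max_k v (θ k)` for every `M` (`Π`, `ε`, `θ` do not
depend on `M`): contradiction for large `M`. -/
theorem dim_count (R : Resd v Rs) (𝓚 : Subfield E) (ξ : E) (hξ : ξ = 0 ∨ 0 ≤ v ξ) {e : ℕ}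
    (ε : Fin e → E)
    (hspan : ∀ x : E, ∃ P : Fin e → Polynomial 𝓚, x = ∑ l, (P l).eval₂ 𝓚.subtype ξ * ε l) (D : ℕ)
    (hu : ∀ M : ℝ, ∃ u : Polynomial 𝓚, u.Monic ∧ u.natDegree = D ∧ GE v 0 𝓚.subtype u ∧
      (u.eval₂ 𝓚.subtype ξ = 0 ∨ M ≤ v (u.eval₂ 𝓚.subtype ξ)))
    {Θ : Type} [Fintype Θ] (θ : Θ → E)
    (hθ : ∀ c : Θ → 𝓚, ∀ k, c k ≠ 0 →
      (∑ k, (c k : E) * θ k) ≠ 0 ∧ v (∑ k, (c k : E) * θ k) ≤ v ((c k : E) * θ k)) :
    Fintype.card Θ ≤ e * D := by
  by_contra hlt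
  rw [not_le] at hlt
  choose P hP using fun k => hspan (θ k)
  obtain ⟨p, hp, hge⟩ := gmd_pi R 𝓚 P
  have hp' : (p : E) ≠ 0 := fun h => hp (Subtype.ext h)
  obtain ⟨m₁, -, hm₁⟩ := gmd_lb Finset.univ (fun l => v (ε l))
  obtain ⟨m₂, -, hm₂⟩ := gmd_lb Finset.univ (fun k => -v (θ k))
  obtain ⟨u, hu1, hu2, hu3, hu4⟩ := hu (v (p : E) - m₂ - m₁ + 1)
  have hr : ∀ k l n, D ≤ n → ((C p * P k l) %ₘ u).coeff n = 0 := by
    intro k l n hn
    refine coeff_eq_zero_of_degree_lt ((degree_modByMonic_lt _ hu1).trans_le ?_)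
    rw [degree_eq_natDegree hu1.ne_zero, hu2]
    exact_mod_cast hn
  obtain ⟨c, hc0, k₀, hk₀, hcv⟩ := gmd_rel R 𝓚 (fun k l => (C p * P k l) %ₘ u) hr hlt
  have hsum : ∀ l, ∑ k, C (c k) * (C p * P k l) =
      u * ∑ k, C (c k) * ((C p * P k l) /ₘ u) := by
    intro l
    have h1 : ∀ k, C (c k) * (C p * P k l) = C (c k) * ((C p * P k l) %ₘ u) +
        u * (C (c k) * ((C p * P k l) /ₘ u)) := by
      intro k
      have h2 := modByMonic_add_div (C p * P k l) u
      calc C (c k) * (C p * P k l)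
          = C (c k) * ((C p * P k l) %ₘ u + u * ((C p * P k l) /ₘ u)) := by rw [h2]
        _ = _ := by ring
    rw [Finset.sum_congr rfl fun k _ => h1 k, Finset.sum_add_distrib, hc0 l, zero_add,
      Finset.mul_sum]
  have key : (p : E) * ∑ k, (c k : E) * θ k = u.eval₂ 𝓚.subtype ξ *
      ∑ l, (∑ k, C (c k) * ((C p * P k l) /ₘ u)).eval₂ 𝓚.subtype ξ * ε l := by
    calc (p : E) * ∑ k, (c k : E) * θ k
        = ∑ k, ∑ l, (p : E) * ((c k : E) * ((P k l).eval₂ 𝓚.subtype ξ * ε l)) := by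
          rw [Finset.mul_sum]
          refine Finset.sum_congr rfl fun k _ => ?_
          conv_lhs => rw [hP k]
          rw [Finset.mul_sum, Finset.mul_sum]
      _ = ∑ l, ∑ k, (p : E) * ((c k : E) * ((P k l).eval₂ 𝓚.subtype ξ * ε l)) :=
          Finset.sum_comm
      _ = ∑ l, (∑ k, C (c k) * (C p * P k l)).eval₂ 𝓚.subtype ξ * ε l := by
          refine Finset.sum_congr rfl fun l _ => ?_
          rw [eval₂_finsetSum, Finset.sum_mul]
          refine Finset.sum_congr rfl fun k _ => ?_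
          rw [eval₂_mul, eval₂_mul, eval₂_C, eval₂_C, Subfield.subtype_apply,
            Subfield.subtype_apply]
          ring
      _ = _ := by
          rw [Finset.mul_sum]
          refine Finset.sum_congr rfl fun l _ => ?_
          rw [hsum l, eval₂_mul]
          ring
  obtain ⟨h1, h2⟩ := hθ c k₀ (by rw [hk₀]; exact one_ne_zero)
  have h3 : (p : E) * ∑ k, (c k : E) * θ k ≠ 0 := mul_ne_zero hp' h1
  have h4 := h3
  rw [key] at h4
  have h5 := left_ne_zero_of_mul h4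
  have h6 := right_ne_zero_of_mul h4
  have h7 : m₁ ≤ v (∑ l, (∑ k, C (c k) * ((C p * P k l) /ₘ u)).eval₂ 𝓚.subtype ξ * ε l) := by
    refine (gmd_sum R _ _ m₁ fun l _ => ?_).resolve_left h6
    have h8 : GE v 0 𝓚.subtype (∑ k, C (c k) * ((C p * P k l) /ₘ u)) := by
      refine gmd_ge_sum R _ _ 0 fun k _ => ?_
      have h9 := ge_mul R (gmd_ge_C (φ := 𝓚.subtype) (hcv k)) (ge_div R (hge k l) hu1 hu3).1
      rw [add_zero] at h9
      exact h9
    rcases ge_eval R h8 hξ with h9 | h9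
    · left
      rw [h9, zero_mul]
    · by_cases h10 : (∑ k, C (c k) * ((C p * P k l) /ₘ u)).eval₂ 𝓚.subtype ξ = 0
      · left
        rw [h10, zero_mul]
      by_cases h11 : ε l = 0
      · left
        rw [h11, mul_zero]
      right
      rw [R.vmul _ _ h10 h11]
      have h12 := hm₁ l (Finset.mem_univ _)
      linarith
  have h8 := hu4.resolve_left h5
  have h9 : v ((p : E) * ∑ k, (c k : E) * θ k) = v (p : E) + v (∑ k, (c k : E) * θ k) :=
    R.vmul _ _ hp' h1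
  rw [key, R.vmul _ _ h5 h6] at h9
  rw [hk₀, OneMemClass.coe_one, one_mul] at h2
  have h10 := hm₂ k₀ (Finset.mem_univ _)
  linarith

end Pool.Agent.Zil.Gam
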