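import Pool.Agent.Zil.GMHen

set_option autoImplicit false

/-! GM3. Approximate factors with small value at a root. -/

namespace Pool.Agent.Zil.Gam

open Polynomial

variable {E κ : Type} [Field E] [Field κ] {v : E → ℝ} {Rs : E → κ → Prop}

private theorem ge_map (R : Resd v Rs) (𝓚 : Subfield E) (κ₀ : Subfield κ) (s : κ₀ →+* 𝓚)
    (hs : ∀ c : κ₀, Rs (s c : E) (c : κ)) (Q : Polynomial κ₀) :
    GE v 0 𝓚.subtype (Q.map s) := by
  intro n
  rw [coeff_map]
  by_cases h : Q.coeff n = 0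
  · left
    rw [h, map_zero]
  · right
    have h1 : ((Q.coeff n : κ₀) : κ) ≠ 0 := fun h0 => h (Subtype.ext h0)
    exact (R.unit _ _ (hs _) h1).2.ge

private theorem rs_eval (R : Resd v Rs) (𝓚 : Subfield E) (κ₀ : Subfield κ) (s : κ₀ →+* 𝓚)
    (hs : ∀ c : κ₀, Rs (s c : E) (c : κ)) (Q : Polynomial κ₀) {ξ : E} {ξb : κ} (hξ : Rs ξ ξb) :
    Rs ((Q.map s).eval₂ 𝓚.subtype ξ) (Q.eval₂ κ₀.subtype ξb) := by
  rw [eval₂_map, eval₂_eq_sum, eval₂_eq_sum, Polynomial.sum, Polynomial.sum]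
  exact R.sum _ _ _ fun n _ => R.mul _ _ _ _ (hs _) (R.pow hξ n)

private theorem exists_pos_ge (𝓚 : Subfield E) (D : Polynomial 𝓚)
    (hD : ∀ n, D.coeff n = 0 ∨ 0 < v (D.coeff n : E)) :
    ∃ γ₀ : ℝ, 0 < γ₀ ∧ GE v γ₀ 𝓚.subtype D := by
  rcases D.support.eq_empty_or_nonempty with h | h
  · refine ⟨1, one_pos, fun n => Or.inl ?_⟩
    rw [support_eq_empty.1 h, coeff_zero]
  · obtain ⟨m, hm, hmin⟩ := D.support.exists_min_image (fun n => v (D.coeff n : E)) h
    refine ⟨v (D.coeff m : E), (hD m).resolve_left (mem_support_iff.1 hm), fun n => ?_⟩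
    by_cases hn : D.coeff n = 0
    · exact Or.inl hn
    · exact Or.inr (hmin n (mem_support_iff.2 hn))

/-- **Approximate factor.** `s` is a section of the residue relation on `κ₀`. Put `u = U.map s`, `w = V.map s`,
`A, B` from `IsCoprime U V` mapped by `s` (coefficients are `0` or have value `0` because of
`R.unit`, so `GE 0`). The coefficients of `P - u w` have residue `0`: they vanish or have positive value;
there are finitely many, so `GE γ₀ (P - u w)` for some `γ₀ > 0` (minimum over the support). `approx_hensel` with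
`N` such that `N γ₀ ≥ M` gives `u', w'`. `w'(ξ)` has the residue `V(ξb) ≠ 0` (`w' ≡ w` modulo positive values, so the
coefficients of `w'` have the residues `V.coeff n`; evaluation with `hξ`), so `w'(ξ) ≠ 0` and `v (w'(ξ)) = 0`.
`0 = P(ξ) = u'(ξ) w'(ξ) + (P - u' w')(ξ)`, so `u'(ξ) w'(ξ)` vanishes or has value at least `M` (`ge_eval`). -/
theorem approx_factor (R : Resd v Rs) (𝓚 : Subfield E) (κ₀ : Subfield κ) (s : κ₀ →+* 𝓚)
    (hs : ∀ c : κ₀, Rs (s c : E) (c : κ)) (P : Polynomial 𝓚) (Pb : Polynomial κ₀)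
    (hPb : ∀ n, Rs (P.coeff n : E) (Pb.coeff n : κ)) (ξ : E) (ξb : κ) (hξ : Rs ξ ξb)
    (hroot : P.eval₂ 𝓚.subtype ξ = 0) (U V : Polynomial κ₀) (hU : U.Monic) (hUV : Pb = U * V)
    (hcop : IsCoprime U V) (hV : V.eval₂ κ₀.subtype ξb ≠ 0) (M : ℝ) :
    ∃ u : Polynomial 𝓚, u.Monic ∧ u.natDegree = U.natDegree ∧ GE v 0 𝓚.subtype u ∧
      (u.eval₂ 𝓚.subtype ξ = 0 ∨ M ≤ v (u.eval₂ 𝓚.subtype ξ)) := by
  obtain ⟨a, b, hab⟩ := hcop
  have hAB : a.map s * U.map s + b.map s * V.map s = 1 := by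
    rw [← Polynomial.map_mul, ← Polynomial.map_mul, ← Polynomial.map_add, hab,
      Polynomial.map_one]
  have hres : ∀ n, (P - U.map s * V.map s).coeff n = 0 ∨
      0 < v ((P - U.map s * V.map s).coeff n : E) := by
    intro n
    have h1 : Rs ((P - U.map s * V.map s).coeff n : E) 0 := by
      rw [← Polynomial.map_mul, ← hUV, coeff_sub, coeff_map]
      have h2 := R.sub (hPb n) (hs (Pb.coeff n))
      rw [sub_self] at h2
      exact h2
    rcases (R.zero_iff _).1 h1 with h2 | h2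
    · exact Or.inl (Subtype.ext h2)
    · exact Or.inr h2
  obtain ⟨γ₀, hγ, hD⟩ := exists_pos_ge 𝓚 _ hres
  obtain ⟨N, hN⟩ := exists_nat_ge (M / γ₀)
  obtain ⟨u', w', hu', hdeg, hu1, hw1, hf⟩ := approx_hensel R 𝓚.subtype hγ P (U.map s) (V.map s)
    (a.map s) (b.map s) (hU.map s) (ge_map R 𝓚 κ₀ s hs U) (ge_map R 𝓚 κ₀ s hs V)
    (ge_map R 𝓚 κ₀ s hs a) (ge_map R 𝓚 κ₀ s hs b) hAB hD N
  have hξ0 : ξ = 0 ∨ 0 ≤ v ξ := by
    by_cases h0 : ξb = 0
    · rw [h0] at hξ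
      exact ((R.zero_iff _).1 hξ).imp_right le_of_lt
    · exact Or.inr (R.unit _ _ hξ h0).2.ge
  -- the value of the second factor
  have hw2 : Rs (w'.eval₂ 𝓚.subtype ξ) (V.eval₂ κ₀.subtype ξb) := by
    have h1 : Rs ((w' - V.map s).eval₂ 𝓚.subtype ξ) 0 := by
      refine (R.zero_iff _).2 ?_
      rcases ge_eval R hw1 hξ0 with h2 | h2
      · exact Or.inl h2
      · exact Or.inr (hγ.trans_le h2)
    have h2 := R.add _ _ _ _ (rs_eval R 𝓚 κ₀ s hs V hξ) h1
    rw [← eval₂_add, add_sub_cancel, add_zero] at h2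
    exact h2
  obtain ⟨hw3, hw4⟩ := R.unit _ _ hw2 hV
  refine ⟨u', hu', ?_, ?_, ?_⟩
  · rw [hdeg, natDegree_map]
  · have h1 := ge_add R (ge_map R 𝓚 κ₀ s hs U) (ge_mono hγ.le hu1)
    rw [add_sub_cancel] at h1
    exact h1
  · by_cases h0 : u'.eval₂ 𝓚.subtype ξ = 0
    · exact Or.inl h0
    · right
      have h1 : u'.eval₂ 𝓚.subtype ξ * w'.eval₂ 𝓚.subtype ξ =
          -((P - u' * w').eval₂ 𝓚.subtype ξ) := by
        rw [eval₂_sub, eval₂_mul, hroot, zero_sub, neg_neg]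
      have h2 : (P - u' * w').eval₂ 𝓚.subtype ξ ≠ 0 := by
        intro h3
        rw [h3, neg_zero] at h1
        exact (mul_ne_zero h0 hw3) h1
      have h3 := (ge_eval R hf hξ0).resolve_left h2
      have h4 : v (u'.eval₂ 𝓚.subtype ξ) = v ((P - u' * w').eval₂ 𝓚.subtype ξ) := by
        have h5 := R.vmul _ _ h0 hw3
        rw [h1, R.vneg, hw4, add_zero] at h5
        exact h5.symm
      rw [h4]
      refine le_trans ?_ h3
      have h5 : M ≤ N * γ₀ := (div_le_iff₀ hγ).1 hN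
      linarith

end Pool.Agent.Zil.Gam
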