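import Pool.Agent.Zil.GMDefs

set_option autoImplicit false

/-! GM8. Gauss lemma: powers of the relation. -/

namespace Pool.Agent.Zil.Gam

open MvPolynomial

/-- `MvPolynomial (Fin (t+1)) ℤ` as polynomials in `X_(i₁)`. -/
private noncomputable def eqv {t : ℕ} (i₁ : Fin (t + 1)) :
    MvPolynomial (Fin (t + 1)) ℤ ≃ₐ[ℤ] Polynomial (MvPolynomial (Fin t) ℤ) :=
  (renameEquiv ℤ (finSuccEquiv' i₁)).trans (optionEquivLeft ℤ (Fin t))

private theorem eqv_X_same {t : ℕ} (i₁ : Fin (t + 1)) : eqv i₁ (X i₁) = Polynomial.X := by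
  simp [eqv]

private theorem eqv_X_succAbove {t : ℕ} (i₁ : Fin (t + 1)) (k : Fin t) :
    eqv i₁ (X (i₁.succAbove k)) = Polynomial.C (X k) := by
  simp [eqv]

private theorem pol_eq_map {L : Type} [Field L] {t : ℕ} (i₁ : Fin (t + 1)) (c : Fin t → L)
    (F : MvPolynomial (Fin (t + 1)) ℤ) :
    pol i₁ c F = (eqv i₁ F).map (aeval c : MvPolynomial (Fin t) ℤ →ₐ[ℤ] L).toRingHom := by
  unfold pol
  induction F using MvPolynomial.induction_on with
  | C a =>
    have h1 : eqv i₁ (C a : MvPolynomial (Fin (t + 1)) ℤ) =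
        algebraMap ℤ (Polynomial (MvPolynomial (Fin t) ℤ)) a := (eqv i₁).commutes a
    rw [h1]
    simp
  | add p q hp hq => rw [map_add, hp, hq, map_add, Polynomial.map_add]
  | mul_X p n hp =>
    rw [map_mul, hp, map_mul, Polynomial.map_mul]
    congr 1
    rw [aeval_X]
    rcases Fin.eq_self_or_eq_succAbove i₁ n with h | ⟨k, h⟩
    · subst h
      rw [eqv_X_same, Polynomial.map_X, Fin.insertNth_apply_same]
    · subst h
      rw [eqv_X_succAbove, Polynomial.map_C, Fin.insertNth_apply_succAbove]
      congr 1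
      exact (aeval_X c k).symm

private theorem inj_aeval {L : Type} [Field L] [CharZero L] {t : ℕ} (c : Fin t → L)
    (hc : AlgebraicIndependent ℚ c) :
    Function.Injective (aeval c : MvPolynomial (Fin t) ℤ →ₐ[ℤ] L) :=
  hc.restrictScalars (RingHom.injective_int (algebraMap ℤ ℚ))

/-- The value of `pol i₁ c F` at `x` is the value of `F` at the point with `x` at the place `i₁`. -/
theorem eval_pol {L : Type} [Field L] {t : ℕ} (i₁ : Fin (t + 1)) (c : Fin t → L)
    (F : MvPolynomial (Fin (t + 1)) ℤ) {S : Type} [Field S] (φ : L →+* S) (x : S) :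
    (pol i₁ c F).eval₂ φ x = aeval (Fin.insertNth (α := fun _ => S) i₁ x (fun k => φ (c k))) F := by
  unfold pol
  induction F using MvPolynomial.induction_on with
  | C a =>
    rw [aeval_C, aeval_C, eq_intCast, eq_intCast]
    exact map_intCast (Polynomial.eval₂RingHom φ x) a
  | add p q hp hq => rw [map_add, Polynomial.eval₂_add, hp, hq, map_add]
  | mul_X p n hp =>
    rw [map_mul, Polynomial.eval₂_mul, hp, map_mul]
    congr 1
    rw [aeval_X, aeval_X]
    rcases Fin.eq_self_or_eq_succAbove i₁ n with h | ⟨k, h⟩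
    · subst h
      rw [Fin.insertNth_apply_same, Fin.insertNth_apply_same, Polynomial.eval₂_X]
    · subst h
      rw [Fin.insertNth_apply_succAbove, Fin.insertNth_apply_succAbove, Polynomial.eval₂_C]

/-- `c` algebraically independent: `pol i₁ c F ≠ 0` for `F ≠ 0`. The coefficients of `F` as polynomial in `X_(i₁)` are
integral polynomials in the other variables, one of them is not `0`. -/
theorem pol_ne_zero {L : Type} [Field L] [CharZero L] {t : ℕ} (i₁ : Fin (t + 1)) (c : Fin t → L)
    (hc : AlgebraicIndependent ℚ c) {F : MvPolynomial (Fin (t + 1)) ℤ} (hF : F ≠ 0) :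
    pol i₁ c F ≠ 0 := by
  rw [pol_eq_map]
  intro h
  apply hF
  have h1 : Function.Injective (aeval c : MvPolynomial (Fin t) ℤ →ₐ[ℤ] L).toRingHom :=
    inj_aeval c hc
  have h2 := (Polynomial.map_eq_zero_iff h1).1 h
  exact (map_eq_zero_iff (eqv i₁) (eqv i₁).injective).1 h2

/-- **Gauss lemma.** `A = MvPolynomial (Fin t) ℤ` is a UFD, `MvPolynomial (Fin (t+1)) ℤ ≃ A[X]` (`X` at the place
`i₁`: `MvPolynomial.finSuccEquivNth` or rename and `finSuccEquiv`), `FractionRing A → L`, `X_k ↦ c k` injective.
`g` corresponds to an irreducible `ĝ ∈ A[X]` with `ĝ(x) = 0` (through `c`); its degree in `X` is positive (otherwise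
a relation of `c`), so it is primitive and irreducible over `FractionRing A`
(`Polynomial.IsPrimitive.irreducible_iff_irreducible_map_fraction_map`). Let `L₀` = the image of
`FractionRing A` in `L` (`= ℚ(c)`). `pol i₁ c g` comes from `L₀[X]`, irreducible there, zero at `x`, so it is a
constant multiple of `minpoly L₀ x`. So `hdiv` says that `ĝ ^ m` divides `F̂` over the fraction field; `ĝ ^ m` is
primitive, so it divides `F̂` in `A[X]` (`Polynomial.IsPrimitive.dvd_iff_fraction_map_dvd_fraction_map`;
`F̂` is a content times a primitive polynomial). -/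
theorem gauss_pow {L : Type} [Field L] [CharZero L] {t : ℕ} (i₁ : Fin (t + 1)) (c : Fin t → L)
    (hc : AlgebraicIndependent ℚ c) (x : L) (g F : MvPolynomial (Fin (t + 1)) ℤ)
    (hg : Irreducible g) (hgx : (pol i₁ c g).eval x = 0) (m : ℕ)
    (hdiv : (minpoly (IntermediateField.adjoin ℚ (Set.range c)) x) ^ m ∣
      pol i₁ (fun k => (⟨c k, IntermediateField.subset_adjoin _ _ ⟨k, rfl⟩⟩ :
        IntermediateField.adjoin ℚ (Set.range c))) F) : g ^ m ∣ F := by
  classical
  set c' : Fin t → IntermediateField.adjoin ℚ (Set.range c) :=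
    fun k => (⟨c k, IntermediateField.subset_adjoin _ _ ⟨k, rfl⟩⟩ :
        IntermediateField.adjoin ℚ (Set.range c)) with hc'
  let alg : Algebra (MvPolynomial (Fin t) ℤ) (IntermediateField.adjoin ℚ (Set.range c)) :=
    (aeval c' : MvPolynomial (Fin t) ℤ →ₐ[ℤ] IntermediateField.adjoin ℚ (Set.range c)).toRingHom.toAlgebra
  have halg : algebraMap (MvPolynomial (Fin t) ℤ) (IntermediateField.adjoin ℚ (Set.range c)) =
    (aeval c' : MvPolynomial (Fin t) ℤ →ₐ[ℤ]
      IntermediateField.adjoin ℚ (Set.range c)).toRingHom := rfl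
  have hcoe : ∀ a : MvPolynomial (Fin t) ℤ,
      ((algebraMap (MvPolynomial (Fin t) ℤ) (IntermediateField.adjoin ℚ (Set.range c)) a :
        IntermediateField.adjoin ℚ (Set.range c)) : L) = aeval c a := by
    intro a
    rw [halg]
    change (IntermediateField.adjoin ℚ (Set.range c)).val (aeval c' a) = aeval c a
    have h1 := MvPolynomial.map_aeval c' ((IntermediateField.adjoin ℚ (Set.range c)).val :
      IntermediateField.adjoin ℚ (Set.range c) →+* L) a
    have h2 : ((IntermediateField.adjoin ℚ (Set.range c)).val :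
      IntermediateField.adjoin ℚ (Set.range c) →+* L) (aeval c' a) = aeval c a := by
      rw [h1]
      rw [MvPolynomial.aeval_def, MvPolynomial.coe_eval₂Hom]
      congr 1
    exact h2
  have hinj : Function.Injective
      (algebraMap (MvPolynomial (Fin t) ℤ) (IntermediateField.adjoin ℚ (Set.range c))) := by
    intro a b hab
    apply inj_aeval c hc
    rw [← hcoe, ← hcoe, hab]
  have : FaithfulSMul (MvPolynomial (Fin t) ℤ) (IntermediateField.adjoin ℚ (Set.range c)) :=
    (faithfulSMul_iff_algebraMap_injective _ _).2 hinj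
  have : IsFractionRing (MvPolynomial (Fin t) ℤ) (IntermediateField.adjoin ℚ (Set.range c)) := by
    apply IsFractionRing.of_field
    rintro ⟨z, hz⟩
    have key : ∃ a b : MvPolynomial (Fin t) ℤ, z = aeval c a / aeval c b := by
      induction hz using IntermediateField.adjoin_induction with
      | mem x hx =>
        obtain ⟨k, rfl⟩ := hx
        exact ⟨X k, 1, by simp⟩
      | algebraMap q =>
        refine ⟨C q.num, C (q.den : ℤ), ?_⟩
        rw [aeval_C, aeval_C]
        simp only [eq_intCast, Int.cast_natCast, eq_ratCast]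
        exact Rat.cast_def q
      | add x y _ _ hx hy =>
        obtain ⟨a, b, h1⟩ := hx
        obtain ⟨a', b', h2⟩ := hy
        by_cases hb : aeval c b = (0 : L)
        · exact ⟨a', b', by rw [h1, h2, hb, div_zero, zero_add]⟩
        by_cases hb' : aeval c b' = (0 : L)
        · exact ⟨a, b, by rw [h1, h2, hb', div_zero, add_zero]⟩
        refine ⟨a * b' + b * a', b * b', ?_⟩
        rw [h1, h2, map_add, map_mul, map_mul, map_mul]
        exact div_add_div _ _ hb hb'
      | inv x _ hx =>
        obtain ⟨a, b, h1⟩ := hx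
        exact ⟨b, a, by rw [h1, inv_div]⟩
      | mul x y _ _ hx hy =>
        obtain ⟨a, b, h1⟩ := hx
        obtain ⟨a', b', h2⟩ := hy
        exact ⟨a * a', b * b', by rw [h1, h2, map_mul, map_mul, div_mul_div_comm]⟩
    obtain ⟨a, b, h1⟩ := key
    refine ⟨a, b, ?_⟩
    apply Subtype.ext
    rw [IntermediateField.coe_div, hcoe, hcoe]
    exact h1
  -- the irreducible polynomial
  have hgi : Irreducible (eqv i₁ g) := (MulEquiv.irreducible_iff (eqv i₁)).2 hg
  have hgx' : Polynomial.aeval x ((eqv i₁ g).map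
      (algebraMap (MvPolynomial (Fin t) ℤ) (IntermediateField.adjoin ℚ (Set.range c)))) = 0 := by
    rw [← hgx, pol_eq_map, Polynomial.aeval_def, Polynomial.eval₂_map, Polynomial.eval_map]
    congr 1
    ext a
    · simp
    · exact hcoe _
  have hdeg : (eqv i₁ g).natDegree ≠ 0 := by
    intro h0
    rw [Polynomial.natDegree_eq_zero] at h0
    obtain ⟨a, ha⟩ := h0
    rw [pol_eq_map, ← ha, Polynomial.map_C, Polynomial.eval_C] at hgx
    have h1 : a = 0 := by
      apply inj_aeval c hc
      rw [map_zero]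
      exact hgx
    rw [h1, Polynomial.C_0] at ha
    exact hgi.ne_zero ha.symm
  have hprim : (eqv i₁ g).IsPrimitive := hgi.isPrimitive hdeg
  have hirr := hprim.irreducible_iff_irreducible_map_fraction_map
    (K := IntermediateField.adjoin ℚ (Set.range c)) |>.1 hgi
  have hmin := minpoly.eq_of_irreducible hirr hgx'
  rw [pol_eq_map, ← halg, ← hmin] at hdiv
  have h3 : (eqv i₁ g ^ m).map
      (algebraMap (MvPolynomial (Fin t) ℤ) (IntermediateField.adjoin ℚ (Set.range c))) ∣
      (eqv i₁ F).map
      (algebraMap (MvPolynomial (Fin t) ℤ) (IntermediateField.adjoin ℚ (Set.range c))) := by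
    rw [Polynomial.map_pow]
    refine dvd_trans (pow_dvd_pow_of_dvd (Dvd.intro _ rfl) m) hdiv
  have hpp : ∀ m : ℕ, (eqv i₁ g ^ m).IsPrimitive := by
    let inst : NormalizedGCDMonoid (MvPolynomial (Fin t) ℤ) := Nonempty.some inferInstance
    intro m
    induction m with
    | zero => rw [pow_zero]; exact Polynomial.isPrimitive_one
    | succ m ih => rw [pow_succ]; exact ih.mul hprim
  have h4 : eqv i₁ g ^ m ∣ eqv i₁ F :=
    (hpp m).dvd_of_fraction_map_dvd_fraction_map h3
  have h5 := map_dvd (eqv i₁).symm h4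
  rwa [map_pow, AlgEquiv.symm_apply_apply, AlgEquiv.symm_apply_apply] at h5

end Pool.Agent.Zil.Gam
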