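import Pool.Agent.Zil.GMNF
import Pool.Agent.Zil.GMGau

set_option autoImplicit false

/-! GM10. The face of a polynomial. -/

namespace Pool.Agent.Zil.Gam

open MvPolynomial

variable {E κ : Type} [Field E] [Field κ] [CharZero E] [CharZero κ] {v : E → ℝ}
  {Rs : E → κ → Prop}

private theorem pol_mul {L : Type} [Field L] {t : ℕ} (i₁ : Fin (t + 1)) (c : Fin t → L)
    (F G : MvPolynomial (Fin (t + 1)) ℤ) : pol i₁ c (F * G) = pol i₁ c F * pol i₁ c G :=
  map_mul _ _ _

private theorem pol_add {L : Type} [Field L] {t : ℕ} (i₁ : Fin (t + 1)) (c : Fin t → L)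
    (F G : MvPolynomial (Fin (t + 1)) ℤ) : pol i₁ c (F + G) = pol i₁ c F + pol i₁ c G :=
  map_add _ _ _

private theorem pol_int {L : Type} [Field L] {t : ℕ} (i₁ : Fin (t + 1)) (c : Fin t → L) (a : ℤ) :
    pol i₁ c (C a) = Polynomial.C (a : L) := by
  unfold pol
  rw [aeval_C]
  simp

private theorem pol_X_self {L : Type} [Field L] {t : ℕ} (i₁ : Fin (t + 1)) (c : Fin t → L) :
    pol i₁ c (X i₁) = Polynomial.X := by
  unfold pol
  rw [aeval_X, Fin.insertNth_apply_same]

private theorem pol_X_succ {L : Type} [Field L] {t : ℕ} (i₁ : Fin (t + 1)) (c : Fin t → L)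
    (k : Fin t) : pol i₁ c (X (i₁.succAbove k)) = Polynomial.C (c k) := by
  unfold pol
  rw [aeval_X, Fin.insertNth_apply_succAbove]

omit [CharZero E] [CharZero κ] in
private theorem pol_res (R : Resd v Rs) {t : ℕ} (i₁ : Fin (t + 1)) (K : Subfield E)
    (K' : Subfield κ) (z : Fin t → K) (zb : Fin t → K') (hz : ∀ k, Rs (z k : E) (zb k : κ))
    (F : MvPolynomial (Fin (t + 1)) ℤ) :
    ∀ n, Rs ((pol i₁ z F).coeff n : E) ((pol i₁ zb F).coeff n : κ) := by
  induction F using MvPolynomial.induction_on with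
  | C a =>
    intro n
    rw [pol_int, pol_int, Polynomial.coeff_C, Polynomial.coeff_C]
    by_cases hn : n = 0
    · rw [if_pos hn, if_pos hn]
      have := R.int a
      simpa using this
    · rw [if_neg hn, if_neg hn]
      simpa using R.zero
  | add F G hF hG =>
    intro n
    rw [pol_add, pol_add, Polynomial.coeff_add, Polynomial.coeff_add]
    exact R.add _ _ _ _ (hF n) (hG n)
  | mul_X F i hF =>
    intro n
    rw [pol_mul, pol_mul]
    rcases Fin.eq_self_or_eq_succAbove i₁ i with hi | ⟨k, hi⟩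
    · rw [hi, pol_X_self, pol_X_self]
      cases n with
      | zero =>
        rw [Polynomial.mul_coeff_zero, Polynomial.mul_coeff_zero, Polynomial.coeff_X_zero,
          Polynomial.coeff_X_zero, mul_zero, mul_zero]
        exact R.zero
      | succ n =>
        rw [Polynomial.coeff_mul_X, Polynomial.coeff_mul_X]
        exact hF n
    · rw [hi, pol_X_succ, pol_X_succ, Polynomial.coeff_mul_C, Polynomial.coeff_mul_C]
      exact R.mul _ _ _ _ (hF n) (hz k)

omit [CharZero E] in
private theorem wmon_add {B : Type} [Fintype B] {w : B → E} (hw : ∀ b, w b ≠ 0) (e e' : B → ℤ) :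
    wmon w (e + e') = wmon w e * wmon w e' := by
  unfold wmon
  rw [← Finset.prod_mul_distrib]
  exact Finset.prod_congr rfl fun b _ => zpow_add₀ (hw b) _ _

omit [CharZero E] in
private theorem wmon_nat {B : Type} [Fintype B] (w : B → E) (b : B →₀ ℕ) :
    wmon w (fun i => (b i : ℤ)) = ∏ i, w i ^ b i :=
  Finset.prod_congr rfl fun _ _ => zpow_natCast _ _

private theorem exp_lt {B : Type} [Fintype B] {u : B → ℝ} (hu : LinearIndependent ℚ u)
    {b b₀ : B →₀ ℕ} (hne : b ≠ b₀) (h : ∑ i, (b₀ i : ℝ) * u i ≤ ∑ i, (b i : ℝ) * u i) :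
    0 < ∑ i, (((b i : ℤ) - (b₀ i : ℤ) : ℤ) : ℝ) * u i := by
  have h1 : ∑ i, (((b i : ℤ) - (b₀ i : ℤ) : ℤ) : ℝ) * u i =
      ∑ i, (b i : ℝ) * u i - ∑ i, (b₀ i : ℝ) * u i := by
    rw [← Finset.sum_sub_distrib]
    refine Finset.sum_congr rfl fun i _ => ?_
    push_cast
    ring
  rcases lt_or_eq_of_le h with h2 | h2
  · rw [h1]
    linarith
  · exfalso
    refine hne (Finsupp.ext fun i => ?_)
    have h3 : ∑ i, ((b i : ℚ) - (b₀ i : ℚ)) • u i = 0 := by
      have h4 : ∑ i, ((b i : ℚ) - (b₀ i : ℚ)) • u i =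
          ∑ i, (b i : ℝ) * u i - ∑ i, (b₀ i : ℝ) * u i := by
        rw [← Finset.sum_sub_distrib]
        refine Finset.sum_congr rfl fun i _ => ?_
        rw [Rat.smul_def]
        push_cast
        ring
      rw [h4, h2, sub_self]
    have h5 := Fintype.linearIndependent_iff.1 hu _ h3 i
    have h6 : (b i : ℚ) = (b₀ i : ℚ) := sub_eq_zero.1 h5
    exact_mod_cast h6

/-- **The face polynomial.** `b₀` from `lead_poly` for the weights only: the exponent in the support
of `f` for which `∑ b_i v(w_i)` is smallest (unique by independence). `F = coeff b₀ f`. Let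
`𝓚 = ℚ(z', w)`, `z' k = z (i₁.succAbove k)`.
`P = ∑_b pol i₁ z' (coeff b f) * w^(b - b₀)` in `𝓚[X]`: `P(z i₁) = f(z, w) / w^(b₀) = 0`
(`eval_pol`), and the coefficients of `P` have the residues of those of `pol i₁ zb' F` (`Resd.poly`
for the coefficients of the `coeff b f`, seen as polynomials in `X_(i₁)`; `w^(b - b₀)` has positive
value for `b ≠ b₀`). -/
theorem exists_face (R : Resd v Rs) {t : ℕ} {B : Type} [Fintype B] (i₁ : Fin (t + 1))
    (z : Fin (t + 1) → E) (zb : Fin (t + 1) → κ) (hz : ∀ i, Rs (z i) (zb i)) (w : B → E)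
    (hw : ∀ b, w b ≠ 0) (hwv : LinearIndependent ℚ (fun b => v (w b)))
    (f : MvPolynomial B (MvPolynomial (Fin (t + 1)) ℤ)) (hf : f ≠ 0)
    (hfz : eval₂ (aeval z : MvPolynomial (Fin (t + 1)) ℤ →ₐ[ℤ] E).toRingHom w f = 0) :
    ∃ b₀ ∈ f.support, ∃ P : Polynomial (KK (fun k => z (i₁.succAbove k)) w),
      P.eval₂ (KK (fun k => z (i₁.succAbove k)) w).subtype (z i₁) = 0 ∧
      ∀ n, Rs (P.coeff n : E)
        ((pol i₁ (fun k => (⟨zb (i₁.succAbove k), IntermediateField.subset_adjoin _ _ ⟨k, rfl⟩⟩ :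
          k0 (fun k => zb (i₁.succAbove k)))) (coeff b₀ f)).coeff n : κ) := by
  classical
  obtain ⟨b₀, hb₀, hmin⟩ := f.support.exists_min_image (fun b => ∑ i, (b i : ℝ) * v (w i))
    (support_nonempty.2 hf)
  let zK : Fin t → KK (fun k => z (i₁.succAbove k)) w := fun k =>
    ⟨z (i₁.succAbove k), IntermediateField.subset_adjoin _ _ (Or.inl ⟨k, rfl⟩)⟩
  let wK : B → KK (fun k => z (i₁.succAbove k)) w := fun b =>
    ⟨w b, IntermediateField.subset_adjoin _ _ (Or.inr ⟨b, rfl⟩)⟩
  have hwK : ∀ e : B → ℤ, ((wmon wK e : KK (fun k => z (i₁.succAbove k)) w) : E) = wmon w e := by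
    intro e
    unfold wmon
    exact map_prod (KK (fun k => z (i₁.succAbove k)) w).subtype _ _ |>.trans
      (Finset.prod_congr rfl fun b _ => map_zpow₀ _ _ _)
  refine ⟨b₀, hb₀, ∑ b ∈ f.support,
    Polynomial.C (wmon wK (fun i => (b i : ℤ) - (b₀ i : ℤ))) * pol i₁ zK (coeff b f), ?_, ?_⟩
  · rw [Polynomial.eval₂_finsetSum]
    have h1 : ∀ b ∈ f.support, Polynomial.eval₂ (KK (fun k => z (i₁.succAbove k)) w).subtype (z i₁)
        (Polynomial.C (wmon wK (fun i => (b i : ℤ) - (b₀ i : ℤ))) * pol i₁ zK (coeff b f)) =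
        (wmon w (fun i => (b₀ i : ℤ)))⁻¹ *
          ((aeval z : MvPolynomial (Fin (t + 1)) ℤ →ₐ[ℤ] E).toRingHom (coeff b f) *
            ∏ i, w i ^ b i) := by
      intro b _
      rw [Polynomial.eval₂_mul, Polynomial.eval₂_C, eval_pol]
      have h2 : Fin.insertNth (α := fun _ => E) i₁ (z i₁)
          (fun k => (KK (fun k => z (i₁.succAbove k)) w).subtype (zK k)) = z :=
        Fin.insertNth_self_removeNth i₁ z
      rw [h2]
      have h3 : (KK (fun k => z (i₁.succAbove k)) w).subtype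
          (wmon wK (fun i => (b i : ℤ) - (b₀ i : ℤ))) =
          wmon w (fun i => (b i : ℤ) - (b₀ i : ℤ)) := hwK _
      have h4 : wmon w (fun i => (b i : ℤ)) =
          wmon w (fun i => (b₀ i : ℤ)) * wmon w (fun i => (b i : ℤ) - (b₀ i : ℤ)) := by
        rw [← wmon_add hw]
        congr 1
        funext i
        change (b i : ℤ) = (b₀ i : ℤ) + ((b i : ℤ) - (b₀ i : ℤ))
        ring
      have h5 := wmon_ne hw (fun i => (b₀ i : ℤ))
      rw [h3, ← wmon_nat, h4]
      change _ * (aeval z) (coeff b f) = _ * ((aeval z) (coeff b f) * _)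
      field_simp
    rw [Finset.sum_congr rfl h1, ← Finset.mul_sum, ← eval₂_eq', hfz, mul_zero]
  · intro n
    rw [Polynomial.finsetSum_coeff]
    have h1 : ((∑ b ∈ f.support, (Polynomial.C (wmon wK (fun i => (b i : ℤ) - (b₀ i : ℤ))) *
        pol i₁ zK (coeff b f)).coeff n : KK (fun k => z (i₁.succAbove k)) w) : E) =
        ∑ b ∈ f.support, wmon w (fun i => (b i : ℤ) - (b₀ i : ℤ)) *
          ((pol i₁ zK (coeff b f)).coeff n : E) := by
      refine (map_sum (KK (fun k => z (i₁.succAbove k)) w).subtype _ _).trans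
        (Finset.sum_congr rfl fun b _ => ?_)
      rw [Polynomial.coeff_C_mul, map_mul]
      change ((wmon wK _ : KK (fun k => z (i₁.succAbove k)) w) : E) * _ = _
      rw [hwK]
      rfl
    rw [h1]
    have hres := fun b => pol_res R i₁ (KK (fun k => z (i₁.succAbove k)) w)
      (k0 (fun k => zb (i₁.succAbove k))) zK
      (fun k => (⟨zb (i₁.succAbove k), IntermediateField.subset_adjoin _ _ ⟨k, rfl⟩⟩ :
          k0 (fun k => zb (i₁.succAbove k)))) (fun k => hz _) (coeff b f) n
    have h2 := R.sum f.support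
      (fun b => wmon w (fun i => (b i : ℤ) - (b₀ i : ℤ)) * ((pol i₁ zK (coeff b f)).coeff n : E))
      (fun b => if b = b₀ then ((pol i₁ (fun k => (⟨zb (i₁.succAbove k),
        IntermediateField.subset_adjoin _ _ ⟨k, rfl⟩⟩ :
          k0 (fun k => zb (i₁.succAbove k)))) (coeff b₀ f)).coeff n : κ) else 0) ?_
    · rw [Finset.sum_ite_eq' f.support b₀, if_pos hb₀] at h2
      exact h2
    · intro b hb
      by_cases hbb : b = b₀
      · rw [if_pos hbb, hbb]
        have h3 : wmon w (fun i => (b₀ i : ℤ) - (b₀ i : ℤ)) = 1 := by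
          unfold wmon
          refine Finset.prod_eq_one fun i _ => ?_
          change w i ^ ((b₀ i : ℤ) - (b₀ i : ℤ)) = 1
          rw [sub_self, zpow_zero]
        rw [h3, one_mul]
        exact hres b₀
      · rw [if_neg hbb]
        have h3 : Rs (wmon w (fun i => (b i : ℤ) - (b₀ i : ℤ))) 0 := by
          refine (R.zero_iff _).2 (Or.inr ?_)
          rw [R.vwmon hw]
          exact exp_lt hwv hbb (hmin b hb)
        have h4 := R.mul _ _ _ _ h3 (hres b)
        rwa [zero_mul] at h4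

end Pool.Agent.Zil.Gam
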