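import Pool.Agent.Zil.GMNF

set_option autoImplicit false

/-! GM7. Orthogonality. -/

namespace Pool.Agent.Zil.Gam

open MvPolynomial

variable {E κ : Type} [Field E] [Field κ] [CharZero E] [CharZero κ] {v : E → ℝ} {Rs : E → κ → Prop}

/-- **Units with independent residues.** Not all `c j = 0`; let `c j₀ ≠ 0` have the smallest value among
the nonzero ones. `c j / c j₀ ∈ 𝓚` vanishes or has value `≥ 0`, with residue `d j ∈ κ₀` (`hres`), `d j₀ = 1`; so
`∑ (c j / c j₀) e j` has the residue `∑ d j r j ≠ 0` (independence over `κ₀`), so it is not `0` and has the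
value `0` (`Resd.unit`). Multiply by `c j₀`. -/
theorem unit_sum (R : Resd v Rs) (𝓚 : Subfield E) (κ₀ : Subfield κ)
    (hres : ∀ a ∈ 𝓚, (a = 0 ∨ 0 ≤ v a) → ∃ cb ∈ κ₀, Rs a cb) {N : Type} [Fintype N] (e : N → E)
    (r : N → κ) (he : ∀ j, Rs (e j) (r j)) (hr : LinearIndependent κ₀ r) (c : N → E)
    (hc : ∀ j, c j ∈ 𝓚) (hc0 : ∃ j, c j ≠ 0) :
    ∃ j₀, c j₀ ≠ 0 ∧ (∑ j, c j * e j) ≠ 0 ∧ v (∑ j, c j * e j) = v (c j₀) ∧
      ∀ j, c j ≠ 0 → v (c j₀) ≤ v (c j) := by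
  classical
  obtain ⟨j₁, hj₁⟩ := hc0
  obtain ⟨j₀, hj₀, hmin⟩ := Finset.exists_min_image (Finset.univ.filter fun j => c j ≠ 0)
    (fun j => v (c j)) ⟨j₁, Finset.mem_filter.2 ⟨Finset.mem_univ _, hj₁⟩⟩
  have h0 : c j₀ ≠ 0 := (Finset.mem_filter.1 hj₀).2
  have hmin' : ∀ j, c j ≠ 0 → v (c j₀) ≤ v (c j) := fun j hj =>
    hmin j (Finset.mem_filter.2 ⟨Finset.mem_univ _, hj⟩)
  have hd : ∀ j, ∃ cb ∈ κ₀, Rs (c j / c j₀) cb := by
    intro j
    refine hres _ (div_mem (hc j) (hc j₀)) ?_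
    by_cases hj : c j = 0
    · left
      rw [hj, zero_div]
    · right
      rw [div_eq_mul_inv, R.vmul _ _ hj (inv_ne_zero h0), R.vinv h0]
      linarith [hmin' j hj]
  choose d hdm hdR using hd
  have hd1 : d j₀ = 1 := by
    have h1 := hdR j₀
    rw [div_self h0] at h1
    exact R.uniq h1 R.one
  have hsum : Rs (∑ j, c j / c j₀ * e j) (∑ j, d j * r j) :=
    R.sum _ _ _ fun j _ => R.mul _ _ _ _ (hdR j) (he j)
  have hne : ∑ j, d j * r j ≠ 0 := by
    intro h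
    have h1 := Fintype.linearIndependent_iff.1 hr (fun j => ⟨d j, hdm j⟩) h j₀
    have h2 : d j₀ = 0 := congrArg Subtype.val h1
    rw [hd1] at h2
    exact one_ne_zero h2
  obtain ⟨hu, hv⟩ := R.unit _ _ hsum hne
  have hfac : ∑ j, c j * e j = c j₀ * ∑ j, c j / c j₀ * e j := by
    rw [Finset.mul_sum]
    refine Finset.sum_congr rfl fun j _ => ?_
    rw [← mul_assoc, mul_div_cancel₀ _ h0]
  refine ⟨j₀, h0, ?_, ?_, hmin'⟩
  · rw [hfac]
    exact mul_ne_zero h0 hu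
  · rw [hfac, R.vmul _ _ h0 hu, hv, add_zero]

private theorem vadd_lt (R : Resd v Rs) {x y : E} (hx : x ≠ 0) (hy : y ≠ 0) (h : v x < v y) :
    x + y ≠ 0 ∧ v (x + y) = v x := by
  have h0 : x + y ≠ 0 := by
    intro h1
    rw [eq_neg_of_add_eq_zero_left h1, R.vneg] at h
    exact lt_irrefl _ h
  refine ⟨h0, le_antisymm ?_ ?_⟩
  · have h1 := R.vadd (x + y) (-y) h0 (neg_ne_zero.2 hy) (by rwa [add_neg_cancel_right])
    rw [add_neg_cancel_right, R.vneg] at h1
    rcases min_le_iff.1 h1 with h2 | h2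
    · exact h2
    · exact absurd h2 (not_le.2 h)
  · have h1 := R.vadd x y hx hy h0
    rwa [min_eq_left h.le] at h1

private theorem sum_diff_aux (R : Resd v Rs) {M : Type} [DecidableEq M] (x : M → E)
    (hx : ∀ m m', x m ≠ 0 → x m' ≠ 0 → m ≠ m' → v (x m) ≠ v (x m')) (s : Finset M) :
    (∀ m ∈ s, x m = 0) ∨ ∃ m₀ ∈ s, x m₀ ≠ 0 ∧ (∀ m ∈ s, x m ≠ 0 → v (x m₀) ≤ v (x m)) ∧
      (∑ m ∈ s, x m) ≠ 0 ∧ v (∑ m ∈ s, x m) = v (x m₀) := by
  induction s using Finset.induction_on with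
  | empty => exact Or.inl fun m hm => absurd hm (Finset.notMem_empty m)
  | insert a s ha ih =>
    rw [Finset.sum_insert ha]
    by_cases hxa : x a = 0
    · rcases ih with h | ⟨m₀, h1, h2, h3, h4, h5⟩
      · left
        intro m hm
        rcases Finset.mem_insert.1 hm with rfl | hm
        · exact hxa
        · exact h m hm
      · right
        refine ⟨m₀, Finset.mem_insert_of_mem h1, h2, ?_, ?_, ?_⟩
        · intro m hm hm0
          rcases Finset.mem_insert.1 hm with rfl | hm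
          · exact absurd hxa hm0
          · exact h3 m hm hm0
        · rwa [hxa, zero_add]
        · rwa [hxa, zero_add]
    · right
      rcases ih with h | ⟨m₀, h1, h2, h3, h4, h5⟩
      · refine ⟨a, Finset.mem_insert_self a s, hxa, ?_, ?_, ?_⟩
        · intro m hm hm0
          rcases Finset.mem_insert.1 hm with rfl | hm
          · exact le_rfl
          · exact absurd (h m hm) hm0
        · rwa [Finset.sum_eq_zero h, add_zero]
        · rw [Finset.sum_eq_zero h, add_zero]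
      · have hne : a ≠ m₀ := by
          rintro rfl
          exact ha h1
        rcases lt_or_gt_of_ne (hx a m₀ hxa h2 hne) with hlt | hlt
        · obtain ⟨h6, h7⟩ := vadd_lt R hxa h4 (by rwa [h5])
          refine ⟨a, Finset.mem_insert_self a s, hxa, ?_, h6, h7⟩
          intro m hm hm0
          rcases Finset.mem_insert.1 hm with rfl | hm
          · exact le_rfl
          · exact hlt.le.trans (h3 m hm hm0)
        · obtain ⟨h6, h7⟩ := vadd_lt R h4 hxa (by rwa [h5])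
          rw [add_comm (x a)]
          refine ⟨m₀, Finset.mem_insert_of_mem h1, h2, ?_, h6, h7.trans h5⟩
          intro m hm hm0
          rcases Finset.mem_insert.1 hm with rfl | hm
          · exact hlt.le
          · exact h3 m hm hm0

/-- **A finite sum of elements with different values.** The value of the sum (over the nonzero
terms, at least one) is the smallest one. Induction on the number of the nonzero terms, or: the term of the
smallest value minus the others; `R.vadd`, `R.vneg`. -/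
theorem sum_diff (R : Resd v Rs) {M : Type} [Fintype M] (x : M → E)
    (hx : ∀ m m', x m ≠ 0 → x m' ≠ 0 → m ≠ m' → v (x m) ≠ v (x m')) (m : M) (hm : x m ≠ 0) :
    (∑ m, x m) ≠ 0 ∧ v (∑ m, x m) ≤ v (x m) := by
  classical
  rcases sum_diff_aux R x hx Finset.univ with h | ⟨m₀, -, -, h2, h3, h4⟩
  · exact absurd (h m (Finset.mem_univ m)) hm
  · refine ⟨h3, ?_⟩
    rw [h4]
    exact h2 m (Finset.mem_univ m) hm

/-- **Orthogonality.** `π m` have values which are pairwise incongruent modulo the values of `𝓚`. For fixed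
`m` with some `c (m, j) ≠ 0` `unit_sum`: `v (∑ j, c (m, j) * e j) = v (c (m, j₀))`, `c (m, j₀) ∈ 𝓚`. These sums times `π m` have
different values for different `m` (`hπ` with `a = c (m, j₀)`, `a' = c (m', j₀')`), `sum_diff`; and
`v (e j) = 0` because `r j ≠ 0`. -/
theorem orthogonal (R : Resd v Rs) (𝓚 : Subfield E) (κ₀ : Subfield κ)
    (hres : ∀ a ∈ 𝓚, (a = 0 ∨ 0 ≤ v a) → ∃ cb ∈ κ₀, Rs a cb) {N M : Type} [Fintype N] [Fintype M]
    (e : N → E) (r : N → κ) (he : ∀ j, Rs (e j) (r j)) (hr : LinearIndependent κ₀ r) (π : M → E)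
    (hπ0 : ∀ m, π m ≠ 0)
    (hπ : ∀ m m', m ≠ m' → ∀ a ∈ 𝓚, ∀ a' ∈ 𝓚, a ≠ 0 → a' ≠ 0 → v a + v (π m) ≠ v a' + v (π m'))
    (c : M × N → 𝓚) (k : M × N) (hk : c k ≠ 0) :
    (∑ k, (c k : E) * (π k.1 * e k.2)) ≠ 0 ∧
      v (∑ k, (c k : E) * (π k.1 * e k.2)) ≤ v ((c k : E) * (π k.1 * e k.2)) := by
  classical
  have hsum : ∑ k, (c k : E) * (π k.1 * e k.2) =
      ∑ m, π m * ∑ j, (c (m, j) : E) * e j := by
    rw [Fintype.sum_prod_type]
    refine Finset.sum_congr rfl fun m _ => ?_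
    rw [Finset.mul_sum]
    refine Finset.sum_congr rfl fun j _ => ?_
    ring
  have hunit : ∀ m j, c (m, j) ≠ 0 → ∃ j₀, (c (m, j₀) : E) ≠ 0 ∧
      (∑ j, (c (m, j) : E) * e j) ≠ 0 ∧
      v (∑ j, (c (m, j) : E) * e j) = v (c (m, j₀) : E) ∧
      ∀ j, (c (m, j) : E) ≠ 0 → v (c (m, j₀) : E) ≤ v (c (m, j) : E) := by
    intro m j hj
    exact unit_sum R 𝓚 κ₀ hres e r he hr (fun j => (c (m, j) : E)) (fun j => (c (m, j)).2)
      ⟨j, fun h => hj (Subtype.ext h)⟩
  have hex : ∀ m, π m * (∑ j, (c (m, j) : E) * e j) ≠ 0 → ∃ j, c (m, j) ≠ 0 := by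
    intro m hm
    by_contra hcon
    push Not at hcon
    apply hm
    rw [Finset.sum_eq_zero, mul_zero]
    intro j _
    rw [hcon j, ZeroMemClass.coe_zero, zero_mul]
  have hval : ∀ m j₀, (∑ j, (c (m, j) : E) * e j) ≠ 0 →
      v (∑ j, (c (m, j) : E) * e j) = v (c (m, j₀) : E) →
      v (π m * ∑ j, (c (m, j) : E) * e j) = v (c (m, j₀) : E) + v (π m) := by
    intro m j₀ h1 h2
    rw [R.vmul _ _ (hπ0 m) h1, h2, add_comm]
  have hdiff : ∀ m m', π m * (∑ j, (c (m, j) : E) * e j) ≠ 0 →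
      π m' * (∑ j, (c (m', j) : E) * e j) ≠ 0 → m ≠ m' →
      v (π m * ∑ j, (c (m, j) : E) * e j) ≠ v (π m' * ∑ j, (c (m', j) : E) * e j) := by
    intro m m' hm hm' hne
    obtain ⟨j, hj⟩ := hex m hm
    obtain ⟨j', hj'⟩ := hex m' hm'
    obtain ⟨j₀, h1, h2, h3, -⟩ := hunit m j hj
    obtain ⟨j₀', h1', h2', h3', -⟩ := hunit m' j' hj'
    rw [hval m j₀ h2 h3, hval m' j₀' h2' h3']
    exact hπ m m' hne _ (c (m, j₀)).2 _ (c (m', j₀')).2 h1 h1'
  obtain ⟨j₀, h1, h2, h3, h4⟩ := hunit k.1 k.2 hk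
  have hm : π k.1 * (∑ j, (c (k.1, j) : E) * e j) ≠ 0 := mul_ne_zero (hπ0 _) h2
  obtain ⟨h5, h6⟩ := sum_diff R (fun m => π m * ∑ j, (c (m, j) : E) * e j) hdiff k.1 hm
  rw [hsum]
  refine ⟨h5, h6.trans ?_⟩
  have hck : (c k : E) ≠ 0 := fun h => hk (Subtype.ext h)
  obtain ⟨he1, he2⟩ := R.unit _ _ (he k.2) (hr.ne_zero k.2)
  rw [hval k.1 j₀ h2 h3, R.vmul _ _ hck (mul_ne_zero (hπ0 _) he1), R.vmul _ _ (hπ0 _) he1, he2]
  have h7 := h4 k.2 hck
  have h8 : v (c (k.1, k.2) : E) = v (c k : E) := rfl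
  linarith

end Pool.Agent.Zil.Gam
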