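import Pool.Agent.Zil.GMSec

set_option autoImplicit false

/-! GM11. Spanning elements and independent residues. -/

namespace Pool.Agent.Zil.Gam

open MvPolynomial

variable {E κ : Type} [Field E] [Field κ] [CharZero E] [CharZero κ] {v : E → ℝ} {Rs : E → κ → Prop}

private theorem mem_span_aux {t : ℕ} {B : Type} (i₁ : Fin (t + 1)) (z : Fin (t + 1) → E)
    (w : B → E) (halg : IsAlgebraic (KK (fun k => z (i₁.succAbove k)) w) (z i₁)) {a : E}
    (ha : a ∈ IntermediateField.adjoin ℚ (Set.range z ∪ Set.range w)) :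
    ∃ P : Polynomial (KK (fun k => z (i₁.succAbove k)) w),
      P.eval₂ (KK (fun k => z (i₁.succAbove k)) w).subtype (z i₁) = a := by
  have h1 : (IntermediateField.adjoin ℚ (Set.range z ∪ Set.range w)).toSubfield ≤
      (IntermediateField.adjoin (KK (fun k => z (i₁.succAbove k)) w) {z i₁}).toSubfield := by
    rw [IntermediateField.adjoin_toSubfield, Subfield.closure_le]
    have hw : ∀ y : KK (fun k => z (i₁.succAbove k)) w, (y : E) ∈
        (IntermediateField.adjoin (KK (fun k => z (i₁.succAbove k)) w) {z i₁}).toSubfield := by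
      intro y
      exact IntermediateField.algebraMap_mem _ y
    rintro x (⟨q, rfl⟩ | ⟨i, rfl⟩ | ⟨b, rfl⟩)
    · rw [eq_ratCast]
      exact SubfieldClass.ratCast_mem _ q
    · rcases eq_or_ne i i₁ with rfl | hne
      · exact IntermediateField.mem_adjoin_simple_self _ _
      · obtain ⟨k, hk⟩ := Fin.exists_succAbove_eq hne
        rw [← hk]
        exact hw ⟨_, IntermediateField.subset_adjoin _ _ (Or.inl ⟨k, rfl⟩)⟩
    · exact hw ⟨_, IntermediateField.subset_adjoin _ _ (Or.inr ⟨b, rfl⟩)⟩
  have h2 : a ∈ (IntermediateField.adjoin (KK (fun k => z (i₁.succAbove k)) w)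
      {z i₁}).toSubalgebra := h1 ha
  rw [IntermediateField.adjoin_simple_toSubalgebra_of_isAlgebraic halg,
    Algebra.adjoin_singleton_eq_range_aeval] at h2
  obtain ⟨P, hP⟩ := h2
  exact ⟨P, hP⟩

omit [CharZero κ] in
private theorem coeff_aux {F : Type} [Field F] [Algebra F κ] (x : κ) (N : ℕ)
    (c : Fin N → F) (h0 : N = (minpoly F x).natDegree)
    (h : ∑ n : Fin N, algebraMap F κ (c n) * x ^ (n : ℕ) = 0) (n : Fin N) : c n = 0 := by
  classical
  have h1 : (∑ n : Fin N, Polynomial.monomial (n : ℕ) (c n) : Polynomial F) = 0 := by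
    by_contra hne
    have h2 : Polynomial.aeval x (∑ n : Fin N, Polynomial.monomial (n : ℕ) (c n)) = 0 := by
      rw [map_sum, ← h]
      refine Finset.sum_congr rfl fun n _ => ?_
      rw [Polynomial.aeval_monomial]
    have h3 := minpoly.degree_le_of_ne_zero F x hne h2
    have h4 : (∑ n : Fin N, Polynomial.monomial (n : ℕ) (c n) : Polynomial F).degree <
        (N : WithBot ℕ) := by
      refine (Polynomial.degree_sum_le _ _).trans_lt ?_
      refine (Finset.sup_lt_iff (show (⊥ : WithBot ℕ) < (N : WithBot ℕ) from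
        WithBot.bot_lt_coe N)).2 ?_
      intro n _
      refine (Polynomial.degree_monomial_le _ _).trans_lt ?_
      exact_mod_cast n.2
    have h5 : minpoly F x ≠ 0 := by
      intro h6
      rw [h6, Polynomial.natDegree_zero] at h0
      subst h0
      exact n.elim0
    rw [Polynomial.degree_eq_natDegree h5, ← h0] at h3
    exact absurd (h3.trans_lt h4) (lt_irrefl _)
  have h2 := congrArg (fun p => p.coeff (n : ℕ)) h1
  simp only [Polynomial.finsetSum_coeff, Polynomial.coeff_monomial, Polynomial.coeff_zero] at h2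
  rw [Finset.sum_eq_single n] at h2
  · simpa using h2
  · intro m _ hm
    rw [if_neg]
    intro h3
    exact hm (Fin.ext h3)
  · intro h3
    exact absurd (Finset.mem_univ _) h3

/-- **Spanning.** `E` is finite over `L = ℚ(z, w)` with basis `ε`, and `L = 𝓚[z i₁]` because `z i₁` is algebraic
over `𝓚` (`P` of `exists_face` is not `0`, because `pol i₁ zb' F ≠ 0`: `pol_ne_zero`). -/
theorem exists_span {t : ℕ} {B : Type} [Fintype B] (i₁ : Fin (t + 1)) (z : Fin (t + 1) → E)
    (w : B → E) (hfin : FiniteDimensional (IntermediateField.adjoin ℚ (Set.range z ∪ Set.range w)) E)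
    (halg : IsAlgebraic (KK (fun k => z (i₁.succAbove k)) w) (z i₁)) :
    ∃ ε : Fin (Module.finrank (IntermediateField.adjoin ℚ (Set.range z ∪ Set.range w)) E) → E,
      ∀ x : E, ∃ P : Fin (Module.finrank (IntermediateField.adjoin ℚ (Set.range z ∪ Set.range w)) E) →
        Polynomial (KK (fun k => z (i₁.succAbove k)) w),
        x = ∑ l, (P l).eval₂ (KK (fun k => z (i₁.succAbove k)) w).subtype (z i₁) * ε l := by
  classical
  refine ⟨fun l => Module.finBasis (IntermediateField.adjoin ℚ (Set.range z ∪ Set.range w)) E l,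
    fun x => ?_⟩
  have h := fun l => mem_span_aux i₁ z w halg
    ((Module.finBasis (IntermediateField.adjoin ℚ (Set.range z ∪ Set.range w)) E).repr x l :
      IntermediateField.adjoin ℚ (Set.range z ∪ Set.range w)).2
  choose P hP using h
  refine ⟨P, ?_⟩
  have h2 := (Module.finBasis (IntermediateField.adjoin ℚ (Set.range z ∪ Set.range w)) E).sum_repr x
  refine h2.symm.trans (Finset.sum_congr rfl fun l _ => ?_)
  change ((Module.finBasis (IntermediateField.adjoin ℚ (Set.range z ∪ Set.range w)) E).repr x l :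
    IntermediateField.adjoin ℚ (Set.range z ∪ Set.range w)).1 * _ = _
  rw [← hP l]

/-- **Residues.** If `r_1 .. r_e` is a basis of `κ` over `ℚ(zb)` and `N` is the degree of the minimal polynomial of
`zb i₁` over `ℚ(zb')`, then the `r_j * (zb i₁) ^ n`, `n < N`, are linearly independent over `ℚ(zb')`: for a relation
the inner sums `∑_n c_(j,n) (zb i₁)^n` lie in `ℚ(zb)`, so they vanish, and they are the values at `zb i₁` of
polynomials over `ℚ(zb')` of degree `< N` (`minpoly.degree_le_of_ne_zero`). -/
theorem indep_residues {t : ℕ} (i₁ : Fin (t + 1)) (zb : Fin (t + 1) → κ)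
    (hfin : FiniteDimensional (IntermediateField.adjoin ℚ (Set.range zb)) κ) :
    ∃ r : Fin (Module.finrank (IntermediateField.adjoin ℚ (Set.range zb)) κ) ×
        Fin (minpoly (IntermediateField.adjoin ℚ (Set.range fun k => zb (i₁.succAbove k)))
          (zb i₁)).natDegree → κ,
      LinearIndependent (k0 (fun k => zb (i₁.succAbove k))) r := by
  classical
  refine ⟨fun q => Module.finBasis (IntermediateField.adjoin ℚ (Set.range zb)) κ q.1 *
    (zb i₁) ^ (q.2 : ℕ), ?_⟩
  rw [Fintype.linearIndependent_iff]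
  intro c hc
  have hmem : ∀ x : k0 (fun k => zb (i₁.succAbove k)),
      (x : κ) ∈ IntermediateField.adjoin ℚ (Set.range zb) := by
    intro x
    have h1 : IntermediateField.adjoin ℚ (Set.range fun k => zb (i₁.succAbove k)) ≤
        IntermediateField.adjoin ℚ (Set.range zb) := by
      refine IntermediateField.adjoin.mono _ _ _ ?_
      rintro _ ⟨k, rfl⟩
      exact ⟨_, rfl⟩
    exact h1 x.2
  have hz : zb i₁ ∈ IntermediateField.adjoin ℚ (Set.range zb) :=
    IntermediateField.subset_adjoin _ _ ⟨i₁, rfl⟩
  have hb : ∀ j, (∑ n : Fin (minpoly (IntermediateField.adjoin ℚ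
      (Set.range fun k => zb (i₁.succAbove k))) (zb i₁)).natDegree,
        (c (j, n) : κ) * (zb i₁) ^ (n : ℕ)) = 0 := by
    have hli := (Module.finBasis (IntermediateField.adjoin ℚ (Set.range zb)) κ).linearIndependent
    rw [Fintype.linearIndependent_iff] at hli
    have h3 := hli (fun j => ⟨∑ n : Fin (minpoly (IntermediateField.adjoin ℚ
      (Set.range fun k => zb (i₁.succAbove k))) (zb i₁)).natDegree,
        (c (j, n) : κ) * (zb i₁) ^ (n : ℕ),
        sum_mem fun n _ => mul_mem (hmem _) (pow_mem hz _)⟩) ?_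
    · intro j
      exact congrArg Subtype.val (h3 j)
    · rw [← hc, Fintype.sum_prod_type]
      refine Finset.sum_congr rfl fun j _ => ?_
      rw [IntermediateField.smul_def, smul_eq_mul, Finset.sum_mul]
      refine Finset.sum_congr rfl fun n _ => ?_
      rw [Subfield.smul_def, smul_eq_mul]
      ring
  rintro ⟨j, n⟩
  exact coeff_aux (F := IntermediateField.adjoin ℚ (Set.range fun k => zb (i₁.succAbove k)))
    (zb i₁) _ (fun n => c (j, n)) rfl (hb j) n

end Pool.Agent.Zil.Gam
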