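import Pool.Agent.Zil.GMFac
import Pool.Agent.Zil.GMDim
import Pool.Agent.Zil.GMOrt
import Pool.Agent.Zil.GMFace
import Pool.Agent.Zil.GMSpan

set_option autoImplicit false

/-! GM12. **The multiplicity lemma** (section 5.3). -/

namespace Pool.Agent.Zil.Gam

open MvPolynomial

variable {E κ : Type} [Field E] [Field κ] [CharZero E] [CharZero κ] {v : E → ℝ} {Rs : E → κ → Prop}

omit [CharZero E] [CharZero κ] in
/-- The residue of a value of a polynomial, coefficientwise. -/
private theorem rs_eval (R : Resd v Rs) {K : Subfield E} {k : Subfield κ} (P : Polynomial K)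
    (Q : Polynomial k) (h : ∀ n, Rs (P.coeff n : E) (Q.coeff n : κ)) {x : E} {c : κ}
    (hx : Rs x c) : Rs (P.eval₂ K.subtype x) (Q.eval₂ k.subtype c) := by
  rw [Polynomial.eval₂_eq_sum_range' K.subtype
      (Nat.lt_succ_of_le (le_max_left P.natDegree Q.natDegree)) x,
    Polynomial.eval₂_eq_sum_range' k.subtype
      (Nat.lt_succ_of_le (le_max_right P.natDegree Q.natDegree)) c]
  exact R.sum _ _ _ fun n _ => R.mul _ _ _ _ (h n) (R.pow hx n)

/-- **Multiplicity lemma.** `b₀, P` from `exists_face`, `F = coeff b₀ f`, `Pb = pol i₁ zb' F ≠ 0` (`pol_ne_zero`); its value at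
`zb i₁` is the residue of `P(z i₁) = 0`, so `zb i₁` is algebraic over `κ₀ = ℚ(zb')` with minimal polynomial `g₀`, and
`Pb = g₀ ^ s * V` with `g₀ ∤ V`, so `IsCoprime (g₀ ^ s) V` and `V(zb i₁) ≠ 0` (`multiplicity`). `approx_factor` (section
from `exists_section`, composed with the inclusion `ℚ(z') ≤ ℚ(z', w)`) gives the approximate factors of degree
`s * natDegree g₀`. `indep_residues` gives `r`, `R.surj` gives units `e` with these residues; `orthogonal` (`res_elt`; the
values of `𝓚` are integral combinations of the `v (w b)` by `lead_elt`, so `hM` gives `hπ`). `dim_count`: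
`card M * (e₀ * natDegree g₀) ≤ e_z * (s * natDegree g₀)`, divide by `natDegree g₀ > 0`. `gauss_pow`: `g ^ s ∣ F`. -/
theorem mult_face (R : Resd v Rs) {t : ℕ} {B M : Type} [Fintype B] [Fintype M] (i₁ : Fin (t + 1))
    (z : Fin (t + 1) → E) (zb : Fin (t + 1) → κ) (hz : ∀ i, Rs (z i) (zb i)) (w : B → E)
    (hw : ∀ b, w b ≠ 0) (hwv : LinearIndependent ℚ (fun b => v (w b)))
    (hind : AlgebraicIndependent ℚ (fun k => zb (i₁.succAbove k)))
    (hE : FiniteDimensional (IntermediateField.adjoin ℚ (Set.range z ∪ Set.range w)) E)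
    (hκ : FiniteDimensional (IntermediateField.adjoin ℚ (Set.range zb)) κ)
    (π : M → E) (hπ0 : ∀ m, π m ≠ 0)
    (hM : ∀ m m', m ≠ m' → ∀ a : B → ℤ, v (π m) - v (π m') ≠ ∑ b, (a b : ℝ) * v (w b))
    (f : MvPolynomial B (MvPolynomial (Fin (t + 1)) ℤ)) (hf : f ≠ 0)
    (hfz : eval₂ (aeval z : MvPolynomial (Fin (t + 1)) ℤ →ₐ[ℤ] E).toRingHom w f = 0) :
    ∃ b₀ ∈ f.support, ∃ s : ℕ,
      (∀ g : MvPolynomial (Fin (t + 1)) ℤ, Irreducible g → aeval zb g = 0 → g ^ s ∣ coeff b₀ f) ∧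
      Fintype.card M * Module.finrank (IntermediateField.adjoin ℚ (Set.range zb)) κ ≤
        Module.finrank (IntermediateField.adjoin ℚ (Set.range z ∪ Set.range w)) E * s := by
  classical
  set z' : Fin t → E := fun k => z (i₁.succAbove k) with hz'
  set zb' : Fin t → κ := fun k => zb (i₁.succAbove k) with hzb'
  have hzz : ∀ k, Rs (z' k) (zb' k) := fun k => hz _
  obtain ⟨b₀, hb₀, P, hP0, hPc⟩ := exists_face R i₁ z zb hz w hw hwv f hf hfz
  set F : MvPolynomial (Fin (t + 1)) ℤ := coeff b₀ f with hF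
  have hF0 : F ≠ 0 := mem_support_iff.1 hb₀
  let c' : Fin t → k0 zb' := fun k => ⟨zb' k, IntermediateField.subset_adjoin _ _ ⟨k, rfl⟩⟩
  let Pb : Polynomial (k0 zb') := pol i₁ c' F
  have hPc' : ∀ n, Rs (P.coeff n : E) (Pb.coeff n : κ) := hPc
  -- `Pb` is not zero
  have hc' : AlgebraicIndependent ℚ c' :=
    AlgebraicIndependent.of_comp (k0 zb').subtype.toRatAlgHom hind
  have hPb0 : Pb ≠ 0 := pol_ne_zero i₁ c' hc' hF0
  have hval : ∀ G : MvPolynomial (Fin (t + 1)) ℤ,
      (pol i₁ c' G).eval₂ (k0 zb').subtype (zb i₁) = aeval zb G := by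
    intro G
    rw [eval_pol]
    congr 2
    exact Fin.insertNth_self_removeNth i₁ zb
  have hPbz : Pb.eval₂ (k0 zb').subtype (zb i₁) = 0 := by
    have h1 := rs_eval R P Pb hPc' (hz i₁)
    rw [hP0] at h1
    exact R.uniq h1 R.zero
  -- the minimal polynomial
  have halgb : IsAlgebraic (k0 zb') (zb i₁) := ⟨Pb, hPb0, hPbz⟩
  have hint : IsIntegral (k0 zb') (zb i₁) := halgb.isIntegral
  let g₀ : Polynomial (k0 zb') := minpoly (k0 zb') (zb i₁)
  have hg₀m : g₀.Monic := minpoly.monic hint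
  have hg₀i : Irreducible g₀ := minpoly.irreducible hint
  have hg₀p : 0 < g₀.natDegree := minpoly.natDegree_pos hint
  have hfm : FiniteMultiplicity g₀ Pb :=
    Polynomial.finiteMultiplicity_of_degree_pos_of_monic
      (Polynomial.natDegree_pos_iff_degree_pos.1 hg₀p) hg₀m hPb0
  obtain ⟨V, hV, hgV⟩ := hfm.exists_eq_pow_mul_and_not_dvd
  set s : ℕ := multiplicity g₀ Pb with hs
  have hcop : IsCoprime (g₀ ^ s) V :=
    IsCoprime.pow_left ((Irreducible.coprime_iff_not_dvd hg₀i).2 hgV)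
  have hVz : V.eval₂ (k0 zb').subtype (zb i₁) ≠ 0 := fun h => hgV (minpoly.dvd _ _ h)
  -- the section
  obtain ⟨sec, hsec⟩ := exists_section R z' zb' hzz hind
  have hle : k0 z' ≤ KK z' w := by
    intro x hx
    exact IntermediateField.adjoin.mono ℚ _ _ Set.subset_union_left hx
  -- approximate factors
  have hu : ∀ M₀ : ℝ, ∃ u : Polynomial (KK z' w), u.Monic ∧
      u.natDegree = s * g₀.natDegree ∧ GE v 0 (KK z' w).subtype u ∧
      (u.eval₂ (KK z' w).subtype (z i₁) = 0 ∨
        M₀ ≤ v (u.eval₂ (KK z' w).subtype (z i₁))) := by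
    intro M₀
    obtain ⟨u, h1, h2, h3, h4⟩ := approx_factor R (KK z' w) (k0 zb')
      ((Subfield.inclusion hle).comp sec) (fun c => hsec c) P Pb hPc' (z i₁) (zb i₁) (hz i₁) hP0
      (g₀ ^ s) V (hg₀m.pow s) hV hcop hVz M₀
    exact ⟨u, h1, by rw [h2, Polynomial.natDegree_pow], h3, h4⟩
  -- spanning elements
  have hPne : P ≠ 0 := by
    rintro rfl
    apply hPb0
    ext n
    have h1 := hPc' n
    rw [Polynomial.coeff_zero] at h1
    have h2 : ((Pb.coeff n : k0 zb') : κ) = 0 := by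
      by_contra h3
      exact (R.unit _ _ h1 h3).1 rfl
    rw [Polynomial.coeff_zero]
    exact_mod_cast h2
  have halg : IsAlgebraic (KK z' w) (z i₁) := ⟨P, hPne, hP0⟩
  obtain ⟨ε, hε⟩ := exists_span i₁ z w hE halg
  -- independent residues
  obtain ⟨r, hr⟩ := indep_residues i₁ zb hκ
  choose e he using fun j => R.surj (r j)
  have hξ : z i₁ = 0 ∨ 0 ≤ v (z i₁) := by
    by_cases h0 : zb i₁ = 0
    · have h1 := hz i₁
      rw [h0] at h1
      exact ((R.zero_iff _).1 h1).imp_right le_of_lt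
    · exact Or.inr (R.unit _ _ (hz i₁) h0).2.ge
  have hres : ∀ a ∈ KK z' w, (a = 0 ∨ 0 ≤ v a) → ∃ cb ∈ k0 zb', Rs a cb := fun a ha h0 =>
    res_elt R z' zb' hzz hind w hw hwv a ha h0
  have hπ : ∀ m m', m ≠ m' → ∀ a ∈ KK z' w, ∀ a' ∈ KK z' w, a ≠ 0 → a' ≠ 0 →
      v a + v (π m) ≠ v a' + v (π m') := by
    intro m m' hmm a ha a' ha' h0 h0' heq
    obtain ⟨x, _, _, _, _, _, _, hx, _⟩ := lead_elt R z' zb' hzz hind w hw hwv a ha h0
    obtain ⟨x', _, _, _, _, _, _, hx', _⟩ := lead_elt R z' zb' hzz hind w hw hwv a' ha' h0'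
    refine hM m m' hmm (fun b => x' b - x b) ?_
    have h1 : v (π m) - v (π m') = v a' - v a := by linarith
    rw [h1, hx, hx', ← Finset.sum_sub_distrib]
    refine Finset.sum_congr rfl fun b _ => ?_
    push_cast
    ring
  have hcount := dim_count R (KK z' w) (z i₁) hξ ε hε (s * g₀.natDegree) hu
    (Θ := M × (Fin (Module.finrank (IntermediateField.adjoin ℚ (Set.range zb)) κ) ×
      Fin (minpoly (IntermediateField.adjoin ℚ (Set.range fun k => zb (i₁.succAbove k)))
        (zb i₁)).natDegree))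
    (fun k => π k.1 * e k.2)
    (fun c k hk => orthogonal R (KK z' w) (k0 zb') hres e r he hr π hπ0 hπ c k hk)
  have hN : (minpoly (IntermediateField.adjoin ℚ (Set.range fun k => zb (i₁.succAbove k)))
      (zb i₁)).natDegree = g₀.natDegree := rfl
  rw [Fintype.card_prod, Fintype.card_prod, Fintype.card_fin, Fintype.card_fin, hN] at hcount
  refine ⟨b₀, hb₀, s, ?_, ?_⟩
  · intro g hg hgz
    refine gauss_pow i₁ zb' hind (zb i₁) g F hg ?_ s ?_
    · rw [← Polynomial.eval₂_id, eval_pol]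
      have h1 : Fin.insertNth (α := fun _ => κ) i₁ (zb i₁) (fun k => RingHom.id κ (zb' k)) = zb :=
        Fin.insertNth_self_removeNth i₁ zb
      rw [h1, hgz]
    · exact ⟨V, hV⟩
  · refine Nat.le_of_mul_le_mul_right (c := g₀.natDegree) ?_ hg₀p
    calc _ = Fintype.card M *
          (Module.finrank (IntermediateField.adjoin ℚ (Set.range zb)) κ * g₀.natDegree) := by
          rw [mul_assoc]
      _ ≤ _ := hcount
      _ = _ := by rw [mul_assoc]

end Pool.Agent.Zil.Gam
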