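import Pool.Agent.Zil.GMDefs

set_option autoImplicit false

/-! GM1. Polynomials with coefficients of value at least `γ`: products, sums, division by a monic
polynomial. (`S = 𝓚` a field with a homomorphism `φ` to `E`, for instance a subfield.) -/

namespace Pool.Agent.Zil.Gam

open Polynomial

variable {E κ S : Type} [Field E] [Field κ] [Field S] {v : E → ℝ} {Rs : E → κ → Prop}

theorem ge_mono {γ γ' : ℝ} (h : γ' ≤ γ) {φ : S →+* E} {P : S[X]} (hP : GE v γ φ P) :
    GE v γ' φ P := fun n => (hP n).imp_right h.trans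

theorem ge_zero (γ : ℝ) (φ : S →+* E) : GE v γ φ (0 : S[X]) := fun n => Or.inl (coeff_zero n)

private theorem bd_add (R : Resd v Rs) {γ : ℝ} {x y : E} (hx : x = 0 ∨ γ ≤ v x)
    (hy : y = 0 ∨ γ ≤ v y) : x + y = 0 ∨ γ ≤ v (x + y) := by
  rcases eq_or_ne x 0 with h1 | h1
  · rw [h1, zero_add]; exact hy
  rcases eq_or_ne y 0 with h2 | h2
  · rw [h2, add_zero]; exact hx
  rcases eq_or_ne (x + y) 0 with h3 | h3
  · exact Or.inl h3
  · exact Or.inr ((le_min (hx.resolve_left h1) (hy.resolve_left h2)).trans (R.vadd x y h1 h2 h3))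

private theorem bd_sum (R : Resd v Rs) {γ : ℝ} {α : Type} (s : Finset α) (f : α → E)
    (h : ∀ i ∈ s, f i = 0 ∨ γ ≤ v (f i)) : ∑ i ∈ s, f i = 0 ∨ γ ≤ v (∑ i ∈ s, f i) := by
  classical
  induction s using Finset.induction_on with
  | empty => exact Or.inl Finset.sum_empty
  | insert a s ha ih =>
    rw [Finset.sum_insert ha]
    exact bd_add R (h a (Finset.mem_insert_self _ _))
      (ih fun i hi => h i (Finset.mem_insert_of_mem hi))

private theorem bd_mul (R : Resd v Rs) {γ γ' : ℝ} {x y : E} (hx : x = 0 ∨ γ ≤ v x)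
    (hy : y = 0 ∨ γ' ≤ v y) : x * y = 0 ∨ γ + γ' ≤ v (x * y) := by
  rcases eq_or_ne x 0 with h1 | h1
  · exact Or.inl (by rw [h1, zero_mul])
  rcases eq_or_ne y 0 with h2 | h2
  · exact Or.inl (by rw [h2, mul_zero])
  · refine Or.inr ?_
    rw [R.vmul x y h1 h2]
    exact add_le_add (hx.resolve_left h1) (hy.resolve_left h2)

private theorem bd_pow (R : Resd v Rs) {x : E} (hx : x = 0 ∨ 0 ≤ v x) (n : ℕ) :
    x ^ n = 0 ∨ 0 ≤ v (x ^ n) := by
  rcases eq_or_ne x 0 with h1 | h1
  · rcases Nat.eq_zero_or_pos n with h2 | h2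
    · refine Or.inr ?_
      rw [h2, pow_zero, R.vone]
    · exact Or.inl (by rw [h1, zero_pow h2.ne'])
  · refine Or.inr ?_
    rw [R.vpow h1]
    exact mul_nonneg (Nat.cast_nonneg _) (hx.resolve_left h1)

private theorem cf_iff {φ : S →+* E} {a : S} {γ : ℝ} :
    (a = 0 ∨ γ ≤ v (φ a)) ↔ (φ a = 0 ∨ γ ≤ v (φ a)) := by
  rw [map_eq_zero]

/-- Sum: if both coefficients and their sum are nonzero use `R.vadd`; if one vanishes trivial. -/
theorem ge_add (R : Resd v Rs) {γ : ℝ} {φ : S →+* E} {P Q : S[X]} (hP : GE v γ φ P)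
    (hQ : GE v γ φ Q) : GE v γ φ (P + Q) := by
  intro n
  rw [cf_iff, coeff_add, map_add]
  exact bd_add R (cf_iff.1 (hP n)) (cf_iff.1 (hQ n))

theorem ge_neg (R : Resd v Rs) {γ : ℝ} {φ : S →+* E} {P : S[X]} (hP : GE v γ φ P) :
    GE v γ φ (-P) := by
  intro n
  rw [coeff_neg, neg_eq_zero, map_neg, R.vneg]
  exact hP n

/-- Product: `coeff_mul`, a sum of products of values at least `γ + γ'` (lemma: a finite sum of
terms which vanish or have value at least `δ` vanishes or has value at least `δ`, from `R.vadd`). -/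
theorem ge_mul (R : Resd v Rs) {γ γ' : ℝ} {φ : S →+* E} {P Q : S[X]} (hP : GE v γ φ P)
    (hQ : GE v γ' φ Q) : GE v (γ + γ') φ (P * Q) := by
  intro n
  rw [cf_iff, coeff_mul, map_sum]
  refine bd_sum R _ _ fun i _ => ?_
  rw [map_mul]
  exact bd_mul R (cf_iff.1 (hP _)) (cf_iff.1 (hQ _))

/-- The value of a polynomial at `ξ` with `0 ≤ v ξ`. -/
theorem ge_eval (R : Resd v Rs) {γ : ℝ} {φ : S →+* E} {P : S[X]} (hP : GE v γ φ P) {ξ : E}
    (hξ : ξ = 0 ∨ 0 ≤ v ξ) : P.eval₂ φ ξ = 0 ∨ γ ≤ v (P.eval₂ φ ξ) := by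
  rw [eval₂_eq_sum_range]
  refine bd_sum R _ _ fun i _ => ?_
  have h := bd_mul R (cf_iff.1 (hP i)) (bd_pow R hξ i)
  rwa [add_zero] at h

private theorem ge_Xpow {φ : S →+* E} {γ : ℝ} {a : S} (ha : a = 0 ∨ γ ≤ v (φ a)) (k : ℕ) :
    GE v γ φ (C a * X ^ k) := by
  intro n
  rw [coeff_C_mul, coeff_X_pow]
  split_ifs
  · rwa [mul_one]
  · exact Or.inl (mul_zero _)

private theorem div_aux (R : Resd v Rs) {γ : ℝ} {φ : S →+* E} {u : S[X]}
    (hu : u.Monic) (hu0 : GE v 0 φ u) (m : ℕ) : ∀ P : S[X], P.natDegree < m → GE v γ φ P →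
    ∃ q r : S[X], P = u * q + r ∧ r.degree < u.degree ∧ GE v γ φ q ∧ GE v γ φ r := by
  induction m with
  | zero => exact fun P h _ => absurd h (Nat.not_lt_zero _)
  | succ m ih =>
    intro P hm hP
    by_cases hdeg : P.degree < u.degree
    · exact ⟨0, P, by rw [mul_zero, zero_add], hdeg, ge_zero γ φ, hP⟩
    rw [not_lt] at hdeg
    have hu1 : u ≠ 0 := hu.ne_zero
    have hP0 : P ≠ 0 := by
      rintro rfl
      rw [degree_zero, le_bot_iff, degree_eq_bot] at hdeg
      exact hu1 hdeg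
    have hnd : u.natDegree ≤ P.natDegree := natDegree_le_natDegree hdeg
    set M : S[X] := C P.leadingCoeff * X ^ (P.natDegree - u.natDegree) with hM
    have hMge : GE v γ φ M := ge_Xpow (hP P.natDegree) _
    have hmul : GE v γ φ (u * M) := by
      have := ge_mul R hu0 hMge
      rwa [zero_add] at this
    have hQ : GE v γ φ (P - u * M) := by
      rw [sub_eq_add_neg]
      exact ge_add R hP (ge_neg R hmul)
    have hlt : (P - u * M).degree < P.degree := by
      have := div_wf_lemma ⟨hdeg, hP0⟩ hu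
      rwa [hM]
    by_cases hQ0 : P - u * M = 0
    · refine ⟨M, 0, ?_, ?_, hMge, ge_zero γ φ⟩
      · rw [add_zero]
        exact sub_eq_zero.1 hQ0
      · rw [degree_zero]
        exact bot_lt_iff_ne_bot.2 fun h => hu1 (degree_eq_bot.1 h)
    · have hlt2 : (P - u * M).natDegree < P.natDegree := natDegree_lt_natDegree hQ0 hlt
      obtain ⟨q, r, h1, h2, h3, h4⟩ := ih (P - u * M) (by omega) hQ
      refine ⟨q + M, r, ?_, h2, ge_add R h3 hMge, h4⟩
      rw [mul_add, add_right_comm, ← h1]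
      ring

/-- Division by a monic polynomial with integral coefficients. Induction on `natDegree P` (strong):
if `natDegree P < natDegree u` the quotient is `0` and the remainder `P`; otherwise subtract
`C (leading coefficient of P) * X ^ (natDegree P - natDegree u) * u`, again `GE γ`, of smaller degree
(or `0`); uniqueness of quotient and remainder (`Polynomial.div_modByMonic_unique`). -/
theorem ge_div (R : Resd v Rs) {γ : ℝ} {φ : S →+* E} {P u : S[X]} (hP : GE v γ φ P)
    (hu : u.Monic) (hu0 : GE v 0 φ u) : GE v γ φ (P /ₘ u) ∧ GE v γ φ (P %ₘ u) := by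
  obtain ⟨q, r, h1, h2, h3, h4⟩ := div_aux R hu hu0 (P.natDegree + 1) P (Nat.lt_succ_self _) hP
  obtain ⟨h5, h6⟩ := div_modByMonic_unique (f := P) q r hu ⟨by rw [h1, add_comm], h2⟩
  rw [h5, h6]
  exact ⟨h3, h4⟩

end Pool.Agent.Zil.Gam
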