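import Pool.Agent.Zil.GMGe

set_option autoImplicit false

/-! GM2. Approximate factorisation (Hensel's lemma without completeness). -/

namespace Pool.Agent.Zil.Gam

open Polynomial

variable {E κ S : Type} [Field E] [Field κ] [Field S] {v : E → ℝ} {Rs : E → κ → Prop}

/-- **Approximate Hensel factorisation.** Induction on `N`. `N = 0`: `u' = u`, `v' = w`. Step: for `u', w'`
with `GE (N γ₀ + γ₀) (f - u' w')` put `e = f - u' w'`, `e B = q u' + r` (`r = (e B) %ₘ u'`, `q = (e B) /ₘ u'`,
`degree r < degree u'`, both `GE (N γ₀ + γ₀)` by `ge_mul`, `ge_div`), `u'' = u' + r` (monic of the same degree),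
`w'' = w' + e A + q w'`. `A u' + B w' = 1 + δ`, `δ = A (u' - u) + B (w' - w)`, `GE γ₀ δ`. So
`u'' w'' = u' w' + r w' + u' (e A + q w') + r (e A + q w')` and
`r w' + u' e A + u' q w' = (r + q u') w' + u' e A = e B w' + e A u' = e (1 + δ)`. Hence
`f - u'' w'' = - e δ - r (e A + q w')`, which is `GE (N γ₀ + 2 γ₀)` (`0 < γ₀`). -/
theorem approx_hensel (R : Resd v Rs) (φ : S →+* E) {γ₀ : ℝ} (hγ : 0 < γ₀) (f u w A B : S[X])
    (hu : u.Monic) (hu0 : GE v 0 φ u) (hw0 : GE v 0 φ w) (hA : GE v 0 φ A) (hB : GE v 0 φ B)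
    (hAB : A * u + B * w = 1) (hf : GE v γ₀ φ (f - u * w)) (N : ℕ) :
    ∃ u' w' : S[X], u'.Monic ∧ u'.natDegree = u.natDegree ∧ GE v γ₀ φ (u' - u) ∧
      GE v γ₀ φ (w' - w) ∧ GE v (N * γ₀ + γ₀) φ (f - u' * w') := by
  induction N with
  | zero =>
    refine ⟨u, w, hu, rfl, ?_, ?_, ?_⟩
    · rw [sub_self]
      exact ge_zero _ φ
    · rw [sub_self]
      exact ge_zero _ φ
    · have h : ((0 : ℕ) : ℝ) * γ₀ + γ₀ = γ₀ := by simp
      rw [h]
      exact hf
  | succ N ih =>
    obtain ⟨u', w', hu', hdeg, hu'u, hw'w, hfuw⟩ := ih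
    have hN : (0 : ℝ) ≤ (N : ℝ) * γ₀ := mul_nonneg (Nat.cast_nonneg N) hγ.le
    have hu'0 : GE v 0 φ u' := by
      have h := ge_add R (ge_mono hγ.le hu'u) hu0
      rwa [sub_add_cancel] at h
    have hw'0 : GE v 0 φ w' := by
      have h := ge_add R (ge_mono hγ.le hw'w) hw0
      rwa [sub_add_cancel] at h
    obtain ⟨e, he⟩ : ∃ e, e = f - u' * w' := ⟨_, rfl⟩
    rw [← he] at hfuw
    have heB : GE v (N * γ₀ + γ₀) φ (e * B) := by
      have h := ge_mul R hfuw hB
      rwa [add_zero] at h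
    have heA : GE v (N * γ₀ + γ₀) φ (e * A) := by
      have h := ge_mul R hfuw hA
      rwa [add_zero] at h
    obtain ⟨hq, hr⟩ := ge_div R heB hu' hu'0
    have hdiv := modByMonic_add_div (e * B) u'
    have hrlt := degree_modByMonic_lt (e * B) hu'
    generalize hr' : (e * B) %ₘ u' = r at hr hdiv hrlt
    generalize hq' : (e * B) /ₘ u' = q at hq hdiv
    have hqw : GE v (N * γ₀ + γ₀) φ (q * w') := by
      have h := ge_mul R hq hw'0
      rwa [add_zero] at h
    have hsum : GE v (N * γ₀ + γ₀) φ (e * A + q * w') := ge_add R heA hqw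
    have hle : γ₀ ≤ (N : ℝ) * γ₀ + γ₀ := by linarith
    refine ⟨u' + r, w' + (e * A + q * w'), hu'.add_of_left hrlt, ?_, ?_, ?_, ?_⟩
    · rw [natDegree_add_eq_left_of_degree_lt hrlt, hdeg]
    · have h := ge_add R hu'u (ge_mono hle hr)
      have h2 : u' + r - u = u' - u + r := by ring
      rw [h2]
      exact h
    · have h := ge_add R hw'w (ge_mono hle hsum)
      have h2 : w' + (e * A + q * w') - w = w' - w + (e * A + q * w') := by ring
      rw [h2]
      exact h
    · have hδ : GE v γ₀ φ (A * (u' - u) + B * (w' - w)) := by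
        have h1 := ge_mul R hA hu'u
        have h2 := ge_mul R hB hw'w
        rw [zero_add] at h1 h2
        exact ge_add R h1 h2
      have h1 := ge_neg R (ge_mul R hfuw hδ)
      have h2 := ge_neg R (ge_mul R hr hsum)
      have hid : f - (u' + r) * (w' + (e * A + q * w')) =
          -(e * (A * (u' - u) + B * (w' - w))) + -(r * (e * A + q * w')) := by
        have h3 : f = e + u' * w' := by rw [he]; ring
        linear_combination h3 - e * hAB - w' * hdiv
      rw [hid]
      refine ge_add R (ge_mono ?_ h1) (ge_mono ?_ h2)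
      · push_cast
        linarith
      · push_cast
        linarith

end Pool.Agent.Zil.Gam
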