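import Pool.Agent.Zil.GMSec

set_option autoImplicit false

/-! GM6. The field generated by units with independent residues and elements with independent
values. -/

namespace Pool.Agent.Zil.Gam

open MvPolynomial

variable {E κ : Type} [Field E] [Field κ] [CharZero E] [CharZero κ] {v : E → ℝ} {Rs : E → κ → Prop}

/-- Zero or of value bigger than `γ`. -/
private def gnfS {F : Type} [Field F] (v : F → ℝ) (γ : ℝ) (x : F) : Prop := x = 0 ∨ γ < v x

omit [CharZero E] [CharZero κ] in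
private theorem gnf_add (R : Resd v Rs) {γ : ℝ} {x y : E} (hx : gnfS v γ x) (hy : gnfS v γ y) :
    gnfS v γ (x + y) := by
  rcases hx with rfl | hx
  · rwa [zero_add]
  rcases hy with rfl | hy
  · rw [add_zero]
    exact Or.inr hx
  by_cases h0 : x + y = 0
  · exact Or.inl h0
  by_cases hx0 : x = 0
  · rw [hx0, zero_add]
    exact Or.inr hy
  by_cases hy0 : y = 0
  · rw [hy0, add_zero]
    exact Or.inr hx
  · exact Or.inr ((lt_min hx hy).trans_le (R.vadd x y hx0 hy0 h0))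

omit [CharZero E] [CharZero κ] in
private theorem gnf_neg (R : Resd v Rs) {γ : ℝ} {x : E} (hx : gnfS v γ x) : gnfS v γ (-x) := by
  rcases hx with rfl | hx
  · exact Or.inl neg_zero
  · right
    rwa [R.vneg]

omit [CharZero E] [CharZero κ] in
private theorem gnf_mul (R : Resd v Rs) {γ δ : ℝ} {x y : E} (hx : gnfS v γ x) (hy : y ≠ 0)
    (hv : v y = δ) : gnfS v (γ + δ) (x * y) := by
  rcases hx with rfl | hx
  · exact Or.inl (zero_mul _)
  by_cases h0 : x = 0
  · exact Or.inl (by rw [h0, zero_mul])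
  · right
    rw [R.vmul x y h0 hy, hv]
    linarith

omit [CharZero E] [CharZero κ] in
private theorem gnf_sum (R : Resd v Rs) {α : Type} (s : Finset α) (x : α → E) (γ : ℝ)
    (h : ∀ i ∈ s, gnfS v γ (x i)) : gnfS v γ (∑ i ∈ s, x i) := by
  classical
  induction s using Finset.induction_on with
  | empty => exact Or.inl Finset.sum_empty
  | insert a s ha ih =>
    rw [Finset.sum_insert ha]
    exact gnf_add R (h a (Finset.mem_insert_self _ _))
      (ih fun i hi => h i (Finset.mem_insert_of_mem hi))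

omit [CharZero E] [CharZero κ] in
/-- A perturbation of larger value does not change the value. -/
private theorem gnf_pert (R : Resd v Rs) {x y : E} (hx : x ≠ 0) (h : gnfS v (v x) (y - x)) :
    y ≠ 0 ∧ v y = v x := by
  rcases h with h | h
  · rw [sub_eq_zero.1 h]
    exact ⟨hx, rfl⟩
  have hy : y ≠ 0 := by
    rintro rfl
    rw [zero_sub, R.vneg] at h
    exact lt_irrefl _ h
  refine ⟨hy, ?_⟩
  by_cases hd : y - x = 0
  · rw [sub_eq_zero.1 hd]
  have h1 : v x ≤ v y := by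
    have h2 := R.vadd x (y - x) hx hd (by rw [add_sub_cancel]; exact hy)
    rw [add_sub_cancel, min_eq_left h.le] at h2
    exact h2
  have h3 : v y ≤ v x := by
    have h2 := R.vadd y (-(y - x)) hy (neg_ne_zero.2 hd) (by rw [neg_sub, add_sub_cancel]; exact hx)
    rw [neg_sub, add_sub_cancel, ← neg_sub, R.vneg] at h2
    by_contra h4
    rw [not_le] at h4
    exact absurd h2 (not_le.2 (lt_min h4 h))
  exact le_antisymm h3 h1

omit [CharZero E] in
private theorem gnf_coef (R : Resd v Rs) {T : Type} (z' : T → E) (zb' : T → κ)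
    (hz : ∀ i, Rs (z' i) (zb' i)) (hind : AlgebraicIndependent ℚ zb') {q : MvPolynomial T ℤ}
    (hq : q ≠ 0) : aeval z' q ≠ 0 ∧ v (aeval z' q) = 0 ∧ aeval zb' q ≠ 0 ∧
      Rs (aeval z' q) (aeval zb' q) := by
  have h1 : aeval zb' q ≠ 0 := by
    rw [← aeval_map_algebraMap ℚ]
    intro h0
    have h2 : map (algebraMap ℤ ℚ) q = 0 := by
      apply hind
      rw [h0, map_zero]
    refine hq (map_injective (algebraMap ℤ ℚ) Int.cast_injective ?_)
    rw [h2, map_zero]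
  have h2 := R.poly z' zb' hz q
  exact ⟨(R.unit _ _ h2 h1).1, (R.unit _ _ h2 h1).2, h1, h2⟩

private theorem gnf_ind {B : Type} [Fintype B] {u : B → ℝ} (hu : LinearIndependent ℚ u)
    (e : B → ℤ) (h : ∑ b, (e b : ℝ) * u b = 0) : e = 0 := by
  have h1 := Fintype.linearIndependent_iff.1 hu (fun b => (e b : ℚ)) (by
    rw [← h]
    refine Finset.sum_congr rfl fun b _ => ?_
    rw [Rat.smul_def, Rat.cast_intCast])
  funext b
  have h2 := h1 b
  simpa using h2

omit [CharZero E] [CharZero κ] in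
private theorem gnf_wmon {B : Type} [Fintype B] (w : B → E) (d : B →₀ ℕ) :
    ∏ i, w i ^ d i = wmon w (fun i => (d i : ℤ)) := by
  unfold wmon
  exact Finset.prod_congr rfl fun i _ => (zpow_natCast _ _).symm

/-- **Polynomials.** `p(z', w) = ∑_b p_b(z') w^b`; for `p_b ≠ 0` the residue `p_b(zb')` is not `0`, so `p_b(z')` has the
value `0` (`Resd.poly`, `Resd.unit`) and the term has the value `∑ b_i v(w_i)`. Different terms have different
values; let `b` be the exponent of the smallest value: `p(z', w) - p_b(z') w^b` vanishes or has larger value. -/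
theorem lead_poly (R : Resd v Rs) {T B : Type} [Fintype B] (z' : T → E) (zb' : T → κ)
    (hz : ∀ i, Rs (z' i) (zb' i)) (hind : AlgebraicIndependent ℚ zb') (w : B → E)
    (hw : ∀ b, w b ≠ 0) (hwv : LinearIndependent ℚ (fun b => v (w b)))
    (p : MvPolynomial B (MvPolynomial T ℤ)) (hp : p ≠ 0) :
    ∃ b ∈ p.support, ∃ q : MvPolynomial T ℤ, q = coeff b p ∧ aeval z' q ≠ 0 ∧
      v (aeval z' q) = 0 ∧
      (∀ b' ∈ p.support, b' ≠ b → v (wmon w (fun i => (b i : ℤ))) < v (wmon w (fun i => (b' i : ℤ)))) ∧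
      (eval₂ (aeval z' : MvPolynomial T ℤ →ₐ[ℤ] E).toRingHom w p =
          aeval z' q * wmon w (fun i => (b i : ℤ)) ∨
        v (aeval z' q * wmon w (fun i => (b i : ℤ))) <
          v (eval₂ (aeval z' : MvPolynomial T ℤ →ₐ[ℤ] E).toRingHom w p -
            aeval z' q * wmon w (fun i => (b i : ℤ)))) := by
  classical
  have hne : p.support.Nonempty := by
    rw [Finset.nonempty_iff_ne_empty]
    intro h
    exact hp (MvPolynomial.support_eq_empty.1 h)
  obtain ⟨b, hb, hmin⟩ := Finset.exists_min_image p.support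
    (fun d : B →₀ ℕ => v (wmon w (fun i => (d i : ℤ)))) hne
  have hlt : ∀ b' ∈ p.support, b' ≠ b →
      v (wmon w (fun i => (b i : ℤ))) < v (wmon w (fun i => (b' i : ℤ))) := by
    intro b' hb' hne'
    refine lt_of_le_of_ne (hmin b' hb') fun heq => hne' ?_
    rw [R.vwmon hw, R.vwmon hw] at heq
    have h1 := gnf_ind hwv (fun i => (b' i : ℤ) - (b i : ℤ)) (by
      simp only [Int.cast_sub, sub_mul, Finset.sum_sub_distrib]
      rw [heq, sub_self])
    refine Finsupp.ext fun i => ?_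
    have h2 := congrFun h1 i
    simp only [Pi.zero_apply] at h2
    omega
  have hcoef : ∀ d ∈ p.support, aeval z' (coeff d p) ≠ 0 ∧ v (aeval z' (coeff d p)) = 0 := by
    intro d hd
    have h1 := gnf_coef R z' zb' hz hind (MvPolynomial.mem_support_iff.1 hd)
    exact ⟨h1.1, h1.2.1⟩
  have hterm : ∀ d ∈ p.support, v (aeval z' (coeff d p) * wmon w (fun i => (d i : ℤ))) =
      v (wmon w (fun i => (d i : ℤ))) := by
    intro d hd
    rw [R.vmul _ _ (hcoef d hd).1 (wmon_ne hw _), (hcoef d hd).2, zero_add]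
  refine ⟨b, hb, coeff b p, rfl, (hcoef b hb).1, (hcoef b hb).2, hlt, ?_⟩
  have hsum : eval₂ (aeval z' : MvPolynomial T ℤ →ₐ[ℤ] E).toRingHom w p =
      ∑ d ∈ p.support, aeval z' (coeff d p) * wmon w (fun i => (d i : ℤ)) := by
    rw [eval₂_eq']
    refine Finset.sum_congr rfl fun d _ => ?_
    rw [gnf_wmon]
    rfl
  have hrest : eval₂ (aeval z' : MvPolynomial T ℤ →ₐ[ℤ] E).toRingHom w p -
      aeval z' (coeff b p) * wmon w (fun i => (b i : ℤ)) =
      ∑ d ∈ p.support.erase b, aeval z' (coeff d p) * wmon w (fun i => (d i : ℤ)) := by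
    rw [hsum, ← Finset.add_sum_erase _ _ hb, add_sub_cancel_left]
  rw [hterm b hb, hrest, ← sub_eq_zero (b := aeval z' (coeff b p) * _), hrest]
  refine gnf_sum R _ _ _ fun d hd => Or.inr ?_
  rw [Finset.mem_erase] at hd
  rw [hterm d hd.2]
  exact hlt d hd.2 hd.1

private theorem gnf_mem {F T : Type} [Field F] [CharZero F] (c : T → F) (q : MvPolynomial T ℤ) :
    aeval c q ∈ k0 c := by
  induction q using MvPolynomial.induction_on with
  | C a =>
    rw [aeval_C]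
    exact intCast_mem (k0 c) a
  | add p q hp hq =>
    rw [map_add]
    exact add_mem hp hq
  | mul_X p n hp =>
    rw [map_mul, aeval_X]
    exact mul_mem hp (IntermediateField.subset_adjoin ℚ _ ⟨n, rfl⟩)

/-- The elements of `ℚ(z', w)` are quotients. -/
private theorem gnf_frac {T B : Type} (z' : T → E) (w : B → E) (a : E) (ha : a ∈ KK z' w) :
    ∃ p q : MvPolynomial B (MvPolynomial T ℤ),
      eval₂Hom (aeval z' : MvPolynomial T ℤ →ₐ[ℤ] E).toRingHom w q ≠ 0 ∧
      a * eval₂Hom (aeval z' : MvPolynomial T ℤ →ₐ[ℤ] E).toRingHom w q =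
        eval₂Hom (aeval z' : MvPolynomial T ℤ →ₐ[ℤ] E).toRingHom w p := by
  obtain ⟨Φ, hΦ⟩ : ∃ Φ, Φ = eval₂Hom (aeval z' : MvPolynomial T ℤ →ₐ[ℤ] E).toRingHom w := ⟨_, rfl⟩
  rw [← hΦ]
  have hC : ∀ q : MvPolynomial T ℤ, Φ (C q) = aeval z' q := by
    intro q
    rw [hΦ, eval₂Hom_C]
    rfl
  have hX : ∀ b, Φ (X b) = w b := by
    intro b
    rw [hΦ, eval₂Hom_X']
  have hI : ∀ n : ℤ, Φ (C (C n)) = (n : E) := by
    intro n
    rw [hC, aeval_C]
    rfl
  have ha' : a ∈ IntermediateField.adjoin ℚ (Set.range z' ∪ Set.range w) := ha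
  clear ha
  induction ha' using IntermediateField.adjoin_induction with
  | mem x hx =>
    rcases hx with ⟨i, rfl⟩ | ⟨b, rfl⟩
    · refine ⟨C (X i), 1, ?_, ?_⟩
      · rw [map_one]
        exact one_ne_zero
      · rw [map_one, mul_one, hC, aeval_X]
    · refine ⟨X b, 1, ?_, ?_⟩
      · rw [map_one]
        exact one_ne_zero
      · rw [map_one, mul_one, hX]
  | algebraMap r =>
    refine ⟨C (C r.num), C (C (r.den : ℤ)), ?_, ?_⟩
    · rw [hI]
      have : (r.den : ℤ) ≠ 0 := by exact_mod_cast r.den_ne_zero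
      exact_mod_cast this
    · rw [hI, hI]
      have h1 : (algebraMap ℚ E) r = (r : E) := rfl
      rw [h1]
      have h2 : (r : E) * ((r.den : ℤ) : E) = ((r * r.den : ℚ) : E) := by push_cast; rfl
      rw [h2, Rat.mul_den_eq_num]
      push_cast
      rfl
  | add x y _ _ hx hy =>
    obtain ⟨p, q, h1, h2⟩ := hx
    obtain ⟨p', q', h1', h2'⟩ := hy
    refine ⟨p * q' + p' * q, q * q', ?_, ?_⟩
    · rw [map_mul]
      exact mul_ne_zero h1 h1'
    · rw [map_mul, map_add, map_mul, map_mul, ← h2, ← h2']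
      ring
  | inv x _ hx =>
    obtain ⟨p, q, h1, h2⟩ := hx
    rcases eq_or_ne x 0 with rfl | h0
    · refine ⟨0, 1, ?_, ?_⟩
      · rw [map_one]
        exact one_ne_zero
      · rw [inv_zero, zero_mul, map_zero]
    · refine ⟨q, p, ?_, ?_⟩
      · rw [← h2]
        exact mul_ne_zero h0 h1
      · rw [← h2, inv_mul_cancel_left₀ h0]
  | mul x y _ _ hx hy =>
    obtain ⟨p, q, h1, h2⟩ := hx
    obtain ⟨p', q', h1', h2'⟩ := hy
    refine ⟨p * p', q * q', ?_, ?_⟩
    · rw [map_mul]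
      exact mul_ne_zero h1 h1'
    · rw [map_mul, map_mul, ← h2, ← h2']
      ring

/-- **Elements.** `a = p(z', w) / q(z', w)`; from `lead_poly` for `p` and `q`:
`a = (p_b(z') / q_b'(z')) w^(b - b') (1 + η)`, `η` vanishes or has positive value. -/
theorem lead_elt (R : Resd v Rs) {T B : Type} [Fintype B] (z' : T → E) (zb' : T → κ)
    (hz : ∀ i, Rs (z' i) (zb' i)) (hind : AlgebraicIndependent ℚ zb') (w : B → E)
    (hw : ∀ b, w b ≠ 0) (hwv : LinearIndependent ℚ (fun b => v (w b)))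
    (a : E) (ha : a ∈ KK z' w) (ha0 : a ≠ 0) :
    ∃ (e : B → ℤ) (c : E) (cb : κ), c ∈ k0 z' ∧ cb ∈ k0 zb' ∧ cb ≠ 0 ∧ Rs c cb ∧
      v a = ∑ b, (e b : ℝ) * v (w b) ∧
      (a = c * wmon w e ∨ v (wmon w e) < v (a - c * wmon w e)) := by
  obtain ⟨p, q, hq0, hpq⟩ := gnf_frac z' w a ha
  have hp0 : eval₂Hom (aeval z' : MvPolynomial T ℤ →ₐ[ℤ] E).toRingHom w p ≠ 0 := by
    rw [← hpq]
    exact mul_ne_zero ha0 hq0
  have hp : p ≠ 0 := by
    rintro rfl
    exact hp0 (map_zero _)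
  have hq : q ≠ 0 := by
    rintro rfl
    exact hq0 (map_zero _)
  obtain ⟨b, hb, q1, hq1, hc1, hv1, -, hl1⟩ := lead_poly R z' zb' hz hind w hw hwv p hp
  obtain ⟨b', hb', q2, hq2, hc2, hv2, -, hl2⟩ := lead_poly R z' zb' hz hind w hw hwv q hq
  have hq1n : q1 ≠ 0 := by
    rintro rfl
    exact hc1 (map_zero _)
  have hq2n : q2 ≠ 0 := by
    rintro rfl
    exact hc2 (map_zero _)
  obtain ⟨-, -, hb1, hr1⟩ := gnf_coef R z' zb' hz hind hq1n
  obtain ⟨-, -, hb2, hr2⟩ := gnf_coef R z' zb' hz hind hq2n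
  rw [coe_eval₂Hom] at hpq hq0 hp0
  obtain ⟨P, hP⟩ : ∃ P, P = eval₂ (aeval z' : MvPolynomial T ℤ →ₐ[ℤ] E).toRingHom w p := ⟨_, rfl⟩
  obtain ⟨Q, hQ⟩ : ∃ Q, Q = eval₂ (aeval z' : MvPolynomial T ℤ →ₐ[ℤ] E).toRingHom w q := ⟨_, rfl⟩
  obtain ⟨m1, hm1⟩ : ∃ m, m = wmon w (fun i => (b i : ℤ)) := ⟨_, rfl⟩
  obtain ⟨m2, hm2⟩ : ∃ m, m = wmon w (fun i => (b' i : ℤ)) := ⟨_, rfl⟩
  obtain ⟨c1, hc1d⟩ : ∃ c, c = aeval z' q1 := ⟨_, rfl⟩
  obtain ⟨c2, hc2d⟩ : ∃ c, c = aeval z' q2 := ⟨_, rfl⟩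
  have hm1n : m1 ≠ 0 := by
    rw [hm1]
    exact wmon_ne hw _
  have hm2n : m2 ≠ 0 := by
    rw [hm2]
    exact wmon_ne hw _
  rw [← hP] at hpq hp0 hl1
  rw [← hQ] at hpq hq0 hl2
  rw [← hm1, ← hc1d] at hl1
  rw [← hm2, ← hc2d] at hl2
  have hc1n : c1 ≠ 0 := by
    rw [hc1d]
    exact hc1
  have hc2n : c2 ≠ 0 := by
    rw [hc2d]
    exact hc2
  have hvc1 : v (c1 * m1) = v m1 := by
    rw [R.vmul _ _ hc1n hm1n, hc1d, hv1, zero_add]
  have hvc2 : v (c2 * m2) = v m2 := by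
    rw [R.vmul _ _ hc2n hm2n, hc2d, hv2, zero_add]
  have hS1 : gnfS v (v (c1 * m1)) (P - c1 * m1) := by
    rcases hl1 with h | h
    · exact Or.inl (sub_eq_zero.2 h)
    · exact Or.inr h
  have hS2 : gnfS v (v (c2 * m2)) (Q - c2 * m2) := by
    rcases hl2 with h | h
    · exact Or.inl (sub_eq_zero.2 h)
    · exact Or.inr h
  obtain ⟨-, hvP⟩ := gnf_pert R (mul_ne_zero hc1n hm1n) hS1
  obtain ⟨-, hvQ⟩ := gnf_pert R (mul_ne_zero hc2n hm2n) hS2
  have hme : wmon w (fun i => (b i : ℤ) - (b' i : ℤ)) = m1 / m2 := by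
    rw [hm1, hm2]
    unfold wmon
    rw [← Finset.prod_div_distrib]
    exact Finset.prod_congr rfl fun i _ => zpow_sub₀ (hw i) _ _
  have haPQ : a = P / Q := by
    rw [eq_div_iff hq0]
    exact hpq
  have hva : v a = v m1 - v m2 := by
    rw [haPQ, div_eq_mul_inv, R.vmul _ _ hp0 (inv_ne_zero hq0), R.vinv hq0, hvP, hvQ, hvc1, hvc2]
    ring
  have hvm : v (m1 / m2) = v m1 - v m2 := by
    rw [div_eq_mul_inv, R.vmul _ _ hm1n (inv_ne_zero hm2n), R.vinv hm2n]
    ring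
  refine ⟨fun i => (b i : ℤ) - (b' i : ℤ), c1 / c2, aeval zb' q1 / aeval zb' q2, ?_, ?_, ?_, ?_,
    ?_, ?_⟩
  · rw [hc1d, hc2d]
    exact div_mem (gnf_mem z' q1) (gnf_mem z' q2)
  · exact div_mem (gnf_mem zb' q1) (gnf_mem zb' q2)
  · exact div_ne_zero hb1 hb2
  · rw [hc1d, hc2d, div_eq_mul_inv, div_eq_mul_inv]
    exact R.mul _ _ _ _ hr1 (R.inv hr2 hb2)
  · rw [← R.vwmon hw, hme, hvm, hva]
  · rw [hme, hvm]
    have h1 : gnfS v (v (c1 * m1) + v (c2 * m2)) ((P - c1 * m1) * (c2 * m2)) :=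
      gnf_mul R hS1 (mul_ne_zero hc2n hm2n) rfl
    have h2 : gnfS v (v (c2 * m2) + v (c1 * m1)) ((Q - c2 * m2) * (c1 * m1)) :=
      gnf_mul R hS2 (mul_ne_zero hc1n hm1n) rfl
    rw [add_comm] at h2
    have h3 := gnf_add R h1 (gnf_neg R h2)
    have hne : Q * (c2 * m2) ≠ 0 := mul_ne_zero hq0 (mul_ne_zero hc2n hm2n)
    have h4 := gnf_mul R h3 (inv_ne_zero hne) rfl
    have h5 : ((P - c1 * m1) * (c2 * m2) + -((Q - c2 * m2) * (c1 * m1))) * (Q * (c2 * m2))⁻¹ =
        a - c1 / c2 * (m1 / m2) := by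
      rw [haPQ]
      field_simp
      ring
    rw [h5] at h4
    rcases h4 with h4 | h4
    · exact Or.inl (sub_eq_zero.1 h4)
    · right
      rw [R.vinv hne, R.vmul _ _ hq0 (mul_ne_zero hc2n hm2n), hvQ, hvc1, hvc2] at h4
      linarith

/-- **Residues of integral elements of `ℚ(z', w)` lie in `ℚ(zb')`**: `lead_elt`; if `v a > 0` the residue is
`0`; if `v a = 0` then `e = 0` (independence) and the residue is `cb`. -/
theorem res_elt (R : Resd v Rs) {T B : Type} [Fintype B] (z' : T → E) (zb' : T → κ)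
    (hz : ∀ i, Rs (z' i) (zb' i)) (hind : AlgebraicIndependent ℚ zb') (w : B → E)
    (hw : ∀ b, w b ≠ 0) (hwv : LinearIndependent ℚ (fun b => v (w b)))
    (a : E) (ha : a ∈ KK z' w) (ha0 : a = 0 ∨ 0 ≤ v a) :
    ∃ cb ∈ k0 zb', Rs a cb := by
  rcases eq_or_ne a 0 with rfl | hne
  · exact ⟨0, zero_mem _, R.zero⟩
  have hva : 0 ≤ v a := ha0.resolve_left hne
  rcases hva.eq_or_lt with h0 | h0
  · obtain ⟨e, c, cb, -, hcb, -, hr, hv, hl⟩ := lead_elt R z' zb' hz hind w hw hwv a ha hne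
    have he : e = 0 := gnf_ind hwv e (by rw [← hv, ← h0])
    have hw1 : wmon w e = 1 := by
      rw [he]
      unfold wmon
      simp
    rw [hw1, mul_one, R.vone] at hl
    refine ⟨cb, hcb, ?_⟩
    have h1 : Rs (a - c) 0 := (R.zero_iff _).2 (by
      rcases hl with h | h
      · exact Or.inl (sub_eq_zero.2 h)
      · exact Or.inr h)
    have h2 := R.add _ _ _ _ hr h1
    rwa [add_sub_cancel, add_zero] at h2
  · exact ⟨0, zero_mem _, (R.zero_iff _).2 (Or.inr h0)⟩

end Pool.Agent.Zil.Gam
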