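import Pool.Agent.Zil.GARel

set_option autoImplicit false

/-! GM9. The irreducible relation over `ℤ`. -/

namespace Pool.Agent.Zil.Gam

open MvPolynomial

/-- Clearing denominators. -/
private theorem GMRel_clear {σ : Type} (f : MvPolynomial σ ℚ) :
    ∃ (N : ℕ) (g : MvPolynomial σ ℤ), N ≠ 0 ∧ map (Int.castRingHom ℚ) g = C (N : ℚ) * f := by
  induction f using MvPolynomial.induction_on with
  | C a =>
    refine ⟨a.den, C a.num, a.den_ne_zero, ?_⟩
    rw [map_C, ← C_mul]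
    congr 1
    rw [eq_intCast]
    exact (Rat.den_mul_eq_num a).symm
  | add f1 f2 h1 h2 =>
    obtain ⟨N1, g1, hN1, hg1⟩ := h1
    obtain ⟨N2, g2, hN2, hg2⟩ := h2
    refine ⟨N1 * N2, C (N2 : ℤ) * g1 + C (N1 : ℤ) * g2, mul_ne_zero hN1 hN2, ?_⟩
    rw [map_add, map_mul, map_mul, map_C, map_C, hg1, hg2]
    simp only [eq_intCast, Int.cast_natCast, Nat.cast_mul, C_mul]
    ring
  | mul_X f1 i h1 =>
    obtain ⟨N1, g1, hN1, hg1⟩ := h1
    refine ⟨N1, g1 * X i, hN1, ?_⟩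
    rw [map_mul, map_X, hg1, mul_assoc]

/-- Divisibility over `ℚ` and over `ℤ`. -/
private theorem GMRel_dvd {σ : Type} {f p : MvPolynomial σ ℤ}
    (h : map (Int.castRingHom ℚ) f ∣ map (Int.castRingHom ℚ) p) :
    ∃ (N : ℕ) (q : MvPolynomial σ ℤ), N ≠ 0 ∧ C (N : ℤ) * p = f * q := by
  obtain ⟨q, hq⟩ := h
  obtain ⟨N, q', hN, hq'⟩ := GMRel_clear q
  refine ⟨N, q', hN, map_injective (Int.castRingHom ℚ) Int.cast_injective ?_⟩
  rw [map_mul, map_mul, map_C, hq', hq]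
  simp only [eq_intCast, Int.cast_natCast]
  ring

/-- **The relation, over `ℤ`.** `g₀` from `exists_relation`; `g₀ ≠ 0`. `ℤ[X_0 .. X_t]` is a UFD
(`MvPolynomial` over `ℤ`, `Fin (t + 1)` finite); `g₀` is not a unit (it has a zero), so it is a product of
irreducible polynomials, and one of them, `g`, has `aeval z g = 0`. `map g` divides `map g₀`, and `map g₀` divides
`map g` by `exists_relation`: associated, so `map g` is irreducible. If `aeval z p = 0`: `map g ∣ map p` over `ℚ`, so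
`m * p = g * q` with an integer `m ≠ 0` (`C m`) and `q` integral; `g` is prime (UFD), `g ∤ C m` (otherwise `m = 0` in `Ω`),
so `g ∣ p`. -/
theorem exists_relation_int {Ω : Type} [Field Ω] [CharZero Ω] {t : ℕ} (z : Fin (t + 1) → Ω)
    (i₁ : Fin (t + 1)) (hind : AlgebraicIndependent ℚ (fun k : Fin t => z (i₁.succAbove k)))
    (halg : IsAlgebraic (Algebra.adjoin ℚ (Set.range fun k : Fin t => z (i₁.succAbove k)))
      (z i₁)) :
    ∃ g : MvPolynomial (Fin (t + 1)) ℤ, Irreducible g ∧ Irreducible (map (Int.castRingHom ℚ) g) ∧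
      aeval z g = 0 ∧ ∀ p : MvPolynomial (Fin (t + 1)) ℤ, aeval z p = 0 → g ∣ p := by
  obtain ⟨g₀, hirr₀, hz₀, hdiv₀⟩ := exists_relation z i₁ hind halg
  have hg₀ : g₀ ≠ 0 := by
    rintro rfl
    apply hirr₀.ne_zero
    rw [map_zero]
  -- a polynomial with a zero does not divide a nonzero integer
  have hN : ∀ (f : MvPolynomial (Fin (t + 1)) ℤ) (N : ℕ), aeval z f = 0 → N ≠ 0 →
      ¬ f ∣ C (N : ℤ) := by
    rintro f N hf hN ⟨s, hs⟩
    have h1 := congrArg (aeval z) hs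
    rw [map_mul, hf, zero_mul, aeval_C] at h1
    have h2 : ((N : ℤ) : Ω) = 0 := h1
    rw [Int.cast_natCast] at h2
    exact hN (by exact_mod_cast h2)
  have hI : (RingHom.ker (aeval z : MvPolynomial (Fin (t + 1)) ℤ →ₐ[ℤ] Ω)).IsPrime :=
    RingHom.ker_isPrime _
  have hne : RingHom.ker (aeval z : MvPolynomial (Fin (t + 1)) ℤ →ₐ[ℤ] Ω) ≠ ⊥ := by
    intro h
    have h1 : g₀ ∈ RingHom.ker (aeval z : MvPolynomial (Fin (t + 1)) ℤ →ₐ[ℤ] Ω) := hz₀
    rw [h] at h1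
    exact hg₀ h1
  obtain ⟨g, hg, hgp⟩ := hI.exists_mem_prime_of_ne_bot hne
  have hgz : aeval z g = 0 := hg
  -- `g` divides `g₀`
  obtain ⟨N, q, hN0, hq⟩ := GMRel_dvd (hdiv₀ g hgz)
  have hgg₀ : g ∣ g₀ := by
    have h1 : g ∣ g₀ * q := hq ▸ Dvd.intro_left _ rfl
    rcases hgp.dvd_or_dvd h1 with h2 | ⟨s, hs⟩
    · exact h2
    · exfalso
      apply hN g₀ N hz₀ hN0
      refine ⟨s, mul_right_cancel₀ hgp.ne_zero ?_⟩
      rw [hq, hs]
      ring
  have hass : Associated (map (Int.castRingHom ℚ) g₀) (map (Int.castRingHom ℚ) g) :=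
    associated_of_dvd_dvd (hdiv₀ g hgz) (map_dvd (map (Int.castRingHom ℚ)) hgg₀)
  refine ⟨g, hgp.irreducible, hass.irreducible hirr₀, hgz, fun p hp => ?_⟩
  obtain ⟨M, s, hM, hs⟩ := GMRel_dvd
    ((hass.symm.dvd).trans (hdiv₀ p hp) : map (Int.castRingHom ℚ) g ∣ map (Int.castRingHom ℚ) p)
  have h1 : g ∣ C (M : ℤ) * p := ⟨s, hs⟩
  rcases hgp.dvd_or_dvd h1 with h2 | h2
  · exact absurd h2 (hN g M hgz hM)
  · exact h2

end Pool.Agent.Zil.Gam
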