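import Pool.Agent.Zil.GMDefs

set_option autoImplicit false

/-! GM5. The section of the residue relation. -/

namespace Pool.Agent.Zil.Gam

open MvPolynomial

variable {E κ : Type} [Field E] [Field κ] [CharZero E] [CharZero κ] {v : E → ℝ} {Rs : E → κ → Prop}

/-- The field `ℚ(z', w)`. -/
noncomputable abbrev KK {T B : Type} (z' : T → E) (w : B → E) : Subfield E :=
  (IntermediateField.adjoin ℚ (Set.range z' ∪ Set.range w)).toSubfield

/-- The field `ℚ(c)`. -/
noncomputable abbrev k0 {T F : Type} [Field F] [CharZero F] (c : T → F) : Subfield F :=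
  (IntermediateField.adjoin ℚ (Set.range c)).toSubfield

private theorem exists_equiv {F L T : Type} [Field F] [Field L] [Algebra F L] {x : T → L}
    (h : AlgebraicIndependent F x) :
    ∃ f : FractionRing (MvPolynomial T F) ≃+* IntermediateField.adjoin F (Set.range x),
      ∀ a : MvPolynomial T F, ((f (algebraMap _ _ a) :
        IntermediateField.adjoin F (Set.range x)) : L) = aeval x a :=
  ⟨h.aevalEquivField.toRingEquiv, h.aevalEquivField_algebraMap_apply_coe⟩

omit [CharZero E] in
private theorem rat_res (R : Resd v Rs) (q : ℚ) : Rs (q : E) (q : κ) := by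
  have hd : ((q.den : ℕ) : κ) ≠ 0 := Nat.cast_ne_zero.2 q.den_nz
  rw [Rat.cast_def, Rat.cast_def, div_eq_mul_inv, div_eq_mul_inv]
  exact R.mul _ _ _ _ (R.int q.num) (R.inv (R.nat q.den) hd)

private theorem polyQ (R : Resd v Rs) {σ : Type} (x : σ → E) (c : σ → κ)
    (h : ∀ i, Rs (x i) (c i)) (p : MvPolynomial σ ℚ) : Rs (aeval x p) (aeval c p) := by
  induction p using MvPolynomial.induction_on with
  | C a =>
    rw [← MvPolynomial.algebraMap_eq, AlgHom.commutes, AlgHom.commutes, eq_ratCast, eq_ratCast]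
    exact rat_res R a
  | add p q hp hq => rw [map_add, map_add]; exact R.add _ _ _ _ hp hq
  | mul_X p n hp => rw [map_mul, map_mul, aeval_X, aeval_X]; exact R.mul _ _ _ _ hp (h n)

private theorem ind_lift (R : Resd v Rs) {T : Type} (z' : T → E) (zb' : T → κ)
    (hz : ∀ i, Rs (z' i) (zb' i)) (hind : AlgebraicIndependent ℚ zb') :
    AlgebraicIndependent ℚ z' := by
  rw [algebraicIndependent_iff]
  intro p hp
  have h1 := polyQ R z' zb' hz p
  rw [hp] at h1
  exact (algebraicIndependent_iff.1 hind) p (R.uniq h1 R.zero)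

/-- **The section.** Both families are algebraically independent over `ℚ` (a relation with rational, after
multiplication integral, coefficients of the `z'` gives one of the residues, `Resd.poly`), so
`ℚ(z') ≃ FractionRing (MvPolynomial T ℚ) ≃ ℚ(zb')`. Every element of `ℚ(zb')` is `p(zb') / q(zb')` with
integral `p, q`, `q(zb') ≠ 0`; the section sends it to `p(z') / q(z')`, with residue `p(zb') / q(zb')`
(`Resd.poly`, `Resd.inv`). -/
theorem exists_section (R : Resd v Rs) {T : Type} (z' : T → E) (zb' : T → κ)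
    (hz : ∀ i, Rs (z' i) (zb' i)) (hind : AlgebraicIndependent ℚ zb') :
    ∃ s : k0 zb' →+* k0 z', ∀ c : k0 zb', Rs (s c : E) (c : κ) := by
  have hind' := ind_lift R z' zb' hz hind
  obtain ⟨f, hf⟩ := exists_equiv hind
  obtain ⟨f', hf'⟩ := exists_equiv hind'
  refine ⟨(f.symm.trans f').toRingHom, fun c => ?_⟩
  change Rs ((f' (f.symm c) : IntermediateField.adjoin ℚ (Set.range z')) : E) (c : κ)
  obtain ⟨r, hr⟩ : ∃ r, f r = c := f.surjective c
  have hr' : f.symm c = r := by
    rw [← hr]
    exact f.symm_apply_apply r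
  rw [hr']
  obtain ⟨p, q, hq, hpq⟩ := IsFractionRing.div_surjective (A := MvPolynomial T ℚ) r
  have hq0 : q ≠ 0 := nonZeroDivisors.ne_zero hq
  have hqb : aeval zb' q ≠ 0 := fun h => hq0 ((algebraicIndependent_iff.1 hind) q h)
  have e1 : ((f' r : IntermediateField.adjoin ℚ (Set.range z')) : E) =
      aeval z' p * (aeval z' q)⁻¹ := by
    rw [← hpq, map_div₀, IntermediateField.coe_div, hf', hf', div_eq_mul_inv]
  have e2 : (c : κ) = aeval zb' p * (aeval zb' q)⁻¹ := by
    have h1 : ((f r : IntermediateField.adjoin ℚ (Set.range zb')) : κ) =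
        aeval zb' p * (aeval zb' q)⁻¹ := by
      rw [← hpq, map_div₀, IntermediateField.coe_div, hf, hf, div_eq_mul_inv]
    rw [← h1, hr]
  rw [e1, e2]
  exact R.mul _ _ _ _ (polyQ R z' zb' hz p) (R.inv (polyQ R z' zb' hz q) hqb)

end Pool.Agent.Zil.Gam
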