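import Pool.Agent.Zil.RDefs
import Pool.Agent.LSharp.UDefs

set_option autoImplicit false

/-! Zilber's conjecture (frozen statement `S18257`), section 0.3: definitions.

`NDc` is the non-density statement for ultraproducts of number fields. `Kx x j` is the number field
generated by the coordinates of the point `x j` with algebraic coordinates. -/

namespace Pool.Agent.Zil

open MvPolynomial Module Pool.Agent.CITLines

/-- Non-density in ultraproducts of number fields: if no monomial of the point is algebraic, the number of
independent multiplicative relations at most places is at most the transcendence degree. -/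
def NDc : Prop :=
  ∀ (J : Type) (𝒰 : Ultrafilter J) (K : J → Type) [∀ j, Field (K j)] [∀ j, NumberField (K j)]
    (ι : Type) [Fintype ι] (x : ∀ j, ι → K j),
    (∀ᶠ j in (𝒰 : Filter J), ∀ i, x j i ≠ 0) →
    (∀ a : ι → ℤ, a ≠ 0 → Transcendental ℚ (LSharp.Ult.mk 𝒰 K (fun j => mon (x j) a))) →
    ∀ r : ℕ, (∀ᶠ j in (𝒰 : Filter J), ∃ e : Fin r → ι → ℤ, LinearIndependent ℤ e ∧
      ∀ m, mon (x j) (e m) = 1) →
    (r : ℕ∞) ≤ rk ℚ (Set.range fun i => LSharp.Ult.mk 𝒰 K (fun j => x j i))

variable {J ι : Type}

/-- The field generated by the coordinates of the point `x j`. -/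
noncomputable abbrev Kx (x : J → ι → Qb) (j : J) : IntermediateField ℚ Qb :=
  IntermediateField.adjoin ℚ (Set.range (x j))

/-- The point `x j` with coordinates in `Kx x j`. -/
noncomputable def xK (x : J → ι → Qb) (j : J) (i : ι) : Kx x j :=
  ⟨x j i, IntermediateField.subset_adjoin ℚ _ ⟨i, rfl⟩⟩

instance [Finite ι] (x : J → ι → Qb) (j : J) : NumberField (Kx x j) where
  to_charZero := inferInstance
  to_finiteDimensional := by
    have hfin : Finite (Set.range (x j)) := Set.finite_range (x j)
    exact IntermediateField.finiteDimensional_adjoin fun z _ =>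
      (Algebra.IsAlgebraic.isAlgebraic (R := ℚ) z).isIntegral

theorem xK_coe (x : J → ι → Qb) (j : J) (i : ι) : (xK x j i : Qb) = x j i := rfl

end Pool.Agent.Zil
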