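import Pool.Agent.Zil.KDefs

set_option autoImplicit false

/-! Package K3: relations of tuples of points (linear algebra over `ℚ`).

DATA. `A ⊆ ℤ^ι` a submodule on which all the points `P i` (`i : Fin κ`) have the same monomials `g a`; no
nonzero `a ∈ A` gives a root of unity. `e : Fin k → ι`: the coordinates `e` are a complement of `QS A`
(`exists_coords`). `P i` has rank at most `ρ i ≤ card ι - d - 1`. `κ = finrank (QS A) + 1`.
CLAIM. The tuple of the points restricted to the coordinates `e` has `κ d + 1` independent relations.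
PROOF. Let `U i ⊆ ℚ^ι` be the subspace of `RankLe`: `finrank (U i) ≥ card ι - ρ i ≥ d + 1`, and
`mono (P i) a` (`= mon (P i) a`, the same definition) is a root of unity if `cst a ∈ U i`. Every `v ∈ ℚ^ι` is in a unique
way `v = α v + extend e (β v) 0` with `α v ∈ QS A`; `α : ℚ^ι → QS A` and `β : ℚ^ι → ℚ^k` are linear
(`ExtendByZero.linearMap ℚ e` is injective with range a complement of `QS A`: `IsCompl`, use
`Submodule.linearProjOfIsCompl` or define `β` by `Classical.choose` and prove linearity by uniqueness).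
Let `N` be the kernel of `∏ i, U i → QS A`, `(m i)_i ↦ ∑ i, α (m i)`:
`finrank N ≥ ∑ finrank (U i) - finrank (QS A) ≥ κ (d + 1) - (κ - 1) = κ d + 1`
(`LinearMap.finrank_range_add_finrank_ker`, `Module.finrank_pi_fintype`). Let
`B : N → (Fin κ × Fin k → ℚ)`, `B m (i, s) = β (m i) s`.
(1) `B` is injective: if `β (m i) = 0` for all `i` then `m i = α (m i) ∈ QS A ∩ U i`. Let `l ≠ 0` be an integer and
`a ∈ A` with `cst a = l • m i` (`exists_mult_mem`). `cst a ∈ U i`, so `mon (P i) a = g a` is a root of unity, so `a = 0`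
by `hA`, and `m i = 0`.
(2) If `b : Fin κ × Fin k → ℤ` and `cst b` is in the range of `B` then `mon (fun x => P x.1 (e x.2)) b` is a root of
unity: `cst b = B m`, `m ∈ N`. Choose an integer `l ≠ 0` and `m' i : ι → ℤ`, `a i ∈ A` with `cst (m' i) = l • m i`,
`cst (a i) = l • α (m i)` (clear denominators: `exists_clear`, `exists_mult_mem`, product of the finitely many
multipliers), then `m' i = a i + extend e (l b (i, ·)) 0`, `∑ a i = 0`, and
`mon (..) (l • b) = ∏ i, mon (P i) (extend e (l b (i, ·)) 0) = ∏ i, mon (P i) (m' i) / mon (P i) (a i)`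
`= ∏ i, mon (P i) (m' i) / ∏ i, g (a i)` (`mon_extend`, `mon_add'`). The first product is a root of unity
(`RU.mul`), the second is `∏ i, mon (P i0) (a i) = mon (P i0) (∑ a i) = 1` for a fixed `i0` (`κ > 0`; `hg`).
`RU.of_zpow`, `mon_smul`.
(3) The range of `B` has dimension at least `κ d + 1`. Take `κ d + 1` linearly independent vectors in it
(`exists_linearIndependent`, a basis of the range restricted to `Fin (κ d + 1)`), clear denominators (`exists_clear`),
multiply each by the order of the root of unity (2): `E m`, `mon (..) (E m) = 1`. The `cst (E m)` are linearly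
independent over `ℚ` (nonzero multiples: `LinearIndependent.units_smul`), so the `E m` are over `ℤ`
(`cst` is linear and injective; `LinearIndependent.restrict_scalars`, `LinearIndependent.of_comp`). -/

namespace Pool.Agent.Zil

open MvPolynomial Module Pool.Agent.CITLines

/-- A common multiplier. -/
private theorem krel_mult {ι : Type} {A : Submodule ℤ (ι → ℤ)} {n : ℕ} (v : Fin n → ι → ℚ)
    (hv : ∀ i, v i ∈ QS A) :
    ∃ l : ℤ, l ≠ 0 ∧ ∃ a : Fin n → ι → ℤ, ∀ i, a i ∈ A ∧ ∀ x, (a i x : ℚ) = l * v i x := by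
  choose k hk a ha hka using fun i => exists_mult_mem (hv i)
  refine ⟨∏ i, k i, Finset.prod_ne_zero_iff.mpr fun i _ => hk i,
    fun i => (∏ j ∈ Finset.univ.erase i, k j) • a i, fun i => ⟨A.smul_mem _ (ha i), fun x => ?_⟩⟩
  rw [← Finset.mul_prod_erase Finset.univ _ (Finset.mem_univ i)]
  simp only [Pi.smul_apply, smul_eq_mul, Int.cast_mul, hka i x]
  ring

/-- The linear projection on the coordinates `e`. -/
private theorem krel_beta {ι : Type} (Q : Submodule ℚ (ι → ℚ)) {k : ℕ} (e : Fin k → ι)
    (h0 : ∀ v : Fin k → ℚ, Function.extend e v 0 ∈ Q → v = 0)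
    (h1 : ∀ v : ι → ℚ, ∃ c : Fin k → ℚ, v - Function.extend e c 0 ∈ Q) :
    ∃ β : (ι → ℚ) →ₗ[ℚ] (Fin k → ℚ), ∀ v, v - Function.ExtendByZero.linearMap ℚ e (β v) ∈ Q := by
  choose c hc using h1
  have hc' : ∀ v, v - Function.ExtendByZero.linearMap ℚ e (c v) ∈ Q := hc
  have h0' : ∀ v : Fin k → ℚ, Function.ExtendByZero.linearMap ℚ e v ∈ Q → v = 0 := h0
  refine ⟨{ toFun := c, map_add' := fun v w => ?_, map_smul' := fun r v => ?_ }, hc'⟩
  · have h2 : c (v + w) - (c v + c w) = 0 := by
      apply h0'
      have h3 := Q.sub_mem (Q.add_mem (hc' v) (hc' w)) (hc' (v + w))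
      have h4 : v - Function.ExtendByZero.linearMap ℚ e (c v) +
          (w - Function.ExtendByZero.linearMap ℚ e (c w)) -
          (v + w - Function.ExtendByZero.linearMap ℚ e (c (v + w))) =
          Function.ExtendByZero.linearMap ℚ e (c (v + w) - (c v + c w)) := by
        rw [map_sub, map_add]
        abel
      rwa [h4] at h3
    exact sub_eq_zero.1 h2
  · have h2 : c (r • v) - r • c v = 0 := by
      apply h0'
      have h3 := Q.sub_mem (Q.smul_mem r (hc' v)) (hc' (r • v))
      have h4 : r • (v - Function.ExtendByZero.linearMap ℚ e (c v)) -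
          (r • v - Function.ExtendByZero.linearMap ℚ e (c (r • v))) =
          Function.ExtendByZero.linearMap ℚ e (c (r • v) - r • c v) := by
        rw [map_sub, map_smul, smul_sub]
        abel
      rwa [h4] at h3
    exact sub_eq_zero.1 h2

private theorem krel_RU_prod {K : Type} [Field K] {n : ℕ} (f : Fin n → K)
    (hf : ∀ i, RU (f i)) : RU (∏ i, f i) := by
  classical
  refine Finset.prod_induction f RU (fun a b ha hb => ha.mul hb) RU.one fun i _ => hf i

private theorem krel_sum {ι K : Type} [Fintype ι] [Field K] {w : ι → K} (hw : ∀ i, w i ≠ 0)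
    {n : ℕ} (a : Fin n → ι → ℤ) : ∏ i, mon w (a i) = mon w (∑ i, a i) := by
  classical
  induction (Finset.univ : Finset (Fin n)) using Finset.induction_on with
  | empty => simp [mon_zero]
  | insert i s hi ih => rw [Finset.prod_insert hi, Finset.sum_insert hi, mon_add' hw, ih]

private theorem krel_extend {ι K : Type} [Fintype ι] [Field K] {k : ℕ} (e : Fin k → ι)
    (he : Function.Injective e) (w : ι → K) (b : Fin k → ℤ) :
    mon w (Function.extend e b 0) = ∏ s, w (e s) ^ b s := by
  classical
  unfold mon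
  rw [← Finset.prod_subset (Finset.subset_univ (Finset.univ.image e))]
  · rw [Finset.prod_image fun x _ y _ h => he h]
    refine Finset.prod_congr rfl fun s _ => ?_
    rw [he.extend_apply]
  · intro x _ hx
    have h1 : ¬ ∃ s, e s = x := by
      rintro ⟨s, rfl⟩
      exact hx (Finset.mem_image_of_mem e (Finset.mem_univ s))
    rw [Function.extend_apply' _ _ _ h1]
    simp

theorem exists_tuple_relations {ι K : Type} [Fintype ι] [Field K] (A : Submodule ℤ (ι → ℤ))
    {k : ℕ} (e : Fin k → ι) (he : Function.Injective e)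
    (h0 : ∀ v : Fin k → ℚ, Function.extend e v 0 ∈ QS A → v = 0)
    (h1 : ∀ v : ι → ℚ, ∃ c : Fin k → ℚ, v - Function.extend e c 0 ∈ QS A)
    {κ : ℕ} (hκ : κ = finrank ℚ (QS A) + 1) (g : (ι → ℤ) → K) (P : Fin κ → ι → K)
    (hP : ∀ i s, P i s ≠ 0) (hg : ∀ i, ∀ a ∈ A, mon (P i) a = g a)
    (hA : ∀ a ∈ A, RU (g a) → a = 0) (d : ℕ) (ρ : Fin κ → ℕ)
    (hρ : ∀ i, LThree.RankLe (ρ i) (P i)) (hd : ∀ i, ρ i + d + 1 ≤ Fintype.card ι) :
    ∃ E : Fin (κ * d + 1) → Fin κ × Fin k → ℤ, LinearIndependent ℤ E ∧
      ∀ m, mon (fun x : Fin κ × Fin k => P x.1 (e x.2)) (E m) = 1 := by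
  classical
  obtain ⟨β, hβ⟩ := krel_beta (QS A) e h0 h1
  choose U hU hU' using hρ
  have hU2 : ∀ i, ∀ a : ι → ℤ, cst a ∈ U i → RU (mon (P i) a) := fun i a ha => hU' i a ha
  -- the linear maps
  let al : (ι → ℚ) →ₗ[ℚ] (ι → ℚ) :=
    LinearMap.id - (Function.ExtendByZero.linearMap ℚ e).comp β
  have hal : ∀ v, al v ∈ QS A := hβ
  have hal' : ∀ v, v = al v + Function.ExtendByZero.linearMap ℚ e (β v) := fun v => by
    simp only [al, LinearMap.sub_apply, LinearMap.id_apply, LinearMap.comp_apply, sub_add_cancel]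
  let G : ((i : Fin κ) → U i) →ₗ[ℚ] (ι → ℚ) :=
    ∑ i, (al.comp (U i).subtype).comp (LinearMap.proj i)
  have hG : ∀ m : (i : Fin κ) → U i, G m = ∑ i, al (m i : ι → ℚ) := fun m => by
    simp only [G, LinearMap.sum_apply, LinearMap.comp_apply, LinearMap.proj_apply,
      Submodule.subtype_apply]
  let B : ((i : Fin κ) → U i) →ₗ[ℚ] (Fin κ × Fin k → ℚ) :=
    LinearMap.pi fun x => ((LinearMap.proj x.2).comp β).comp
      ((U x.1).subtype.comp (LinearMap.proj x.1))
  have hB : ∀ (m : (i : Fin κ) → U i) x, B m x = β (m x.1 : ι → ℚ) x.2 := fun m x => rfl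
  -- injectivity
  have hBi : Function.Injective B := by
    rw [← LinearMap.ker_eq_bot, LinearMap.ker_eq_bot']
    intro m hm
    funext i
    have h2 : β (m i : ι → ℚ) = 0 := by
      funext s
      exact congrFun hm (i, s)
    have h3 : (m i : ι → ℚ) ∈ QS A := by
      have h4 := hβ (m i : ι → ℚ)
      rwa [h2, map_zero, sub_zero] at h4
    obtain ⟨l, hl, a, ha, hla⟩ := exists_mult_mem h3
    have h5 : cst a = (l : ℚ) • (m i : ι → ℚ) := by
      funext x
      rw [cst_apply, hla x, Pi.smul_apply, smul_eq_mul]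
    have h6 : RU (mon (P i) a) := hU2 i a (by rw [h5]; exact (U i).smul_mem _ (m i).2)
    rw [hg i a ha] at h6
    have h7 := hA a ha h6
    have h8 : (l : ℚ) • (m i : ι → ℚ) = 0 := by rw [← h5, h7]; exact cst_eq_zero.2 rfl
    have h9 : (m i : ι → ℚ) = 0 := by
      rcases smul_eq_zero.1 h8 with h | h
      · exact absurd h (by exact_mod_cast hl)
      · exact h
    exact Subtype.ext h9
  -- dimensions
  have hdim : κ * d + 1 ≤ finrank ℚ ((LinearMap.ker G).map B) := by
    have h2 : finrank ℚ ((LinearMap.ker G).map B) = finrank ℚ (LinearMap.ker G) :=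
      (Submodule.equivMapOfInjective B hBi (LinearMap.ker G)).finrank_eq.symm
    have h3 := LinearMap.finrank_range_add_finrank_ker G
    have h4 : finrank ℚ (LinearMap.range G) ≤ finrank ℚ (QS A) := by
      refine Submodule.finrank_mono ?_
      rintro _ ⟨m, rfl⟩
      rw [hG]
      exact (QS A).sum_mem fun i _ => hal _
    have h5 : κ * (d + 1) ≤ finrank ℚ ((i : Fin κ) → U i) := by
      rw [finrank_pi_fintype]
      calc κ * (d + 1) = ∑ _i : Fin κ, (d + 1) := by simp
        _ ≤ ∑ i, finrank ℚ (U i) := Finset.sum_le_sum fun i _ => by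
            have a1 := hU i
            have a2 := hd i
            omega
    have h6 : κ * (d + 1) = κ * d + κ := by ring
    omega
  -- relations
  have hrel : ∀ b : Fin κ × Fin k → ℤ, cst b ∈ (LinearMap.ker G).map B →
      RU (mon (fun x : Fin κ × Fin k => P x.1 (e x.2)) b) := by
    rintro b ⟨m, hm, hmb⟩
    have hm' : ∑ i, al (m i : ι → ℚ) = 0 := by
      rw [← hG]
      exact hm
    obtain ⟨l, hl, a, ha⟩ := krel_mult (fun i => al (m i : ι → ℚ)) fun i => hal _
    have hb : ∀ i, Function.ExtendByZero.linearMap ℚ e (β (m i : ι → ℚ)) =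
        cst (Function.extend e (fun s => b (i, s)) 0) := by
      intro i
      have h2 : β (m i : ι → ℚ) = fun s => ((b (i, s) : ℤ) : ℚ) := by
        funext s
        exact congrFun hmb (i, s)
      rw [h2]
      funext x
      rw [cst_apply]
      change Function.extend e (fun s => ((b (i, s) : ℤ) : ℚ)) 0 x = _
      by_cases hx : ∃ s, e s = x
      · obtain ⟨s, rfl⟩ := hx
        rw [he.extend_apply, he.extend_apply]
      · rw [Function.extend_apply' _ _ _ hx, Function.extend_apply' _ _ _ hx]
        simp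
    have h3 : ∀ i, RU (mon (P i) (a i + l • Function.extend e (fun s => b (i, s)) 0)) := by
      intro i
      refine hU2 i _ ?_
      have h4 : cst (a i + l • Function.extend e (fun s => b (i, s)) 0) =
          (l : ℚ) • (m i : ι → ℚ) := by
        rw [hal' (m i : ι → ℚ), hb i]
        funext x
        simp only [cst_apply, Pi.add_apply, Pi.smul_apply, smul_eq_mul, Int.cast_add,
          Int.cast_mul, (ha i).2 x]
        ring
      rw [h4]
      exact (U i).smul_mem _ (m i).2
    have h5 := krel_RU_prod _ h3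
    have h6 : ∏ i, mon (P i) (a i + l • Function.extend e (fun s => b (i, s)) 0) =
        mon (fun x : Fin κ × Fin k => P x.1 (e x.2)) b ^ l := by
      have h7 : ∀ i, mon (P i) (a i + l • Function.extend e (fun s => b (i, s)) 0) =
          mon (P i) (a i) * (∏ s, P i (e s) ^ b (i, s)) ^ l := by
        intro i
        rw [mon_add' (hP i), mon_smul, krel_extend e he]
      rw [Finset.prod_congr rfl fun i _ => h7 i, Finset.prod_mul_distrib, Finset.prod_zpow]
      have h8 : ∏ i, ∏ s, P i (e s) ^ b (i, s) =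
          mon (fun x : Fin κ × Fin k => P x.1 (e x.2)) b := by
        unfold mon
        rw [← Finset.univ_product_univ, Finset.prod_product]
      have h9 : ∏ i, mon (P i) (a i) = 1 := by
        have hκ0 : 0 < κ := by omega
        have h10 : ∏ i, mon (P i) (a i) = ∏ i, mon (P ⟨0, hκ0⟩) (a i) :=
          Finset.prod_congr rfl fun i _ => by
            rw [hg i _ (ha i).1, hg ⟨0, hκ0⟩ _ (ha i).1]
        rw [h10, krel_sum (hP _)]
        have h11 : ∑ i, a i = 0 := by
          apply cst_injective
          funext x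
          rw [cst_apply, cst_apply, Finset.sum_apply, Int.cast_sum]
          rw [Finset.sum_congr rfl fun i _ => (ha i).2 x, ← Finset.mul_sum]
          have h12 := congrFun hm' x
          rw [Finset.sum_apply] at h12
          rw [h12]
          simp
        rw [h11, mon_zero]
      rw [h8, h9, one_mul]
    rw [h6] at h5
    exact h5.of_zpow hl
  -- conclusion
  let bs := finBasis ℚ ((LinearMap.ker G).map B)
  let v : Fin (κ * d + 1) → Fin κ × Fin k → ℚ := fun m => (bs (Fin.castLE hdim m) : _)
  have hv : LinearIndependent ℚ v := by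
    have h2 : LinearIndependent ℚ fun m : Fin (κ * d + 1) => bs (Fin.castLE hdim m) :=
      bs.linearIndependent.comp _ (Fin.castLE_injective hdim)
    exact h2.map' ((LinearMap.ker G).map B).subtype (Submodule.ker_subtype _)
  have hv' : ∀ m, v m ∈ (LinearMap.ker G).map B := fun m => (bs (Fin.castLE hdim m)).2
  choose l hl E' hE' using fun m => exists_clear (v m)
  have h2 : ∀ m, cst (E' m) = (l m : ℚ) • v m := fun m => by
    funext x
    rw [cst_apply, hE' m x, Pi.smul_apply, smul_eq_mul]
  have h3 : ∀ m, RU (mon (fun x : Fin κ × Fin k => P x.1 (e x.2)) (E' m)) := fun m =>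
    hrel _ (by rw [h2]; exact Submodule.smul_mem _ _ (hv' m))
  choose N hN hN' using h3
  refine ⟨fun m => (N m : ℤ) • E' m, ?_, fun m => by rw [mon_smul, zpow_natCast, hN' m]⟩
  rw [Fintype.linearIndependent_iff]
  intro c hc m
  have h4 : ∑ m, ((c m : ℚ) * (N m * l m)) • v m = 0 := by
    funext x
    have h5 := congrArg (fun f : Fin κ × Fin k → ℤ => ((f x : ℤ) : ℚ)) hc
    simp only [Finset.sum_apply, Pi.smul_apply, smul_eq_mul, Int.cast_sum, Int.cast_mul,
      Int.cast_natCast, Pi.zero_apply, Int.cast_zero] at h5 ⊢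
    rw [← h5]
    refine Finset.sum_congr rfl fun m _ => ?_
    rw [hE' m x]
    ring
  have h6 := (Fintype.linearIndependent_iff.1 hv) _ h4 m
  have h7 : (N m : ℚ) * l m ≠ 0 :=
    mul_ne_zero (by exact_mod_cast (hN m).ne') (by exact_mod_cast hl m)
  exact_mod_cast (mul_eq_zero.1 h6).resolve_right h7

end Pool.Agent.Zil
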