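import Pool.Agent.Zil.KDefs

set_option autoImplicit false

/-! Package K2: transcendence degree and algebraic elements in the ultraproduct.

NOTATION. `Ult = LSharp.Ult 𝒰 K`, quotient of `∀ j, K j` by the ideal of the families which are `0` for most
`j`; `LSharp.Ult.mk` the quotient map, `LSharp.Ult.mk_eq_zero`, `mk_eq_mk`.

* `ult_aeval`: for `f ∈ ℚ[X_σ]` and `z : ∀ j, σ → K j`: `aeval (germ of z) f = germ of (aeval (z j) f)`: both sides are
  ring homomorphisms of `f` (`MvPolynomial.induction_on`; a ring homomorphism from `ℚ` is unique,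
  `map_ratCast`/`Subsingleton`; the algebra structure of `Ult` over `ℚ` is the one of a division ring of
  characteristic zero, that of `∀ j, K j` is `Pi.algebra`; avoid the latter, use that
  `fun f => Ult.mk (fun j => aeval (z j) f)` is a ring homomorphism).
* `rk_ult_le`: let `w i = Ult.mk (fun j => x j (e i)) ∈ L = LSharp.Ult 𝒰 (fun _ => Qb)`. `L` is an algebra over `Qb` by the
  constant families (`RingHom.toAlgebra`; local instance). For `f ∈ p`: `aeval w f = germ of eval (x j ∘ e) f = 0`
  (as above, `MvPolynomial.induction_on`), so `p ≤ kr Qb w`, so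
  `rk Qb (range w) = dm (kr Qb w) ≤ dm p` (`dm_kr`, `dm_anti`). The transcendence degree over `ℚ` is the same:
  `rk ℚ (range w) ≤ rk Qb (range w)`: an algebraically independent subset of `range w` over `ℚ` is algebraically
  independent over the algebraic extension `Qb` (`AlgebraicIndependent.extendScalars` or the like,
  `Algebra.IsAlgebraic ℚ Qb`; search Mathlib), `rk` is the `eRk` of the matroid `AlgebraicIndependent.matroid`
  (compare the proof of `rk_restrict` in CITLines/Spread.lean). Finally the inclusions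
  `Kx x j → Qb` induce a ring homomorphism `Φ : Ult 𝒰 (fun j => Kx x j) → L` (`Ideal.quotientMap` or
  `Ideal.Quotient.lift`), `Φ (germ of xK x j (e i)) = w i`, injective (fields), and
  `rk ℚ (range v) ≤ rk ℚ (Φ '' range v)` for an injective homomorphism: an independent subset `B` of `range v`
  has independent image (`AlgebraicIndependent.map'`).
  Instances of algebras over `ℚ`: all the same (`Subsingleton`), ring homomorphisms between fields of
  characteristic zero are `ℚ`-algebra homomorphisms (`RingHom.toRatAlgHom`).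
* `transcendental_ult`: suppose the germ is algebraic: `f ∈ ℚ[X]`, `f ≠ 0`, `aeval (germ) f = 0`. Then for most `j`:
  `aeval (mon (xK x j) a) f = 0` in `Kx x j`, so `aeval (mon (x j) a) f = 0` in `Qb` (`mon_map`), so `mon (x j) a` is an
  element of the finite set `f.rootSet Qb`. If for every element `c` of it `mon (x j) a ≠ c` for most `j`, then
  for most `j` this holds for all these `c` (`Filter.eventually_all_finset` or `Set.Finite`), contradiction
  (`Filter.Eventually.exists`).
* `rk_prod_le`: the range is the union over `i : Fin κ` of the ranges of `fun s => w (i, s)`; induction on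
  `κ` (or on a finset of indices) with `rk_union`. -/

namespace Pool.Agent.Zil

open MvPolynomial Module Pool.Agent.CITLines

private theorem rk_le_image {k K L : Type} [Field k] [Field K] [Field L] [Algebra k K] [Algebra k L]
    (φ : K →ₐ[k] L) (s : Set K) : rk k s ≤ rk k (φ '' s) := by
  obtain ⟨B, hB⟩ := (AlgebraicIndependent.matroid k K).exists_isBasis s
  have hinj : Function.Injective φ := φ.toRingHom.injective
  have h1 : AlgebraicIndependent k ((↑) : B → K) := hB.indep
  have h2 : AlgebraicIndependent k (φ ∘ ((↑) : B → K)) := h1.map' hinj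
  have h3 : (AlgebraicIndependent.matroid k L).Indep (φ '' B) := by
    rw [AlgebraicIndependent.matroid_indep_iff]
    have h4 := h2.coe_range
    rw [Set.range_comp, Subtype.range_coe] at h4
    exact h4
  unfold rk
  rw [← hB.encard_eq_eRk, ← hinj.encard_image B]
  exact h3.encard_le_eRk_of_subset (Set.image_mono hB.subset)

private theorem rk_extend {k k' K : Type} [Field k] [Field k'] [Field K] [Algebra k k'] [Algebra k K]
    [Algebra k' K] [IsScalarTower k k' K] [Algebra.IsAlgebraic k k'] (s : Set K) :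
    rk k s ≤ rk k' s := by
  obtain ⟨B, hB⟩ := (AlgebraicIndependent.matroid k K).exists_isBasis s
  have h1 : AlgebraicIndependent k ((↑) : B → K) := hB.indep
  have h2 : AlgebraicIndependent k' ((↑) : B → K) := h1.extendScalars k'
  have h3 : (AlgebraicIndependent.matroid k' K).Indep B := h2
  unfold rk
  rw [← hB.encard_eq_eRk]
  exact h3.encard_le_eRk_of_subset hB.subset

theorem ult_aeval {J : Type} (𝒰 : Ultrafilter J) (K : J → Type) [∀ j, Field (K j)]
    [∀ j, NumberField (K j)] {σ : Type} (z : ∀ j, σ → K j) (f : MvPolynomial σ ℚ) :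
    aeval (fun i => LSharp.Ult.mk 𝒰 K (fun j => z j i)) f =
      LSharp.Ult.mk 𝒰 K (fun j => aeval (z j) f) := by
  have key : ((aeval (fun i => LSharp.Ult.mk 𝒰 K (fun j => z j i)) :
      MvPolynomial σ ℚ →ₐ[ℚ] LSharp.Ult 𝒰 K) : MvPolynomial σ ℚ →+* LSharp.Ult 𝒰 K) =
      (LSharp.Ult.mk 𝒰 K).comp (RingHom.pi fun j =>
        ((aeval (z j) : MvPolynomial σ ℚ →ₐ[ℚ] K j) : MvPolynomial σ ℚ →+* K j)) := by
    apply MvPolynomial.ringHom_ext'
    · exact Subsingleton.elim _ _
    · intro i
      have h1 : (RingHom.pi fun j =>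
        ((aeval (z j) : MvPolynomial σ ℚ →ₐ[ℚ] K j) : MvPolynomial σ ℚ →+* K j)) (X i) =
          fun j => z j i := by
        funext j
        rw [RingHom.pi_apply]
        exact aeval_X _ _
      rw [RingHom.comp_apply, h1]
      exact aeval_X _ _
  exact RingHom.congr_fun key f

private theorem ult_eval_qb {J : Type} (𝒰 : Ultrafilter J) {σ : Type} (z : J → σ → Qb)
    (f : MvPolynomial σ Qb) :
    eval₂ ((LSharp.Ult.mk 𝒰 (fun _ : J => Qb)).comp (RingHom.pi fun _ => RingHom.id Qb))
      (fun i => LSharp.Ult.mk 𝒰 (fun _ : J => Qb) (fun j => z j i)) f =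
      LSharp.Ult.mk 𝒰 (fun _ : J => Qb) (fun j => eval (z j) f) := by
  have key : eval₂Hom ((LSharp.Ult.mk 𝒰 (fun _ : J => Qb)).comp (RingHom.pi fun _ => RingHom.id Qb))
      (fun i => LSharp.Ult.mk 𝒰 (fun _ : J => Qb) (fun j => z j i)) =
      (LSharp.Ult.mk 𝒰 (fun _ : J => Qb)).comp (RingHom.pi fun j => (eval (z j))) := by
    apply MvPolynomial.ringHom_ext
    · intro a
      have h1 : (RingHom.pi fun j => (eval (z j)) : MvPolynomial σ Qb →+* (J → Qb)) (C a) =
          (RingHom.pi fun _ => RingHom.id Qb) a := by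
        funext j
        rw [RingHom.pi_apply, RingHom.pi_apply]
        exact eval_C _
      rw [RingHom.comp_apply, h1]
      exact eval₂_C _ _ _
    · intro i
      have h1 : (RingHom.pi fun j => (eval (z j)) : MvPolynomial σ Qb →+* (J → Qb)) (X i) =
          fun j => z j i := by
        funext j
        rw [RingHom.pi_apply]
        exact eval_X _
      rw [RingHom.comp_apply, h1]
      exact eval₂_X _ _ _
  exact RingHom.congr_fun key f

theorem rk_ult_le {J : Type} (𝒰 : Ultrafilter J) {ι ι' : Type} [Fintype ι] [Fintype ι']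
    (p : Ideal (MvPolynomial ι Qb)) [p.IsPrime] (x : J → ι' → Qb) (e : ι → ι')
    (h : ∀ᶠ j in (𝒰 : Filter J), ∀ f ∈ p, eval (fun i => x j (e i)) f = 0) :
    rk ℚ (Set.range fun i : ι => LSharp.Ult.mk 𝒰 (fun j => Kx x j) (fun j => xK x j (e i))) ≤
      dm p := by
  classical
  let L : Type := LSharp.Ult 𝒰 (fun _ : J => Qb)
  let c : Qb →+* L := (LSharp.Ult.mk 𝒰 (fun _ : J => Qb)).comp (RingHom.pi fun _ => RingHom.id Qb)
  let algL : Algebra Qb L := c.toAlgebra
  have czL : CharZero L := charZero_of_injective_algebraMap (R := Qb) (A := L) c.injective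
  have tow : IsScalarTower ℚ Qb L := IsScalarTower.of_algebraMap_eq' (Subsingleton.elim _ _)
  let w : ι → L := fun i => LSharp.Ult.mk 𝒰 (fun _ : J => Qb) (fun j => x j (e i))
  have hw : p ≤ kr Qb w := by
    intro f hf
    rw [mem_kr]
    have h1 : aeval w f = LSharp.Ult.mk 𝒰 (fun _ : J => Qb) (fun j => eval (fun i => x j (e i)) f) :=
      ult_eval_qb 𝒰 (fun j i => x j (e i)) f
    rw [h1]
    refine LSharp.Ult.mk_eq_zero.2 ?_
    filter_upwards [h] with j hj
    exact hj f hf
  have h1 : rk Qb (Set.range w) ≤ dm p := by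
    rw [← dm_kr]
    exact_mod_cast dm_anti hw
  have h2 : rk ℚ (Set.range w) ≤ rk Qb (Set.range w) := rk_extend _
  let Ψ : (∀ j, Kx x j) →+* L := (LSharp.Ult.mk 𝒰 (fun _ : J => Qb)).comp
    (RingHom.pi fun j => (algebraMap (Kx x j) Qb).comp (Pi.evalRingHom (fun j => Kx x j) j))
  have hΨ : ∀ a ∈ LSharp.nul 𝒰 (fun j => Kx x j), Ψ a = 0 := by
    intro a ha
    have ha' : ∀ᶠ j in (𝒰 : Filter J), a j = 0 := ha
    refine LSharp.Ult.mk_eq_zero.2 ?_
    filter_upwards [ha'] with j hj
    rw [RingHom.pi_apply, RingHom.comp_apply, Pi.evalRingHom_apply, hj, map_zero]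
  let Φ : LSharp.Ult 𝒰 (fun j => Kx x j) →+* L := Ideal.Quotient.lift _ Ψ hΨ
  let Φ' : LSharp.Ult 𝒰 (fun j => Kx x j) →ₐ[ℚ] L := RingHom.toRatAlgHom Φ
  have hΦ : ∀ i, Φ' (LSharp.Ult.mk 𝒰 (fun j => Kx x j) (fun j => xK x j (e i))) = w i := by
    intro i
    change Ideal.Quotient.lift _ Ψ hΨ (Ideal.Quotient.mk _ (fun j => xK x j (e i))) = w i
    rw [Ideal.Quotient.lift_mk]
    rfl
  have h3 := rk_le_image Φ' (Set.range fun i : ι =>
    LSharp.Ult.mk 𝒰 (fun j => Kx x j) (fun j => xK x j (e i)))
  have h4 : Φ' '' (Set.range fun i : ι =>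
    LSharp.Ult.mk 𝒰 (fun j => Kx x j) (fun j => xK x j (e i))) = Set.range w := by
    rw [← Set.range_comp]
    congr 1
  rw [h4] at h3
  exact h3.trans (h2.trans h1)

private theorem ult_paeval {J : Type} (𝒰 : Ultrafilter J) (K : J → Type) [∀ j, Field (K j)]
    [∀ j, NumberField (K j)] (z : ∀ j, K j) (f : Polynomial ℚ) :
    Polynomial.aeval (LSharp.Ult.mk 𝒰 K z) f =
      LSharp.Ult.mk 𝒰 K (fun j => Polynomial.aeval (z j) f) := by
  have key : ((Polynomial.aeval (LSharp.Ult.mk 𝒰 K z) :
      Polynomial ℚ →ₐ[ℚ] LSharp.Ult 𝒰 K) : Polynomial ℚ →+* LSharp.Ult 𝒰 K) =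
      (LSharp.Ult.mk 𝒰 K).comp (RingHom.pi fun j =>
        ((Polynomial.aeval (z j) : Polynomial ℚ →ₐ[ℚ] K j) : Polynomial ℚ →+* K j)) := by
    apply Polynomial.ringHom_ext'
    · exact Subsingleton.elim _ _
    · have h1 : (RingHom.pi fun j =>
        ((Polynomial.aeval (z j) : Polynomial ℚ →ₐ[ℚ] K j) : Polynomial ℚ →+* K j))
          Polynomial.X = z := by
        funext j
        rw [RingHom.pi_apply]
        exact Polynomial.aeval_X _
      rw [RingHom.comp_apply, h1]
      exact Polynomial.aeval_X _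
  exact RingHom.congr_fun key f

theorem transcendental_ult {J : Type} (𝒰 : Ultrafilter J) {ι : Type} [Fintype ι] (x : J → ι → Qb)
    (a : ι → ℤ) (h : ∀ c : Qb, ∀ᶠ j in (𝒰 : Filter J), mon (x j) a ≠ c) :
    Transcendental ℚ (LSharp.Ult.mk 𝒰 (fun j => Kx x j) (fun j => mon (xK x j) a)) := by
  classical
  rintro ⟨f, hf0, hf⟩
  rw [ult_paeval 𝒰 (fun j => Kx x j) (fun j => mon (xK x j) a)] at hf
  have h2 := LSharp.Ult.mk_eq_zero.1 hf
  have h3 : ∀ᶠ j in (𝒰 : Filter J), mon (x j) a ∈ (f.aroots Qb).toFinset := by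
    filter_upwards [h2] with j hj
    rw [Multiset.mem_toFinset, Polynomial.mem_aroots]
    refine ⟨hf0, ?_⟩
    have h4 := mon_map (algebraMap (Kx x j) Qb) (xK x j) a
    have h5 : (fun i => algebraMap (Kx x j) Qb (xK x j i)) = x j := by
      funext i
      rfl
    rw [h5] at h4
    rw [h4, Polynomial.aeval_algebraMap_apply, hj, map_zero]
  have h6 : ∀ᶠ j in (𝒰 : Filter J), ∀ c ∈ (f.aroots Qb).toFinset, mon (x j) a ≠ c := by
    rw [Filter.eventually_all_finset]
    intro c _
    exact h c
  obtain ⟨j, h7, h8⟩ := (h3.and h6).exists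
  exact h8 _ h7 rfl

theorem rk_prod_le {k K : Type} [Field k] [Field K] [Algebra k K] {κ m : ℕ}
    (w : Fin κ × Fin m → K) (d : ℕ) (h : ∀ i : Fin κ, rk k (Set.range fun s => w (i, s)) ≤ d) :
    rk k (Set.range w) ≤ (κ * d : ℕ) := by
  classical
  have key : ∀ S : Finset (Fin κ), rk k (⋃ i ∈ S, Set.range fun s => w (i, s)) ≤ (S.card * d : ℕ) := by
    intro S
    induction S using Finset.induction_on with
    | empty =>
      have : (⋃ i ∈ (∅ : Finset (Fin κ)), Set.range fun s => w (i, s)) = ∅ := by simp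
      rw [this]
      unfold rk
      simp
    | insert a S ha ih =>
      rw [Finset.set_biUnion_insert, Finset.card_insert_of_notMem ha, add_mul, one_mul, add_comm]
      refine (rk_union _ _).trans ?_
      push_cast
      push_cast at ih
      exact add_le_add (h a) ih
  have h1 := key Finset.univ
  rw [Finset.card_univ, Fintype.card_fin] at h1
  refine le_trans (rk_mono ?_) h1
  rintro _ ⟨⟨i, s⟩, rfl⟩
  simp only [Finset.mem_univ, Set.iUnion_true, Set.mem_iUnion]
  exact ⟨i, s, rfl⟩

end Pool.Agent.Zil
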