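import Pool.Agent.Zil.KTup
import Pool.Agent.Zil.KUlt
import Pool.Agent.Zil.KRel

set_option autoImplicit false

/-! Package K4: assembly of section 0.3, `NDc → ND`.

`KTup`, `KUlt`, `KRel` are black boxes.

* `dm_comap_rename_le`: `p.comap (rename e) = kr Qb (gen p ∘ e)` (as `rs_eq_kr` of CITLines/Coord.lean, `kr_gen`,
  `aeval_rename`), so `dm = rk Qb (range (gen p ∘ e)) ≤ rk Qb (range (gen p)) = dm p` (`dm_kr`, `dm_eq_rk`, `rk_mono`).
* `cA p`: the exponents whose monomial is constant. Closed: `mon_add'`, `mon_smul`, `mon_zero`,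
  `gen_ne_zero`, `map_mul`, `map_zpow₀`. It is defined for a prime ideal without variables.
* `binom_mem_iff`: `binom_mem_kr` with `kr_gen`.
* `nd_of_ndc`. Let `p` be as in `ND`, suppose `¬ NDp p`: for every `g ∉ p` there are `P`, `ρ` with nonzero
  coordinates, `P` a zero of `p`, `RankLe ρ P`, `ρ + dm p + 1 ≤ card ι`, `eval P g ≠ 0`. Choose functions on
  `J = {g // g ∉ p}` and the ultrafilter `𝒰` of `exists_ultra`. `A = cA p hX`, `g a` a constant with
  `mon (gen p) a = algebraMap (g a)`. `exists_coords (QS A)` gives `k`, `e`. `κ = finrank (QS A) + 1`.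
  `x t y = P (t y.1) (e y.2)` for `t : Fin κ → J`, `y : Fin κ × Fin k`. Apply `hN` to `itU 𝒰 κ`, the number fields `Kx x t` and
  the points `xK x t`, `r = κ * dm p + 1`.
  - nonzero coordinates.
  - transcendental: `transcendental_ult` and `itU_mon` for the points `P j ∘ e`; its hypothesis: `a ≠ 0`, `c ∈ Qb`,
    `a' = extend e a 0`; `binom Qb a' c ∉ p` (otherwise `a' ∈ A`, `cst a' = extend e (cst a) 0 ∈ QS A` (`cst_extend`), so
    `cst a = 0`, `a = 0`), so for most `j`: `eval (P j) (binom Qb a' c) ≠ 0`, so `mon (P j) a' ≠ c` (`binom_mem_kr` for the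
    point `P j`, `k = K = Qb`), `mon (P j) a' = mon (P j ∘ e) a` (`mon_extend`).
  - relations: `exists_tuple_relations` for the tuple `fun i => P (t i)`; `hg`: `binom Qb a (g a) ∈ p`, so its value at
    `P j` is zero, so `mon (P j) a = g a`; `hA`: `RU (g a)` and `a ∈ A` and `a ≠ 0` contradict the hypothesis of `ND`.
    The relations hold in `Kx x t` because they hold in `Qb` (`mon_map`, injectivity of the inclusion).
  - the conclusion: `κ * dm p + 1 ≤ rk ℚ (range ..) ≤ κ * dm p` (`rk_prod_le`, `rk_ult_le` with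
    `p' = p.comap (rename e)`, the map `fun s => (i, s)`, and `dm_comap_rename_le`; elements of `p'` vanish at
    `P j ∘ e`: `eval_rename`), a contradiction. -/

namespace Pool.Agent.Zil

open MvPolynomial Module Pool.Agent.CITLines

theorem dm_comap_rename_le {ι : Type} [Fintype ι] (p : Ideal (MvPolynomial ι Qb)) [p.IsPrime]
    {k : ℕ} (e : Fin k → ι) :
    dm (p.comap (rename e : MvPolynomial (Fin k) Qb →ₐ[Qb] MvPolynomial ι Qb)) ≤ dm p := by
  have h1 : p.comap (rename e : MvPolynomial (Fin k) Qb →ₐ[Qb] MvPolynomial ι Qb) =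
      kr Qb (fun j => gen p (e j)) := by
    ext f
    rw [Ideal.mem_comap, mem_kr]
    conv_lhs => rw [← kr_gen p, mem_kr, aeval_rename]
    rfl
  rw [h1]
  have h2 : (dm (kr Qb (fun j => gen p (e j))) : ℕ∞) ≤ dm p := by
    rw [dm_kr, dm_eq_rk]
    refine rk_mono ?_
    rintro _ ⟨j, rfl⟩
    exact ⟨e j, rfl⟩
  exact_mod_cast h2

/-- The exponents of the monomials which are constant on the variety. -/
noncomputable def cA {ι : Type} [Fintype ι] (p : Ideal (MvPolynomial ι Qb)) [p.IsPrime]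
    (hX : ∀ i, X i ∉ p) : Submodule ℤ (ι → ℤ) where
  carrier := {a | ∃ c : Qb, mon (gen p) a = algebraMap Qb (Kf p) c}
  zero_mem' := ⟨1, by rw [mon_zero, map_one]⟩
  add_mem' := by
    rintro a b ⟨c, hc⟩ ⟨c', hc'⟩
    exact ⟨c * c', by rw [mon_add' (fun i => gen_ne_zero p (hX i)), hc, hc', map_mul]⟩
  smul_mem' := by
    rintro m a ⟨c, hc⟩
    exact ⟨c ^ m, by rw [mon_smul, hc, map_zpow₀]⟩

theorem binom_mem_iff {ι : Type} [Fintype ι] (p : Ideal (MvPolynomial ι Qb)) [p.IsPrime]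
    (hX : ∀ i, X i ∉ p) (a : ι → ℤ) (c : Qb) :
    binom Qb a c ∈ p ↔ mon (gen p) a = algebraMap Qb (Kf p) c := by
  have h := binom_mem_kr (k := Qb) (fun i => gen_ne_zero p (hX i)) a c
  rwa [kr_gen] at h

/-- A binomial vanishes at a point if and only if the monomial has the given value. -/
private theorem knd_eval {ι : Type} [Fintype ι] {P : ι → Qb} (hP : ∀ i, P i ≠ 0) (a : ι → ℤ)
    (c : Qb) : eval P (binom Qb a c) = 0 ↔ mon P a = c := by
  have h := binom_mem_kr (k := Qb) (K := Qb) hP a c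
  rw [mem_kr] at h
  exact h

theorem nd_of_ndc (hN : NDc) : ND := by
  classical
  intro ι _ p hp hX hT
  by_contra hcon
  have hcon' : ∀ g : {g : MvPolynomial ι Qb // g ∉ p}, ∃ P : ι → Qb, ∃ ρ : ℕ, (∀ i, P i ≠ 0) ∧
      (∀ f ∈ p, eval P f = 0) ∧ LThree.RankLe ρ P ∧ ρ + dm p + 1 ≤ Fintype.card ι ∧
      eval P g.1 ≠ 0 := by
    intro g
    by_contra hg
    apply hcon
    refine ⟨g.1, g.2, fun P h1 h2 ρ h3 h4 => ?_⟩
    by_contra h5
    exact hg ⟨P, ρ, h1, h2, h3, h4, h5⟩
  choose P ρ hP0 hPp hPρ hρ hPg using hcon'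
  obtain ⟨𝒰, h𝒰⟩ := exists_ultra p P hPg
  have hgex : ∃ g : (ι → ℤ) → Qb, ∀ a ∈ cA p hX,
      mon (gen p) a = algebraMap Qb (Kf p) (g a) := by
    have h1 : ∀ a : ι → ℤ, ∃ c : Qb, a ∈ cA p hX → mon (gen p) a = algebraMap Qb (Kf p) c := by
      intro a
      by_cases h : a ∈ cA p hX
      · obtain ⟨c, hc⟩ := h
        exact ⟨c, fun _ => hc⟩
      · exact ⟨0, fun h' => absurd h' h⟩
    choose g hg using h1
    exact ⟨g, hg⟩
  obtain ⟨g, hg⟩ := hgex
  have hgP : ∀ j, ∀ a ∈ cA p hX, mon (P j) a = g a := fun j a ha =>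
    (knd_eval (hP0 j) a (g a)).1 (hPp j _ ((binom_mem_iff p hX a (g a)).2 (hg a ha)))
  have hA : ∀ a ∈ cA p hX, RU (g a) → a = 0 := by
    intro a ha hru
    by_contra hne
    exact hT a hne (g a) hru ((binom_mem_iff p hX a (g a)).2 (hg a ha))
  obtain ⟨k, e, he, -, h0, h1⟩ := exists_coords (QS (cA p hX))
  obtain ⟨κ, hκ⟩ : ∃ κ, κ = finrank ℚ (QS (cA p hX)) + 1 := ⟨_, rfl⟩
  let x : (Fin κ → {g : MvPolynomial ι Qb // g ∉ p}) → Fin κ × Fin k → Qb :=
    fun t y => P (t y.1) (e y.2)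
  have hxmon : ∀ t a, ((mon (xK x t) a : Kx x t) : Qb) = mon (x t) a := fun t a =>
    (mon_map (algebraMap (Kx x t) Qb) (xK x t) a).symm
  -- the monomials are transcendental
  have htr : ∀ a : Fin k → ℤ, a ≠ 0 → ∀ c : Qb,
      ∀ᶠ j in (𝒰 : Filter {g : MvPolynomial ι Qb // g ∉ p}),
        mon (fun s => P j (e s)) a ≠ c := by
    intro a ha c
    have hnot : Function.extend e a 0 ∉ cA p hX := by
      intro hmem
      apply ha
      have h2 := cst_mem_QS hmem
      rw [cst_extend e he a] at h2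
      exact cst_eq_zero.1 (h0 _ h2)
    have hb : binom Qb (Function.extend e a 0) c ∉ p := fun hb =>
      hnot ⟨c, (binom_mem_iff p hX _ c).1 hb⟩
    filter_upwards [h𝒰 _ hb] with j hj hmon
    apply hj
    rw [knd_eval (hP0 j), mon_extend (P j) e he]
    exact hmon
  have hfin := hN (Fin κ → {g : MvPolynomial ι Qb // g ∉ p}) (itU 𝒰 κ) (fun t => Kx x t)
    (Fin κ × Fin k) (fun t => xK x t) ?_ ?_ (κ * dm p + 1) ?_
  · -- the contradiction
    have h2 : rk ℚ (Set.range fun i : Fin κ × Fin k =>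
        LSharp.Ult.mk (itU 𝒰 κ) (fun t => Kx x t) (fun t => xK x t i)) ≤ (κ * dm p : ℕ) := by
      refine rk_prod_le _ (dm p) fun i => ?_
      have : (p.comap
          (rename e : MvPolynomial (Fin k) Qb →ₐ[Qb] MvPolynomial ι Qb)).IsPrime :=
        Ideal.comap_isPrime _ _
      refine (rk_ult_le (itU 𝒰 κ) (p.comap
        (rename e : MvPolynomial (Fin k) Qb →ₐ[Qb] MvPolynomial ι Qb)) x
        (fun s => (i, s)) ?_).trans ?_
      · refine Filter.Eventually.of_forall fun t f hf => ?_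
        have h3 := hPp (t i) _ (Ideal.mem_comap.1 hf)
        rw [← h3]
        change _ = eval (P (t i)) (rename e f)
        rw [eval_rename]
        rfl
      · exact_mod_cast dm_comap_rename_le p e
    have h3 := hfin.trans h2
    have h4 : κ * dm p + 1 ≤ κ * dm p := by exact_mod_cast h3
    omega
  · refine Filter.Eventually.of_forall fun t i h => hP0 (t i.1) (e i.2) ?_
    have h2 := congrArg (fun z : Kx x t => (z : Qb)) h
    exact h2
  · intro a ha
    have h2 := transcendental_ult (itU 𝒰 κ) x a fun c => ?_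
    · exact h2
    · exact itU_mon 𝒰 (fun j s => P j (e s)) (fun j s => hP0 j (e s)) htr κ a ha c
  · refine Filter.Eventually.of_forall fun t => ?_
    obtain ⟨E, hE, hE'⟩ := exists_tuple_relations (cA p hX) e he h0 h1 hκ g (fun i => P (t i))
      (fun i s => hP0 (t i) s) (fun i a ha => hgP (t i) a ha) hA (dm p) (fun i => ρ (t i))
      (fun i => hPρ (t i)) (fun i => hρ (t i))
    refine ⟨E, hE, fun m => ?_⟩
    have h2 := hxmon t (E m)
    apply Subtype.ext
    rw [h2]
    exact hE' m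

end Pool.Agent.Zil
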