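import Pool.Agent.Zil.KDefs

set_option autoImplicit false

/-! Package K1: ultrafilters of points and of tuples of points.

* `exists_ultra`. For `f ∉ p` let `S f = {g | eval (P g) f ≠ 0}`. `S (f * f') ⊆ S f ∩ S f'` and `f * f' ∉ p`, and
  `S f` is not empty (`f` itself, `hg`). So `⨅ f, 𝓟 (S f)` is directed and not `⊥`
  (`Filter.iInf_neBot_of_directed'`, index type `{g // g ∉ p}`, which is nonempty: `1 ∉ p`); take
  `Ultrafilter.of`. Eventually: `Filter.mem_iInf_of_mem`.
* `itU 𝒰 κ` is the iterated product ultrafilter on `Fin κ → J`: `∀ᶠ t in itU 𝒰 (κ + 1), R t` iff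
  `∀ᶠ t' in itU 𝒰 κ, ∀ᶠ j in 𝒰, R (Fin.snoc t' j)` (`itU_succ`: unfold, `Filter.mem_bind'`, `Filter.mem_map`; everything
  is true by definition).
* `itU_apply`: induction on `κ`; `i = Fin.castSucc i'` (`Fin.snoc_castSucc`, the inner property does not depend on
  `j`; use the induction hypothesis) or `i = Fin.last κ` (`Fin.snoc_last`, `h` for all `t'`).
* `itU_mon`: induction on `κ`. For `κ = 0` the index type `Fin 0 × Fin k` is empty and `a ≠ 0` is impossible.
  Step: `mon (fun x => P (Fin.snoc t' j x.1) x.2) a = mon (fun x => P (t' x.1) x.2) a' * mon (P j) b` with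
  `a' x = a (Fin.castSucc x.1, x.2)`, `b s = a (Fin.last κ, s)` (`mon` is a product over `Fin (κ+1) × Fin k`:
  `Fintype.prod_prod_type`, `Fin.prod_univ_castSucc`). If `b ≠ 0` then for every `t'` let
  `c' = c / mon (..) a'` (the monomial is not zero, as all the coordinates are nonzero); `h b hb c'`. If `b = 0`
  then `a' ≠ 0` and the induction hypothesis applies. -/

namespace Pool.Agent.Zil

open MvPolynomial Module Pool.Agent.CITLines

theorem exists_ultra {ι : Type} (p : Ideal (MvPolynomial ι Qb)) [p.IsPrime]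
    (P : {g : MvPolynomial ι Qb // g ∉ p} → ι → Qb) (hg : ∀ g, eval (P g) g.1 ≠ 0) :
    ∃ 𝒰 : Ultrafilter {g : MvPolynomial ι Qb // g ∉ p},
      ∀ f, f ∉ p → ∀ᶠ g in (𝒰 : Filter {g : MvPolynomial ι Qb // g ∉ p}), eval (P g) f ≠ 0 := by
  have hpp : p.IsPrime := inferInstance
  have h1p : (1 : MvPolynomial ι Qb) ∉ p := fun h => hpp.ne_top ((Ideal.eq_top_iff_one p).2 h)
  have hne : Nonempty {g : MvPolynomial ι Qb // g ∉ p} := ⟨⟨1, h1p⟩⟩
  have hmul : ∀ f f' : {g : MvPolynomial ι Qb // g ∉ p}, f.1 * f'.1 ∉ p :=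
    fun f f' h => (hpp.mem_or_mem h).elim f.2 f'.2
  have key : ∀ f f' g : {g : MvPolynomial ι Qb // g ∉ p}, eval (P g) (f.1 * f'.1) ≠ 0 →
      eval (P g) f.1 ≠ 0 ∧ eval (P g) f'.1 ≠ 0 := by
    intro f f' g h1
    rw [map_mul] at h1
    exact ⟨left_ne_zero_of_mul h1, right_ne_zero_of_mul h1⟩
  obtain ⟨S, hS⟩ : ∃ S : {g : MvPolynomial ι Qb // g ∉ p} → Set {g : MvPolynomial ι Qb // g ∉ p},
      ∀ f g, g ∈ S f ↔ eval (P g) f.1 ≠ 0 := ⟨fun f => {g | eval (P g) f.1 ≠ 0}, fun _ _ => Iff.rfl⟩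
  have hdir : Directed (· ≥ ·) fun f => Filter.principal (S f) := by
    intro f f'
    obtain ⟨z, hz⟩ : ∃ z : {g : MvPolynomial ι Qb // g ∉ p}, z.1 = f.1 * f'.1 :=
      ⟨⟨f.1 * f'.1, hmul f f'⟩, rfl⟩
    have hz1 : ∀ g, g ∈ S z → eval (P g) (f.1 * f'.1) ≠ 0 := by
      intro g h
      rw [← hz]
      exact (hS z g).1 h
    have h2 : S z ⊆ S f := fun g hgS => (hS f g).2 (key f f' g (hz1 g hgS)).1
    have h3 : S z ⊆ S f' := fun g hgS => (hS f' g).2 (key f f' g (hz1 g hgS)).2
    exact ⟨z, Filter.principal_mono.2 h2, Filter.principal_mono.2 h3⟩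
  have hnb : (⨅ f, Filter.principal (S f)).NeBot :=
    Filter.iInf_neBot_of_directed' hdir fun f => Filter.principal_neBot_iff.2 ⟨f, (hS f f).2 (hg f)⟩
  refine ⟨Ultrafilter.of (⨅ f, Filter.principal (S f)), fun f hf => ?_⟩
  have h1 : S ⟨f, hf⟩ ∈ ⨅ f, Filter.principal (S f) :=
    Filter.mem_iInf_of_mem ⟨f, hf⟩ (Filter.mem_principal_self _)
  filter_upwards [Ultrafilter.of_le _ h1] with g hg'
  exact (hS ⟨f, hf⟩ g).1 hg'

/-- The iterated product ultrafilter on tuples. -/
noncomputable def itU {J : Type} (𝒰 : Ultrafilter J) : (κ : ℕ) → Ultrafilter (Fin κ → J)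
  | 0 => pure Fin.elim0
  | κ + 1 => Ultrafilter.bind (itU 𝒰 κ) fun t => 𝒰.map fun j => (Fin.snoc t j : Fin (κ + 1) → J)

theorem itU_succ {J : Type} (𝒰 : Ultrafilter J) (κ : ℕ) (R : (Fin (κ + 1) → J) → Prop) :
    (∀ᶠ t in (itU 𝒰 (κ + 1) : Filter (Fin (κ + 1) → J)), R t) ↔
      ∀ᶠ t in (itU 𝒰 κ : Filter (Fin κ → J)), ∀ᶠ j in (𝒰 : Filter J), R (Fin.snoc t j : Fin (κ + 1) → J) :=
  Iff.rfl

theorem itU_apply {J : Type} (𝒰 : Ultrafilter J) (κ : ℕ) (i : Fin κ) (S : J → Prop)
    (h : ∀ᶠ j in (𝒰 : Filter J), S j) : ∀ᶠ t in (itU 𝒰 κ : Filter (Fin κ → J)), S (t i) := by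
  induction κ with
  | zero => exact i.elim0
  | succ κ ih =>
    rw [itU_succ]
    induction i using Fin.lastCases with
    | last =>
      refine Filter.Eventually.of_forall fun t => ?_
      simpa only [Fin.snoc_last] using h
    | cast i =>
      filter_upwards [ih i] with t ht
      refine Filter.Eventually.of_forall fun j => ?_
      simpa only [Fin.snoc_castSucc] using ht

theorem itU_mon {J : Type} (𝒰 : Ultrafilter J) {k : ℕ} (P : J → Fin k → Qb)
    (hP : ∀ j i, P j i ≠ 0)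
    (h : ∀ a : Fin k → ℤ, a ≠ 0 → ∀ c : Qb, ∀ᶠ j in (𝒰 : Filter J), mon (P j) a ≠ c)
    (κ : ℕ) (a : Fin κ × Fin k → ℤ) (ha : a ≠ 0) (c : Qb) :
    ∀ᶠ t in (itU 𝒰 κ : Filter (Fin κ → J)), mon (fun x : Fin κ × Fin k => P (t x.1) x.2) a ≠ c := by
  induction κ generalizing c with
  | zero =>
    exact absurd (funext fun x => x.1.elim0) ha
  | succ κ ih =>
    rw [itU_succ]
    let a' : Fin κ × Fin k → ℤ := fun x => a (Fin.castSucc x.1, x.2)
    let b : Fin k → ℤ := fun s => a (Fin.last κ, s)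
    have hmon : ∀ (t : Fin κ → J) (j : J),
        mon (fun x : Fin (κ + 1) × Fin k =>
          P ((Fin.snoc t j : Fin (κ + 1) → J) x.1) x.2) a =
        mon (fun x : Fin κ × Fin k => P (t x.1) x.2) a' * mon (P j) b := by
      intro t j
      unfold mon
      rw [Fintype.prod_prod_type, Fin.prod_univ_castSucc, Fintype.prod_prod_type]
      simp only [Fin.snoc_castSucc, Fin.snoc_last]
      rfl
    by_cases hb : b = 0
    · have ha' : a' ≠ 0 := by
        intro h0
        refine ha (funext fun x => ?_)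
        obtain ⟨i, s⟩ := x
        induction i using Fin.lastCases with
        | last => exact congrFun hb s
        | cast i => exact congrFun h0 (i, s)
      filter_upwards [ih a' ha' c] with t ht
      refine Filter.Eventually.of_forall fun j => ?_
      rw [hmon, hb, mon_zero, mul_one]
      exact ht
    · refine Filter.Eventually.of_forall fun t => ?_
      have h0 : mon (fun x : Fin κ × Fin k => P (t x.1) x.2) a' ≠ 0 := by
        unfold mon
        exact Finset.prod_ne_zero_iff.2 fun x _ => zpow_ne_zero _ (hP _ _)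
      filter_upwards [h b hb (c / mon (fun x : Fin κ × Fin k => P (t x.1) x.2) a')] with j hj
      rw [hmon]
      intro h1
      refine hj ?_
      rw [eq_div_iff h0, mul_comm]
      exact h1

end Pool.Agent.Zil
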