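import Pool.Agent.Zil.RExt

set_option autoImplicit false

/-! Package R2: ideals generated by polynomials with algebraic coefficients (`AG`).

Uses `mem_map_iff`, `prime_map` of RExt.lean (black box); `tc ι` is `MvPolynomial.map (algebraMap Qb ℂ)`.

* `AG.eq_map`: `I = I0.map`, `I0 ≤ I.comap`, so `I = I0.map ≤ (I.comap).map ≤ I`.
* `AG.sup`: `Ideal.map_sup`. `AG.span`: `Ideal.map_span`, the span of `{g}`.
* `AG.binom`: `ζ` is a root of unity, so algebraic over `ℚ`, so `ζ = algebraMap Qb ℂ ζ0` (element of the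
  intermediate field), and `binom ℂ a ζ = tc ι (binom Qb a ζ0)` (`tc_binom`).
* `AG.minimalPrimes`: `w0 = w.comap (tc ι)` is prime, `w0.map (tc ι)` is prime (`prime_map`),
  `I ≤ w0.map ≤ w` (`I = I0.map`, `I0 ≤ w0` because `I ≤ w`), so `w = w0.map` by minimality.
* `AG.rs`: `p = P0.map`; `rs e p = (P0.comap (rename e)).map`: by `mem_map_iff` and
  `rename e (cf φ f) = cf φ (rename e f)` (as `CITLines.coefMap_rename`).
* `AG_lw`: the kernel `kr ℂ (lw r)` (generic point of the power of the line) is generated by the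
  `X_j + X_(r+j) - 1`. Let `J` be the ideal of `MvPolynomial (Fin (r+r)) ℂ` generated by these (it is `LI r`, and
  the generators are images of polynomials over `Qb`, so `AG J`). `J ≤ kr` by `LI_le_kr`. Conversely, modulo
  `J` every polynomial `f` is equal to `f(X_1..X_r, 1-X_1..1-X_r)` (renamed to the first `r` variables;
  `MvPolynomial.induction_on`), and for `f ∈ kr ℂ (lw r)` this polynomial is zero
  (`algebraMap` to the fraction field is injective, see `vanI_linePower`).
* `dm_comap_le`, `dm_comap_ge`: `p.comap (tc ι) = kr Qb (gen p)` (`kr_gen`, `aeval_map_algebraMap`), so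
  `dm (p.comap (tc ι)) = rk Qb (range (gen p))` (`dm_kr`); for `AG p` this is `≤ dm p` by
  `rk_gen_le_of_defined` (take `S = p.comap (tc ι)` as a set), in general `dm p = rk ℂ (range (gen p)) ≤ rk Qb ..`
  (`dm_eq_rk`, `rk_restrict`). -/

namespace Pool.Agent.Zil

open MvPolynomial Module Pool.Agent.CITLines

variable {ι : Type}

theorem tc_binom [Fintype ι] (a : ι → ℤ) (c : Qb) :
    tc ι (binom Qb a c) = binom ℂ a (algebraMap Qb ℂ c) := by
  unfold tc CITLines.binom
  simp only [map_sub, map_mul, map_prod, map_pow, MvPolynomial.map_X, MvPolynomial.map_C]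

theorem exists_RU {ζ : ℂ} (h : RU ζ) : ∃ c : Qb, RU c ∧ algebraMap Qb ℂ c = ζ := by
  obtain ⟨m, hm, h1⟩ := h
  have hint : IsIntegral ℚ ζ := by
    refine IsIntegral.of_pow hm ?_
    rw [h1]
    exact isIntegral_one
  refine ⟨⟨ζ, mem_algebraicClosure_iff.mpr hint.isAlgebraic⟩, ⟨m, hm, ?_⟩, rfl⟩
  apply Subtype.ext
  exact h1

theorem AG.eq_map {I : Ideal (MvPolynomial ι ℂ)} (h : AG I) : I = (I.comap (tc ι)).map (tc ι) := by
  obtain ⟨I0, h0⟩ := h
  refine le_antisymm ?_ Ideal.map_comap_le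
  have h1 : I0 ≤ I.comap (tc ι) := Ideal.map_le_iff_le_comap.mp h0.ge
  exact h0.le.trans (Ideal.map_mono h1)

theorem AG.sup {I I' : Ideal (MvPolynomial ι ℂ)} (h : AG I) (h' : AG I') : AG (I ⊔ I') := by
  obtain ⟨I0, h0⟩ := h
  obtain ⟨I0', h0'⟩ := h'
  exact ⟨I0 ⊔ I0', by rw [Ideal.map_sup, ← h0, ← h0']⟩

theorem AG.span (g : MvPolynomial ι Qb) : AG (Ideal.span {tc ι g}) := by
  exact ⟨Ideal.span {g}, by rw [Ideal.map_span, Set.image_singleton]⟩

theorem AG.binom [Fintype ι] (a : ι → ℤ) {ζ : ℂ} (h : RU ζ) : AG (Ideal.span {binom ℂ a ζ}) := by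
  obtain ⟨c, -, rfl⟩ := exists_RU h
  rw [← tc_binom]
  exact AG.span _

theorem AG.minimalPrimes [Finite ι] {I w : Ideal (MvPolynomial ι ℂ)} (h : AG I)
    (hw : w ∈ I.minimalPrimes) : AG w := by
  have hwp : w.IsPrime := hw.1.1
  have hw0 : (w.comap (tc ι)).IsPrime := inferInstance
  have h1 : ((w.comap (tc ι)).map (tc ι)).IsPrime := prime_map (w.comap (tc ι))
  have h2 : I ≤ (w.comap (tc ι)).map (tc ι) := by
    refine h.eq_map.le.trans (Ideal.map_mono (Ideal.comap_mono hw.1.2))
  refine ⟨w.comap (tc ι), le_antisymm ?_ Ideal.map_comap_le⟩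
  exact hw.2 ⟨h1, h2⟩ Ideal.map_comap_le

theorem cf_rename {κ κ' : Type} (φ : ℂ →ₗ[Qb] Qb) (f : κ → κ') (F : MvPolynomial κ ℂ) :
    cf φ (rename f F) = rename f (cf φ F) :=
  coefMap_rename φ f F

theorem AG.rs {k : ℕ} (e : Fin k → ι) {p : Ideal (MvPolynomial ι ℂ)} (h : AG p) :
    AG (Pool.Agent.CITLines.rs e p) := by
  obtain ⟨P0, h0⟩ := h
  refine ⟨P0.comap (rename e : MvPolynomial (Fin k) Qb →ₐ[Qb] MvPolynomial ι Qb), ?_⟩
  ext f
  have h1 : f ∈ Pool.Agent.CITLines.rs e p ↔ rename e f ∈ P0.map (tc ι) := by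
    rw [← h0]
    rfl
  rw [h1]
  have h2 := mem_map_iff (K := ℂ) P0 (rename e f)
  have h3 := mem_map_iff (K := ℂ)
    (P0.comap (rename e : MvPolynomial (Fin k) Qb →ₐ[Qb] MvPolynomial ι Qb)) f
  refine h2.trans (Iff.trans ?_ h3.symm)
  refine forall_congr' fun φ => ?_
  rw [cf_rename]
  rfl

/-- The equations of the powers of the line `x + y = 1` generate the prime ideal. -/
theorem kr_lw_eq (r : ℕ) : kr ℂ (lw r) = LI r := by
  classical
  refine le_antisymm ?_ ?_
  · intro f hf
    let g : Fin (r + r) → MvPolynomial (Fin r) ℂ := Fin.append (fun j => X j) (fun j => 1 - X j)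
    have hg : ∀ i, algebraMap (MvPolynomial (Fin r) ℂ)
        (FractionRing (MvPolynomial (Fin r) ℂ)) (g i) = lw r i := by
      intro i
      refine Fin.addCases (fun j => ?_) (fun j => ?_) i
      · simp only [g, lw, Fin.append_left]
      · simp only [g, lw, Fin.append_right]
    have h1 : aeval (lw r) f = algebraMap (MvPolynomial (Fin r) ℂ) _ (aeval g f) := by
      have h : (aeval (lw r) : MvPolynomial (Fin (r + r)) ℂ →ₐ[ℂ] _) =
          (IsScalarTower.toAlgHom ℂ (MvPolynomial (Fin r) ℂ)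
            (FractionRing (MvPolynomial (Fin r) ℂ))).comp (aeval g) := by
        ext i
        simp [hg]
      rw [h]
      rfl
    have h2 : aeval g f = 0 := by
      rw [mem_kr, h1, FaithfulSMul.algebraMap_eq_zero_iff] at hf
      exact hf
    have h3 : ((Ideal.Quotient.mkₐ ℂ (LI r)).comp ((rename (Fin.castAdd r)).comp (aeval g))) =
        Ideal.Quotient.mkₐ ℂ (LI r) := by
      apply MvPolynomial.algHom_ext
      intro i
      rw [AlgHom.comp_apply, AlgHom.comp_apply, aeval_X]
      refine Fin.addCases (fun j => ?_) (fun j => ?_) i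
      · simp only [g, Fin.append_left, rename_X]
      · simp only [g, Fin.append_right, map_sub, map_one, rename_X]
        rw [eq_comm, ← sub_eq_zero]
        have h4 : X (Fin.castAdd r j) + X (Fin.natAdd r j) - 1 ∈ LI r :=
          Ideal.subset_span ⟨j, rfl⟩
        have h5 := Ideal.Quotient.eq_zero_iff_mem.mpr h4
        rw [map_sub, map_add, map_one] at h5
        rw [← h5]
        simp only [Ideal.Quotient.mkₐ_eq_mk]
        ring
    have h6 := DFunLike.congr_fun h3 f
    rw [AlgHom.comp_apply, AlgHom.comp_apply, h2, map_zero, map_zero] at h6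
    exact Ideal.Quotient.eq_zero_iff_mem.mp h6.symm
  · rw [LI_le_kr]
    intro j
    unfold lw
    rw [Fin.append_left, Fin.append_right, map_sub, map_one]
    ring

theorem AG_lw (r : ℕ) : AG (kr ℂ (lw r)) := by
  rw [kr_lw_eq]
  refine ⟨Ideal.span (Set.range fun j : Fin r =>
    (X (Fin.castAdd r j) + X (Fin.natAdd r j) - 1 : MvPolynomial (Fin (r + r)) Qb)), ?_⟩
  rw [Ideal.map_span, ← Set.range_comp]
  unfold LI tc
  congr 2
  funext j
  simp only [Function.comp_apply, map_sub, map_add, MvPolynomial.map_X, map_one]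

theorem comap_eq_kr (p : Ideal (MvPolynomial ι ℂ)) [p.IsPrime] :
    p.comap (tc ι) = kr Qb (gen p) := by
  ext f
  rw [mem_kr, ← MvPolynomial.aeval_map_algebraMap ℂ (gen p) f]
  conv_lhs => rw [← kr_gen p]
  rfl

theorem dm_comap_ge [Fintype ι] (p : Ideal (MvPolynomial ι ℂ)) [p.IsPrime] :
    dm p ≤ dm (p.comap (tc ι)) := by
  have h1 := dm_eq_rk p
  have h3 := dm_kr (k := Qb) (gen p)
  have h4 := rk_restrict (k := Qb) (k' := ℂ) (Set.range (gen p))
  rw [← h1, ← h3, ← comap_eq_kr p] at h4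
  exact_mod_cast h4

theorem dm_comap_le [Fintype ι] (p : Ideal (MvPolynomial ι ℂ)) [p.IsPrime] (h : AG p) :
    dm (p.comap (tc ι)) ≤ dm p := by
  have h1 := rk_gen_le_of_defined (k0 := Qb) p (p.comap (tc ι) : Set (MvPolynomial ι Qb)) h.eq_map
  have h2 := dm_kr (k := Qb) (gen p)
  rw [← comap_eq_kr p] at h2
  have h3 : (dm (p.comap (tc ι)) : ℕ∞) ≤ dm p := h2.le.trans h1
  exact_mod_cast h3

end Pool.Agent.Zil
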