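import Pool.Agent.Zil.RDefs

set_option autoImplicit false

/-! Package R5: rank of a point with additional torsion coordinates.

`q` is a prime of `k[X_ι]` in the torus, `I` a set of coordinates, algebraically independent modulo `q`. `P`
is a point of the variety of `q` with nonzero coordinates such that `P i` is a root of unity for `i ∈ I`.
PROOF. `M = relZ (gen q)` (exponents of the relations modulo roots of unity). `relZ (gen q) ≤ relZ P`
(`relZ_mono`, `kr k (gen q) = q ≤ kr k P`, `eval = aeval`). Let `E ⊆ ℤ^ι` be the submodule of the vectors with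
support in `I`, `U = QS M ⊔ QS E`. `QS M ⊓ QS E = ⊥`: an element of the intersection has a nonzero multiple
`cst m`, `m ∈ M`, which has support in `I`; `mon (gen q) m` is a root of unity, so `m = 0` (otherwise
`(∏ X_i^(m_i)⁺)^N - (∏ X_i^(m_i)⁻)^N` is a nonzero polynomial in the coordinates of `I` vanishing at `gen q`).
`finrank (QS E) = I.card`. So `finrank U = rho (gen q) + I.card` (`Submodule.finrank_sup_add_finrank_inf_eq`),
and this is at most `card ι`. If `cst a ∈ U` then some nonzero multiple of `a` is `m + e` with `m ∈ M`,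
`e ∈ E` (clear denominators, `exists_mult_mem`, `exists_clear`), so `mon P (l • a) = mon P m * mon P e` is a
root of unity, and so is `mon P a` (`mon_smul`, `RU.of_zpow`). `LThree.mono P a` is `mon P a` by definition. -/

namespace Pool.Agent.Zil

open MvPolynomial Module Pool.Agent.CITLines

variable {k : Type} [Field k] [CharZero k] {ι : Type} [Fintype ι]

omit [CharZero k] in
private theorem indep {q : Ideal (MvPolynomial ι k)} [q.IsPrime] (hX : ∀ i, X i ∉ q)
    {I : Finset ι} (hI : AlgebraicIndependent k (fun i : I => gen q i.1)) {a : ι → ℤ}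
    (ha : a ∈ relZ (gen q)) (h0 : ∀ i, i ∉ I → a i = 0) : a = 0 := by
  classical
  have hw : ∀ i, gen q i ≠ 0 := fun i => gen_ne_zero q (hX i)
  obtain ⟨N, hN, h1⟩ := mem_relZ.1 ha
  have h2 : mon (gen q) ((N : ℤ) • a) = 1 := by
    rw [mon_smul, zpow_natCast, h1]
  obtain ⟨b, hb⟩ : ∃ b : ι → ℤ, b = (N : ℤ) • a := ⟨_, rfl⟩
  rw [← hb] at h2
  have hb0 : ∀ i, i ∉ I → b i = 0 := by
    intro i hi
    rw [hb, Pi.smul_apply, h0 i hi, smul_zero]
  rw [mon_eq_div hw, div_eq_one_iff_eq
    (Finset.prod_ne_zero_iff.mpr fun i _ => pow_ne_zero _ (hw i))] at h2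
  have key : ∀ g : ι → ℕ, (∀ i, i ∉ I → g i = 0) →
      aeval (fun i : I => gen q i.1)
        (monomial (Finsupp.equivFunOnFinite.symm fun i : I => g i.1) (1 : k)) =
      ∏ i, gen q i ^ g i := by
    intro g hg
    rw [aeval_monomial, map_one, one_mul, Finsupp.prod_fintype _ _ fun i => pow_zero _]
    simp only [Finsupp.equivFunOnFinite_symm_apply_apply]
    rw [Finset.prod_coe_sort I fun i => gen q i ^ g i]
    refine Finset.prod_subset (Finset.subset_univ I) fun i _ hi => ?_
    rw [hg i hi, pow_zero]
  have h3 := key (fun i => (b i).toNat) fun i hi => by simp only [hb0 i hi, Int.toNat_zero]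
  have h4 := key (fun i => (-b i).toNat) fun i hi => by
    simp only [hb0 i hi, neg_zero, Int.toNat_zero]
  have h5 := hI (h3.trans (h2.trans h4.symm))
  have h6 := Finsupp.equivFunOnFinite.symm.injective
    (monomial_left_injective (one_ne_zero (α := k)) h5)
  funext i
  by_cases hi : i ∈ I
  · have h7 : (b i).toNat = (-b i).toNat := congrFun h6 ⟨i, hi⟩
    have h8 : b i = 0 := by omega
    rw [hb, Pi.smul_apply, smul_eq_mul] at h8
    rcases mul_eq_zero.1 h8 with h9 | h9
    · omega
    · exact h9
  · exact h0 i hi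

/-- The rational vectors with support in `I`. -/
private noncomputable def EQ (I : Finset ι) : Submodule ℚ (ι → ℚ) :=
  LinearMap.range (Function.ExtendByZero.linearMap ℚ (Subtype.val : I → ι))

omit [Fintype ι] in
private theorem finrank_EQ (I : Finset ι) : finrank ℚ (EQ I) = I.card := by
  unfold EQ
  rw [LinearMap.finrank_range_of_inj]
  · rw [finrank_fintype_fun_eq_card, Fintype.card_coe]
  · intro f g h
    funext i
    have h1 := congrFun h i.1
    simp only [Function.ExtendByZero.linearMap_apply] at h1
    rwa [Subtype.val_injective.extend_apply, Subtype.val_injective.extend_apply] at h1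

omit [Fintype ι] in
private theorem EQ_apply {I : Finset ι} {v : ι → ℚ} (hv : v ∈ EQ I) {i : ι} (hi : i ∉ I) :
    v i = 0 := by
  obtain ⟨f, rfl⟩ := hv
  simp only [Function.ExtendByZero.linearMap_apply]
  rw [Function.extend_apply']
  · rfl
  · rintro ⟨j, rfl⟩
    exact hi j.2

omit [CharZero k] in
private theorem finrank_U (q : Ideal (MvPolynomial ι k)) [q.IsPrime] (hX : ∀ i, X i ∉ q)
    (I : Finset ι) (hI : AlgebraicIndependent k (fun i : I => gen q i.1)) :
    finrank ℚ (QS (relZ (gen q)) ⊔ EQ I : Submodule ℚ (ι → ℚ)) = rho (gen q) + I.card := by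
  have h := Submodule.finrank_sup_add_finrank_inf_eq (QS (relZ (gen q))) (EQ I)
  have h0 : QS (relZ (gen q)) ⊓ EQ I = ⊥ := by
    rw [eq_bot_iff]
    rintro v ⟨hv, hv'⟩
    obtain ⟨l, hl, a, ha, hla⟩ := exists_mult_mem hv
    have ha0 : a = 0 := indep hX hI ha fun i hi => by
      have h1 := hla i
      rw [EQ_apply hv' hi, mul_zero] at h1
      exact_mod_cast h1
    rw [Submodule.mem_bot]
    funext i
    have h1 := hla i
    rw [ha0, Pi.zero_apply, Int.cast_zero] at h1
    have hl' : (l : ℚ) ≠ 0 := by exact_mod_cast hl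
    exact (mul_eq_zero.1 h1.symm).resolve_left hl'
  rw [h0, finrank_bot, add_zero, finrank_EQ] at h
  exact h

theorem rho_add_card_le (q : Ideal (MvPolynomial ι k)) [q.IsPrime] (hX : ∀ i, X i ∉ q)
    (I : Finset ι) (hI : AlgebraicIndependent k (fun i : I => gen q i.1)) :
    rho (gen q) + I.card ≤ Fintype.card ι := by
  rw [← finrank_U q hX I hI, ← finrank_fintype_fun_eq_card ℚ (η := ι)]
  exact Submodule.finrank_le _

theorem rankLe_tors (q : Ideal (MvPolynomial ι k)) [q.IsPrime] (hX : ∀ i, X i ∉ q)
    (I : Finset ι) (hI : AlgebraicIndependent k (fun i : I => gen q i.1)) (P : ι → k)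
    (hP : ∀ i, P i ≠ 0) (hq : ∀ f ∈ q, eval P f = 0) (ht : ∀ i ∈ I, RU (P i)) :
    LThree.RankLe (Fintype.card ι - (rho (gen q) + I.card)) P := by
  have hw : ∀ i, gen q i ≠ 0 := fun i => gen_ne_zero q (hX i)
  refine ⟨QS (relZ (gen q)) ⊔ EQ I, ?_, ?_⟩
  · rw [finrank_U q hX I hI]
    omega
  · intro a ha
    obtain ⟨u, hu, v, hv, huv⟩ := Submodule.mem_sup.1 ha
    obtain ⟨l, hl, m, hm, hlm⟩ := exists_mult_mem hu
    have hmP : m ∈ relZ P := by
      refine relZ_mono (k := k) hw hP ?_ hm
      rw [kr_gen]
      intro f hf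
      rw [mem_kr]
      exact hq f hf
    have he : ∀ i, i ∉ I → (l • a - m) i = 0 := by
      intro i hi
      have h1 := hlm i
      have h2 : u i = a i := by
        have h3 := congrFun huv i
        rw [Pi.add_apply, EQ_apply hv hi, add_zero] at h3
        exact h3
      rw [h2] at h1
      have h4 : m i = l * a i := by exact_mod_cast h1
      rw [Pi.sub_apply, Pi.smul_apply, smul_eq_mul, h4, sub_self]
    have heP : RU (mon P (l • a - m)) := by
      unfold mon
      refine Finset.prod_induction _ RU (fun _ _ h h' => h.mul h') RU.one fun i _ => ?_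
      by_cases hi : i ∈ I
      · exact (ht i hi).zpow _
      · rw [he i hi, zpow_zero]
        exact RU.one
    have h5 : RU (mon P (l • a)) := by
      have h6 : l • a = m + (l • a - m) := by abel
      rw [h6, mon_add' hP]
      exact (mem_relZ.1 hmP).mul heP
    rw [mon_smul] at h5
    exact h5.of_zpow hl

end Pool.Agent.Zil
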