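import Pool.Agent.Zil.RLift
import Pool.Agent.Zil.RRank
import Pool.Agent.Zil.RAG

set_option autoImplicit false

/-! Package R6: non-density of points implies the cutting property (helper44's argument).

PROOF of `rho_comap`: `q0 = q.comap (tc ι)`; `a ∈ relZ (gen q0)` iff `mon (gen q0) a ^ m = 1`
for some `m > 0` iff `binom Qb (m • a) 1 ∈ q0` (`binom_mem_kr`, `kr_gen`) iff `binom ℂ (m • a) 1
∈ q` (`tc_binom`) iff `a ∈ relSet q`; `rhoP q = finrank (QP q)`, `QP q = span (cst '' relSet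
q)`, `QS` is the span of `cst '' ..`.
PROOF of `cut_of_ND`. `p0 = p.comap (tc ι)` is prime, `X i ∉ p0` (`hp.coord`, `tc` maps `X i` to
`X i`). If `RU c` and `binom Qb a c ∈ p0` then `binom ℂ a c ∈ p`, `cst a ∈ QP p = ⊥`
(`hp.cst_mem_QP`), so `a = 0`. `hND` gives `g ∉ p0`. Let `q` be as in the statement, `q0 =
q.comap (tc ι)`, and suppose `g ∉ q0`. `exists_indep_finset q0` gives `I` with `dm q0 = I.card`
and independent coordinates modulo `q0` (transport to `gen q0`: the map `MvPolynomial ι Qb ⧸ q0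
→ Kf q0` is injective, `AlgebraicIndependent.map'`). `exists_tors_point` for the polynomial `g *
∏ i, X i ∉ q0` gives `P` with nonzero coordinates, `eval P g ≠ 0`, `P i` roots of unity for `i ∈
I`. `P` is a zero of `q0 ⊇ p0`. `rankLe_tors` gives the rank `card ι - (rho (gen q0) + I.card)`,
and `rho (gen q0) = rhoP q`, `I.card = dm q0 ≥ dm q`, `dm p0 ≤ dm p` (`dm_comap_le`), `dm p < dm
q + rhoP q`, `rho_add_card_le`: the inequality `ρ + dm p0 + 1 ≤ card ι` holds by `omega`. So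
`eval P g = 0`, contradiction. -/

namespace Pool.Agent.Zil

open MvPolynomial Module Pool.Agent.CITLines

private theorem rcut_X {ι : Type} {q : Ideal (MvPolynomial ι ℂ)} (hq : TP q) (i : ι) :
    (X i : MvPolynomial ι Qb) ∉ q.comap (tc ι) := by
  intro hi
  apply hq.coord i
  have h1 : tc ι (X i) ∈ q := hi
  rwa [tc, map_X] at h1

theorem rho_comap {ι : Type} [Fintype ι] (q : Ideal (MvPolynomial ι ℂ)) (hq : TP q)
    [(q.comap (tc ι)).IsPrime] : rho (gen (q.comap (tc ι))) = rhoP q := by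
  have hw : ∀ i, gen (q.comap (tc ι)) i ≠ 0 := fun i =>
    Pool.Agent.CITLines.gen_ne_zero _ (rcut_X hq i)
  have hset : ((relZ (gen (q.comap (tc ι))) : Submodule ℤ (ι → ℤ)) : Set (ι → ℤ)) = relSet q := by
    ext a
    change (∃ m : ℕ, 0 < m ∧ mon (gen (q.comap (tc ι))) a ^ m = 1) ↔
      (∃ m : ℕ, 0 < m ∧ binom ℂ ((m : ℤ) • a) 1 ∈ q)
    refine exists_congr fun m => and_congr_right fun _ => ?_
    have h1 := binom_mem_kr (k := Qb) hw ((m : ℤ) • a) 1
    rw [kr_gen, mon_smul, zpow_natCast, map_one] at h1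
    rw [← h1]
    have h2 := tc_binom ((m : ℤ) • a) (1 : Qb)
    rw [map_one] at h2
    rw [← h2]
    rfl
  unfold rho rhoP QS QP
  rw [hset]

theorem cut_of_ND (hND : ND) : CutAG := by
  classical
  intro ι _ p hp hAG hQ
  have hpp := hp.prime
  have hX0 : ∀ i, (X i : MvPolynomial ι Qb) ∉ p.comap (tc ι) := rcut_X hp
  have hcos : ∀ a : ι → ℤ, a ≠ 0 → ∀ c : Qb, RU c → binom Qb a c ∉ p.comap (tc ι) := by
    intro a ha c hc hb
    have h1 : tc ι (binom Qb a c) ∈ p := hb
    rw [tc_binom] at h1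
    have hc' : RU (algebraMap Qb ℂ c) := by
      obtain ⟨m, hm, h⟩ := hc
      exact ⟨m, hm, by rw [← map_pow, h, map_one]⟩
    have h2 : cst a ∈ QP p := (hp.cst_mem_QP a).mpr ⟨algebraMap Qb ℂ c, hc', h1⟩
    rw [hQ, Submodule.mem_bot] at h2
    exact ha (cst_eq_zero.mp h2)
  obtain ⟨g, hg, hgP⟩ := hND ι (p.comap (tc ι)) inferInstance hX0 hcos
  refine ⟨g, hg, ?_⟩
  intro q hq hpq hdim
  have hqp := hq.prime
  by_contra hgq
  have hgq0 : g ∉ q.comap (tc ι) := hgq
  have hX1 : ∀ i, (X i : MvPolynomial ι Qb) ∉ q.comap (tc ι) := rcut_X hq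
  obtain ⟨I, hI, hInd⟩ := exists_indep_finset (q.comap (tc ι))
  have hInd' : AlgebraicIndependent Qb (fun i : I => gen (q.comap (tc ι)) i.1) := by
    have hinj : Function.Injective
        (IsScalarTower.toAlgHom Qb (MvPolynomial ι Qb ⧸ q.comap (tc ι)) (Kf (q.comap (tc ι)))) :=
      IsFractionRing.injective (MvPolynomial ι Qb ⧸ q.comap (tc ι)) (Kf (q.comap (tc ι)))
    have h1 := hInd.map' hinj
    exact h1
  have hprod : g * ∏ i, (X i : MvPolynomial ι Qb) ∉ q.comap (tc ι) := by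
    intro h
    rcases (inferInstance : (q.comap (tc ι)).IsPrime).mem_or_mem h with h | h
    · exact hgq0 h
    · rw [Ideal.IsPrime.prod_mem_iff] at h
      obtain ⟨i, _, hi⟩ := h
      exact hX1 i hi
  obtain ⟨P, hP1, hP2, hP3⟩ := exists_tors_point (q.comap (tc ι)) I hInd' hI
    (g * ∏ i, (X i : MvPolynomial ι Qb)) hprod
  have hPg : eval P g ≠ 0 := by
    intro h
    apply hP2
    rw [map_mul, h, zero_mul]
  have hPX : ∀ i, P i ≠ 0 := by
    intro i h
    apply hP2
    rw [map_mul, map_prod, Finset.prod_eq_zero (Finset.mem_univ i), mul_zero]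
    rw [eval_X, h]
  have hrk := rankLe_tors (q.comap (tc ι)) hX1 I hInd' P hPX hP1 hP3
  apply hPg
  refine hgP P hPX (fun f hf => hP1 f (Ideal.comap_mono hpq hf)) _ hrk ?_
  have h1 := rho_add_card_le (q.comap (tc ι)) hX1 I hInd'
  have h2 := rho_comap q hq
  have h3 := dm_comap_le p hAG
  have h4 := dm_comap_ge q
  omega

end Pool.Agent.Zil
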