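import Pool.Agent.CITLines.Final
import Pool.Agent.LThree.Defs

set_option autoImplicit false

/-! Zilber's conjecture (frozen statement `S18257`), section 0: definitions.

`Qb` is the field of algebraic complex numbers. `ND0`, `ND`: non-density of the points of small rank
on the varieties over `Qb` which lie in no proper coset (`ND0`), in no proper torsion coset (`ND`).
`AG`: ideals of the complex polynomial ring which are generated by polynomials with coefficients in
`Qb`. -/

namespace Pool.Agent.Zil

open MvPolynomial Module Pool.Agent.CITLines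

/-- The field of algebraic complex numbers. -/
abbrev Qb : Type := algebraicClosure ℚ ℂ

instance : IsAlgClosure ℚ Qb := algebraicClosure.isAlgClosure ℚ ℂ

instance : IsAlgClosed Qb := IsAlgClosure.isAlgClosed ℚ

/-- Non-density of the points of small rank on the variety of the prime ideal `p`. -/
def NDp {ι : Type} [Fintype ι] (p : Ideal (MvPolynomial ι Qb)) : Prop :=
  ∃ g, g ∉ p ∧ ∀ P : ι → Qb, (∀ i, P i ≠ 0) → (∀ f ∈ p, eval P f = 0) →
    ∀ ρ : ℕ, LThree.RankLe ρ P → ρ + dm p + 1 ≤ Fintype.card ι → eval P g = 0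

/-- Non-density for the varieties in no proper coset. -/
def ND0 : Prop :=
  ∀ (ι : Type) [Fintype ι] (p : Ideal (MvPolynomial ι Qb)), p.IsPrime → (∀ i, X i ∉ p) →
    (∀ a : ι → ℤ, a ≠ 0 → ∀ c : Qb, binom Qb a c ∉ p) → NDp p

/-- Non-density for the varieties in no proper torsion coset. -/
def ND : Prop :=
  ∀ (ι : Type) [Fintype ι] (p : Ideal (MvPolynomial ι Qb)), p.IsPrime → (∀ i, X i ∉ p) →
    (∀ a : ι → ℤ, a ≠ 0 → ∀ c : Qb, RU c → binom Qb a c ∉ p) → NDp p

/-- The map of polynomial rings from the algebraic numbers to the complex numbers. -/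
noncomputable def tc (ι : Type) : MvPolynomial ι Qb →+* MvPolynomial ι ℂ :=
  MvPolynomial.map (algebraMap Qb ℂ)

/-- Ideals generated by polynomials with algebraic coefficients. -/
def AG {ι : Type} (I : Ideal (MvPolynomial ι ℂ)) : Prop :=
  ∃ I0 : Ideal (MvPolynomial ι Qb), I = I0.map (tc ι)

/-- The cutting property: an equation with algebraic coefficients satisfied by all atypical
subvarieties. -/
def CutAG : Prop :=
  ∀ (ι : Type) [Fintype ι] (p : Ideal (MvPolynomial ι ℂ)), TP p → AG p → QP p = ⊥ →
    ∃ g : MvPolynomial ι Qb, tc ι g ∉ p ∧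
      ∀ q : Ideal (MvPolynomial ι ℂ), TP q → p ≤ q → dm p < dm q + rhoP q → tc ι g ∈ q

end Pool.Agent.Zil
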