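import Pool.Agent.Zil.RDefs

set_option autoImplicit false

/-! Package R1: primes over an algebraically closed field remain prime.

Let `k ⊆ K` be fields, `k` algebraically closed, `P` a prime of `k[X]`, `P^e = P.map ..` the ideal of
`K[X]` which it generates. For `φ : K →ₗ[k] k` let `cf φ f ∈ k[X]` be the polynomial whose coefficients
are `φ` of those of `f` (`CITLines.coefMap` is the case `K = ℂ`, copy its lemmas).

(1) `mem_map_iff`. If `f ∈ P^e` then `cf φ f ∈ P` for all `φ`: `Ideal.map` is a span, use
`Submodule.span_induction` for the statement `∀ h, cf φ (h * f) ∈ P` as in `CITLines.coefMap_mem`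
(`cf φ (monomial m a * map g) = monomial m (φ a) * g`). Conversely, let `e` be a basis of `K` over `k`
(`Module.Basis.ofVectorSpace`), then
`f = ∑_m monomial m (coeff m f) = ∑_m ∑_b monomial m ((e.repr (coeff m f) b) • e b)`
`= ∑_b C (e b) * map (cf (e.coord b) f)` (a finite sum, over the union of the supports), so `f ∈ P^e` if
all the `cf (e.coord b) f` are in `P`.
(2) `prime_map`. `P^e ≠ ⊤`: otherwise `cf φ 1 = C (φ 1) ∈ P` for all `φ`, choose `φ 1 ≠ 0`
(`Module.forall_dual_apply_eq_zero_iff`). Let `f * g ∈ P^e` and `f, g ∉ P^e`. By (1) there are `φ, ψ` with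
`cf φ f, cf ψ g ∉ P`, the product is not in `P = P.radical`, so by
`MvPolynomial.vanishingIdeal_zeroLocus_eq_radical` (see `CITLines.vanI_Zt`) there is a point `x ∈ k^ι` where
the polynomials of `P` vanish and `(cf φ f)(x) ≠ 0`, `(cf ψ g)(x) ≠ 0`. Let `x'` be its image in `K^ι`.
Elements of `P^e` vanish at `x'`, so `f(x') g(x') = 0`, say `f(x') = 0`; but
`φ (f(x')) = (cf φ f)(x) ≠ 0` (sum over the monomials: `φ (a * algebraMap c) = φ a * c`). -/

namespace Pool.Agent.Zil

open MvPolynomial

variable {k K : Type} [Field k] [Field K] [Algebra k K] {ι : Type}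

/-- Apply a linear functional to the coefficients. -/
noncomputable def cf (φ : K →ₗ[k] k) (f : MvPolynomial ι K) : MvPolynomial ι k :=
  ∑ m ∈ f.support, monomial m (φ (coeff m f))

private theorem coeff_cf (φ : K →ₗ[k] k) (f : MvPolynomial ι K) (m : ι →₀ ℕ) :
    coeff m (cf φ f) = φ (coeff m f) := by
  classical
  unfold cf
  rw [coeff_sum]
  simp only [coeff_monomial]
  rw [Finset.sum_ite_eq']
  split_ifs with h
  · rfl
  · rw [notMem_support_iff.1 h, map_zero]

private theorem cf_add (φ : K →ₗ[k] k) (f g : MvPolynomial ι K) :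
    cf φ (f + g) = cf φ f + cf φ g := by
  ext m
  rw [coeff_add, coeff_cf, coeff_cf, coeff_cf, coeff_add, map_add]

private theorem cf_zero (φ : K →ₗ[k] k) : cf φ (0 : MvPolynomial ι K) = 0 := by
  ext m
  rw [coeff_cf, coeff_zero, coeff_zero, map_zero]

private theorem cf_monomial_mul (φ : K →ₗ[k] k) (m : ι →₀ ℕ) (a : K) (f : MvPolynomial ι K) :
    cf φ (monomial m a * f) = monomial m 1 * cf (φ ∘ₗ LinearMap.mulLeft k a) f := by
  ext n
  rw [coeff_cf, coeff_monomial_mul', coeff_monomial_mul', coeff_cf]
  split_ifs with h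
  · rw [one_mul]
    rfl
  · rw [map_zero]

private theorem cf_map (φ : K →ₗ[k] k) (g : MvPolynomial ι k) :
    cf φ (MvPolynomial.map (algebraMap k K) g) = C (φ 1) * g := by
  ext n
  rw [coeff_cf, coeff_map, coeff_C_mul, Algebra.algebraMap_eq_smul_one, map_smul, smul_eq_mul,
    mul_comm]

theorem mem_map_iff (P : Ideal (MvPolynomial ι k)) (f : MvPolynomial ι K) :
    f ∈ P.map (MvPolynomial.map (algebraMap k K) : MvPolynomial ι k →+* MvPolynomial ι K) ↔
      ∀ φ : K →ₗ[k] k, cf φ f ∈ P := by
  classical
  constructor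
  · intro hf
    refine Submodule.span_induction (p := fun f _ => ∀ φ : K →ₗ[k] k, cf φ f ∈ P) ?_ ?_ ?_ ?_ hf
    · rintro _ ⟨g, hg, rfl⟩ φ
      rw [cf_map]
      exact P.mul_mem_left _ hg
    · intro φ
      rw [cf_zero]
      exact P.zero_mem
    · intro x y _ _ hx hy φ
      rw [cf_add]
      exact P.add_mem (hx φ) (hy φ)
    · intro h x _ hx
      rw [smul_eq_mul]
      induction h using MvPolynomial.induction_on' with
      | monomial u a =>
        intro φ
        rw [cf_monomial_mul]
        exact P.mul_mem_left _ (hx _)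
      | add p q hp hq =>
        intro φ
        rw [add_mul, cf_add]
        exact P.add_mem (hp φ) (hq φ)
  · intro h
    let e := Module.Basis.ofVectorSpace k K
    set B0 : Finset (Module.Basis.ofVectorSpaceIndex k K) :=
      f.support.biUnion fun m => (e.repr (coeff m f)).support with hB0
    have h1 : f = ∑ b ∈ B0, C (e b) * MvPolynomial.map (algebraMap k K) (cf (e.coord b) f) := by
      ext m
      rw [coeff_sum]
      simp only [coeff_C_mul, coeff_map, coeff_cf, Module.Basis.coord_apply]
      have h2 : (e.repr (coeff m f)).support ⊆ B0 := by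
        by_cases hm : m ∈ f.support
        · exact Finset.subset_biUnion_of_mem (fun m => (e.repr (coeff m f)).support) hm
        · rw [notMem_support_iff.1 hm, map_zero, Finsupp.support_zero]
          exact Finset.empty_subset _
      have h3 := e.linearCombination_repr (coeff m f)
      rw [Finsupp.linearCombination_apply, Finsupp.sum] at h3
      conv_lhs => rw [← h3]
      rw [Finset.sum_subset h2 fun b _ hb => by
        rw [Finsupp.notMem_support_iff.1 hb, zero_smul]]
      refine Finset.sum_congr rfl fun b _ => ?_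
      rw [Algebra.smul_def, mul_comm]
    rw [h1]
    refine Ideal.sum_mem _ fun b _ => Ideal.mul_mem_left _ _ ?_
    exact Ideal.mem_map_of_mem _ (h _)

private theorem eval_cf (φ : K →ₗ[k] k) (f : MvPolynomial ι K) (x : ι → k) :
    φ (eval (fun i => algebraMap k K (x i)) f) = eval x (cf φ f) := by
  classical
  unfold cf
  rw [map_sum, eval_eq, map_sum]
  refine Finset.sum_congr rfl fun m _ => ?_
  rw [eval_monomial, Finsupp.prod]
  have h1 : coeff m f * ∏ i ∈ m.support, algebraMap k K (x i) ^ m i =
      (∏ i ∈ m.support, x i ^ m i) • coeff m f := by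
    rw [Algebra.smul_def, map_prod, mul_comm]
    simp only [map_pow]
  rw [h1, map_smul, smul_eq_mul, mul_comm]

theorem prime_map [IsAlgClosed k] [Finite ι] (P : Ideal (MvPolynomial ι k)) [P.IsPrime] :
    (P.map (MvPolynomial.map (algebraMap k K) : MvPolynomial ι k →+* MvPolynomial ι K)).IsPrime := by
  classical
  refine ⟨?_, ?_⟩
  · intro htop
    have h1 : (1 : MvPolynomial ι K) ∈ P.map
        (MvPolynomial.map (algebraMap k K) : MvPolynomial ι k →+* MvPolynomial ι K) := by
      rw [htop]
      exact Submodule.mem_top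
    rw [mem_map_iff] at h1
    obtain ⟨φ, hφ⟩ := LinearMap.exists_leftInverse_of_injective (Algebra.linearMap k K)
      (LinearMap.ker_eq_bot.2 (algebraMap k K).injective)
    have h2 : φ 1 = 1 := by
      have := LinearMap.congr_fun hφ 1
      simpa using this
    have h3 := h1 φ
    have h4 : cf φ (1 : MvPolynomial ι K) = 1 := by
      have h5 := cf_map φ (1 : MvPolynomial ι k)
      rw [map_one, h2, map_one, one_mul] at h5
      exact h5
    rw [h4] at h3
    exact ‹P.IsPrime›.ne_top ((Ideal.eq_top_iff_one _).2 h3)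
  · intro f g hfg
    by_contra hcon
    push Not at hcon
    obtain ⟨hf, hg⟩ := hcon
    rw [mem_map_iff] at hf hg
    push Not at hf hg
    obtain ⟨φ, hφ⟩ := hf
    obtain ⟨ψ, hψ⟩ := hg
    have h1 : cf φ f * cf ψ g ∉ P := fun h => by
      rcases ‹P.IsPrime›.mem_or_mem h with h | h
      · exact hφ h
      · exact hψ h
    rw [← ‹P.IsPrime›.radical, ← MvPolynomial.vanishingIdeal_zeroLocus_eq_radical (K := k),
      MvPolynomial.mem_vanishingIdeal_iff] at h1
    push Not at h1
    obtain ⟨x, hx, hx'⟩ := h1
    have hx1 : ∀ q ∈ P, eval x q = 0 := fun q hq => hx q hq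
    have hx2 : eval x (cf φ f * cf ψ g) ≠ 0 := hx'
    rw [map_mul] at hx2
    have h2 : P.map (MvPolynomial.map (algebraMap k K) : MvPolynomial ι k →+* MvPolynomial ι K) ≤
        RingHom.ker (eval fun i => algebraMap k K (x i)) := by
      rw [Ideal.map_le_iff_le_comap]
      intro q hq
      rw [Ideal.mem_comap, RingHom.mem_ker, eval_map]
      have h3 := MvPolynomial.eval₂_comp_left (algebraMap k K) (RingHom.id k) x q
      rw [RingHom.comp_id] at h3
      have h4 : eval₂ (RingHom.id k) x q = eval x q := rfl
      rw [h4, hx1 q hq, map_zero] at h3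
      exact h3.symm
    have h3 := h2 hfg
    rw [RingHom.mem_ker, map_mul, mul_eq_zero] at h3
    rcases h3 with h3 | h3
    · have h4 := eval_cf φ f x
      rw [h3, map_zero] at h4
      exact (left_ne_zero_of_mul hx2) h4.symm
    · have h4 := eval_cf ψ g x
      rw [h3, map_zero] at h4
      exact (right_ne_zero_of_mul hx2) h4.symm

theorem comap_map (P : Ideal (MvPolynomial ι k)) :
    (P.map (MvPolynomial.map (algebraMap k K) : MvPolynomial ι k →+* MvPolynomial ι K)).comap
      (MvPolynomial.map (algebraMap k K)) = P := by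
  refine le_antisymm ?_ Ideal.le_comap_map
  intro g hg
  rw [Ideal.mem_comap, mem_map_iff] at hg
  obtain ⟨φ, hφ⟩ := LinearMap.exists_leftInverse_of_injective (Algebra.linearMap k K)
    (LinearMap.ker_eq_bot.2 (algebraMap k K).injective)
  have h2 : φ 1 = 1 := by
    have := LinearMap.congr_fun hφ 1
    simpa using this
  have h3 := hg φ
  rw [cf_map, h2, map_one, one_mul] at h3
  exact h3

end Pool.Agent.Zil
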