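import Pool.Agent.Zil.RAG

set_option autoImplicit false

/-! Package R3: the cutting property for algebraic ideals implies Zilber's conjecture.

Copies of the two inductions of `CITLines/Ind.lean`, restricted to `AG` ideals (RAG.lean is a black box).

* `citi_of_cut`: copy of `cit_of_lines`: `cut hL` is replaced by `hcut ι` (which gives `G = tc ι g`; no case
  distinction `p = ⊥` is needed); the minimal primes `w` of `p ⊔ span {tc ι g}` are `AG` by `AG.minimalPrimes`,
  `AG.sup`, `AG.span`.
* `finA_of_cut`: copy of `weak_step`, `fin_of_cit`, `finA_of_cit`, where `hC` is only used for `AG` ideals: in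
  `weak_step` for `rs e p` (`AG.rs`), in `fin_of_cit` the minimal primes `w` of
  `p ⊔ span {binom ℂ x.1 x.2}` are needed only if `RU x.2` (put `RU x.2` into the case distinction; it is part
  of the conclusion of `weak_step`); `AG.binom`.
* `zilber_of_cut`: `CITLines.main` (third statement implies the first): for every `r`, by
  `finite_iff` (`(isVariety_linePower r).cl`, `.2`), it is enough to have `FinA (vanI (linePower r))`, which
  is `finA_of_cut` for `vanI (linePower r) = kr ℂ (lw r)` (`vanI_linePower`, `AG_lw`,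
  `(isVariety_linePower r).tp`). -/

namespace Pool.Agent.Zil

open MvPolynomial Module Pool.Agent.CITLines

theorem citi_of_cut (hcut : CutAG) {ι : Type} [Fintype ι] (p : Ideal (MvPolynomial ι ℂ)) (hp : TP p)
    (hA : AG p) : CITi p := by
  classical
  have key : ∀ (d : ℕ) (p : Ideal (MvPolynomial ι ℂ)), TP p → AG p → dm p ≤ d →
      CITi p := by
    intro d
    induction d using Nat.strong_induction_on with
    | _ d ih =>
      intro p hp hA hd
      have hpp := hp.prime
      by_cases hfree : QP p = ⊥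
      · obtain ⟨g, hG, hG'⟩ := hcut ι p hp hA hfree
        obtain ⟨G, hGg⟩ : ∃ G, G = tc ι g := ⟨_, rfl⟩
        rw [← hGg] at hG
        simp only [← hGg] at hG'
        have hAG : AG (p ⊔ Ideal.span {G}) := by
          rw [hGg]
          exact hA.sup (AG.span g)
        have hfin : ((p ⊔ Ideal.span {G}).minimalPrimes).Finite :=
          Ideal.finite_minimalPrimes_of_isNoetherianRing _ _
        have hstep : ∀ w : Ideal (MvPolynomial ι ℂ), ∃ L : Finset ((ι → ℤ) × ℂ),
            w ∈ (p ⊔ Ideal.span {G}).minimalPrimes →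
            (∀ x ∈ L, x.1 ≠ 0 ∧ RU x.2) ∧
            ∀ q : Ideal (MvPolynomial ι ℂ), TP q → w ≤ q → dm p < dm q + rhoP q →
              ∃ x ∈ L, binom ℂ x.1 x.2 ∈ q := by
          intro w
          by_cases hw : w ∈ (p ⊔ Ideal.span {G}).minimalPrimes ∧ TP w
          · obtain ⟨hw, hwT⟩ := hw
            have hwp := hwT.prime
            have hpw : p ≤ w := le_sup_left.trans hw.le
            have hlt : p < w := by
              refine lt_of_le_of_ne hpw fun h => hG ?_
              rw [h]
              exact hw.le (Ideal.mem_sup_right (Ideal.mem_span_singleton_self G))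
            have h1 := dm_strictAnti hlt
            obtain ⟨L, hL1, hL2⟩ := ih (dm w) (by omega) w hwT
                (hAG.minimalPrimes hw) le_rfl
            exact ⟨L, fun _ => ⟨hL1, fun q hq hwq hdim => hL2 q hq hwq (by omega)⟩⟩
          · refine ⟨∅, fun hw' => ⟨by simp, fun q hq hwq _ => ?_⟩⟩
            exact absurd ⟨hw', hq.mono hw'.isPrime hwq⟩ hw
        choose L hL' using hstep
        refine ⟨hfin.toFinset.biUnion L, ?_, ?_⟩
        · intro x hx
          obtain ⟨w, hw, hxw⟩ := Finset.mem_biUnion.mp hx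
          exact (hL' w (hfin.mem_toFinset.mp hw)).1 x hxw
        · intro q hq hpq hdim
          have hGq : G ∈ q := hG' q hq hpq hdim
          have hqp := hq.prime
          have h1 : p ⊔ Ideal.span {G} ≤ q :=
            sup_le hpq ((Ideal.span_singleton_le_iff_mem q).mpr hGq)
          obtain ⟨w, hw, hwq⟩ := Ideal.exists_minimalPrimes_le h1
          obtain ⟨x, hx, hxq⟩ := (hL' w hw).2 q hq hwq hdim
          exact ⟨x, Finset.mem_biUnion.mpr ⟨w, hfin.mem_toFinset.mpr hw, hx⟩, hxq⟩
      · obtain ⟨a, ζ, ha, hζ, hb⟩ := exists_rel hp hfree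
        refine ⟨{(a, ζ)}, ?_, ?_⟩
        · intro x hx
          rw [Finset.mem_singleton] at hx
          subst hx
          exact ⟨ha, hζ⟩
        · intro q _ hpq _
          exact ⟨(a, ζ), Finset.mem_singleton_self _, hpq hb⟩
  exact key (dm p) p hp hA le_rfl

/-- A relation independent of those of the variety. -/
private theorem weak_stepA
    (hC : ∀ (n : ℕ) (p : Ideal (MvPolynomial (Fin n) ℂ)), TP p → AG p → CITi p)
    {ι : Type} [Fintype ι] (p : Ideal (MvPolynomial ι ℂ)) (hp : TP p) (hA : AG p) :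
    ∃ L : Finset ((ι → ℤ) × ℂ), (∀ x ∈ L, cst x.1 ∉ QP p) ∧
      ∀ q : Ideal (MvPolynomial ι ℂ), TP q → p ≤ q → dm p + rhoP p < dm q + rhoP q →
        ∃ x ∈ L, RU x.2 ∧ binom ℂ x.1 x.2 ∈ q := by
  classical
  obtain ⟨k, e, he, hk, h0, h⟩ := exists_coords (QP p)
  obtain ⟨L, hL1, hL2⟩ := hC k (rs e p) (TP_rs e hp) (hA.rs e)
  refine ⟨L.image (fun x => (Function.extend e x.1 0, x.2)), ?_, ?_⟩
  · intro x hx hmem
    obtain ⟨y, hy, rfl⟩ := Finset.mem_image.mp hx
    simp only at hmem
    have h1 : cst (Function.extend e y.1 0) = Function.extend e (cst y.1) 0 := by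
      rw [cst_extend e he]
      rfl
    rw [h1] at hmem
    exact (hL1 y hy).1 (cst_eq_zero.mp (h0 _ hmem))
  · intro q hq hpq hdim
    have hU : QP p ≤ QP q := QP_mono hpq
    have h1 := dm_rs e he hp (QP p) le_rfl h
    have h2 := dm_rs e he hq (QP p) hU h
    have h3 := rhoP_rs e he hq (QP p) hU h0 h
    have h4 : rhoP p = finrank ℚ (QP p) := rfl
    obtain ⟨x, hx, hxq⟩ := hL2 (rs e q) (TP_rs e hq) (rs_mono e hpq) (by omega)
    exact ⟨_, Finset.mem_image_of_mem _ hx, (hL1 x hx).2, (binom_mem_rs e he hq _ _).mp hxq⟩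

/-- The second induction: finitely many minimal primes with excess. -/
private theorem fin_of_citA
    (hC : ∀ (n : ℕ) (p : Ideal (MvPolynomial (Fin n) ℂ)), TP p → AG p → CITi p)
    {ι : Type} [Fintype ι] (p : Ideal (MvPolynomial ι ℂ)) (hp : TP p) (hA : AG p) :
    ∃ Y : Finset (Ideal (MvPolynomial ι ℂ)),
      (∀ y ∈ Y, TP y ∧ p ≤ y ∧ dm p + rhoP p < dm y + rhoP y) ∧
      ∀ q : Ideal (MvPolynomial ι ℂ), TP q → p ≤ q → dm p + rhoP p < dm q + rhoP q →
        ∃ y ∈ Y, y ≤ q := by
  classical
  have key : ∀ (d : ℕ) (p : Ideal (MvPolynomial ι ℂ)), TP p → AG p → dm p ≤ d →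
      ∃ Y : Finset (Ideal (MvPolynomial ι ℂ)),
      (∀ y ∈ Y, TP y ∧ p ≤ y ∧ dm p + rhoP p < dm y + rhoP y) ∧
      ∀ q : Ideal (MvPolynomial ι ℂ), TP q → p ≤ q → dm p + rhoP p < dm q + rhoP q →
        ∃ y ∈ Y, y ≤ q := by
    intro d
    induction d using Nat.strong_induction_on with
    | _ d ih =>
      intro p hp hA hd
      have hpp := hp.prime
      obtain ⟨L, hL1, hL2⟩ := weak_stepA hC p hp hA
      have hfin : ∀ x : (ι → ℤ) × ℂ,
          ((p ⊔ Ideal.span {binom ℂ x.1 x.2}).minimalPrimes).Finite :=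
        fun x => Ideal.finite_minimalPrimes_of_isNoetherianRing _ _
      have hstep : ∀ w : Ideal (MvPolynomial ι ℂ), ∃ Y : Finset (Ideal (MvPolynomial ι ℂ)),
          (∀ y ∈ Y, TP y ∧ p ≤ y ∧ dm p + rhoP p < dm y + rhoP y) ∧
          ∀ x ∈ L, w ∈ (p ⊔ Ideal.span {binom ℂ x.1 x.2}).minimalPrimes →
          ∀ q : Ideal (MvPolynomial ι ℂ), TP q → RU x.2 → w ≤ q →
            dm p + rhoP p < dm q + rhoP q → ∃ y ∈ Y, y ≤ q := by
        intro w
        by_cases hw : ∃ x ∈ L, w ∈ (p ⊔ Ideal.span {binom ℂ x.1 x.2}).minimalPrimes ∧ TP w ∧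
            RU x.2
        · obtain ⟨x, hx, hw, hwT, hRU⟩ := hw
          have hwp := hwT.prime
          have hpw : p ≤ w := le_sup_left.trans hw.le
          have hbw : binom ℂ x.1 x.2 ∈ w :=
            hw.le (Ideal.mem_sup_right (Ideal.mem_span_singleton_self _))
          have hcw : cst x.1 ∈ QP w := (hwT.cst_mem_QP _).mpr ⟨_, hRU, hbw⟩
          have hrho : rhoP p < rhoP w := by
            refine Submodule.finrank_lt_finrank_of_lt ?_
            refine lt_of_le_of_ne (QP_mono hpw) fun h => hL1 x hx ?_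
            rw [h]
            exact hcw
          have hlt : p < w := by
            refine lt_of_le_of_ne hpw fun h => hL1 x hx ?_
            rw [h]
            exact hcw
          have h1 := dm_strictAnti hlt
          have h2 : dm p ≤ dm w + 1 := by
            have := dm_le_dm_add_card p {binom ℂ x.1 x.2} w (by
              rw [Finset.coe_singleton]
              exact hw)
            rwa [Finset.card_singleton] at this
          by_cases h3 : dm p + rhoP p < dm w + rhoP w
          · refine ⟨{w}, ?_, ?_⟩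
            · intro y hy
              rw [Finset.mem_singleton] at hy
              subst hy
              exact ⟨hwT, hpw, h3⟩
            · intro _ _ _ q _ _ hwq _
              exact ⟨w, Finset.mem_singleton_self w, hwq⟩
          · obtain ⟨Y, hY1, hY2⟩ := ih (dm w) (by omega) w hwT
              ((hA.sup (AG.binom x.1 hRU)).minimalPrimes hw) le_rfl
            refine ⟨Y, ?_, ?_⟩
            · intro y hy
              obtain ⟨hyT, hwy, hdy⟩ := hY1 y hy
              exact ⟨hyT, hpw.trans hwy, by omega⟩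
            · intro _ _ _ q hq _ hwq hdim
              exact hY2 q hq hwq (by omega)
        · refine ⟨∅, by simp, ?_⟩
          intro x hx hw' q hq hRU hwq _
          exact absurd ⟨x, hx, hw', hq.mono hw'.isPrime hwq, hRU⟩ hw
      choose Y hY1 hY2 using hstep
      refine ⟨L.biUnion fun x => (hfin x).toFinset.biUnion Y, ?_, ?_⟩
      · intro y hy
        obtain ⟨x, _, hy⟩ := Finset.mem_biUnion.mp hy
        obtain ⟨w, _, hy⟩ := Finset.mem_biUnion.mp hy
        exact hY1 w y hy
      · intro q hq hpq hdim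
        have hqp := hq.prime
        obtain ⟨x, hx, hRU, hxq⟩ := hL2 q hq hpq hdim
        have h1 : p ⊔ Ideal.span {binom ℂ x.1 x.2} ≤ q :=
          sup_le hpq ((Ideal.span_singleton_le_iff_mem q).mpr hxq)
        obtain ⟨w, hw, hwq⟩ := Ideal.exists_minimalPrimes_le h1
        obtain ⟨y, hy, hyq⟩ := hY2 w x hx hw q hq hRU hwq hdim
        exact ⟨y, Finset.mem_biUnion.mpr ⟨x, hx, Finset.mem_biUnion.mpr
          ⟨w, (hfin x).mem_toFinset.mpr hw, hy⟩⟩, hyq⟩
  exact key (dm p) p hp hA le_rfl

theorem finA_of_cut (hcut : CutAG) {ι : Type} [Fintype ι] (p : Ideal (MvPolynomial ι ℂ)) (hp : TP p)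
    (hA : AG p) : FinA p := by
  by_cases h : rhoP p = 0
  · obtain ⟨Y, hY1, hY2⟩ := fin_of_citA (fun n p hp hA => citi_of_cut hcut p hp hA) p hp hA
    rw [h, add_zero] at hY1 hY2
    exact ⟨Y, hY1, hY2⟩
  · refine ⟨{p}, ?_, ?_⟩
    · intro y hy
      rw [Finset.mem_singleton] at hy
      subst hy
      exact ⟨hp, le_rfl, by omega⟩
    · intro q _ hpq _
      exact ⟨p, Finset.mem_singleton_self p, hpq⟩

theorem zilber_of_cut (hcut : CutAG) : ZilberCIT := by
  refine (CITLines.main.out 2 0).mp fun r => ?_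
  have hV := isVariety_linePower r
  rw [finite_iff hV.cl hV.2]
  refine finA_of_cut hcut _ hV.tp ?_
  rw [vanI_linePower]
  exact AG_lw r

end Pool.Agent.Zil
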