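import Pool.Agent.Zil.RDefs

set_option autoImplicit false

/-! Package R4: points of a variety with given coordinates in a transcendence basis.

`q` is a prime of `k[X_ι]`, `k` algebraically closed, `I` a set of coordinates which is a transcendence
basis of the function field `Kf q` over `k` (algebraically independent, `dm q = I.card`), `g ∉ q`.
PROOF of `exists_lift`. Let `F = Kf q`, `B = k[gen q i : i ∈ I] ⊆ F`, `A = Algebra.adjoin k` of the
`gen q i` (`i : ι`) and of `1 / G`, `G = aeval (gen q) g ≠ 0` (`kr_gen`). Every element of `F` is algebraic over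
`B`: `dm q = rk k (range (gen q))` (`dm_eq_rk`) is the cardinality of `I`, so `I` is a basis of the matroid
(`rk_range_of_indep`, `Matroid` closure, or: `AlgebraicIndependent` and maximal cardinality imply
transcendence basis). So for every generator `a` of `A` there is a nonzero polynomial relation over `B`; let
`h0 ∈ B` be the product of the leading coefficients: `h0 ≠ 0` and every generator is integral over
`B[1/h0]`. Let `h` be the polynomial in `k[X_I]` with `aeval h = h0` (`B` is isomorphic to `k[X_I]`). Let `t` be a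
point with `eval t h ≠ 0`. The ring homomorphism `B → k`, evaluation at `t`, extends to `B[1/h0] → k`; its
kernel is a maximal ideal `m` (surjective onto the field `k`); `A[1/h0]` is integral over `B[1/h0]`, so there is
a prime `n` of `A[1/h0]` over `m` (`Ideal.exists_ideal_over_prime_of_isIntegral`), and `A[1/h0] / n` is a
domain, integral over `B[1/h0] / m = k`, so equal to `k` (`IsAlgClosed`: integral elements of a domain over an
algebraically closed field are in the field, `IsAlgClosed.algebraMap_surjective_of_isIntegral`). This gives a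
ring homomorphism `χ : A → k` over `k` with `χ (gen q i) = t i` for `i ∈ I`. `P i = χ (gen q i)`: for `f ∈ q`:
`eval P f = χ (aeval (gen q) f) = 0`; `eval P g * χ (1/G) = 1`, so `eval P g ≠ 0`.
(Alternative: do it in steps with polynomials, or use `A → k` from
`Mathlib.RingTheory.Jacobson`/Nullstellensatz: the localisation of `A` at `h0` modulo `(X_i - t_i)` is not
zero, and a finitely generated algebra over `k` which is not zero has a homomorphism to `k`.)

PROOF of `exists_RU_point`. The roots of unity of `k` (characteristic zero, algebraically closed) are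
infinitely many (for every `n` there is a primitive `n`-th root of unity), and a nonzero polynomial does
not vanish on a product of infinite sets (`MvPolynomial.funext_set` or the like; or induction).

PROOF of `exists_tors_point`: combine, `t` a point with roots of unity where `h` does not vanish. -/

namespace Pool.Agent.Zil

open MvPolynomial Module Pool.Agent.CITLines

/-- Extension of a homomorphism to an algebraically closed field to an integral closure. -/
private theorem zil_chi {R F k : Type} [CommRing R] [Field F] [Algebra R F]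
    (hinj : Function.Injective (algebraMap R F)) [Field k] [IsAlgClosed k] (κ : k →+* R)
    (ψ : R →+* k) (hψ : ∀ a, ψ (κ a) = a) :
    ∃ χ : integralClosure R F →+* k, ∀ r, χ (algebraMap R _ r) = ψ r := by
  have hinj' : Function.Injective (algebraMap R (integralClosure R F)) := by
    intro a b hab
    exact hinj (congrArg (algebraMap (integralClosure R F) F) hab)
  have hprime : (RingHom.ker ψ).IsPrime := RingHom.ker_isPrime ψ
  obtain ⟨n, hn, hcomap⟩ := Ideal.exists_ideal_over_prime_of_isIntegral_of_isDomain
    (S := integralClosure R F) (RingHom.ker ψ)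
    (by rw [(RingHom.injective_iff_ker_eq_bot _).1 hinj']; exact bot_le)
  let mk : integralClosure R F →+* integralClosure R F ⧸ n := Ideal.Quotient.mk n
  let _ : Algebra k (integralClosure R F ⧸ n) :=
    (mk.comp ((algebraMap R (integralClosure R F)).comp κ)).toAlgebra
  have key : ∀ r : R, algebraMap k (integralClosure R F ⧸ n) (ψ r) =
      mk (algebraMap R (integralClosure R F) r) := by
    intro r
    change mk (algebraMap R (integralClosure R F) (κ (ψ r))) = _
    rw [← sub_eq_zero, ← map_sub, ← map_sub]
    refine Ideal.Quotient.eq_zero_iff_mem.2 ?_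
    rw [← Ideal.mem_comap, hcomap, RingHom.mem_ker, map_sub, hψ, sub_self]
  have hint : Algebra.IsIntegral k (integralClosure R F ⧸ n) := by
    refine ⟨fun z => ?_⟩
    obtain ⟨c, rfl⟩ := Ideal.Quotient.mk_surjective z
    obtain ⟨p, hp, hp0⟩ := (integralClosure.isIntegral c : IsIntegral R c)
    refine ⟨p.map ψ, hp.map ψ, ?_⟩
    rw [Polynomial.eval₂_map]
    have h1 : (algebraMap k (integralClosure R F ⧸ n)).comp ψ =
        mk.comp (algebraMap R (integralClosure R F)) := RingHom.ext key
    rw [h1, ← Polynomial.hom_eval₂, hp0, map_zero]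
  have hbij := IsAlgClosed.algebraMap_bijective_of_isIntegral (k := k)
    (K := integralClosure R F ⧸ n)
  let e : k ≃+* (integralClosure R F ⧸ n) := RingEquiv.ofBijective _ hbij
  refine ⟨(e.symm : (integralClosure R F ⧸ n) →+* k).comp mk, fun r => ?_⟩
  change e.symm (mk (algebraMap R _ r)) = ψ r
  rw [← key]
  exact e.symm_apply_apply (ψ r)

variable {k : Type} [Field k] [IsAlgClosed k] {ι : Type} [Fintype ι]

omit [IsAlgClosed k] in
/-- The coordinates of the generic point are algebraic over the basis. -/
private theorem zil_alg (q : Ideal (MvPolynomial ι k)) [q.IsPrime] (I : Finset ι)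
    (hI : AlgebraicIndependent k (fun i : I => gen q i.1)) (hd : dm q = I.card) (i : ι) :
    IsAlgebraic (Algebra.adjoin k (Set.range (fun i : I => gen q i.1))) (gen q i) := by
  classical
  have h1 : gen q i ∈ (AlgebraicIndependent.matroid k (Kf q)).closure
      (Set.range (fun i : I => gen q i.1)) := by
    by_contra hcon
    have hind : (AlgebraicIndependent.matroid k (Kf q)).Indep
        (Set.range (fun i : I => gen q i.1)) := by
      rw [AlgebraicIndependent.matroid_indep_iff]
      exact hI.coe_range
    have h2 := (hind.notMem_closure_iff (Set.mem_univ _)).1 hcon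
    have h3 : rk k (insert (gen q i) (Set.range (fun i : I => gen q i.1))) ≤
        rk k (Set.range (gen q)) := by
      refine rk_mono ?_
      rintro _ (rfl | ⟨j, rfl⟩)
      · exact ⟨i, rfl⟩
      · exact ⟨j.1, rfl⟩
    have h4 : rk k (insert (gen q i) (Set.range (fun i : I => gen q i.1))) = I.card + 1 := by
      unfold rk
      rw [h2.1.eRk_eq_encard, Set.encard_insert_of_notMem h2.2, ← Set.image_univ,
        hI.injective.encard_image, Set.encard_univ]
      simp
    rw [h4, ← dm_eq_rk, hd] at h3
    have h5 : I.card + 1 ≤ I.card := by exact_mod_cast h3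
    omega
  rw [AlgebraicIndependent.matroid_closure_eq] at h1
  exact h1

/-- The evaluation at a point of the localisation. -/
private theorem zil_eval {R k : Type} [CommRing R] [Field k] (κ : k →+* R) (ev : R →+* k)
    (hev : ∀ a, ev (κ a) = a) {h : R} (h0 : ev h ≠ 0) {F : Type} [Field F] (φ : R →+* F)
    (hφ : Function.Injective φ) (hh : h ≠ 0) :
    ∃ (S : Type) (_ : CommRing S) (_ : Algebra S F) (j : R →+* S) (κ' : k →+* S) (ψ : S →+* k),
      Function.Injective (algebraMap S F) ∧ (∀ a, ψ (κ' a) = a) ∧ (∀ r, ψ (j r) = ev r) ∧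
      (∀ r, algebraMap S F (j r) = φ r) ∧ (∀ a, κ' a = j (κ a)) ∧ IsUnit (j h) := by
  let S := Localization.Away h
  have hu1 : IsUnit (ev h) := isUnit_iff_ne_zero.2 h0
  have hφh : φ h ≠ 0 := fun h1 => hh (hφ (h1.trans (map_zero φ).symm))
  have hu2 : IsUnit (φ h) := isUnit_iff_ne_zero.2 hφh
  let ψ : S →+* k := IsLocalization.Away.lift h hu1
  let θ : S →+* F := IsLocalization.Away.lift h hu2
  have hψ : ∀ r, ψ (algebraMap R S r) = ev r := fun r => IsLocalization.Away.lift_eq h hu1 r
  have hθ : ∀ r, θ (algebraMap R S r) = φ r := fun r => IsLocalization.Away.lift_eq h hu2 r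
  refine ⟨S, inferInstance, θ.toAlgebra, algebraMap R S, (algebraMap R S).comp κ, ψ, ?_,
    fun a => (hψ _).trans (hev a), hψ, hθ, fun _ => rfl,
    IsLocalization.Away.algebraMap_isUnit h⟩
  change Function.Injective θ
  rw [injective_iff_map_eq_zero]
  intro z hz
  obtain ⟨⟨r, s⟩, hrs⟩ := IsLocalization.surj (Submonoid.powers h) z
  have h1 : φ r = 0 := by
    rw [← hθ, ← hrs, map_mul, hz, zero_mul]
  have h2 : r = 0 := hφ (h1.trans (map_zero φ).symm)
  rw [h2, map_zero] at hrs
  exact (IsLocalization.map_units S s).mul_left_eq_zero.1 hrs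

theorem exists_lift (q : Ideal (MvPolynomial ι k)) [q.IsPrime] (I : Finset ι)
    (hI : AlgebraicIndependent k (fun i : I => gen q i.1)) (hd : dm q = I.card)
    (g : MvPolynomial ι k) (hg : g ∉ q) :
    ∃ h : MvPolynomial I k, h ≠ 0 ∧ ∀ t : I → k, eval t h ≠ 0 →
      ∃ P : ι → k, (∀ f ∈ q, eval P f = 0) ∧ eval P g ≠ 0 ∧ ∀ i : I, P i.1 = t i := by
  classical
  have hG : aeval (gen q) g ≠ 0 := by
    intro h1
    apply hg
    rw [← kr_gen q, mem_kr]
    exact h1
  -- the elements are algebraic over the polynomial ring
  let φ : MvPolynomial I k →ₐ[k] Kf q := aeval (fun i : I => gen q i.1)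
  have hφ : Function.Injective φ := hI
  let _ : Algebra (MvPolynomial I k) (Kf q) := φ.toRingHom.toAlgebra
  have halg : ∀ i, IsAlgebraic (MvPolynomial I k) (gen q i) := by
    intro i
    obtain ⟨p, hp0, hp⟩ := zil_alg q I hI hd i
    refine ⟨p.map (hI.repr : _ →+* MvPolynomial I k), ?_, ?_⟩
    · rw [Ne, Polynomial.map_eq_zero_iff]
      · exact hp0
      · exact hI.aevalEquiv.symm.injective
    · rw [Polynomial.aeval_def, Polynomial.eval₂_map]
      have h1 : (algebraMap (MvPolynomial I k) (Kf q)).comp
          (hI.repr : _ →+* MvPolynomial I k) = algebraMap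
          (Algebra.adjoin k (Set.range (fun i : I => gen q i.1))) (Kf q) := by
        ext x
        exact hI.aeval_repr x
      rw [h1]
      exact hp
  have halgG : ∀ f : MvPolynomial ι k, IsAlgebraic (MvPolynomial I k) (aeval (gen q) f) := by
    intro f
    induction f using MvPolynomial.induction_on with
    | C a =>
      have h1 : aeval (gen q) (C a : MvPolynomial ι k) =
          algebraMap (MvPolynomial I k) (Kf q) (C a) := by
        rw [algHom_C]
        exact (algHom_C φ a).symm
      rw [h1]
      exact isAlgebraic_algebraMap _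
    | add f1 f2 h1 h2 =>
      rw [map_add]
      exact h1.add h2
    | mul_X f1 i h1 =>
      rw [map_mul, aeval_X]
      exact h1.mul (halg i)
  -- a common denominator
  have hden : ∀ z : Kf q, IsAlgebraic (MvPolynomial I k) z →
      ∃ y : MvPolynomial I k, y ≠ 0 ∧ IsIntegral (MvPolynomial I k) (y • z) := by
    intro z hz
    obtain ⟨y, hy, h1⟩ := hz.exists_integral_multiple
    exact ⟨y, hy, h1⟩
  choose d hd0 hdint using fun i => hden _ (halg i)
  obtain ⟨d', hd'0, hd'int⟩ := hden _ (halgG g).inv
  refine ⟨(∏ i, d i) * d', mul_ne_zero (Finset.prod_ne_zero_iff.2 fun i _ => hd0 i) hd'0, ?_⟩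
  intro t ht
  obtain ⟨S, _, _, j, κ', ψ, hSinj, hψ1, hψ2, hj, hκ, hu⟩ := zil_eval
    (R := MvPolynomial I k) (k := k) (C : k →+* MvPolynomial I k) (eval t)
    (fun a => eval_C a) ht (φ : MvPolynomial I k →+* Kf q) hφ
    (mul_ne_zero (Finset.prod_ne_zero_iff.2 fun i _ => hd0 i) hd'0)
  obtain ⟨χ, hχ⟩ := zil_chi hSinj κ' ψ hψ1
  -- integrality over `S`
  have hint : ∀ (y : MvPolynomial I k) (z : Kf q), y ∣ (∏ i, d i) * d' →
      IsIntegral (MvPolynomial I k) (y • z) → IsIntegral S z := by
    intro y z hy hz
    have hyu : IsUnit (j y) := isUnit_of_dvd_unit (map_dvd j hy) hu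
    obtain ⟨u, hu'⟩ := hyu
    have h1 : IsIntegral S (y • z) := by
      obtain ⟨p, hp, hp0⟩ := hz
      refine ⟨p.map j, hp.map j, ?_⟩
      rw [Polynomial.eval₂_map]
      have h2 : (algebraMap S (Kf q)).comp j = algebraMap (MvPolynomial I k) (Kf q) :=
        RingHom.ext hj
      rw [h2]
      exact hp0
    have h2 : z = algebraMap S (Kf q) (↑u⁻¹ : S) * (y • z) := by
      rw [Algebra.smul_def, ← mul_assoc]
      have h3 : algebraMap (MvPolynomial I k) (Kf q) y = algebraMap S (Kf q) (u : S) := by
        rw [hu']
        exact (hj y).symm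
      rw [h3, ← map_mul, Units.inv_mul, map_one, one_mul]
    rw [h2]
    exact isIntegral_algebraMap.mul h1
  have hintx : ∀ i, IsIntegral S (gen q i) := fun i => hint (d i) _
    ((Finset.dvd_prod_of_mem d (Finset.mem_univ i)).mul_right d') (hdint i)
  have hintG : IsIntegral S (aeval (gen q) g)⁻¹ := hint d' _ (Dvd.intro_left _ rfl) hd'int
  let x : ι → integralClosure S (Kf q) := fun i => ⟨gen q i, hintx i⟩
  let G' : integralClosure S (Kf q) := ⟨(aeval (gen q) g)⁻¹, hintG⟩
  let c : k →+* integralClosure S (Kf q) := (algebraMap S _).comp κ'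
  have hcF : ∀ a, ((c a : integralClosure S (Kf q)) : Kf q) = algebraMap k (Kf q) a := by
    intro a
    change algebraMap S (Kf q) (κ' a) = _
    rw [hκ, hj]
    exact algHom_C φ a
  have hx : ∀ f : MvPolynomial ι k,
      ((eval₂ c x f : integralClosure S (Kf q)) : Kf q) = aeval (gen q) f := by
    intro f
    have h1 : ((eval₂ c x f : integralClosure S (Kf q)) : Kf q) =
        algebraMap (integralClosure S (Kf q)) (Kf q) (eval₂ c x f) := rfl
    rw [h1, hom_eval₂, aeval_def]
    have h2 : (algebraMap (integralClosure S (Kf q)) (Kf q)).comp c = algebraMap k (Kf q) :=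
      RingHom.ext hcF
    rw [h2]
    rfl
  have hχf : ∀ f : MvPolynomial ι k, χ (eval₂ c x f) = eval (fun i => χ (x i)) f := by
    intro f
    rw [hom_eval₂]
    have h2 : χ.comp c = RingHom.id k := by
      ext a
      change χ (algebraMap S _ (κ' a)) = a
      rw [hχ, hψ1]
    rw [h2]
    rfl
  refine ⟨fun i => χ (x i), fun f hf => ?_, ?_, fun i => ?_⟩
  · rw [← hχf]
    have h1 : eval₂ c x f = 0 := by
      apply Subtype.ext
      rw [hx]
      have h2 : f ∈ kr k (gen q) := by
        rw [kr_gen]
        exact hf
      exact mem_kr.1 h2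
    rw [h1, map_zero]
  · rw [← hχf]
    have h1 : eval₂ c x g * G' = 1 := by
      apply Subtype.ext
      change ((eval₂ c x g : integralClosure S (Kf q)) : Kf q) * (aeval (gen q) g)⁻¹ = 1
      rw [hx, mul_inv_cancel₀ hG]
    intro h2
    have h3 := congrArg χ h1
    rw [map_mul, h2, zero_mul, map_one] at h3
    exact zero_ne_one h3
  · have h1 : x i.1 = algebraMap S _ (j (X i)) := by
      apply Subtype.ext
      change gen q i.1 = algebraMap S (Kf q) (j (X i))
      rw [hj]
      exact (aeval_X (fun i : I => gen q i.1) i).symm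
    change χ (x i.1) = t i
    rw [h1, hχ, hψ2, eval_X]

theorem exists_RU_point [CharZero k] {σ : Type} [Fintype σ] (h : MvPolynomial σ k) (h0 : h ≠ 0) :
    ∃ t : σ → k, (∀ i, RU (t i)) ∧ eval t h ≠ 0 := by
  by_contra hcon
  push Not at hcon
  have hinf : (Set.ofPred (fun x : k => RU x)).Infinite := by
    have h1 : ∀ n : ℕ, ∃ z : k, IsPrimitiveRoot z (n + 1) := by
      intro n
      have : NeZero ((n + 1 : ℕ) : k) := ⟨by exact_mod_cast Nat.succ_ne_zero n⟩
      exact HasEnoughRootsOfUnity.exists_primitiveRoot k (n + 1)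
    choose z hz using h1
    refine Set.infinite_of_injective_forall_mem (f := z) ?_
      fun n => ⟨n + 1, Nat.succ_pos n, (hz n).pow_eq_one⟩
    intro a b hab
    have h2 := (hz a).eq_orderOf
    have h3 := (hz b).eq_orderOf
    rw [hab, ← h3] at h2
    omega
  refine h0 (MvPolynomial.funext_set (fun _ => Set.ofPred (fun x : k => RU x)) (fun _ => hinf) ?_)
  intro x hx
  rw [map_zero]
  exact hcon x fun i => hx i (Set.mem_univ i)

theorem exists_tors_point [CharZero k] (q : Ideal (MvPolynomial ι k)) [q.IsPrime] (I : Finset ι)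
    (hI : AlgebraicIndependent k (fun i : I => gen q i.1)) (hd : dm q = I.card)
    (g : MvPolynomial ι k) (hg : g ∉ q) :
    ∃ P : ι → k, (∀ f ∈ q, eval P f = 0) ∧ eval P g ≠ 0 ∧ ∀ i ∈ I, RU (P i) := by
  obtain ⟨h, h0, hh⟩ := exists_lift q I hI hd g hg
  obtain ⟨t, ht, ht0⟩ := exists_RU_point h h0
  obtain ⟨P, h1, h2, h3⟩ := hh t ht0
  exact ⟨P, h1, h2, fun i hi => by rw [h3 ⟨i, hi⟩]; exact ht _⟩

end Pool.Agent.Zil
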