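import Pool.Agent.CITLines.Push

set_option autoImplicit false

/-! Package S1: archimedean classes of heights and adapted exponents.

`h a j` (`a ∈ ℤ^ι`, `j ∈ J`) is a height: `≥ 0`, subadditive, homogeneous. `BO 𝒰 f g`: `f = O(g)` along `𝒰`, `LO 𝒰 f g`:
`f = o(g)`. `Flag 𝒰 h W k s m e cl`: scales `1 = s 0 ≪ s 1 ≪ .. ≪ s k`, a basis `e` of the rational subspace `W` of
integer vectors with classes `cl`, the elements of class `l` have height `O(s l)`, and every nonzero integer
combination of the `e i` of a class `l > 0` has height `≥ c s l`.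

PROOF of `exists_flag_sub` by strong induction on `finrank W`. Let `b : Fin w → ι → ℤ` be integer vectors such that
`cst ∘ b` is a basis of `W` (`W` is spanned by integer vectors: clear denominators of a basis, `exists_clear`; a nonzero
multiple of each vector, `LinearIndependent.units_smul`). `S j = 1 + ∑ i, h (b i) j`. For `cst a ∈ W`: `h a = O(S)`:
`N • a = ∑ m i • b i` with integers `N > 0`, `m i` (the coordinates are rational; `cst` is injective) and
`N h a = h (N • a) ≤ ∑ |m i| h (b i) ≤ (∑ |m i|) S`.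
CASE 1: `BO 𝒰 S (fun _ => 1)`. Take `k = 0`, `s 0 = 1`, `m = w`, `e = b`, `cl = 0`. The last condition of `Flag` (`lim`): `s 0 = 1`
is `o(S')` if `S'` tends to infinity.
CASE 2: not case 1; then `S` tends to infinity: for every `C`, `S j > C` for most `j` (`Ultrafilter.eventually_not`).
`Λ = {a : ℤ^ι | cst a ∈ W, LO 𝒰 (h a) S}` is a submodule (`hadd`, `hsmul`), `W' = QS Λ`, and `cst a ∈ W'` iff `a ∈ Λ`
(`exists_mult_mem`: `l • a ∈ Λ` with `l ≠ 0` implies `a ∈ Λ`, `hsmul`). `W' < W`: otherwise all the `b i` are in `Λ` and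
`S = 1 + ∑ h (b i)` is `o(S)`, absurd as `S ≥ 1`. The induction hypothesis for `W'` gives `k', s', m', e', cl'`. Choose integer
vectors `e'' : Fin c → ι → ℤ` such that `cst ∘ e', cst ∘ e''` together are a basis of `W` (`exists_span_compl` of
CITLines/Push.lean or extension of a linearly independent family, then clear denominators). Take `k = k' + 1`,
`s = Fin.snoc s' S`, `m = m' + c`, `e = Fin.append e' e''`, `cl = Fin.append (Fin.castSucc ∘ cl') (fun _ => Fin.last _)`.
`s' l = o(S)` by the last condition of the induction hypothesis (elements of `W'` are `o(S)`). Lower bound for `l = Fin.last`: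
`v = ∑ a i • e i` is a combination of the `e''`, nonzero, so `cst v ∈ W`, `cst v ∉ W'`, `v ∉ Λ`, so not `LO 𝒰 (h v) S`: there is
`ε > 0` with `ε S < h v` for most `j`. For `l = Fin.castSucc l'`, `l' ≠ 0`: only the `e'` are involved, induction hypothesis
(`Fin.castSucc l' ≠ 0` iff `l' ≠ 0`; `s 0 = s' 0 = 1`). Last condition for `S'`: `S = 1 + ∑ h (b i) = o(S')` and `s' l = o(S)`.

`exists_flag`: `W = ⊤`, `m = finrank = card ι`; independence over `ℤ` from `ℚ` (`cst` is additive and injective). -/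

namespace Pool.Agent.Zil

open Module Filter Pool.Agent.CITLines

variable {J : Type} (𝒰 : Ultrafilter J)

/-- `f = O(g)`. -/
def BO (f g : J → ℝ) : Prop := ∃ C : ℝ, ∀ᶠ j in (𝒰 : Filter J), f j ≤ C * g j

/-- `f = o(g)`. -/
def LO (f g : J → ℝ) : Prop := ∀ ε : ℝ, 0 < ε → ∀ᶠ j in (𝒰 : Filter J), f j ≤ ε * g j

variable {ι : Type} [Fintype ι]

/-- Adapted exponents for the subspace `W`. -/
structure Flag (h : (ι → ℤ) → J → ℝ) (W : Submodule ℚ (ι → ℚ)) (k : ℕ) (s : Fin (k + 1) → J → ℝ)
    (m : ℕ) (e : Fin m → ι → ℤ) (cl : Fin m → Fin (k + 1)) : Prop where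
  s0 : ∀ j, s 0 j = 1
  s1 : ∀ l j, 1 ≤ s l j
  lt : ∀ l l', l < l' → LO 𝒰 (s l) (s l')
  ind : LinearIndependent ℚ (fun i => cst (e i))
  spn : Submodule.span ℚ (Set.range fun i => cst (e i)) = W
  up : ∀ i, BO 𝒰 (h (e i)) (s (cl i))
  low : ∀ a : Fin m → ℤ, a ≠ 0 → ∀ l, l ≠ 0 → (∀ i, a i ≠ 0 → cl i = l) →
    ∃ c : ℝ, 0 < c ∧ ∀ᶠ j in (𝒰 : Filter J), c * s l j ≤ h (∑ i, a i • e i) j
  lim : ∀ S : J → ℝ, (∀ C : ℝ, ∀ᶠ j in (𝒰 : Filter J), C < S j) →
    (∀ a : ι → ℤ, cst a ∈ W → LO 𝒰 (h a) S) → ∀ l, LO 𝒰 (s l) S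


private theorem LO_zero_left {S : J → ℝ} (hS : ∀ᶠ j in (𝒰 : Filter J), 0 ≤ S j) :
    LO 𝒰 (fun _ => 0) S := by
  intro ε hε
  filter_upwards [hS] with j hj
  exact mul_nonneg hε.le hj

private theorem LO_add {f g S : J → ℝ} (hf : LO 𝒰 f S) (hg : LO 𝒰 g S) :
    LO 𝒰 (fun j => f j + g j) S := by
  intro ε hε
  filter_upwards [hf (ε / 2) (by linarith), hg (ε / 2) (by linarith)] with j h1 h2
  linarith

private theorem LO_smul {f S : J → ℝ} (c : ℝ) (hc : 0 ≤ c)
    (hS : ∀ᶠ j in (𝒰 : Filter J), 0 ≤ S j)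
    (hf : LO 𝒰 f S) : LO 𝒰 (fun j => c * f j) S := by
  intro ε hε
  have hc1 : 0 < c + 1 := by linarith
  filter_upwards [hf (ε / (c + 1)) (div_pos hε hc1), hS] with j h1 hSj
  have h2 : c * f j ≤ c * (ε / (c + 1) * S j) := mul_le_mul_of_nonneg_left h1 hc
  have h3 : c * (ε / (c + 1) * S j) ≤ (c + 1) * (ε / (c + 1) * S j) :=
    mul_le_mul_of_nonneg_right (by linarith)
      (mul_nonneg (div_pos hε hc1).le hSj)
  have h4 : (c + 1) * (ε / (c + 1) * S j) = ε * S j := by
    field_simp
  linarith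

private theorem LO_sum {κ : Type} (s : Finset κ) (f : κ → J → ℝ) {S : J → ℝ}
    (hS : ∀ᶠ j in (𝒰 : Filter J), 0 ≤ S j) (hf : ∀ i ∈ s, LO 𝒰 (f i) S) :
    LO 𝒰 (fun j => ∑ i ∈ s, f i j) S := by
  classical
  induction s using Finset.induction_on with
  | empty => simpa using LO_zero_left 𝒰 hS
  | insert i s hi ih =>
    have h1 : (fun j => ∑ k ∈ insert i s, f k j) = fun j => f i j + ∑ k ∈ s, f k j := by
      funext j
      rw [Finset.sum_insert hi]
    rw [h1]
    exact LO_add 𝒰 (hf i (Finset.mem_insert_self i s))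
      (ih fun k hk => hf k (Finset.mem_insert_of_mem hk))

private theorem LO_one {S : J → ℝ} (hS : ∀ C : ℝ, ∀ᶠ j in (𝒰 : Filter J), C < S j) :
    LO 𝒰 (fun _ => 1) S := by
  intro ε hε
  filter_upwards [hS (1 / ε)] with j hj
  rw [div_lt_iff₀ hε] at hj
  linarith

omit [Fintype ι] in
private theorem cst_add' (a b : ι → ℤ) : cst (a + b) = cst a + cst b := by
  funext i
  simp [cst]

omit [Fintype ι] in
private theorem cst_smul' (n : ℤ) (a : ι → ℤ) : cst (n • a) = (n : ℚ) • cst a := by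
  funext i
  simp [cst]

omit [Fintype ι] in
private theorem cst_sum' {κ : Type} (s : Finset κ) (f : κ → ι → ℤ) :
    cst (∑ i ∈ s, f i) = ∑ i ∈ s, cst (f i) := by
  funext i
  simp [cst]

/-- Integer bases of rational subspaces. -/
private theorem exists_int_basis (W : Submodule ℚ (ι → ℚ)) :
    ∃ (m : ℕ) (b : Fin m → ι → ℤ), LinearIndependent ℚ (fun i => cst (b i)) ∧
      Submodule.span ℚ (Set.range fun i => cst (b i)) = W := by
  classical
  let B := finBasis ℚ W
  choose k hk a ha using fun i => exists_clear ((B i : W) : ι → ℚ)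
  have hcst : ∀ i, cst (a i) = (k i : ℚ) • ((B i : W) : ι → ℚ) := by
    intro i
    funext s
    rw [cst_apply, ha i s, Pi.smul_apply, smul_eq_mul]
  have hB : LinearIndependent ℚ (fun i => ((B i : W) : ι → ℚ)) :=
    B.linearIndependent.map' W.subtype (Submodule.ker_subtype W)
  have hli : LinearIndependent ℚ (fun i => cst (a i)) := by
    have h1 := hB.units_smul (fun i => Units.mk0 (k i : ℚ) (by exact_mod_cast hk i))
    have h2 : (fun i => cst (a i)) =
        (fun i => Units.mk0 (k i : ℚ) (by exact_mod_cast hk i)) •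
          (fun i => ((B i : W) : ι → ℚ)) := by
      funext i
      rw [hcst i]
      rfl
    rw [h2]
    exact h1
  refine ⟨_, a, hli, ?_⟩
  refine Submodule.eq_of_le_of_finrank_eq ?_ ?_
  · rw [Submodule.span_le]
    rintro v ⟨i, rfl⟩
    change cst (a i) ∈ W
    rw [hcst i]
    exact W.smul_mem _ (B i).2
  · rw [finrank_span_eq_card hli, Fintype.card_fin]

/-- Extension of an integer basis. -/
private theorem exists_int_ext (W W' : Submodule ℚ (ι → ℚ)) (hW : W' ≤ W) {m : ℕ}
    (e : Fin m → ι → ℤ) (he : LinearIndependent ℚ (fun i => cst (e i)))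
    (hs : Submodule.span ℚ (Set.range fun i => cst (e i)) = W') :
    ∃ (c : ℕ) (f : Fin c → ι → ℤ),
      LinearIndependent ℚ (fun i => cst (Fin.append e f i)) ∧
      Submodule.span ℚ (Set.range fun i => cst (Fin.append e f i)) = W := by
  classical
  obtain ⟨D, hD⟩ := Submodule.exists_isCompl W'
  obtain ⟨c, f, hf, hfs⟩ := exists_int_basis (D ⊓ W)
  have hdis : Disjoint W' (D ⊓ W) := hD.disjoint.mono_right inf_le_left
  have hsup : W' ⊔ (D ⊓ W) = W := by
    rw [← sup_inf_assoc_of_le D hW, hD.sup_eq_top, top_inf_eq]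
  have h1 : (fun i => cst (Fin.append e f i)) ∘ finSumFinEquiv =
      Sum.elim (fun i => cst (e i)) (fun i => cst (f i)) := by
    funext x
    rcases x with i | i
    · simp
    · simp
  have hli : LinearIndependent ℚ (fun i => cst (Fin.append e f i)) := by
    have h2 := LinearIndependent.sum_type he hf (by rw [hs, hfs]; exact hdis)
    rw [← h1] at h2
    exact (linearIndependent_equiv finSumFinEquiv).mp h2
  refine ⟨c, f, hli, ?_⟩
  have h3 : Set.range (fun i => cst (Fin.append e f i)) =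
      Set.range (fun i => cst (e i)) ∪ Set.range (fun i => cst (f i)) := by
    rw [← Set.Sum.elim_range, ← h1]
    exact (finSumFinEquiv.surjective.range_comp _).symm
  rw [h3, Submodule.span_union, hs, hfs, hsup]

omit [Fintype ι] in
private theorem h_zero (h : (ι → ℤ) → J → ℝ)
    (hsmul : ∀ (n : ℤ) a j, h (n • a) j = |(n : ℝ)| * h a j) (j : J) : h 0 j = 0 := by
  have h1 := hsmul 0 0 j
  rw [zero_smul] at h1
  simpa using h1

omit [Fintype ι] in
private theorem h_sum (h : (ι → ℤ) → J → ℝ)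
    (hadd : ∀ a b j, h (a + b) j ≤ h a j + h b j)
    (hsmul : ∀ (n : ℤ) a j, h (n • a) j = |(n : ℝ)| * h a j) {κ : Type} (s : Finset κ)
    (f : κ → ι → ℤ) (j : J) : h (∑ i ∈ s, f i) j ≤ ∑ i ∈ s, h (f i) j := by
  classical
  induction s using Finset.induction_on with
  | empty => simp [h_zero h hsmul j]
  | insert i s hi ih =>
    rw [Finset.sum_insert hi, Finset.sum_insert hi]
    exact (hadd _ _ j).trans (by linarith)

omit [Fintype ι] in
private theorem h_le (h : (ι → ℤ) → J → ℝ) (h0 : ∀ a j, 0 ≤ h a j)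
    (hadd : ∀ a b j, h (a + b) j ≤ h a j + h b j)
    (hsmul : ∀ (n : ℤ) a j, h (n • a) j = |(n : ℝ)| * h a j) {w : ℕ} (b : Fin w → ι → ℤ)
    (a : ι → ℤ) (ha : cst a ∈ Submodule.span ℚ (Set.range fun i => cst (b i))) :
    ∃ C : ℝ, 0 ≤ C ∧ ∀ j, h a j ≤ C * (1 + ∑ i, h (b i) j) := by
  classical
  obtain ⟨q, hq⟩ := (Submodule.mem_span_range_iff_exists_fun ℚ).mp ha
  obtain ⟨k, hk, m, hm⟩ := exists_clear q
  have h1 : k • a = ∑ i, m i • b i := by
    apply cst_injective
    rw [cst_smul', cst_sum', ← hq, Finset.smul_sum]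
    refine Finset.sum_congr rfl fun i _ => ?_
    rw [cst_smul', hm i, smul_smul]
  have hk' : (0 : ℝ) < |(k : ℝ)| := abs_pos.mpr (by exact_mod_cast hk)
  refine ⟨(∑ i, |(m i : ℝ)|) / |(k : ℝ)|, by positivity, fun j => ?_⟩
  have h2 : |(k : ℝ)| * h a j ≤ (∑ i, |(m i : ℝ)|) * (1 + ∑ i, h (b i) j) := by
    rw [← hsmul, h1]
    refine (h_sum h hadd hsmul _ _ j).trans ?_
    rw [Finset.sum_mul]
    refine Finset.sum_le_sum fun i _ => ?_
    rw [hsmul]
    refine mul_le_mul_of_nonneg_left ?_ (abs_nonneg _)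
    have h3 := Finset.single_le_sum (f := fun i => h (b i) j) (fun i _ => h0 (b i) j)
      (Finset.mem_univ i)
    linarith
  rw [div_mul_eq_mul_div, le_div_iff₀ hk']
  linarith

theorem exists_flag_sub (h : (ι → ℤ) → J → ℝ) (h0 : ∀ a j, 0 ≤ h a j)
    (hadd : ∀ a b j, h (a + b) j ≤ h a j + h b j)
    (hsmul : ∀ (n : ℤ) a j, h (n • a) j = |(n : ℝ)| * h a j) (W : Submodule ℚ (ι → ℚ)) :
    ∃ (k : ℕ) (s : Fin (k + 1) → J → ℝ) (m : ℕ) (e : Fin m → ι → ℤ) (cl : Fin m → Fin (k + 1)),
      Flag 𝒰 h W k s m e cl := by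
  classical
  induction hn : finrank ℚ W using Nat.strong_induction_on generalizing W with
  | _ n ih =>
  obtain ⟨w, b, hb, hbs⟩ := exists_int_basis W
  set S : J → ℝ := fun j => 1 + ∑ i, h (b i) j with hSdef
  have hS1 : ∀ j, 1 ≤ S j := fun j => by
    have : 0 ≤ ∑ i, h (b i) j := Finset.sum_nonneg fun i _ => h0 (b i) j
    simp only [hSdef]
    linarith
  have hS0 : ∀ j, 0 ≤ S j := fun j => zero_le_one.trans (hS1 j)
  have hbW : ∀ i, cst (b i) ∈ W := fun i => by
    rw [← hbs]
    exact Submodule.subset_span ⟨i, rfl⟩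
  have hup : ∀ a : ι → ℤ, cst a ∈ W → ∃ C : ℝ, 0 ≤ C ∧ ∀ j, h a j ≤ C * S j := by
    intro a ha
    rw [← hbs] at ha
    exact h_le h h0 hadd hsmul b a ha
  have hlimS : ∀ S' : J → ℝ, (∀ C : ℝ, ∀ᶠ j in (𝒰 : Filter J), C < S' j) →
      (∀ a : ι → ℤ, cst a ∈ W → LO 𝒰 (h a) S') → LO 𝒰 S S' := by
    intro S' h1 h3
    have h2 : ∀ᶠ j in (𝒰 : Filter J), 0 ≤ S' j := (h1 0).mono fun j hj => hj.le
    exact LO_add 𝒰 (LO_one 𝒰 h1) (LO_sum 𝒰 _ _ h2 fun i _ => h3 (b i) (hbW i))
  by_cases hcase : BO 𝒰 S (fun _ => 1)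
  · obtain ⟨C, hC⟩ := hcase
    refine ⟨0, fun _ _ => 1, w, b, fun _ => 0,
      ⟨fun _ => rfl, fun _ _ => le_rfl, ?_, hb, hbs, ?_, ?_, ?_⟩⟩
    · intro l l' hl
      have h1 := l.isLt
      have h2 := l'.isLt
      have h3 : l.val < l'.val := hl
      omega
    · intro i
      refine ⟨C, ?_⟩
      filter_upwards [hC] with j hj
      have h3 := Finset.single_le_sum (f := fun i => h (b i) j) (fun i _ => h0 (b i) j)
        (Finset.mem_univ i)
      have h4 : S j = 1 + ∑ i, h (b i) j := rfl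
      linarith
    · intro a _ l hl
      have h1 := l.isLt
      exact absurd (Fin.ext (by simp only [Fin.val_zero]; omega)) hl
    · intro S' h1 _ l
      exact LO_one 𝒰 h1
  have hinf : ∀ C : ℝ, ∀ᶠ j in (𝒰 : Filter J), C < S j := by
    intro C
    by_contra hC
    rw [← Ultrafilter.eventually_not] at hC
    exact hcase ⟨C, by
      filter_upwards [hC] with j hj
      rw [mul_one]
      exact not_lt.mp hj⟩
  have hSe : ∀ᶠ j in (𝒰 : Filter J), 0 ≤ S j := Eventually.of_forall hS0
  let Λ : Submodule ℤ (ι → ℤ) :=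
    { carrier := {a | cst a ∈ W ∧ LO 𝒰 (h a) S}
      zero_mem' := by
        refine ⟨by rw [cst_eq_zero.mpr rfl]; exact W.zero_mem, ?_⟩
        have h1 : h 0 = fun _ => 0 := by
          funext j
          exact h_zero h hsmul j
        rw [h1]
        exact LO_zero_left 𝒰 hSe
      add_mem' := by
        rintro a a' ⟨ha1, ha2⟩ ⟨hb1, hb2⟩
        refine ⟨by rw [cst_add']; exact W.add_mem ha1 hb1, ?_⟩
        intro ε hε
        filter_upwards [LO_add 𝒰 ha2 hb2 ε hε] with j hj
        exact (hadd a a' j).trans hj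
      smul_mem' := by
        rintro c a ⟨ha1, ha2⟩
        refine ⟨by rw [cst_smul']; exact W.smul_mem _ ha1, ?_⟩
        have h1 : h (c • a) = fun j => |(c : ℝ)| * h a j := by
          funext j
          exact hsmul c a j
        rw [h1]
        exact LO_smul 𝒰 _ (abs_nonneg _) hSe ha2 }
  have hΛ : ∀ a, a ∈ Λ ↔ cst a ∈ W ∧ LO 𝒰 (h a) S := fun _ => Iff.rfl
  have hQ : ∀ a, cst a ∈ QS Λ → a ∈ Λ := by
    intro a ha
    obtain ⟨l, hl, a', ha', h'⟩ := exists_mult_mem ha
    have h1 : a' = l • a := by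
      funext i
      have h2 := h' i
      rw [cst_apply] at h2
      rw [Pi.smul_apply, smul_eq_mul]
      exact_mod_cast h2
    rw [h1, hΛ, cst_smul'] at ha'
    have hl' : (l : ℚ) ≠ 0 := by exact_mod_cast hl
    rw [hΛ]
    refine ⟨(Submodule.smul_mem_iff W hl').mp ha'.1, ?_⟩
    have hl2 : |(l : ℝ)| ≠ 0 := abs_ne_zero.mpr (by exact_mod_cast hl)
    have h3 : h a = fun j => |(l : ℝ)|⁻¹ * h (l • a) j := by
      funext j
      rw [hsmul, inv_mul_cancel_left₀ hl2]
    rw [h3]
    exact LO_smul 𝒰 _ (inv_nonneg.mpr (abs_nonneg _)) hSe ha'.2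
  have hW' : QS Λ ≤ W := by
    unfold QS
    rw [Submodule.span_le]
    rintro _ ⟨a, ha, rfl⟩
    exact ha.1
  have hne : QS Λ ≠ W := by
    intro heq
    have hbi : ∀ i, LO 𝒰 (h (b i)) S := fun i => ((hΛ _).mp (hQ (b i) (by
      rw [heq]
      exact hbW i))).2
    have h1 : LO 𝒰 S S := LO_add 𝒰 (LO_one 𝒰 hinf) (LO_sum 𝒰 _ _ hSe fun i _ => hbi i)
    obtain ⟨j, hj⟩ := (h1 (1 / 2) (by norm_num)).exists
    have h2 := hS1 j
    linarith
  have hlt : finrank ℚ (QS Λ) < n := by
    rw [← hn]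
    exact Submodule.finrank_lt_finrank_of_lt (lt_of_le_of_ne hW' hne)
  obtain ⟨k', s', m', e', cl', F⟩ := ih _ hlt (QS Λ) rfl
  obtain ⟨c, f, hf1, hf2⟩ := exists_int_ext W (QS Λ) hW' e' F.ind F.spn
  have hsS : ∀ l, LO 𝒰 (s' l) S := F.lim S hinf fun a ha => ((hΛ a).mp (hQ a ha)).2
  obtain ⟨s, hs1, hs2⟩ : ∃ s : Fin (k' + 1 + 1) → J → ℝ, (∀ l, s (Fin.castSucc l) = s' l) ∧
      s (Fin.last _) = S :=
    ⟨Fin.snoc (α := fun _ => J → ℝ) s' S, fun l => Fin.snoc_castSucc (α := fun _ => J → ℝ) _ _ _,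
      Fin.snoc_last (α := fun _ => J → ℝ) _ _⟩
  obtain ⟨cl, hc1, hc2⟩ : ∃ cl : Fin (m' + c) → Fin (k' + 1 + 1),
      (∀ i, cl (Fin.castAdd c i) = (cl' i).castSucc) ∧
      ∀ i, cl (Fin.natAdd m' i) = Fin.last _ :=
    ⟨Fin.append (fun i => (cl' i).castSucc) (fun _ => Fin.last _), fun i => Fin.append_left _ _ _,
      fun i => Fin.append_right _ _ _⟩
  have hfW : ∀ i, cst (f i) ∈ W := fun i => by
    rw [← hf2]
    exact Submodule.subset_span ⟨Fin.natAdd m' i, by simp only [Fin.append_right]⟩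
  refine ⟨k' + 1, s, m' + c, Fin.append e' f, cl, ⟨?_, ?_, ?_, hf1, hf2, ?_, ?_, ?_⟩⟩
  · intro j
    have h1 : (0 : Fin (k' + 1 + 1)) = Fin.castSucc 0 := rfl
    rw [h1, hs1]
    exact F.s0 j
  · intro l j
    refine Fin.lastCases ?_ (fun l => ?_) l
    · rw [hs2]
      exact hS1 j
    · rw [hs1]
      exact F.s1 l j
  · intro l l' hl
    induction l' using Fin.lastCases with
    | last =>
      induction l using Fin.lastCases with
      | last => exact absurd hl (lt_irrefl _)
      | cast l =>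
        rw [hs1, hs2]
        exact hsS l
    | cast l' =>
      induction l using Fin.lastCases with
      | last => exact absurd hl (not_lt.mpr (Fin.castSucc_lt_last l').le)
      | cast l =>
        rw [hs1, hs1]
        exact F.lt l l' hl
  · intro i
    refine Fin.addCases (fun i => ?_) (fun i => ?_) i
    · rw [Fin.append_left, hc1, hs1]
      exact F.up i
    · rw [Fin.append_right, hc2, hs2]
      obtain ⟨C, _, hC⟩ := hup (f i) (hfW i)
      exact ⟨C, Eventually.of_forall hC⟩
  · intro a ha l hl hal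
    have hsum : ∑ i, a i • Fin.append e' f i =
        ∑ i, a (Fin.castAdd c i) • e' i + ∑ i, a (Fin.natAdd m' i) • f i := by
      rw [Fin.sum_univ_add]
      simp only [Fin.append_left, Fin.append_right]
    induction l using Fin.lastCases with
    | last =>
      have ha1 : ∀ i, a (Fin.castAdd c i) = 0 := by
        intro i
        by_contra h1
        have h2 := hal _ h1
        rw [hc1] at h2
        exact (Fin.castSucc_lt_last (cl' i)).ne h2
      have hv : ∑ i, a i • Fin.append e' f i = ∑ i, a (Fin.natAdd m' i) • f i := by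
        rw [hsum]
        simp only [ha1, zero_smul, Finset.sum_const_zero, zero_add]
      have hvW : cst (∑ i, a i • Fin.append e' f i) ∈ W := by
        rw [cst_sum']
        refine Submodule.sum_mem _ fun i _ => ?_
        rw [cst_smul', ← hf2]
        exact Submodule.smul_mem _ _ (Submodule.subset_span ⟨i, rfl⟩)
      have hnot : ¬ LO 𝒰 (h (∑ i, a i • Fin.append e' f i)) S := by
        intro hLO
        have h1 : cst (∑ i, a i • Fin.append e' f i) ∈ QS Λ :=
          cst_mem_QS ((hΛ _).mpr ⟨hvW, hLO⟩)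
        rw [← F.spn] at h1
        obtain ⟨q, hq⟩ := (Submodule.mem_span_range_iff_exists_fun ℚ).mp h1
        have h2 := Fintype.linearIndependent_iff.mp hf1
          (Fin.append (fun i => -q i) (fun i => (a (Fin.natAdd m' i) : ℚ))) (by
            rw [Fin.sum_univ_add]
            simp only [Fin.append_left, Fin.append_right, neg_smul, Finset.sum_neg_distrib]
            rw [hq, hv, cst_sum']
            simp only [cst_smul']
            rw [neg_add_cancel])
        apply ha
        funext i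
        refine Fin.addCases (fun i => ?_) (fun i => ?_) i
        · exact ha1 i
        · have h3 := h2 (Fin.natAdd m' i)
          rw [Fin.append_right] at h3
          exact_mod_cast h3
      unfold LO at hnot
      push Not at hnot
      obtain ⟨ε, hε, h1⟩ := hnot
      refine ⟨ε, hε, ?_⟩
      rw [hs2]
      filter_upwards [h1] with j hj
      exact hj.le
    | cast l =>
      have ha1 : ∀ i, a (Fin.natAdd m' i) = 0 := by
        intro i
        by_contra h1
        have h2 := hal _ h1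
        rw [hc2] at h2
        exact (Fin.castSucc_lt_last l).ne h2.symm
      have hv : ∑ i, a i • Fin.append e' f i = ∑ i, a (Fin.castAdd c i) • e' i := by
        rw [hsum]
        simp only [ha1, zero_smul, Finset.sum_const_zero, add_zero]
      rw [hv, hs1]
      refine F.low (fun i => a (Fin.castAdd c i)) ?_ l ?_ ?_
      · intro h1
        apply ha
        funext i
        refine Fin.addCases (fun i => ?_) (fun i => ?_) i
        · exact congrFun h1 i
        · exact ha1 i
      · rintro rfl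
        exact hl rfl
      · intro i hi
        have h2 := hal _ hi
        rw [hc1] at h2
        exact Fin.castSucc_injective _ h2
  · intro S' h1 h2 l
    have h3 : LO 𝒰 S S' := hlimS S' h1 h2
    induction l using Fin.lastCases with
    | last =>
      rw [hs2]
      exact h3
    | cast l =>
      rw [hs1]
      intro ε hε
      filter_upwards [hsS l 1 one_pos, h3 ε hε] with j hj1 hj2
      linarith

theorem exists_flag (h : (ι → ℤ) → J → ℝ) (h0 : ∀ a j, 0 ≤ h a j)
    (hadd : ∀ a b j, h (a + b) j ≤ h a j + h b j)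
    (hsmul : ∀ (n : ℤ) a j, h (n • a) j = |(n : ℝ)| * h a j) :
    ∃ (k : ℕ) (s : Fin (k + 1) → J → ℝ) (e : ι → ι → ℤ) (cl : ι → Fin (k + 1)),
      (∀ j, s 0 j = 1) ∧ (∀ l j, 1 ≤ s l j) ∧ (∀ l l', l < l' → LO 𝒰 (s l) (s l')) ∧
      LinearIndependent ℤ e ∧ (∀ i, BO 𝒰 (h (e i)) (s (cl i))) ∧
      ∀ a : ι → ℤ, a ≠ 0 → ∀ l, l ≠ 0 → (∀ i, a i ≠ 0 → cl i = l) →
        ∃ c : ℝ, 0 < c ∧ ∀ᶠ j in (𝒰 : Filter J), c * s l j ≤ h (∑ i, a i • e i) j := by
  classical
  obtain ⟨k, s, m, e, cl, F⟩ := exists_flag_sub 𝒰 h h0 hadd hsmul ⊤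
  have hm : Fintype.card ι = m := by
    have h1 := finrank_span_eq_card F.ind
    rw [F.spn, finrank_top, finrank_fintype_fun_eq_card, Fintype.card_fin] at h1
    exact h1
  let σ : ι ≃ Fin m := Fintype.equivFinOfCardEq hm
  refine ⟨k, s, fun i => e (σ i), fun i => cl (σ i), F.s0, F.s1, F.lt, ?_, fun i => F.up (σ i), ?_⟩
  · have h1 : LinearIndependent ℤ (fun i => cst (e i)) :=
      (LinearIndependent.iff_fractionRing ℤ ℚ).mpr F.ind
    let f : (ι → ℤ) →ₗ[ℤ] (ι → ℚ) :=
      { toFun := cst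
        map_add' := cst_add'
        map_smul' := fun c v => by
          rw [cst_smul', RingHom.id_apply]
          funext i
          simp }
    have h2 : LinearIndependent ℤ e := LinearIndependent.of_comp f h1
    exact h2.comp σ σ.injective
  · intro a ha l hl hal
    have h1 := F.low (fun i => a (σ.symm i)) (by
      intro h2
      apply ha
      funext i
      have h3 := congrFun h2 (σ i)
      simpa using h3) l hl (by
      intro i hi
      have h3 := hal _ hi
      simpa using h3)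
    have h4 : ∑ i, a i • e (σ i) = ∑ i, a (σ.symm i) • e i := by
      rw [← Equiv.sum_comp σ]
      simp only [Equiv.symm_apply_apply]
    rw [h4]
    exact h1

end Pool.Agent.Zil
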